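import Pool.Agent.Lib.GJ.Defs

/-!
# GJ.Auto: the finite automaton for legal words (definitions)

A state describes what is known at time `n` (positions up to `n` have been read):
* `W`, `L`: the last `L` bits, bit `i` of `W` is the bit at position `n - i`;
* `B`: if true, a comparison that needs a bit which is not known is forbidden; if false, such a comparison is
  ignored (the digit counts as resolved);
* `P`: the pending digits `(age, need)`, the position is `n - age`, `need` is the side of the next difference;
* `C`: the candidates for a cut (ages).
-/

namespace Pool.Agent.Lib.GJ

/-- states -/
structure St where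
  W : ℕ
  L : ℕ
  B : Bool
  P : List (ℕ × Bool)
  C : List ℕ

/-- one pending digit of age `e` when the bit `b` is read: `none`: the word is not legal (or a forbidden comparison),
`some none`: resolved, `some (some f)`: still pending, with need `f` -/
def stepD (K W L : ℕ) (B b : Bool) (e : ℕ) (f : Bool) : Option (Option Bool) :=
  if e = 0 then (if b then none else some (some f))
  else if e = 1 then
    (if W.testBit 3 then (if b then some none else some (some b))
     else (if b then some (some b) else none))
  else if L ≤ 2 * e + 1 then (if B then none else some none)
  else
    (if W.testBit (2 * e + 1) == b then (if e + 1 = K then some none else some (some (xor f b)))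
     else (if W.testBit (2 * e + 1) == f then some none else none))

/-- all pending digits: the new list of pending digits and the ages of the resolved ones -/
def stepP (K W L : ℕ) (B b : Bool) : List (ℕ × Bool) → Option (List (ℕ × Bool) × List ℕ)
  | [] => some ([], [])
  | (e, f) :: P =>
    match stepD K W L B b e f with
    | none => none
    | some r =>
      match stepP K W L B b P with
      | none => none
      | some (P2, R) =>
        match r with
        | none => some (P2, (e + 1) :: R)
        | some f' => some ((e + 1, f') :: P2, R)

/-- the candidate of age `c` is killed by a digit resolved with radius `e` (new ages) -/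
def kil (R : List ℕ) (c : ℕ) : Bool := R.any (fun e => decide (e + 2 ≤ c) && decide (c + 1 < 2 * e))

/-- the candidate of age `c` can not be killed any more -/
def fin (K : ℕ) (P : List (ℕ × Bool)) (c : ℕ) : Bool :=
  decide (K ≤ c + 2) && P.all (fun p => decide (K ≤ c - p.1 + 1))

/-- the number of bits that have to be kept -/
def needL (K : ℕ) (P : List (ℕ × Bool)) : ℕ := P.foldr (fun p m => max (p.1 + K + 1) m) K

/-- a new candidate (age 3) is created -/
def crea (W L : ℕ) (b : Bool) (P : List (ℕ × Bool)) : Bool :=
  !b && W.testBit 0 && W.testBit 2 && decide (4 ≤ L) && P.all (fun p => decide (p.1 ≤ 1))

/-- one step; the flag says that the only living candidate is the new one -/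
def step (K : ℕ) (st : St) (b : Bool) : Option (St × Bool) :=
  match stepP K st.W st.L st.B b st.P with
  | none => none
  | some (P1, R) =>
    let cre := crea st.W st.L b P1
    let C1 := (st.C.map (· + 1)).filter (fun c => !(kil R c))
    let P2 := if b then (0, false) :: P1 else P1
    let C2 := if cre then 3 :: C1 else C1
    if C2.any (fin K P2) then none
    else
      let need := needL K P2
      let W1 := 2 * st.W + (if b then 1 else 0)
      if need < st.L + 1 then some (⟨W1 % 2 ^ need, need, false, P2, C2⟩, cre && C1.isEmpty)
      else some (⟨W1, st.L + 1, st.B, P2, C2⟩, cre && C1.isEmpty)

/-- the state after reading a word -/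
def run (K : ℕ) : St → List Bool → Option St
  | st, [] => some st
  | st, b :: w =>
    match step K st b with
    | none => none
    | some q => run K q.1 w

/-- the word ends exactly at a cut -/
def closed (K : ℕ) : St → List Bool → Bool
  | _, [] => false
  | st, b :: w =>
    match step K st b with
    | none => false
    | some q => if w.isEmpty then q.2 else closed K q.1 w

/-- the state after a cut -/
def S0 : St := ⟨10, 5, true, [(1, false)], []⟩

/-- the state after the first digit and a zero -/
def SU : St := ⟨2, 2, false, [], []⟩

/-- the blocks of length `n` and the unfinished words of length `n` -/
def Bl (K n : ℕ) : Finset (List Bool) := (aw n).filter (fun u => closed K S0 u = true)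

def Il (K n : ℕ) : Finset (List Bool) := (aw n).filter (fun u => (run K S0 u).isSome = true)

/-! ### Search trees -/

/-- binary trees with keys and values at the leaves -/
inductive Tr where
  | leaf (k v : ℕ) : Tr
  | node (p : ℕ) (l r : Tr) : Tr

end Pool.Agent.Lib.GJ
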