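import Pool.Agent.Lib.GJ.AutoF

/-!
# Module AutoE: the fast automaton is the automaton

PROOF of `stepF_eq`.  Lemmas: `bt W i = W.testBit i` (`Nat.testBit` is `1 &&& (W >>> i) != 0`); `stepPF K W L B b P = stepP K W L B b P` by induction on
`P` (the recursor over the cons cell unfolds by `rfl`; then cases on the recursive result and case distinctions as in `stepD`: `e = 0`, `e = 1`,
`L ≤ 2 * e + 1`, the two bits; note that in `stepP` the result `none` of `stepD` comes first, but both give `none`);
`kilF R (c + 1) = kil R (c + 1)` (`Nat.ble (c + 1 + 2) (2 * e)` against `c + 1 + 1 < 2 * e`), `finF = fin` (`Nat.succ (c - p.1) = c - p.1 + 1`), `needF = needL`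
(`max`), `allF P = P.all (p.1 ≤ 1)`, `killF R C = (C.map (· + 1)).filter (fun c => !(kil R c))`, `anyF K P C = C.any (fin K P)`, `emp C = C.isEmpty`.
In `stepF` the case of a new candidate has `b = false`, so `P2 = P1` and the new last bit is `0`; `Nat.ble (need + 1) (L + 1)` is `need < L + 1`.

PROOF of `eqbF_eq`: `eqPF P Q = true → P = Q` and `eqCF P Q = true → P = Q` by induction; `Nat.beq a b = true` iff `a = b` (`Nat.eq_of_beq_eq_true`).
PROOF of `allT_find`: induction on the tree.
-/

namespace Pool.Agent.Lib.GJ

theorem autoE_beq (a b : ℕ) : Nat.beq a b = decide (a = b) := by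
  by_cases h : a = b
  · subst h; simp
  · rw [decide_eq_false h]
    cases h2 : Nat.beq a b with
    | false => rfl
    | true => exact absurd (Nat.eq_of_beq_eq_true h2) h

theorem autoE_ble (a b : ℕ) : Nat.ble a b = decide (a ≤ b) := by
  by_cases h : a ≤ b
  · rw [decide_eq_true h]; exact Nat.ble_eq_true_of_le h
  · rw [decide_eq_false h]
    cases h2 : Nat.ble a b with
    | false => rfl
    | true => exact absurd (Nat.le_of_ble_eq_true h2) h

theorem autoE_bt (W i : ℕ) : bt W i = W.testBit i := by
  unfold bt
  have h : Nat.land (Nat.shiftRight W i) 1 = W / 2 ^ i % 2 := by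
    change (W >>> i) &&& 1 = _
    rw [Nat.and_one_is_mod, Nat.shiftRight_eq_div_pow]
  rw [Nat.testBit_eq_decide_div_mod_eq, h, autoE_beq]

theorem autoE_cons (K W L : ℕ) (B b : Bool) (e : ℕ) (f : Bool) (P : List (ℕ × Bool)) :
    stepPF K W L B b ((e, f) :: P) =
      (match stepPF K W L B b P with
      | none => none
      | some (P2, R) =>
        bif Nat.beq e 0 then (bif b then none else some ((1, f) :: P2, R))
        else bif Nat.beq e 1 then
          (bif bt W 3 then (bif b then some (P2, 2 :: R) else some ((2, b) :: P2, R))
           else (bif b then some ((2, b) :: P2, R) else none))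
        else bif Nat.ble L (Nat.add (Nat.mul 2 e) 1) then (bif B then none else some (P2, Nat.succ e :: R))
        else
          match bt W (Nat.add (Nat.mul 2 e) 1) with
          | true => match b with
            | true => (bif Nat.beq (Nat.succ e) K then some (P2, Nat.succ e :: R) else some ((Nat.succ e, !f) :: P2, R))
            | false => (bif f then some (P2, Nat.succ e :: R) else none)
          | false => match b with
            | true => (bif f then none else some (P2, Nat.succ e :: R))
            | false => (bif Nat.beq (Nat.succ e) K then some (P2, Nat.succ e :: R) else some ((Nat.succ e, f) :: P2, R))) := rfl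

theorem autoE_stepPF (K W L : ℕ) (B b : Bool) (P : List (ℕ × Bool)) :
    stepPF K W L B b P = stepP K W L B b P := by
  induction P with
  | nil => rfl
  | cons p P ih =>
    obtain ⟨e, f⟩ := p
    rw [autoE_cons, ih]
    have h2 : stepP K W L B b ((e, f) :: P) =
      (match stepD K W L B b e f with
      | none => none
      | some r =>
        match stepP K W L B b P with
        | none => none
        | some (P2, R) =>
          match r with
          | none => some (P2, (e + 1) :: R)
          | some f' => some ((e + 1, f') :: P2, R)) := rfl
    rw [h2]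
    cases h3 : stepP K W L B b P with
    | none => cases stepD K W L B b e f <;> rfl
    | some q =>
      obtain ⟨P2, R⟩ := q
      simp only [autoE_bt, autoE_beq, autoE_ble]
      unfold stepD
      by_cases he0 : e = 0
      · subst he0
        cases b <;> simp
      · by_cases he1 : e = 1
        · subst he1
          cases b <;> cases hW : W.testBit 3 <;> simp
        · simp only [he0, he1, if_false, decide_false, cond_false]
          by_cases hL : L ≤ 2 * e + 1
          · have hL' : L ≤ Nat.add (Nat.mul 2 e) 1 := hL
            simp only [hL, hL', if_true, decide_true, cond_true]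
            cases B <;> simp
          · have hL' : ¬ L ≤ Nat.add (Nat.mul 2 e) 1 := hL
            simp only [hL, hL', if_false, decide_false, cond_false]
            have hW : Nat.add (Nat.mul 2 e) 1 = 2 * e + 1 := rfl
            rw [hW]
            by_cases hK : e + 1 = K
            · have hK' : Nat.succ e = K := hK
              cases hb : W.testBit (2 * e + 1) <;> cases b <;> cases f <;> simp [hK]
            · have hK' : ¬ Nat.succ e = K := hK
              cases hb : W.testBit (2 * e + 1) <;> cases b <;> cases f <;> simp [hK]

theorem autoE_kilF (R : List ℕ) (c : ℕ) : kilF R c = kil R c := by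
  induction R with
  | nil => rfl
  | cons e R ih =>
    have h1 : kilF (e :: R) c =
      ((Nat.ble (Nat.add e 2) c && Nat.ble (Nat.add c 2) (Nat.mul 2 e)) || kilF R c) := rfl
    rw [h1, ih, autoE_ble, autoE_ble]
    unfold kil
    rw [List.any_cons]
    rfl

theorem autoE_finF (K : ℕ) (P : List (ℕ × Bool)) (c : ℕ) : finF K P c = fin K P c := by
  unfold finF fin
  have h : (List.rec (motive := fun _ => Bool) true
      (fun p _ ih => Nat.ble K (Nat.succ (Nat.sub c p.1)) && ih) P : Bool) =
      P.all (fun p => decide (K ≤ c - p.1 + 1)) := by
    induction P with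
    | nil => rfl
    | cons p P ih =>
      rw [List.all_cons, ← ih, ← autoE_ble]
      rfl
  rw [h, autoE_ble]

theorem autoE_needF (K : ℕ) (P : List (ℕ × Bool)) : needF K P = needL K P := by
  induction P with
  | nil => rfl
  | cons p P ih =>
    have h1 : needF K (p :: P) = (match Nat.ble (Nat.succ (Nat.add p.1 K)) (needF K P) with
     | true => needF K P
     | false => Nat.succ (Nat.add p.1 K)) := rfl
    have h2 : needL K (p :: P) = max (p.1 + K + 1) (needL K P) := rfl
    rw [h1, h2, ih, autoE_ble]
    by_cases h : p.1 + K + 1 ≤ needL K P
    · have h' : Nat.succ (Nat.add p.1 K) ≤ needL K P := h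
      rw [decide_eq_true h', max_eq_right h]
    · have h' : ¬ Nat.succ (Nat.add p.1 K) ≤ needL K P := h
      rw [decide_eq_false h', max_eq_left (by omega)]
      rfl

theorem autoE_allF (P : List (ℕ × Bool)) : allF P = P.all (fun p => decide (p.1 ≤ 1)) := by
  induction P with
  | nil => rfl
  | cons p P ih =>
    have h1 : allF (p :: P) = (Nat.ble p.1 1 && allF P) := rfl
    rw [h1, ih, autoE_ble, List.all_cons]

theorem autoE_killF (R C : List ℕ) :
    killF R C = (C.map (· + 1)).filter (fun c => !(kil R c)) := by
  induction C with
  | nil => rfl
  | cons c C ih =>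
    have h1 : killF R (c :: C) =
      bif kilF R (Nat.succ c) then killF R C else Nat.succ c :: killF R C := rfl
    rw [h1, ih, autoE_kilF, List.map_cons]
    cases h : kil R (Nat.succ c) with
    | true =>
      have h' : kil R (c + 1) = true := h
      simp [h']
    | false =>
      have h' : kil R (c + 1) = false := h
      simp [h']

theorem autoE_anyF (K : ℕ) (P : List (ℕ × Bool)) (C : List ℕ) :
    anyF K P C = C.any (fin K P) := by
  induction C with
  | nil => rfl
  | cons c C ih =>
    have h1 : anyF K P (c :: C) = (finF K P c || anyF K P C) := rfl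
    rw [h1, ih, autoE_finF, List.any_cons]

theorem autoE_emp (C : List ℕ) : emp C = C.isEmpty := by
  cases C <;> rfl

theorem stepF_eq (K : ℕ) (st : St) (b : Bool) : stepF K st b = step K st b := by
  obtain ⟨W, L, B, P, C⟩ := st
  unfold stepF step
  simp only [autoE_stepPF]
  cases h1 : stepP K W L B b P with
  | none => rfl
  | some q =>
    obtain ⟨P1, R⟩ := q
    simp only [autoE_killF, autoE_bt, autoE_ble, autoE_allF, autoE_anyF, autoE_needF, autoE_emp]
    unfold crea
    generalize (C.map (· + 1)).filter (fun c => !(kil R c)) = C1
    cases b with
    | true =>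
      simp only [Bool.not_true, Bool.false_and, cond_true, if_true, Bool.false_eq_true, if_false]
      cases h2 : C1.any (fin K ((0, false) :: P1)) with
      | true => rfl
      | false =>
        simp only [Bool.false_eq_true, if_false]
        by_cases h3 : needL K ((0, false) :: P1) < L + 1
        · have h3' : Nat.succ (needL K ((0, false) :: P1)) ≤ Nat.succ L := h3
          rw [decide_eq_true h3', if_pos h3]
          rfl
        · have h3' : ¬ Nat.succ (needL K ((0, false) :: P1)) ≤ Nat.succ L := h3
          rw [decide_eq_false h3', if_neg h3]
          rfl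
    | false =>
      simp only [Bool.not_false, Bool.true_and, cond_false, Bool.false_eq_true, if_false]
      cases h0 : (W.testBit 0 && W.testBit 2 && decide (4 ≤ L) && P1.all (fun p => decide (p.1 ≤ 1))) with
      | true =>
        simp only [if_true, Bool.true_and]
        cases h2 : (3 :: C1).any (fin K P1) with
        | true => rfl
        | false =>
          simp only [Bool.false_eq_true, if_false]
          by_cases h3 : needL K P1 < L + 1
          · have h3' : Nat.succ (needL K P1) ≤ Nat.succ L := h3
            rw [decide_eq_true h3', if_pos h3]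
            rfl
          · have h3' : ¬ Nat.succ (needL K P1) ≤ Nat.succ L := h3
            rw [decide_eq_false h3', if_neg h3]
            rfl
      | false =>
        simp only [Bool.false_eq_true, if_false, Bool.false_and]
        cases h2 : C1.any (fin K P1) with
        | true => rfl
        | false =>
          simp only [Bool.false_eq_true, if_false]
          by_cases h3 : needL K P1 < L + 1
          · have h3' : Nat.succ (needL K P1) ≤ Nat.succ L := h3
            rw [decide_eq_true h3', if_pos h3]
            rfl
          · have h3' : ¬ Nat.succ (needL K P1) ≤ Nat.succ L := h3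
            rw [decide_eq_false h3', if_neg h3]
            rfl

theorem autoE_eqPF (P : List (ℕ × Bool)) : ∀ Q : List (ℕ × Bool), eqPF P Q = true → P = Q := by
  induction P with
  | nil =>
    intro Q h
    cases Q with
    | nil => rfl
    | cons q Q => exact absurd h (by change ¬ (false = true); decide)
  | cons p P ih =>
    intro Q h
    cases Q with
    | nil => exact absurd h (by change ¬ (false = true); decide)
    | cons q Q =>
      have h1 : (Nat.beq p.1 q.1 && ((bif p.2 then q.2 else !q.2) && eqPF P Q)) = true := h
      rw [Bool.and_eq_true, Bool.and_eq_true] at h1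
      obtain ⟨h2, h3, h4⟩ := h1
      have h5 := Nat.eq_of_beq_eq_true h2
      have h6 := ih Q h4
      have h7 : p.2 = q.2 := by
        cases hp : p.2 <;> cases hq : q.2 <;> rw [hp, hq] at h3 <;> first | rfl | exact absurd h3 (by decide)
      rw [h6, Prod.ext h5 h7]

theorem autoE_eqCF (P : List ℕ) : ∀ Q : List ℕ, eqCF P Q = true → P = Q := by
  induction P with
  | nil =>
    intro Q h
    cases Q with
    | nil => rfl
    | cons q Q => exact absurd h (by change ¬ (false = true); decide)
  | cons p P ih =>
    intro Q h
    cases Q with
    | nil => exact absurd h (by change ¬ (false = true); decide)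
    | cons q Q =>
      have h1 : (Nat.beq p q && eqCF P Q) = true := h
      rw [Bool.and_eq_true] at h1
      obtain ⟨h2, h3⟩ := h1
      rw [ih Q h3, Nat.eq_of_beq_eq_true h2]

theorem eqbF_eq {a b : St} (h : eqbF a b = true) : a = b := by
  obtain ⟨W, L, B, P, C⟩ := a
  obtain ⟨W', L', B', P', C'⟩ := b
  have h1 : (Nat.beq W W' && (Nat.beq L L' && ((bif B then B' else !B') &&
        (eqPF P P' && eqCF C C')))) = true := h
  simp only [Bool.and_eq_true] at h1
  obtain ⟨h2, h3, h4, h5, h6⟩ := h1
  have e1 := Nat.eq_of_beq_eq_true h2
  have e2 := Nat.eq_of_beq_eq_true h3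
  have e3 : B = B' := by
    cases B <;> cases B' <;> first | rfl | exact absurd h4 (by decide)
  have e4 := autoE_eqPF P P' h5
  have e5 := autoE_eqCF C C' h6
  subst e1 e2 e3 e4 e5
  rfl

theorem allT_find {f : ℕ → ℕ → Bool} {t : Tr} (h : allT f t = true) {k : ℕ}
    (hk : findF k t ≠ 0) : f k (findF k t) = true := by
  induction t with
  | leaf k' v =>
    unfold findF at hk ⊢
    cases hb : Nat.beq k k' with
    | true =>
      have e := Nat.eq_of_beq_eq_true hb
      subst e
      exact h
    | false => rw [hb] at hk; exact absurd rfl hk
  | node p l r ihl ihr =>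
    have h1 : (allT f l && allT f r) = true := h
    rw [Bool.and_eq_true] at h1
    have h2 : findF k (Tr.node p l r) = bif Nat.ble p k then findF k r else findF k l := rfl
    rw [h2] at hk ⊢
    cases hb : Nat.ble p k with
    | true =>
      rw [hb] at hk
      exact ihr h1.2 hk
    | false =>
      rw [hb] at hk
      exact ihl h1.1 hk

end Pool.Agent.Lib.GJ
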