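import Pool.Agent.Lib.GJ.Auto

/-!
# GJ.AutoF: the same automaton in a form that the kernel evaluates quickly; codes of states, the table test
-/

namespace Pool.Agent.Lib.GJ

/-- the bit `i` of `W` -/
def bt (W i : ℕ) : Bool := Nat.beq (Nat.land (Nat.shiftRight W i) 1) 1

/-- `stepP` -/
def stepPF (K W L : ℕ) (B b : Bool) (P : List (ℕ × Bool)) : Option (List (ℕ × Bool) × List ℕ) :=
  List.rec (motive := fun _ => Option (List (ℕ × Bool) × List ℕ)) (some ([], []))
    (fun p _ ih =>
      match ih with
      | none => none
      | some (P2, R) =>
        match p with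
        | (e, f) =>
        bif Nat.beq e 0 then (bif b then none else some ((1, f) :: P2, R))
        else bif Nat.beq e 1 then
          (bif bt W 3 then (bif b then some (P2, 2 :: R) else some ((2, b) :: P2, R))
           else (bif b then some ((2, b) :: P2, R) else none))
        else bif Nat.ble L (Nat.add (Nat.mul 2 e) 1) then (bif B then none else some (P2, Nat.succ e :: R))
        else
          match bt W (Nat.add (Nat.mul 2 e) 1) with
          | true => match b with
            | true => (bif Nat.beq (Nat.succ e) K then some (P2, Nat.succ e :: R) else some ((Nat.succ e, !f) :: P2, R))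
            | false => (bif f then some (P2, Nat.succ e :: R) else none)
          | false => match b with
            | true => (bif f then none else some (P2, Nat.succ e :: R))
            | false => (bif Nat.beq (Nat.succ e) K then some (P2, Nat.succ e :: R) else some ((Nat.succ e, f) :: P2, R)))
    P

def kilF (R : List ℕ) (c : ℕ) : Bool :=
  List.rec (motive := fun _ => Bool) false (fun e _ ih => (Nat.ble (Nat.add e 2) c && Nat.ble (Nat.add c 2) (Nat.mul 2 e)) || ih) R

def finF (K : ℕ) (P : List (ℕ × Bool)) (c : ℕ) : Bool :=
  Nat.ble K (Nat.add c 2) && List.rec (motive := fun _ => Bool) true (fun p _ ih => Nat.ble K (Nat.succ (Nat.sub c p.1)) && ih) P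

def needF (K : ℕ) (P : List (ℕ × Bool)) : ℕ :=
  List.rec (motive := fun _ => ℕ) K (fun p _ ih => 
     match Nat.ble (Nat.succ (Nat.add p.1 K)) ih with
     | true => ih
     | false => Nat.succ (Nat.add p.1 K)) P

def allF (P : List (ℕ × Bool)) : Bool := List.rec (motive := fun _ => Bool) true (fun p _ ih => Nat.ble p.1 1 && ih) P

def killF (R : List ℕ) (C : List ℕ) : List ℕ :=
  List.rec (motive := fun _ => List ℕ) [] (fun c _ ih => bif kilF R (Nat.succ c) then ih else Nat.succ c :: ih) C

def anyF (K : ℕ) (P : List (ℕ × Bool)) (C : List ℕ) : Bool :=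
  List.rec (motive := fun _ => Bool) false (fun c _ ih => finF K P c || ih) C

def emp (C : List ℕ) : Bool := List.rec (motive := fun _ => Bool) true (fun _ _ _ => false) C

/-- `step` -/
def stepF (K : ℕ) (st : St) (b : Bool) : Option (St × Bool) :=
  match st with
  | ⟨W, L, B, P, C⟩ =>
  match stepPF K W L B b P with
  | none => none
  | some (P1, R) =>
    match killF R C with
    | C1 =>
    match (bif b then false else (bt W 0 && bt W 2 && Nat.ble 4 L && allF P1)) with
    | true =>
      match anyF K P1 (3 :: C1) with
      | true => none
      | false =>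
        match needF K P1 with
        | need => match Nat.ble (Nat.succ need) (Nat.succ L) with
           | true => some (⟨Nat.mod (Nat.mul 2 W) (Nat.pow 2 need), need, false, P1, 3 :: C1⟩, emp C1)
           | false => some (⟨Nat.mul 2 W, Nat.succ L, B, P1, 3 :: C1⟩, emp C1)
    | false =>
      match (bif b then (0, false) :: P1 else P1) with
      | P2 =>
      match anyF K P2 C1 with
      | true => none
      | false =>
        match needF K P2 with
        | need => match Nat.ble (Nat.succ need) (Nat.succ L) with
           | true => some (⟨Nat.mod (bif b then Nat.succ (Nat.mul 2 W) else Nat.mul 2 W) (Nat.pow 2 need), need, false, P2, C1⟩, false)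
           | false => some (⟨(bif b then Nat.succ (Nat.mul 2 W) else Nat.mul 2 W), Nat.succ L, B, P2, C1⟩, false)


/-- codes of states -/
def encPF (P : List (ℕ × Bool)) : ℕ :=
  List.rec (motive := fun _ => ℕ) 0
    (fun p _ ih => Nat.add (Nat.add (Nat.mul 2 p.1) (bif p.2 then 2 else 1)) (Nat.mul 64 ih)) P

def encCF (C : List ℕ) : ℕ :=
  List.rec (motive := fun _ => ℕ) 0 (fun c _ ih => Nat.add c (Nat.mul 64 ih)) C

def encF (st : St) : ℕ :=
  match st with
  | ⟨W, L, B, P, C⟩ =>
    Nat.add W (Nat.mul 2199023255552 (Nat.add L (Nat.mul 64 (Nat.add (bif B then 1 else 0) (Nat.mul 2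
      (Nat.add (encPF P) (Nat.mul 1073741824 (encCF C))))))))

def decPF (i : ℕ) : ℕ → List (ℕ × Bool) :=
  Nat.rec (motive := fun _ => ℕ → List (ℕ × Bool)) (fun _ => [])
    (fun _ ih m => bif Nat.beq m 0 then [] else
      (Nat.div (Nat.pred (Nat.mod m 64)) 2, Nat.beq (Nat.mod m 2) 0) :: ih (Nat.div m 64)) i

def decCF (i : ℕ) : ℕ → List ℕ :=
  Nat.rec (motive := fun _ => ℕ → List ℕ) (fun _ => [])
    (fun _ ih m => bif Nat.beq m 0 then [] else (Nat.mod m 64) :: ih (Nat.div m 64)) i

def decF (k : ℕ) : St :=
  ⟨Nat.mod k 2199023255552, Nat.mod (Nat.div k 2199023255552) 64,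
    Nat.beq (Nat.mod (Nat.div k 140737488355328) 2) 1,
    decPF 5 (Nat.mod (Nat.div k 281474976710656) 1073741824),
    decCF 12 (Nat.div k 302231454903657293676544)⟩

/-- the value at a key, `0` if there is none -/
def findF (k : ℕ) : Tr → ℕ
  | .leaf k' v => bif Nat.beq k k' then v else 0
  | .node p l r => bif Nat.ble p k then findF k r else findF k l

/-- equality tests -/
def eqPF (P : List (ℕ × Bool)) : List (ℕ × Bool) → Bool :=
  List.rec (motive := fun _ => List (ℕ × Bool) → Bool)
    (fun Q => match Q with | [] => true | _ :: _ => false)
    (fun p _ ih Q => match Q with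
      | [] => false
      | q :: Q => Nat.beq p.1 q.1 && ((bif p.2 then q.2 else !q.2) && ih Q)) P

def eqCF (P : List ℕ) : List ℕ → Bool :=
  List.rec (motive := fun _ => List ℕ → Bool)
    (fun Q => match Q with | [] => true | _ :: _ => false)
    (fun p _ ih Q => match Q with
      | [] => false
      | q :: Q => Nat.beq p q && ih Q) P

def eqbF (a b : St) : Bool :=
  match a with
  | ⟨W, L, B, P, C⟩ => match b with
    | ⟨W', L', B', P', C'⟩ => Nat.beq W W' && (Nat.beq L L' && ((bif B then B' else !B') &&
        (eqPF P P' && eqCF C C')))

/-- the potential of the successor, `0` if there is none; `none` if the table has no entry -/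
def valF (root : Tr) (r : Option (St × Bool)) : Option ℕ :=
  match r with
  | none => some 0
  | some (st, cl) =>
    match encF st with
    | k => match findF k root with
      | v => bif Nat.beq v 0 then none else bif eqbF (decF k) st then
          some (bif cl then Nat.add v 1000000000 else v) else none

/-- the test of one entry: both successors are in the table and the potential is large enough -/
def chkF (root : Tr) (k v : ℕ) : Bool :=
  match decF k with
  | st => match valF root (stepF 20 st false) with
    | none => false
    | some a => match valF root (stepF 20 st true) with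
      | none => false
      | some b => Nat.ble (Nat.add (Nat.mul 8 (Nat.add a b)) 1000) (Nat.mul 10 v)

/-- a test for all leaves -/
def allT (f : ℕ → ℕ → Bool) : Tr → Bool
  | .leaf k v => f k v
  | .node _ l r => allT f l && allT f r

end Pool.Agent.Lib.GJ
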