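import Pool.Agent.Lib.GJ.Tab0
import Pool.Agent.Lib.GJ.Tab1
import Pool.Agent.Lib.GJ.Tab2
import Pool.Agent.Lib.GJ.Tab3
import Pool.Agent.Lib.GJ.Tab4
import Pool.Agent.Lib.GJ.Tab5
import Pool.Agent.Lib.GJ.Tab6
import Pool.Agent.Lib.GJ.Tab7

/-!
# GJ.TabR: the whole table
-/

namespace Pool.Agent.Lib.GJ

/-- the table of all states (codes) with their potentials -/
def root : Tr := (.node 10880376296002554199091365 (.node 580196914310455616 (.node 218195883517300776 tab0 tab1) (.node 2530844335380170361364 tab2 tab3)) (.node 1124245401668999266334330410309 (.node 12535049592130079058677769546 tab4 tab5) (.node 102858236410329192693466593055829 tab6 tab7)))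

end Pool.Agent.Lib.GJ
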