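import Pool.Agent.Lib.GJ.AutoF
import Pool.Agent.Lib.GJ.TabR

/-!
# GJ.Chk0: the entries of the table satisfy the inequality of the potential (kernel computation)
-/

set_option maxRecDepth 100000

namespace Pool.Agent.Lib.GJ

theorem chk0_0 : allT (chkF root) tab0_0 = true := by decide +kernel

theorem chk0_1 : allT (chkF root) tab0_1 = true := by decide +kernel

theorem chk0_2 : allT (chkF root) tab0_2 = true := by decide +kernel

theorem chk0_3 : allT (chkF root) tab0_3 = true := by decide +kernel

theorem chk0_4 : allT (chkF root) tab0_4 = true := by decide +kernel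

theorem chk0_5 : allT (chkF root) tab0_5 = true := by decide +kernel

theorem chk0_6 : allT (chkF root) tab0_6 = true := by decide +kernel

theorem chk0_7 : allT (chkF root) tab0_7 = true := by decide +kernel

theorem chk0 : allT (chkF root) tab0 = true := by
  simp only [tab0, allT, chk0_0, chk0_1, chk0_2, chk0_3, chk0_4, chk0_5, chk0_6, chk0_7, Bool.and_self]

end Pool.Agent.Lib.GJ
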