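import Pool.Agent.Lib.GJ.AutoF
import Pool.Agent.Lib.GJ.TabR

/-!
# GJ.Chk1: the entries of the table satisfy the inequality of the potential (kernel computation)
-/

set_option maxRecDepth 100000

namespace Pool.Agent.Lib.GJ

theorem chk1_0 : allT (chkF root) tab1_0 = true := by decide +kernel

theorem chk1_1 : allT (chkF root) tab1_1 = true := by decide +kernel

theorem chk1_2 : allT (chkF root) tab1_2 = true := by decide +kernel

theorem chk1_3 : allT (chkF root) tab1_3 = true := by decide +kernel

theorem chk1_4 : allT (chkF root) tab1_4 = true := by decide +kernel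

theorem chk1_5 : allT (chkF root) tab1_5 = true := by decide +kernel

theorem chk1_6 : allT (chkF root) tab1_6 = true := by decide +kernel

theorem chk1_7 : allT (chkF root) tab1_7 = true := by decide +kernel

theorem chk1 : allT (chkF root) tab1 = true := by
  simp only [tab1, allT, chk1_0, chk1_1, chk1_2, chk1_3, chk1_4, chk1_5, chk1_6, chk1_7, Bool.and_self]

end Pool.Agent.Lib.GJ
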