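import Pool.Agent.Lib.GJ.AutoF
import Pool.Agent.Lib.GJ.TabR

/-!
# GJ.Chk2: the entries of the table satisfy the inequality of the potential (kernel computation)
-/

set_option maxRecDepth 100000

namespace Pool.Agent.Lib.GJ

theorem chk2_0 : allT (chkF root) tab2_0 = true := by decide +kernel

theorem chk2_1 : allT (chkF root) tab2_1 = true := by decide +kernel

theorem chk2_2 : allT (chkF root) tab2_2 = true := by decide +kernel

theorem chk2_3 : allT (chkF root) tab2_3 = true := by decide +kernel

theorem chk2_4 : allT (chkF root) tab2_4 = true := by decide +kernel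

theorem chk2_5 : allT (chkF root) tab2_5 = true := by decide +kernel

theorem chk2_6 : allT (chkF root) tab2_6 = true := by decide +kernel

theorem chk2_7 : allT (chkF root) tab2_7 = true := by decide +kernel

theorem chk2 : allT (chkF root) tab2 = true := by
  simp only [tab2, allT, chk2_0, chk2_1, chk2_2, chk2_3, chk2_4, chk2_5, chk2_6, chk2_7, Bool.and_self]

end Pool.Agent.Lib.GJ
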