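import Pool.Agent.Lib.GJ.AutoF
import Pool.Agent.Lib.GJ.TabR

/-!
# GJ.Chk3: the entries of the table satisfy the inequality of the potential (kernel computation)
-/

set_option maxRecDepth 100000

namespace Pool.Agent.Lib.GJ

theorem chk3_0 : allT (chkF root) tab3_0 = true := by decide +kernel

theorem chk3_1 : allT (chkF root) tab3_1 = true := by decide +kernel

theorem chk3_2 : allT (chkF root) tab3_2 = true := by decide +kernel

theorem chk3_3 : allT (chkF root) tab3_3 = true := by decide +kernel

theorem chk3_4 : allT (chkF root) tab3_4 = true := by decide +kernel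

theorem chk3_5 : allT (chkF root) tab3_5 = true := by decide +kernel

theorem chk3_6 : allT (chkF root) tab3_6 = true := by decide +kernel

theorem chk3_7 : allT (chkF root) tab3_7 = true := by decide +kernel

theorem chk3 : allT (chkF root) tab3 = true := by
  simp only [tab3, allT, chk3_0, chk3_1, chk3_2, chk3_3, chk3_4, chk3_5, chk3_6, chk3_7, Bool.and_self]

end Pool.Agent.Lib.GJ
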