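import Pool.Agent.Lib.GJ.AutoF
import Pool.Agent.Lib.GJ.TabR

/-!
# GJ.Chk4: the entries of the table satisfy the inequality of the potential (kernel computation)
-/

set_option maxRecDepth 100000

namespace Pool.Agent.Lib.GJ

theorem chk4_0 : allT (chkF root) tab4_0 = true := by decide +kernel

theorem chk4_1 : allT (chkF root) tab4_1 = true := by decide +kernel

theorem chk4_2 : allT (chkF root) tab4_2 = true := by decide +kernel

theorem chk4_3 : allT (chkF root) tab4_3 = true := by decide +kernel

theorem chk4_4 : allT (chkF root) tab4_4 = true := by decide +kernel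

theorem chk4_5 : allT (chkF root) tab4_5 = true := by decide +kernel

theorem chk4_6 : allT (chkF root) tab4_6 = true := by decide +kernel

theorem chk4_7 : allT (chkF root) tab4_7 = true := by decide +kernel

theorem chk4 : allT (chkF root) tab4 = true := by
  simp only [tab4, allT, chk4_0, chk4_1, chk4_2, chk4_3, chk4_4, chk4_5, chk4_6, chk4_7, Bool.and_self]

end Pool.Agent.Lib.GJ
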