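import Pool.Agent.Lib.GJ.AutoF
import Pool.Agent.Lib.GJ.TabR

/-!
# GJ.Chk5: the entries of the table satisfy the inequality of the potential (kernel computation)
-/

set_option maxRecDepth 100000

namespace Pool.Agent.Lib.GJ

theorem chk5_0 : allT (chkF root) tab5_0 = true := by decide +kernel

theorem chk5_1 : allT (chkF root) tab5_1 = true := by decide +kernel

theorem chk5_2 : allT (chkF root) tab5_2 = true := by decide +kernel

theorem chk5_3 : allT (chkF root) tab5_3 = true := by decide +kernel

theorem chk5_4 : allT (chkF root) tab5_4 = true := by decide +kernel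

theorem chk5_5 : allT (chkF root) tab5_5 = true := by decide +kernel

theorem chk5_6 : allT (chkF root) tab5_6 = true := by decide +kernel

theorem chk5_7 : allT (chkF root) tab5_7 = true := by decide +kernel

theorem chk5 : allT (chkF root) tab5 = true := by
  simp only [tab5, allT, chk5_0, chk5_1, chk5_2, chk5_3, chk5_4, chk5_5, chk5_6, chk5_7, Bool.and_self]

end Pool.Agent.Lib.GJ
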