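import Pool.Agent.Lib.GJ.AutoF
import Pool.Agent.Lib.GJ.TabR

/-!
# GJ.Chk6: the entries of the table satisfy the inequality of the potential (kernel computation)
-/

set_option maxRecDepth 100000

namespace Pool.Agent.Lib.GJ

theorem chk6_0 : allT (chkF root) tab6_0 = true := by decide +kernel

theorem chk6_1 : allT (chkF root) tab6_1 = true := by decide +kernel

theorem chk6_2 : allT (chkF root) tab6_2 = true := by decide +kernel

theorem chk6_3 : allT (chkF root) tab6_3 = true := by decide +kernel

theorem chk6_4 : allT (chkF root) tab6_4 = true := by decide +kernel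

theorem chk6_5 : allT (chkF root) tab6_5 = true := by decide +kernel

theorem chk6_6 : allT (chkF root) tab6_6 = true := by decide +kernel

theorem chk6_7 : allT (chkF root) tab6_7 = true := by decide +kernel

theorem chk6 : allT (chkF root) tab6 = true := by
  simp only [tab6, allT, chk6_0, chk6_1, chk6_2, chk6_3, chk6_4, chk6_5, chk6_6, chk6_7, Bool.and_self]

end Pool.Agent.Lib.GJ
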