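import Pool.Agent.Lib.GJ.AutoF
import Pool.Agent.Lib.GJ.TabR

/-!
# GJ.Chk7: the entries of the table satisfy the inequality of the potential (kernel computation)
-/

set_option maxRecDepth 100000

namespace Pool.Agent.Lib.GJ

theorem chk7_0 : allT (chkF root) tab7_0 = true := by decide +kernel

theorem chk7_1 : allT (chkF root) tab7_1 = true := by decide +kernel

theorem chk7_2 : allT (chkF root) tab7_2 = true := by decide +kernel

theorem chk7_3 : allT (chkF root) tab7_3 = true := by decide +kernel

theorem chk7_4 : allT (chkF root) tab7_4 = true := by decide +kernel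

theorem chk7_5 : allT (chkF root) tab7_5 = true := by decide +kernel

theorem chk7_6 : allT (chkF root) tab7_6 = true := by decide +kernel

theorem chk7_7 : allT (chkF root) tab7_7 = true := by decide +kernel

theorem chk7 : allT (chkF root) tab7 = true := by
  simp only [tab7, allT, chk7_0, chk7_1, chk7_2, chk7_3, chk7_4, chk7_5, chk7_6, chk7_7, Bool.and_self]

end Pool.Agent.Lib.GJ
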