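import Pool.Agent.Lib.GJ.Res

/-!
# Module Chn: the words between two special places

All lists of bits here describe the positions of one parity class.  `chn n` with `n + 3 = h`: gaps `h, 2, h - 1, 2, ..., 4, 2, 3, 2` after a digit.

PROOF of `chn_ok : AllOK [true] (chn n) [true]` by induction on `n`.  `n = 0`: `decide`-like check of the two digits of `[f, f, t, f, t, f]`: the first has left side `[f, f, t]`, right side `[f, t, f, t]`: `go true [t] [f, t] = (t == t)`; the second has left
side `[f, t, ..]`, right side `[f, t]`: both true.
Step: `chn (n + 1) = 0 ^ (n + 3) 1 0 1 ++ chn n`, `h = n + 4`; `AllOK.append`.  First digit: left side `0 ^ (h - 1) 1`, right side `[0, 1] ++ chn n ++ [true]`, and `chn n` starts with at least `h - 2` zeros (for `n ≥ 1` it is `0 ^ (n + 2)` followed by `1`, `n + 2 = h - 2`; for `n = 0` it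
is `0, 0, 1`, `h - 2 = 2`).  So `res = go true (0 ^ (h - 3) 1) (0 ^ (h - 2) 1 ..) `: equal zeros `h - 3` times, flag unchanged, then left `1`, right `0`: `(true == true)`.
Second digit: left side `[0, 1] ++ 0 ^ (h - 1) ..`, right side `0 ^ (h - 2) 1 ...`: `l = true`, `r = false` (`h - 2 ≥ 2`), `go false (0 ^ (h-1) ..) (0 ^ (h - 4) 1 ..)`: `h - 4` equal zeros, then left `0`, right `1`: `(false == false)`.
The digits of `chn n`: the induction hypothesis has left context `[true]`, and the left context here is `true :: ...` (`AllOK.mono`).
`runw_ok`: `mid = chn n ++ (ten m ++ (u ++ ([t, f] ++ ([f, t] ++ (v.reverse ++ ((chn n).reverse ++ [t, f]))))))`; use `AllOK.append` repeatedly, `AllOK.mono`, `AllOK.reverse`: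
* `chn n`: left context `true :: ..`, right context starts with `true` (all of `ten m`, `u`, `[t, f]` start with `[t, f]` or are empty).
* `ten m` and `u`: concatenations of blocks `b` with `OKB b` (`[t, f]` is one of them: left side `[f, t, f]`, right side `[f] ++ [t, f]`, both digits at distance 2 are true): by induction on the list of blocks
`AllOK [f, t, f] (bs.flatten) [t, f]`, and the reversed left context after every block starts with `[f, t, f]`; `chn n` ends with `0 1 0`.
* `[t, f]` before `[f, t]`: left side `[f, t, f, ..]`, right side `[f, f, t, ..]`: `go false [f ..] [t ..] = (false == false)`.  The digit of `[f, t]` is the mirror image (`res_symm`; its right side starts with the reversed end of a block or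
of a chain: `[f, t, f]`).
* `v.reverse` and `(chn n).reverse`: `AllOK.reverse` of the statements for `v`, `chn n`.
* the last `[t, f]` (the digit `c2`): its left side is `chn n ++ ..` `= 0 ^ (h - 1) 1 ..`, its right side is `[0, 1] ++ 0 ^ h`: `l = false`, `r = true`: by `res_symm` look at `res ([0, 1] ++ 0 ^ h) (0 ^ (h - 1) 1 ..) = go false (0 ^ h) (0 ^ (h - 3) 1 ..) = (false == false)`; here
`h ≥ 3`.
-/

namespace Pool.Agent.Lib.GJ

/-- the chain -/
def chn : ℕ → List Bool
  | 0 => [false, false, true, false, true, false]
  | (n + 1) => List.replicate (n + 3) false ++ ([true, false, true] ++ chn n)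

/-- `m` times `1 0` -/
def ten (m : ℕ) : List Bool := (List.replicate m [true, false]).flatten

/-- a block with decided digits -/
def OKB (b : List Bool) : Prop :=
  AllOK [false, true, false] b [true, false] ∧ (∃ c, b = true :: false :: c) ∧
    ∃ c, b.reverse ++ [false, true, false] = false :: true :: false :: c

/-- concatenations of blocks with decided digits -/
def Cat (u : List Bool) : Prop := ∃ bs : List (List Bool), (∀ b ∈ bs, OKB b) ∧ u = bs.flatten

/-- the right side of a special digit (without the digit) -/
def ysec (n : ℕ) (u : List Bool) : List Bool :=
  [false, true] ++ (chn n ++ (ten ((n + 3) / 2) ++ (u ++ [true, false])))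

/-- the left side of a special digit, nearest bits first (these are the positions of the other class) -/
def zsec (n : ℕ) (v : List Bool) : List Bool :=
  List.replicate (n + 3) false ++ ([true, false, true] ++ (chn n ++ (v ++ [true, false])))

/-- the word from a special digit to the next one -/
def runw (n : ℕ) (u v : List Bool) : List Bool := true :: (ysec n u ++ (zsec n v).reverse)

private theorem ok_false {A m B : List Bool} : AllOK A (false :: m) B ↔ AllOK (false :: A) m B := by
  constructor
  · intro h l1 l2 e
    have := h (false :: l1) l2 (by rw [e]; rfl)
    simpa using this
  · intro h l1 l2 e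
    cases l1 with
    | nil => simp at e
    | cons a l1 =>
      simp only [List.cons_append, List.cons.injEq] at e
      obtain ⟨rfl, e⟩ := e
      have := h l1 l2 e
      simpa using this

private theorem ok_true {A m B : List Bool} :
    AllOK A (true :: m) B ↔ res A (m ++ B) = true ∧ AllOK (true :: A) m B := by
  constructor
  · intro h
    refine ⟨by simpa using h [] m rfl, ?_⟩
    intro l1 l2 e
    have := h (true :: l1) l2 (by rw [e]; rfl)
    simpa using this
  · rintro ⟨h0, h⟩ l1 l2 e
    cases l1 with
    | nil =>
      simp only [List.nil_append, List.cons.injEq, true_and] at e
      subst e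
      simpa using h0
    | cons a l1 =>
      simp only [List.cons_append, List.cons.injEq] at e
      obtain ⟨rfl, e⟩ := e
      have := h l1 l2 e
      simpa using this

private theorem ok_rep {A m B : List Bool} (k : ℕ) (h : AllOK (List.replicate k false ++ A) m B) :
    AllOK A (List.replicate k false ++ m) B := by
  induction k generalizing A with
  | zero => simpa using h
  | succ k ih =>
    rw [List.replicate_succ, List.cons_append, ok_false]
    apply ih
    have e : List.replicate k false ++ false :: A = List.replicate (k + 1) false ++ A := by
      rw [List.replicate_succ']
      simp
    rw [e]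
    exact h

private theorem go_rep (f : Bool) (k : ℕ) (L R : List Bool) :
    go f (List.replicate k false ++ L) (List.replicate k false ++ R) = go f L R := by
  induction k with
  | zero => rfl
  | succ k ih =>
    rw [List.replicate_succ, List.cons_append, List.cons_append]
    simp [go, ih]

private theorem chn_start (n : ℕ) : ∃ c, chn n = List.replicate (n + 2) false ++ (true :: c) := by
  cases n with
  | zero => exact ⟨[false, true, false], rfl⟩
  | succ n => exact ⟨false :: true :: chn n, rfl⟩

private theorem chn_end (n : ℕ) : ∃ c, (chn n).reverse = false :: true :: false :: c := by
  induction n with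
  | zero => exact ⟨[true, false, false], rfl⟩
  | succ n ih =>
    obtain ⟨c, hc⟩ := ih
    simp only [chn, List.reverse_append, hc]
    exact ⟨_, rfl⟩

theorem chn_ok (n : ℕ) : AllOK [true] (chn n) [true] := by
  induction n with
  | zero =>
    simp only [chn, ok_true, ok_false]
    refine ⟨by decide, by decide, AllOK.nil _ _⟩
  | succ n ih =>
    obtain ⟨c, hc⟩ := chn_start n
    unfold chn
    apply ok_rep
    simp only [List.cons_append, List.nil_append, ok_true, ok_false]
    refine ⟨?_, ?_, ?_⟩
    · rw [hc]
      have e : List.replicate (n + 3) false ++ [true] =
          false :: false :: (List.replicate (n + 1) false ++ [true]) := rfl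
      have e2 : List.replicate (n + 2) false ++ true :: c ++ [true] =
          List.replicate (n + 1) false ++ (false :: (true :: c ++ [true])) := by
        rw [List.replicate_succ']
        simp
      rw [e, e2]
      show (if (false && true) = true then true else if (false || true) = true then
        go true (List.replicate (n + 1) false ++ [true])
          (List.replicate (n + 1) false ++ (false :: (true :: c ++ [true]))) else false) = true
      rw [go_rep]
      simp [go]
    · rw [hc]
      have e : List.replicate (n + 2) false ++ true :: c ++ [true] =
          false :: false :: (List.replicate n false ++ (true :: (c ++ [true]))) := by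
        rw [List.replicate_succ, List.replicate_succ]
        simp
      have e2 : List.replicate (n + 3) false ++ [true] =
          List.replicate n false ++ (false :: (false :: false :: [true])) := by
        rw [List.replicate_add]
        simp [List.replicate_succ]
      rw [e, e2]
      show (if (true && false) = true then true else if (true || false) = true then
        go false (List.replicate n false ++ (false :: (false :: false :: [true])))
          (List.replicate n false ++ (true :: (c ++ [true]))) else false) = true
      rw [go_rep]
      simp [go]
    · have := ih.mono (A' := false :: true :: (List.replicate (n + 3) false ++ [true])) (B' := [])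
      simpa using this

theorem Cat.ok {u : List Bool} (h : Cat u) :
    AllOK [false, true, false] u [true, false] ∧ (u = [] ∨ ∃ c, u = true :: false :: c) ∧
      ∃ c, u.reverse ++ [false, true, false] = false :: true :: false :: c := by
  obtain ⟨bs, hb, rfl⟩ := h
  induction bs with
  | nil => exact ⟨AllOK.nil _ _, Or.inl rfl, ⟨[], rfl⟩⟩
  | cons b bs ih =>
    obtain ⟨h1, h2, h3⟩ := ih (fun x hx => hb x (List.mem_cons_of_mem _ hx))
    obtain ⟨k1, ⟨c, k2⟩, ⟨d, k3⟩⟩ := hb b List.mem_cons_self
    rw [List.flatten_cons]
    refine ⟨?_, Or.inr ⟨c ++ bs.flatten, by rw [k2]; rfl⟩, ?_⟩
    · rw [AllOK.append]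
      constructor
      · rcases h2 with h2 | ⟨e, h2⟩
        · rw [h2]
          simpa using k1
        · rw [h2]
          have := k1.mono (A' := []) (B' := e ++ [true, false])
          simpa using this
      · rw [k3]
        have := h1.mono (A' := d) (B' := [])
        simpa using this
    · obtain ⟨e, h3⟩ := h3
      rw [List.reverse_append, List.append_assoc, k3]
      refine ⟨e ++ d, ?_⟩
      have : bs.flatten.reverse ++ false :: true :: false :: d =
          (bs.flatten.reverse ++ [false, true, false]) ++ d := by simp
      rw [this, h3]
      rfl

theorem Cat.append {u v : List Bool} (hu : Cat u) (hv : Cat v) : Cat (u ++ v) := by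
  obtain ⟨bs, hb, rfl⟩ := hu
  obtain ⟨cs, hc, rfl⟩ := hv
  refine ⟨bs ++ cs, ?_, by rw [List.flatten_append]⟩
  intro b h
  rcases List.mem_append.1 h with h | h
  · exact hb b h
  · exact hc b h

private theorem cat_ten (m : ℕ) : Cat (ten m) := by
  refine ⟨List.replicate m [true, false], ?_, rfl⟩
  intro b hb
  rw [List.eq_of_mem_replicate hb]
  refine ⟨?_, ⟨[], rfl⟩, ⟨[true, false], rfl⟩⟩
  simp only [ok_true, ok_false]
  exact ⟨by decide, AllOK.nil _ _⟩

private theorem ten_start {m : ℕ} (hm : 1 ≤ m) : ∃ c, ten m = true :: c := by
  obtain ⟨k, rfl⟩ := Nat.exists_eq_add_of_le hm
  refine ⟨false :: ten k, ?_⟩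
  unfold ten
  rw [Nat.add_comm, List.replicate_succ, List.flatten_cons]
  rfl

private theorem cat_ctx {u : List Bool} (h : Cat u) (d : List Bool) :
    ∃ c, u.reverse ++ (false :: true :: false :: d) = false :: true :: false :: c := by
  obtain ⟨c, hc⟩ := h.ok.2.2
  refine ⟨c ++ d, ?_⟩
  have : u.reverse ++ (false :: true :: false :: d) = (u.reverse ++ [false, true, false]) ++ d := by
    simp
  rw [this, hc]
  rfl

/-- all digits of a run are decided except the first, the second and the last one -/
theorem runw_ok (n : ℕ) {u v : List Bool} (hu : Cat u) (hv : Cat v) :
    ∃ mid, runw n u v = [true, false, true] ++ (mid ++ (true :: List.replicate (n + 3) false)) ∧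
      AllOK [true, false, true] mid (true :: List.replicate (n + 3) false) ∧
      (∃ c, mid = List.replicate (n + 2) false ++ c) ∧ (∃ c, mid = c ++ (List.replicate (n + 2) false ++ [true, false])) := by
  obtain ⟨cs, hcs⟩ := chn_start n
  obtain ⟨ce, hce⟩ := chn_end n
  have hw : Cat (ten ((n + 3) / 2) ++ u) := (cat_ten _).append hu
  obtain ⟨wt, hwt⟩ : ∃ c, ten ((n + 3) / 2) ++ u = true :: c := by
    obtain ⟨c, hc⟩ := ten_start (m := (n + 3) / 2) (by omega)
    exact ⟨c ++ u, by rw [hc]; rfl⟩
  refine ⟨chn n ++ ((ten ((n + 3) / 2) ++ u) ++ (true :: false :: false :: true ::
    (v.reverse ++ ((chn n).reverse ++ [true, false])))), ?_, ?_, ?_, ?_⟩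
  · unfold runw ysec zsec
    simp [List.reverse_append, List.append_assoc]
  · rw [AllOK.append]
    constructor
    · -- the chain
      rw [hwt]
      have := (chn_ok n).mono (A' := [false, true]) (B' := wt ++ (true :: false :: false :: true ::
        (v.reverse ++ ((chn n).reverse ++ [true, false]))) ++ (true :: List.replicate (n + 3) false))
      simpa [List.append_assoc] using this
    · rw [AllOK.append]
      have hctx : (chn n).reverse ++ [true, false, true] =
          false :: true :: false :: (ce ++ [true, false, true]) := by rw [hce]; rfl
      rw [hctx]
      constructor
      · have := hw.ok.1.mono (A' := ce ++ [true, false, true]) (B' := (false :: true ::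
          (v.reverse ++ ((chn n).reverse ++ [true, false]))) ++ (true :: List.replicate (n + 3) false))
        simpa [List.append_assoc] using this
      · obtain ⟨c1, hc1⟩ := cat_ctx hw (ce ++ [true, false, true])
        rw [hc1]
        simp only [ok_true, ok_false]
        obtain ⟨c2, hc2⟩ := cat_ctx hv (ce ++ [true, false] ++ true :: List.replicate (n + 3) false)
        have hr : (v.reverse ++ ((chn n).reverse ++ [true, false])) ++
            true :: List.replicate (n + 3) false = false :: true :: false :: c2 := by
          rw [← hc2, hce]
          simp [List.append_assoc]
        refine ⟨?_, ?_, ?_⟩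
        · simp only [List.cons_append]
          simp [res, go]
        · rw [hr]
          simp [res, go]
        · rw [AllOK.append]
          constructor
          · have := hv.ok.1.reverse.mono (A' := (false :: true :: false :: true :: false :: c1))
              (B' := ce ++ [true, false] ++ true :: List.replicate (n + 3) false)
            rw [hce]
            simpa [List.append_assoc] using this
          · rw [AllOK.append]
            constructor
            · have hl : ∃ c3, v.reverse.reverse ++ (true :: false :: false :: true :: false :: true ::
                  false :: c1) = true :: c3 := by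
                rw [List.reverse_reverse]
                rcases hv.ok.2.1 with h | ⟨c, h⟩
                · exact ⟨_, by rw [h]; rfl⟩
                · exact ⟨_, by rw [h]; rfl⟩
              obtain ⟨c3, hc3⟩ := hl
              have := (chn_ok n).reverse.mono (A' := c3)
                (B' := false :: true :: List.replicate (n + 3) false)
              have e : (true :: false :: false :: true :: false :: true :: false :: c1 : List Bool) =
                true :: false :: false :: true :: false :: true :: false :: c1 := rfl
              rw [hc3]
              simpa using this
            · simp only [ok_true, ok_false]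
              refine ⟨?_, AllOK.nil _ _⟩
              rw [List.reverse_reverse, hcs]
              have e1 : ∀ X : List Bool, (List.replicate (n + 2) false ++ true :: cs) ++ X =
                  false :: false :: (List.replicate n false ++ (true :: (cs ++ X))) := by
                intro X
                rw [List.replicate_succ, List.replicate_succ]
                simp
              have e2 : List.replicate (n + 3) false =
                  List.replicate n false ++ (false :: [false, false]) := by
                rw [List.replicate_add]
                rfl
              rw [e1]
              simp only [List.cons_append, List.nil_append]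
              rw [e2]
              show (if (false && true) = true then true else if (false || true) = true then
                go true (List.replicate n false ++ (true :: (cs ++ _)))
                  (List.replicate n false ++ (false :: [false, false])) else false) = true
              rw [go_rep]
              simp [go]
  · exact ⟨_, by rw [hcs]; exact List.append_assoc _ _ _⟩
  · refine ⟨chn n ++ ((ten ((n + 3) / 2) ++ u) ++ (true :: false :: false :: true ::
      (v.reverse ++ (cs.reverse ++ [true])))), ?_⟩
    rw [hcs]
    simp [List.reverse_append, List.append_assoc]

/-- no two adjacent digits -/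
theorem runw_nadj (n : ℕ) {u v : List Bool} (hu : Cat u) (hv : Cat v) (l1 l2 : List Bool) :
    runw n u v ≠ l1 ++ (true :: true :: l2) := by
  intro h
  obtain ⟨mid, h1, h2, ⟨c, h3⟩, -⟩ := runw_ok n hu hv
  rw [h1] at h
  have hno : ∀ a b : List Bool, List.replicate (n + 3) false ≠ a ++ true :: b := by
    intro a b e
    have : true ∈ List.replicate (n + 3) false := by rw [e]; simp
    have := List.eq_of_mem_replicate this
    exact absurd this (by decide)
  have hres : ∀ L R : List Bool, res L (true :: R) ≠ true := by
    intro L R
    cases L with
    | nil => simp [res]
    | cons a L => cases a <;> cases L <;> simp [res]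
  cases l1 with
  | nil => simp at h
  | cons a l1 =>
    cases l1 with
    | nil => simp at h
    | cons b l1 =>
      cases l1 with
      | nil =>
        rw [h3, List.replicate_succ] at h
        simp at h
      | cons d l1 =>
        simp only [List.cons_append, List.nil_append, List.cons.injEq] at h
        obtain ⟨-, -, -, h⟩ := h
        rcases List.append_eq_append_iff.1 h with ⟨a', e1, e2⟩ | ⟨c', e1, e2⟩
        · cases a' with
          | nil =>
            simp only [List.nil_append, List.cons.injEq, true_and] at e2
            exact hno [] l2 e2
          | cons x a' =>
            simp only [List.cons_append, List.cons.injEq] at e2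
            exact hno a' (true :: l2) e2.2
        · cases c' with
          | nil =>
            simp only [List.nil_append, List.cons.injEq, true_and] at e2
            exact hno [] l2 e2.symm
          | cons x c' =>
            simp only [List.cons_append, List.cons.injEq] at e2
            obtain ⟨rfl, e2⟩ := e2
            have h4 := h2 l1 c' e1
            cases c' with
            | nil => exact hres _ _ h4
            | cons y c'' =>
              simp only [List.cons_append, List.cons.injEq] at e2
              obtain ⟨rfl, e2⟩ := e2
              exact hres _ _ h4

end Pool.Agent.Lib.GJ
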