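import Pool.Agent.Lib.GJ.Defs

/-!
# Module Cmp: comparison of the two sides of a digit

`hR j`, `hL j` are the values of the right and left side of a digit beyond distance `j`, `bR`, `bL` the bits at distance `j`.

PROOF.  From the recursions and `bR 1 = bL 1 = false`: `hR 0 = be⁻¹ ^ 2 * (if bR 2 then 1 - hR 2 else hR 2)`, the same for `L`.
`cmp_none`: both are `be⁻¹ ^ 2 * h 2`; `cmp_both`: both are `be⁻¹ ^ 2 (1 - h 2)`.
`cmp`: let `bR 2 = true`, `bL 2 = false` (the other case is symmetric).  `hR 0 + hL 0 - be⁻¹ ^ 2 = be⁻¹ ^ 2 (hL 2 - hR 2)`.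
Induction on `j` from `2` to `k - 1`: `hL 2 - hR 2 = be⁻¹ ^ (j - 2) * e j * (hL j - hR j)` with `e j = 1` or `-1`, `e j = 1` iff
`fl bR j = true` (for `bL 2 = true`, `bR 2 = false` the sign is that of `hR 2 - hL 2` and again ... see the next line).
At the end `hL (k-1) - hR (k-1) = be⁻¹ (1 - hL k - hR k) > 0` if `bL k = true` (then `bR k = false`), and
`= be⁻¹ (hL k + hR k - 1) < 0` if `bR k = true`.  So (case `bR 2 = true`) `be⁻¹ ^ 2 < hR 0 + hL 0` iff
(number `m` of true `bR i`, `3 ≤ i < k`, is even and `bL k = true`) or (`m` odd and `bL k = false`), and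
`fl bR (k-1) = xor true (m odd)`; in the case `bR 2 = false`, `bL 2 = true` the difference is `be⁻¹ ^ 2 (hR 2 - hL 2)`, so the condition is
(`m` even and `bL k = false`) or (`m` odd and `bL k = true`), and `fl bR (k-1) = xor false (m odd)`.
A convenient invariant: for `2 ≤ j < k` the statement
`be⁻¹ ^ 2 < hR 0 + hL 0 ↔ (if fl bR j then hR j < hL j else hL j < hR j)`.
-/

namespace Pool.Agent.Lib.GJ

/-- the flag of a one-sided sequence of bits -/
def fl (b : ℕ → Bool) : ℕ → Bool
  | 0 => b 2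
  | 1 => b 2
  | 2 => b 2
  | (k + 3) => xor (fl b (k + 2)) (b (k + 3))

namespace CmpAux

theorem fl_succ (b : ℕ → Bool) {j : ℕ} (hj : 2 ≤ j) :
    fl b (j + 1) = xor (fl b j) (b (j + 1)) := by
  obtain ⟨i, rfl⟩ := Nat.exists_eq_add_of_le hj
  rw [show 2 + i + 1 = i + 3 by ring, show 2 + i = i + 2 by ring]
  rfl

theorem t_pos : 0 < be⁻¹ := inv_pos.2 be_pos

theorem zero_eq {h : ℕ → ℝ} {b : ℕ → Bool}
    (r : ∀ j < 2, h j = be⁻¹ * (if b (j + 1) then 1 - h (j + 1) else h (j + 1)))
    (h1 : b 1 = false) : h 0 = be⁻¹ ^ 2 * (if b 2 then 1 - h 2 else h 2) := by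
  have e0 := r 0 (by norm_num)
  have e1 := r 1 (by norm_num)
  rw [zero_add, h1] at e0
  simp only [Bool.false_eq_true, if_false] at e0
  rw [show (1 : ℕ) + 1 = 2 from rfl] at e1
  rw [e0, e1]
  ring

/-- the invariant -/
theorem inv {hR hL : ℕ → ℝ} {bR bL : ℕ → Bool} {k : ℕ} (hk : 3 ≤ k)
    (rR : ∀ j < k, hR j = be⁻¹ * (if bR (j + 1) then 1 - hR (j + 1) else hR (j + 1)))
    (rL : ∀ j < k, hL j = be⁻¹ * (if bL (j + 1) then 1 - hL (j + 1) else hL (j + 1)))
    (h1R : bR 1 = false) (h1L : bL 1 = false) (h2 : bR 2 ≠ bL 2)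
    (heq : ∀ i, 3 ≤ i → i < k → bR i = bL i) (m : ℕ) (hm : m + 2 < k) :
    be⁻¹ ^ 2 < hR 0 + hL 0 ↔
      (if fl bR (m + 2) then hR (m + 2) < hL (m + 2) else hL (m + 2) < hR (m + 2)) := by
  have ht := t_pos
  have ht2 : 0 < be⁻¹ ^ 2 := pow_pos ht 2
  revert hm
  induction m with
  | zero =>
      intro _
      have e0R := zero_eq (fun j hj => rR j (by omega)) h1R
      have e0L := zero_eq (fun j hj => rL j (by omega)) h1L
      rw [e0R, e0L]
      rw [zero_add]
      show _ ↔ (if bR 2 then hR 2 < hL 2 else hL 2 < hR 2)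
      rcases hb : bR 2 with _ | _
      · have hb' : bL 2 = true := by
          rcases hc : bL 2 with _ | _
          · exact absurd (hb.trans hc.symm) h2
          · rfl
        simp only [hb', if_true, Bool.false_eq_true, if_false]
        constructor
        · intro h
          by_contra hc
          have : be⁻¹ ^ 2 * (hR 2 - hL 2) ≤ 0 :=
            mul_nonpos_of_nonneg_of_nonpos ht2.le (by linarith [not_lt.1 hc])
          nlinarith
        · intro h
          have : 0 < be⁻¹ ^ 2 * (hR 2 - hL 2) := mul_pos ht2 (by linarith)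
          nlinarith
      · have hb' : bL 2 = false := by
          rcases hc : bL 2 with _ | _
          · rfl
          · exact absurd (hb.trans hc.symm) h2
        simp only [hb', if_true, Bool.false_eq_true, if_false]
        constructor
        · intro h
          by_contra hc
          have : be⁻¹ ^ 2 * (hL 2 - hR 2) ≤ 0 :=
            mul_nonpos_of_nonneg_of_nonpos ht2.le (by linarith [not_lt.1 hc])
          nlinarith
        · intro h
          have : 0 < be⁻¹ ^ 2 * (hL 2 - hR 2) := mul_pos ht2 (by linarith)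
          nlinarith
  | succ m ih =>
      intro hm
      have e4' : m + 2 + 1 = m + 1 + 2 := by ring
      refine (ih (by omega)).trans ?_
      rw [← e4', fl_succ bR (show 2 ≤ m + 2 by omega), e4']
      have eR := rR (m + 2) (by omega)
      have eL := rL (m + 2) (by omega)
      have e3 := heq (m + 3) (by omega) (by omega)
      have e4 : m + 2 + 1 = m + 1 + 2 := by ring
      rw [e4] at eR eL
      have e5 : m + 3 = m + 1 + 2 := by ring
      rw [e5] at e3
      rw [eR, eL, ← e3]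
      have key : ∀ a c : ℝ, be⁻¹ * a < be⁻¹ * c ↔ a < c := fun a c =>
        mul_lt_mul_iff_right₀ ht
      rcases hb : bR (m + 1 + 2) with _ | _
      · simp only [Bool.false_eq_true, if_false, Bool.xor_false, key]
      · simp only [if_true, Bool.xor_true, key, sub_lt_sub_iff_left]
        rcases fl bR (m + 2) with _ | _
        · simp
        · simp

end CmpAux

theorem cmp {hR hL : ℕ → ℝ} {bR bL : ℕ → Bool} {k : ℕ} (hk : 3 ≤ k)
    (rR : ∀ j < k, hR j = be⁻¹ * (if bR (j + 1) then 1 - hR (j + 1) else hR (j + 1)))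
    (rL : ∀ j < k, hL j = be⁻¹ * (if bL (j + 1) then 1 - hL (j + 1) else hL (j + 1)))
    (h1R : bR 1 = false) (h1L : bL 1 = false) (h2 : bR 2 ≠ bL 2)
    (heq : ∀ i, 3 ≤ i → i < k → bR i = bL i) (hne : bR k ≠ bL k) (hsum : hR k + hL k < 1) :
    be⁻¹ ^ 2 < hR 0 + hL 0 ↔ bL k = fl bR (k - 1) := by
  obtain ⟨m, rfl⟩ := Nat.exists_eq_add_of_le hk
  have h3 := CmpAux.inv hk rR rL h1R h1L h2 heq m (by omega)
  have e1 : 3 + m - 1 = m + 2 := by omega
  rw [h3, e1]
  have eR := rR (m + 2) (by omega)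
  have eL := rL (m + 2) (by omega)
  have e4 : m + 2 + 1 = 3 + m := by ring
  rw [e4] at eR eL
  have ht := CmpAux.t_pos
  rcases hb : bR (3 + m) with _ | _
  · have hb' : bL (3 + m) = true := by
      rcases hc : bL (3 + m) with _ | _
      · exact absurd (hb.trans hc.symm) hne
      · rfl
    rw [hb] at eR
    rw [hb'] at eL
    simp only [if_true, Bool.false_eq_true, if_false] at eR eL
    have h4 : hR (m + 2) < hL (m + 2) := by
      rw [eR, eL]
      exact mul_lt_mul_of_pos_left (by linarith) ht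
    have h5 : ¬ hL (m + 2) < hR (m + 2) := not_lt.2 h4.le
    rw [hb']
    rcases fl bR (m + 2) with _ | _
    · simp [h5]
    · simp [h4]
  · have hb' : bL (3 + m) = false := by
      rcases hc : bL (3 + m) with _ | _
      · rfl
      · exact absurd (hb.trans hc.symm) hne
    rw [hb] at eR
    rw [hb'] at eL
    simp only [if_true, Bool.false_eq_true, if_false] at eR eL
    have h4 : hL (m + 2) < hR (m + 2) := by
      rw [eR, eL]
      exact mul_lt_mul_of_pos_left (by linarith) ht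
    have h5 : ¬ hR (m + 2) < hL (m + 2) := not_lt.2 h4.le
    rw [hb']
    rcases fl bR (m + 2) with _ | _
    · simp [h4]
    · simp [h5]

theorem cmp_both {hR hL : ℕ → ℝ} {bR bL : ℕ → Bool}
    (rR : ∀ j < 2, hR j = be⁻¹ * (if bR (j + 1) then 1 - hR (j + 1) else hR (j + 1)))
    (rL : ∀ j < 2, hL j = be⁻¹ * (if bL (j + 1) then 1 - hL (j + 1) else hL (j + 1)))
    (h1R : bR 1 = false) (h1L : bL 1 = false) (h2R : bR 2 = true) (h2L : bL 2 = true)
    (hsum : hR 2 + hL 2 < 1) : be⁻¹ ^ 2 < hR 0 + hL 0 := by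
  rw [CmpAux.zero_eq rR h1R, CmpAux.zero_eq rL h1L, h2R, h2L]
  simp only [if_true]
  have ht2 : 0 < be⁻¹ ^ 2 := pow_pos CmpAux.t_pos 2
  have : 0 < be⁻¹ ^ 2 * (1 - (hR 2 + hL 2)) := mul_pos ht2 (by linarith)
  nlinarith

theorem cmp_none {hR hL : ℕ → ℝ} {bR bL : ℕ → Bool}
    (rR : ∀ j < 2, hR j = be⁻¹ * (if bR (j + 1) then 1 - hR (j + 1) else hR (j + 1)))
    (rL : ∀ j < 2, hL j = be⁻¹ * (if bL (j + 1) then 1 - hL (j + 1) else hL (j + 1)))
    (h1R : bR 1 = false) (h1L : bL 1 = false) (h2R : bR 2 = false) (h2L : bL 2 = false)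
    (hsum : hR 2 + hL 2 < 1) : hR 0 + hL 0 < be⁻¹ ^ 2 := by
  rw [CmpAux.zero_eq rR h1R, CmpAux.zero_eq rL h1L, h2R, h2L]
  simp only [Bool.false_eq_true, if_false]
  have ht2 : 0 < be⁻¹ ^ 2 := pow_pos CmpAux.t_pos 2
  have : 0 < be⁻¹ ^ 2 * (1 - (hR 2 + hL 2)) := mul_pos ht2 (by linarith)
  nlinarith

end Pool.Agent.Lib.GJ
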