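import Pool.Agent.Lib.GJ.Auto

/-!
# Module Cnt: counting words of the automaton by the first letter

PROOFS: the words of length `n + 1` are `b :: u` with `u ∈ aw n` (`mem_aw`), `b` one of the two booleans; `par (b :: u) = xor b (par u)`.
For `closed`: `closed K st (b :: u)` is `false` if the step is `none`; if `u = []` it is the flag; otherwise `closed K q.1 u`.
-/

namespace Pool.Agent.Lib.GJ

namespace CntAux

theorem aw_succ (n : ℕ) :
    aw (n + 1) = ((Finset.univ : Finset Bool) ×ˢ aw n).image (fun x => x.1 :: x.2) := by
  ext l
  rw [mem_aw, Finset.mem_image]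
  constructor
  · intro h
    match l, h with
    | b :: t, h =>
      refine ⟨(b, t), ?_, rfl⟩
      rw [Finset.mem_product]
      exact ⟨Finset.mem_univ _, mem_aw.2 (by simpa using h)⟩
  · rintro ⟨⟨b, t⟩, h, rfl⟩
    rw [Finset.mem_product] at h
    have h2 := mem_aw.1 h.2
    simp only [] at h2
    simp [h2]

theorem split (n : ℕ) (p : List Bool → Prop) [DecidablePred p] :
    ((aw (n + 1)).filter p).card = ∑ b : Bool, ((aw n).filter (fun u => p (b :: u))).card := by
  rw [Finset.card_filter, aw_succ, Finset.sum_image, Finset.sum_product]
  · refine Finset.sum_congr rfl fun b _ => ?_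
    rw [Finset.card_filter]
  · rintro ⟨b, t⟩ _ ⟨c, u⟩ _ h
    simp only [List.cons.injEq] at h
    rw [h.1, h.2]

theorem aw_zero : aw 0 = {[]} := by
  ext l
  rw [mem_aw, Finset.mem_singleton, List.length_eq_zero_iff]

theorem xor_iff (b x e : Bool) : (xor b x = e) ↔ (x = xor b e) := by
  cases b <;> cases x <;> cases e <;> decide

end CntAux

/-- the number of closed words of length `n` and parity `e` from a state -/
def nC (K n : ℕ) (st : St) (e : Bool) : ℕ :=
  ((aw n).filter (fun u => closed K st u = true ∧ par u = e)).card

/-- the number of words of length `n` that can be read -/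
def nR (K n : ℕ) (st : St) : ℕ := ((aw n).filter (fun u => (run K st u).isSome = true)).card

theorem nC_zero (K : ℕ) (st : St) (e : Bool) : nC K 0 st e = 0 := by
  unfold nC
  rw [CntAux.aw_zero, Finset.card_eq_zero, Finset.filter_eq_empty_iff]
  intro u hu h
  rw [Finset.mem_singleton] at hu
  subst hu
  simp [closed] at h

theorem nC_one (K : ℕ) (st : St) (e : Bool) : nC K 1 st e =
    match step K st e with
    | none => 0
    | some q => if q.2 then 1 else 0 := by
  unfold nC
  rw [CntAux.split, CntAux.aw_zero]
  have h : ∀ b : Bool, (({[]} : Finset (List Bool)).filter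
      (fun u => closed K st (b :: u) = true ∧ par (b :: u) = e)).card =
      if b = e then (match step K st e with
        | none => 0
        | some q => if q.2 then 1 else 0) else 0 := by
    intro b
    rw [Finset.filter_singleton]
    have hp : par [b] = b := by simp [par]
    rw [hp]
    by_cases hb : b = e
    · subst hb
      rw [if_pos rfl]
      simp only [closed, and_true]
      cases hs : step K st b with
      | none => simp
      | some q => cases hq : q.2 <;> simp [hq]
    · rw [if_neg hb, if_neg (fun h => hb h.2), Finset.card_empty]
  rw [Finset.sum_congr rfl (fun b _ => h b), Finset.sum_ite_eq', if_pos (Finset.mem_univ _)]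

theorem nC_succ (K n : ℕ) (hn : 1 ≤ n) (st : St) (e : Bool) : nC K (n + 1) st e =
    ∑ b : Bool, match step K st b with
      | none => 0
      | some q => nC K n q.1 (xor b e) := by
  unfold nC
  rw [CntAux.split]
  refine Finset.sum_congr rfl fun b _ => ?_
  cases hs : step K st b with
  | none =>
    simp only
    rw [Finset.card_eq_zero, Finset.filter_eq_empty_iff]
    rintro u - ⟨h, -⟩
    simp [closed, hs] at h
  | some q =>
    simp only
    congr 1
    refine Finset.filter_congr fun u hu => ?_
    have hl := mem_aw.1 hu
    have hne : u.isEmpty = false := by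
      cases u with
      | nil => simp at hl; omega
      | cons a t => rfl
    have h1 : closed K st (b :: u) = closed K q.1 u := by
      simp [closed, hs, hne]
    have h2 : par (b :: u) = xor b (par u) := rfl
    rw [h1, h2, CntAux.xor_iff]

theorem nR_zero (K : ℕ) (st : St) : nR K 0 st = 1 := by
  unfold nR
  rw [CntAux.aw_zero, Finset.filter_singleton, if_pos (by simp [run]), Finset.card_singleton]

theorem nR_succ (K n : ℕ) (st : St) : nR K (n + 1) st =
    ∑ b : Bool, match step K st b with
      | none => 0
      | some q => nR K n q.1 := by
  unfold nR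
  rw [CntAux.split]
  refine Finset.sum_congr rfl fun b _ => ?_
  cases hs : step K st b with
  | none =>
    simp only
    rw [Finset.card_eq_zero, Finset.filter_eq_empty_iff]
    intro u _ h
    simp [run, hs] at h
  | some q =>
    simp only
    congr 1
    refine Finset.filter_congr fun u _ => ?_
    have h1 : run K st (b :: u) = run K q.1 u := by simp [run, hs]
    rw [h1]

theorem nC_total (K n : ℕ) (st : St) :
    ((aw n).filter (fun u => closed K st u = true)).card = nC K n st false + nC K n st true := by
  unfold nC
  rw [← Finset.card_union_of_disjoint]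
  · congr 1
    ext u
    simp only [Finset.mem_union, Finset.mem_filter]
    cases hp : par u <;> simp
  · rw [Finset.disjoint_left]
    intro u h1 h2
    have e1 := (Finset.mem_filter.1 h1).2.2
    have e2 := (Finset.mem_filter.1 h2).2.2
    rw [e1] at e2
    exact absurd e2 (by decide)

theorem cB_Bl (K n : ℕ) (e : Bool) :
    ((Bl K n).filter (fun b => par b = e)).card = nC K n S0 e := by
  unfold nC Bl
  rw [Finset.filter_filter]

end Pool.Agent.Lib.GJ
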