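import Pool.Agent.Lib.GJ.InS

/-!
# GJ.InK1: kernel computations for the inner blocks, in small pieces
-/

set_option maxRecDepth 100000

namespace Pool.Agent.Lib.GJ

theorem okc2 : allF2 okc ib2 = true := by
  refine allF2_step (l := ib2) 0 3 (by decide +kernel) ?_
  refine allF2_step (l := ib2) 3 3 (by decide +kernel) ?_
  refine allF2_step (l := ib2) 6 3 (by decide +kernel) ?_
  refine allF2_step (l := ib2) 9 3 (by decide +kernel) ?_
  refine allF2_step (l := ib2) 12 3 (by decide +kernel) ?_
  refine allF2_step (l := ib2) 15 3 (by decide +kernel) ?_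
  refine allF2_step (l := ib2) 18 3 (by decide +kernel) ?_
  refine allF2_step (l := ib2) 21 3 (by decide +kernel) ?_
  refine allF2_step (l := ib2) 24 3 (by decide +kernel) ?_
  refine allF2_step (l := ib2) 27 3 (by decide +kernel) ?_
  refine allF2_step (l := ib2) 30 3 (by decide +kernel) ?_
  refine allF2_step (l := ib2) 33 3 (by decide +kernel) ?_
  refine allF2_step (l := ib2) 36 3 (by decide +kernel) ?_
  refine allF2_step (l := ib2) 39 3 (by decide +kernel) ?_
  refine allF2_step (l := ib2) 42 3 (by decide +kernel) ?_
  refine allF2_step (l := ib2) 45 3 (by decide +kernel) ?_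
  refine allF2_step (l := ib2) 48 3 (by decide +kernel) ?_
  refine allF2_step (l := ib2) 51 3 (by decide +kernel) ?_
  refine allF2_step (l := ib2) 54 3 (by decide +kernel) ?_
  refine allF2_step (l := ib2) 57 3 (by decide +kernel) ?_
  refine allF2_step (l := ib2) 60 3 (by decide +kernel) ?_
  refine allF2_step (l := ib2) 63 3 (by decide +kernel) ?_
  refine allF2_step (l := ib2) 66 3 (by decide +kernel) ?_
  refine allF2_step (l := ib2) 69 3 (by decide +kernel) ?_
  refine allF2_step (l := ib2) 72 3 (by decide +kernel) ?_
  refine allF2_step (l := ib2) 75 3 (by decide +kernel) ?_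
  refine allF2_step (l := ib2) 78 3 (by decide +kernel) ?_
  refine allF2_step (l := ib2) 81 3 (by decide +kernel) ?_
  refine allF2_step (l := ib2) 84 3 (by decide +kernel) ?_
  refine allF2_step (l := ib2) 87 3 (by decide +kernel) ?_
  refine allF2_step (l := ib2) 90 3 (by decide +kernel) ?_
  refine allF2_step (l := ib2) 93 3 (by decide +kernel) ?_
  refine allF2_step (l := ib2) 96 3 (by decide +kernel) ?_
  refine allF2_step (l := ib2) 99 3 (by decide +kernel) ?_
  refine allF2_step (l := ib2) 102 3 (by decide +kernel) ?_
  refine allF2_step (l := ib2) 105 3 (by decide +kernel) ?_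
  refine allF2_step (l := ib2) 108 3 (by decide +kernel) ?_
  refine allF2_step (l := ib2) 111 3 (by decide +kernel) ?_
  refine allF2_step (l := ib2) 114 3 (by decide +kernel) ?_
  refine allF2_step (l := ib2) 117 3 (by decide +kernel) ?_
  refine allF2_step (l := ib2) 120 3 (by decide +kernel) ?_
  refine allF2_step (l := ib2) 123 3 (by decide +kernel) ?_
  refine allF2_step (l := ib2) 126 3 (by decide +kernel) ?_
  refine allF2_step (l := ib2) 129 3 (by decide +kernel) ?_
  refine allF2_step (l := ib2) 132 3 (by decide +kernel) ?_
  refine allF2_step (l := ib2) 135 3 (by decide +kernel) ?_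
  refine allF2_step (l := ib2) 138 3 (by decide +kernel) ?_
  refine allF2_step (l := ib2) 141 3 (by decide +kernel) ?_
  refine allF2_step (l := ib2) 144 3 (by decide +kernel) ?_
  refine allF2_step (l := ib2) 147 3 (by decide +kernel) ?_
  refine allF2_step (l := ib2) 150 3 (by decide +kernel) ?_
  refine allF2_step (l := ib2) 153 3 (by decide +kernel) ?_
  refine allF2_step (l := ib2) 156 3 (by decide +kernel) ?_
  refine allF2_step (l := ib2) 159 3 (by decide +kernel) ?_
  refine allF2_step (l := ib2) 162 3 (by decide +kernel) ?_
  refine allF2_step (l := ib2) 165 3 (by decide +kernel) ?_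
  refine allF2_step (l := ib2) 168 3 (by decide +kernel) ?_
  refine allF2_step (l := ib2) 171 3 (by decide +kernel) ?_
  refine allF2_step (l := ib2) 174 3 (by decide +kernel) ?_
  refine allF2_step (l := ib2) 177 3 (by decide +kernel) ?_
  decide +kernel

theorem irr2 : allF2 (fun m => irrF (blk m)) ib2 = true := by
  refine allF2_step (l := ib2) 0 3 (by decide +kernel) ?_
  refine allF2_step (l := ib2) 3 3 (by decide +kernel) ?_
  refine allF2_step (l := ib2) 6 3 (by decide +kernel) ?_
  refine allF2_step (l := ib2) 9 3 (by decide +kernel) ?_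
  refine allF2_step (l := ib2) 12 3 (by decide +kernel) ?_
  refine allF2_step (l := ib2) 15 3 (by decide +kernel) ?_
  refine allF2_step (l := ib2) 18 3 (by decide +kernel) ?_
  refine allF2_step (l := ib2) 21 3 (by decide +kernel) ?_
  refine allF2_step (l := ib2) 24 3 (by decide +kernel) ?_
  refine allF2_step (l := ib2) 27 3 (by decide +kernel) ?_
  refine allF2_step (l := ib2) 30 3 (by decide +kernel) ?_
  refine allF2_step (l := ib2) 33 3 (by decide +kernel) ?_
  refine allF2_step (l := ib2) 36 3 (by decide +kernel) ?_
  refine allF2_step (l := ib2) 39 3 (by decide +kernel) ?_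
  refine allF2_step (l := ib2) 42 3 (by decide +kernel) ?_
  refine allF2_step (l := ib2) 45 3 (by decide +kernel) ?_
  refine allF2_step (l := ib2) 48 3 (by decide +kernel) ?_
  refine allF2_step (l := ib2) 51 3 (by decide +kernel) ?_
  refine allF2_step (l := ib2) 54 3 (by decide +kernel) ?_
  refine allF2_step (l := ib2) 57 3 (by decide +kernel) ?_
  refine allF2_step (l := ib2) 60 3 (by decide +kernel) ?_
  refine allF2_step (l := ib2) 63 3 (by decide +kernel) ?_
  refine allF2_step (l := ib2) 66 3 (by decide +kernel) ?_
  refine allF2_step (l := ib2) 69 3 (by decide +kernel) ?_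
  refine allF2_step (l := ib2) 72 3 (by decide +kernel) ?_
  refine allF2_step (l := ib2) 75 3 (by decide +kernel) ?_
  refine allF2_step (l := ib2) 78 3 (by decide +kernel) ?_
  refine allF2_step (l := ib2) 81 3 (by decide +kernel) ?_
  refine allF2_step (l := ib2) 84 3 (by decide +kernel) ?_
  refine allF2_step (l := ib2) 87 3 (by decide +kernel) ?_
  refine allF2_step (l := ib2) 90 3 (by decide +kernel) ?_
  refine allF2_step (l := ib2) 93 3 (by decide +kernel) ?_
  refine allF2_step (l := ib2) 96 3 (by decide +kernel) ?_
  refine allF2_step (l := ib2) 99 3 (by decide +kernel) ?_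
  refine allF2_step (l := ib2) 102 3 (by decide +kernel) ?_
  refine allF2_step (l := ib2) 105 3 (by decide +kernel) ?_
  refine allF2_step (l := ib2) 108 3 (by decide +kernel) ?_
  refine allF2_step (l := ib2) 111 3 (by decide +kernel) ?_
  refine allF2_step (l := ib2) 114 3 (by decide +kernel) ?_
  refine allF2_step (l := ib2) 117 3 (by decide +kernel) ?_
  refine allF2_step (l := ib2) 120 3 (by decide +kernel) ?_
  refine allF2_step (l := ib2) 123 3 (by decide +kernel) ?_
  refine allF2_step (l := ib2) 126 3 (by decide +kernel) ?_
  refine allF2_step (l := ib2) 129 3 (by decide +kernel) ?_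
  refine allF2_step (l := ib2) 132 3 (by decide +kernel) ?_
  refine allF2_step (l := ib2) 135 3 (by decide +kernel) ?_
  refine allF2_step (l := ib2) 138 3 (by decide +kernel) ?_
  refine allF2_step (l := ib2) 141 3 (by decide +kernel) ?_
  refine allF2_step (l := ib2) 144 3 (by decide +kernel) ?_
  refine allF2_step (l := ib2) 147 3 (by decide +kernel) ?_
  refine allF2_step (l := ib2) 150 3 (by decide +kernel) ?_
  refine allF2_step (l := ib2) 153 3 (by decide +kernel) ?_
  refine allF2_step (l := ib2) 156 3 (by decide +kernel) ?_
  refine allF2_step (l := ib2) 159 3 (by decide +kernel) ?_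
  refine allF2_step (l := ib2) 162 3 (by decide +kernel) ?_
  refine allF2_step (l := ib2) 165 3 (by decide +kernel) ?_
  refine allF2_step (l := ib2) 168 3 (by decide +kernel) ?_
  refine allF2_step (l := ib2) 171 3 (by decide +kernel) ?_
  refine allF2_step (l := ib2) 174 3 (by decide +kernel) ?_
  refine allF2_step (l := ib2) 177 3 (by decide +kernel) ?_
  decide +kernel

theorem okc3 : allF2 okc ib3 = true := by
  refine allF2_step (l := ib3) 0 3 (by decide +kernel) ?_
  refine allF2_step (l := ib3) 3 3 (by decide +kernel) ?_
  refine allF2_step (l := ib3) 6 3 (by decide +kernel) ?_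
  refine allF2_step (l := ib3) 9 3 (by decide +kernel) ?_
  refine allF2_step (l := ib3) 12 3 (by decide +kernel) ?_
  refine allF2_step (l := ib3) 15 3 (by decide +kernel) ?_
  refine allF2_step (l := ib3) 18 3 (by decide +kernel) ?_
  refine allF2_step (l := ib3) 21 3 (by decide +kernel) ?_
  refine allF2_step (l := ib3) 24 3 (by decide +kernel) ?_
  refine allF2_step (l := ib3) 27 3 (by decide +kernel) ?_
  refine allF2_step (l := ib3) 30 3 (by decide +kernel) ?_
  refine allF2_step (l := ib3) 33 3 (by decide +kernel) ?_
  refine allF2_step (l := ib3) 36 3 (by decide +kernel) ?_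
  refine allF2_step (l := ib3) 39 3 (by decide +kernel) ?_
  refine allF2_step (l := ib3) 42 3 (by decide +kernel) ?_
  refine allF2_step (l := ib3) 45 3 (by decide +kernel) ?_
  refine allF2_step (l := ib3) 48 3 (by decide +kernel) ?_
  refine allF2_step (l := ib3) 51 3 (by decide +kernel) ?_
  refine allF2_step (l := ib3) 54 3 (by decide +kernel) ?_
  refine allF2_step (l := ib3) 57 3 (by decide +kernel) ?_
  refine allF2_step (l := ib3) 60 3 (by decide +kernel) ?_
  refine allF2_step (l := ib3) 63 3 (by decide +kernel) ?_
  refine allF2_step (l := ib3) 66 3 (by decide +kernel) ?_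
  refine allF2_step (l := ib3) 69 3 (by decide +kernel) ?_
  refine allF2_step (l := ib3) 72 3 (by decide +kernel) ?_
  refine allF2_step (l := ib3) 75 3 (by decide +kernel) ?_
  refine allF2_step (l := ib3) 78 3 (by decide +kernel) ?_
  refine allF2_step (l := ib3) 81 3 (by decide +kernel) ?_
  refine allF2_step (l := ib3) 84 3 (by decide +kernel) ?_
  refine allF2_step (l := ib3) 87 3 (by decide +kernel) ?_
  refine allF2_step (l := ib3) 90 3 (by decide +kernel) ?_
  refine allF2_step (l := ib3) 93 3 (by decide +kernel) ?_
  refine allF2_step (l := ib3) 96 3 (by decide +kernel) ?_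
  refine allF2_step (l := ib3) 99 3 (by decide +kernel) ?_
  refine allF2_step (l := ib3) 102 3 (by decide +kernel) ?_
  refine allF2_step (l := ib3) 105 3 (by decide +kernel) ?_
  refine allF2_step (l := ib3) 108 3 (by decide +kernel) ?_
  refine allF2_step (l := ib3) 111 3 (by decide +kernel) ?_
  refine allF2_step (l := ib3) 114 3 (by decide +kernel) ?_
  refine allF2_step (l := ib3) 117 3 (by decide +kernel) ?_
  refine allF2_step (l := ib3) 120 3 (by decide +kernel) ?_
  refine allF2_step (l := ib3) 123 3 (by decide +kernel) ?_
  refine allF2_step (l := ib3) 126 3 (by decide +kernel) ?_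
  refine allF2_step (l := ib3) 129 3 (by decide +kernel) ?_
  refine allF2_step (l := ib3) 132 3 (by decide +kernel) ?_
  refine allF2_step (l := ib3) 135 3 (by decide +kernel) ?_
  refine allF2_step (l := ib3) 138 3 (by decide +kernel) ?_
  refine allF2_step (l := ib3) 141 3 (by decide +kernel) ?_
  refine allF2_step (l := ib3) 144 3 (by decide +kernel) ?_
  refine allF2_step (l := ib3) 147 3 (by decide +kernel) ?_
  refine allF2_step (l := ib3) 150 3 (by decide +kernel) ?_
  refine allF2_step (l := ib3) 153 3 (by decide +kernel) ?_
  refine allF2_step (l := ib3) 156 3 (by decide +kernel) ?_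
  refine allF2_step (l := ib3) 159 3 (by decide +kernel) ?_
  refine allF2_step (l := ib3) 162 3 (by decide +kernel) ?_
  refine allF2_step (l := ib3) 165 3 (by decide +kernel) ?_
  refine allF2_step (l := ib3) 168 3 (by decide +kernel) ?_
  refine allF2_step (l := ib3) 171 3 (by decide +kernel) ?_
  refine allF2_step (l := ib3) 174 3 (by decide +kernel) ?_
  refine allF2_step (l := ib3) 177 3 (by decide +kernel) ?_
  decide +kernel

theorem irr3 : allF2 (fun m => irrF (blk m)) ib3 = true := by
  refine allF2_step (l := ib3) 0 3 (by decide +kernel) ?_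
  refine allF2_step (l := ib3) 3 3 (by decide +kernel) ?_
  refine allF2_step (l := ib3) 6 3 (by decide +kernel) ?_
  refine allF2_step (l := ib3) 9 3 (by decide +kernel) ?_
  refine allF2_step (l := ib3) 12 3 (by decide +kernel) ?_
  refine allF2_step (l := ib3) 15 3 (by decide +kernel) ?_
  refine allF2_step (l := ib3) 18 3 (by decide +kernel) ?_
  refine allF2_step (l := ib3) 21 3 (by decide +kernel) ?_
  refine allF2_step (l := ib3) 24 3 (by decide +kernel) ?_
  refine allF2_step (l := ib3) 27 3 (by decide +kernel) ?_
  refine allF2_step (l := ib3) 30 3 (by decide +kernel) ?_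
  refine allF2_step (l := ib3) 33 3 (by decide +kernel) ?_
  refine allF2_step (l := ib3) 36 3 (by decide +kernel) ?_
  refine allF2_step (l := ib3) 39 3 (by decide +kernel) ?_
  refine allF2_step (l := ib3) 42 3 (by decide +kernel) ?_
  refine allF2_step (l := ib3) 45 3 (by decide +kernel) ?_
  refine allF2_step (l := ib3) 48 3 (by decide +kernel) ?_
  refine allF2_step (l := ib3) 51 3 (by decide +kernel) ?_
  refine allF2_step (l := ib3) 54 3 (by decide +kernel) ?_
  refine allF2_step (l := ib3) 57 3 (by decide +kernel) ?_
  refine allF2_step (l := ib3) 60 3 (by decide +kernel) ?_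
  refine allF2_step (l := ib3) 63 3 (by decide +kernel) ?_
  refine allF2_step (l := ib3) 66 3 (by decide +kernel) ?_
  refine allF2_step (l := ib3) 69 3 (by decide +kernel) ?_
  refine allF2_step (l := ib3) 72 3 (by decide +kernel) ?_
  refine allF2_step (l := ib3) 75 3 (by decide +kernel) ?_
  refine allF2_step (l := ib3) 78 3 (by decide +kernel) ?_
  refine allF2_step (l := ib3) 81 3 (by decide +kernel) ?_
  refine allF2_step (l := ib3) 84 3 (by decide +kernel) ?_
  refine allF2_step (l := ib3) 87 3 (by decide +kernel) ?_
  refine allF2_step (l := ib3) 90 3 (by decide +kernel) ?_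
  refine allF2_step (l := ib3) 93 3 (by decide +kernel) ?_
  refine allF2_step (l := ib3) 96 3 (by decide +kernel) ?_
  refine allF2_step (l := ib3) 99 3 (by decide +kernel) ?_
  refine allF2_step (l := ib3) 102 3 (by decide +kernel) ?_
  refine allF2_step (l := ib3) 105 3 (by decide +kernel) ?_
  refine allF2_step (l := ib3) 108 3 (by decide +kernel) ?_
  refine allF2_step (l := ib3) 111 3 (by decide +kernel) ?_
  refine allF2_step (l := ib3) 114 3 (by decide +kernel) ?_
  refine allF2_step (l := ib3) 117 3 (by decide +kernel) ?_
  refine allF2_step (l := ib3) 120 3 (by decide +kernel) ?_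
  refine allF2_step (l := ib3) 123 3 (by decide +kernel) ?_
  refine allF2_step (l := ib3) 126 3 (by decide +kernel) ?_
  refine allF2_step (l := ib3) 129 3 (by decide +kernel) ?_
  refine allF2_step (l := ib3) 132 3 (by decide +kernel) ?_
  refine allF2_step (l := ib3) 135 3 (by decide +kernel) ?_
  refine allF2_step (l := ib3) 138 3 (by decide +kernel) ?_
  refine allF2_step (l := ib3) 141 3 (by decide +kernel) ?_
  refine allF2_step (l := ib3) 144 3 (by decide +kernel) ?_
  refine allF2_step (l := ib3) 147 3 (by decide +kernel) ?_
  refine allF2_step (l := ib3) 150 3 (by decide +kernel) ?_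
  refine allF2_step (l := ib3) 153 3 (by decide +kernel) ?_
  refine allF2_step (l := ib3) 156 3 (by decide +kernel) ?_
  refine allF2_step (l := ib3) 159 3 (by decide +kernel) ?_
  refine allF2_step (l := ib3) 162 3 (by decide +kernel) ?_
  refine allF2_step (l := ib3) 165 3 (by decide +kernel) ?_
  refine allF2_step (l := ib3) 168 3 (by decide +kernel) ?_
  refine allF2_step (l := ib3) 171 3 (by decide +kernel) ?_
  refine allF2_step (l := ib3) 174 3 (by decide +kernel) ?_
  refine allF2_step (l := ib3) 177 3 (by decide +kernel) ?_
  decide +kernel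

end Pool.Agent.Lib.GJ
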