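import Pool.Agent.Lib.GJ.InS

/-!
# GJ.InK2: kernel computations for the inner blocks, in small pieces
-/

set_option maxRecDepth 100000

namespace Pool.Agent.Lib.GJ

theorem okc4 : allF2 okc ib4 = true := by
  refine allF2_step (l := ib4) 0 3 (by decide +kernel) ?_
  refine allF2_step (l := ib4) 3 3 (by decide +kernel) ?_
  refine allF2_step (l := ib4) 6 3 (by decide +kernel) ?_
  refine allF2_step (l := ib4) 9 3 (by decide +kernel) ?_
  refine allF2_step (l := ib4) 12 3 (by decide +kernel) ?_
  refine allF2_step (l := ib4) 15 3 (by decide +kernel) ?_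
  refine allF2_step (l := ib4) 18 3 (by decide +kernel) ?_
  refine allF2_step (l := ib4) 21 3 (by decide +kernel) ?_
  refine allF2_step (l := ib4) 24 3 (by decide +kernel) ?_
  refine allF2_step (l := ib4) 27 3 (by decide +kernel) ?_
  refine allF2_step (l := ib4) 30 3 (by decide +kernel) ?_
  refine allF2_step (l := ib4) 33 3 (by decide +kernel) ?_
  refine allF2_step (l := ib4) 36 3 (by decide +kernel) ?_
  refine allF2_step (l := ib4) 39 3 (by decide +kernel) ?_
  refine allF2_step (l := ib4) 42 3 (by decide +kernel) ?_
  refine allF2_step (l := ib4) 45 3 (by decide +kernel) ?_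
  refine allF2_step (l := ib4) 48 3 (by decide +kernel) ?_
  refine allF2_step (l := ib4) 51 3 (by decide +kernel) ?_
  refine allF2_step (l := ib4) 54 3 (by decide +kernel) ?_
  refine allF2_step (l := ib4) 57 3 (by decide +kernel) ?_
  refine allF2_step (l := ib4) 60 3 (by decide +kernel) ?_
  refine allF2_step (l := ib4) 63 3 (by decide +kernel) ?_
  refine allF2_step (l := ib4) 66 3 (by decide +kernel) ?_
  refine allF2_step (l := ib4) 69 3 (by decide +kernel) ?_
  refine allF2_step (l := ib4) 72 3 (by decide +kernel) ?_
  refine allF2_step (l := ib4) 75 3 (by decide +kernel) ?_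
  refine allF2_step (l := ib4) 78 3 (by decide +kernel) ?_
  refine allF2_step (l := ib4) 81 3 (by decide +kernel) ?_
  refine allF2_step (l := ib4) 84 3 (by decide +kernel) ?_
  refine allF2_step (l := ib4) 87 3 (by decide +kernel) ?_
  refine allF2_step (l := ib4) 90 3 (by decide +kernel) ?_
  refine allF2_step (l := ib4) 93 3 (by decide +kernel) ?_
  refine allF2_step (l := ib4) 96 3 (by decide +kernel) ?_
  refine allF2_step (l := ib4) 99 3 (by decide +kernel) ?_
  refine allF2_step (l := ib4) 102 3 (by decide +kernel) ?_
  refine allF2_step (l := ib4) 105 3 (by decide +kernel) ?_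
  refine allF2_step (l := ib4) 108 3 (by decide +kernel) ?_
  refine allF2_step (l := ib4) 111 3 (by decide +kernel) ?_
  refine allF2_step (l := ib4) 114 3 (by decide +kernel) ?_
  refine allF2_step (l := ib4) 117 3 (by decide +kernel) ?_
  refine allF2_step (l := ib4) 120 3 (by decide +kernel) ?_
  refine allF2_step (l := ib4) 123 3 (by decide +kernel) ?_
  refine allF2_step (l := ib4) 126 3 (by decide +kernel) ?_
  refine allF2_step (l := ib4) 129 3 (by decide +kernel) ?_
  refine allF2_step (l := ib4) 132 3 (by decide +kernel) ?_
  refine allF2_step (l := ib4) 135 3 (by decide +kernel) ?_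
  refine allF2_step (l := ib4) 138 3 (by decide +kernel) ?_
  refine allF2_step (l := ib4) 141 3 (by decide +kernel) ?_
  refine allF2_step (l := ib4) 144 3 (by decide +kernel) ?_
  refine allF2_step (l := ib4) 147 3 (by decide +kernel) ?_
  refine allF2_step (l := ib4) 150 3 (by decide +kernel) ?_
  refine allF2_step (l := ib4) 153 3 (by decide +kernel) ?_
  refine allF2_step (l := ib4) 156 3 (by decide +kernel) ?_
  refine allF2_step (l := ib4) 159 3 (by decide +kernel) ?_
  refine allF2_step (l := ib4) 162 3 (by decide +kernel) ?_
  refine allF2_step (l := ib4) 165 3 (by decide +kernel) ?_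
  refine allF2_step (l := ib4) 168 3 (by decide +kernel) ?_
  refine allF2_step (l := ib4) 171 3 (by decide +kernel) ?_
  refine allF2_step (l := ib4) 174 3 (by decide +kernel) ?_
  refine allF2_step (l := ib4) 177 3 (by decide +kernel) ?_
  decide +kernel

theorem irr4 : allF2 (fun m => irrF (blk m)) ib4 = true := by
  refine allF2_step (l := ib4) 0 3 (by decide +kernel) ?_
  refine allF2_step (l := ib4) 3 3 (by decide +kernel) ?_
  refine allF2_step (l := ib4) 6 3 (by decide +kernel) ?_
  refine allF2_step (l := ib4) 9 3 (by decide +kernel) ?_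
  refine allF2_step (l := ib4) 12 3 (by decide +kernel) ?_
  refine allF2_step (l := ib4) 15 3 (by decide +kernel) ?_
  refine allF2_step (l := ib4) 18 3 (by decide +kernel) ?_
  refine allF2_step (l := ib4) 21 3 (by decide +kernel) ?_
  refine allF2_step (l := ib4) 24 3 (by decide +kernel) ?_
  refine allF2_step (l := ib4) 27 3 (by decide +kernel) ?_
  refine allF2_step (l := ib4) 30 3 (by decide +kernel) ?_
  refine allF2_step (l := ib4) 33 3 (by decide +kernel) ?_
  refine allF2_step (l := ib4) 36 3 (by decide +kernel) ?_
  refine allF2_step (l := ib4) 39 3 (by decide +kernel) ?_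
  refine allF2_step (l := ib4) 42 3 (by decide +kernel) ?_
  refine allF2_step (l := ib4) 45 3 (by decide +kernel) ?_
  refine allF2_step (l := ib4) 48 3 (by decide +kernel) ?_
  refine allF2_step (l := ib4) 51 3 (by decide +kernel) ?_
  refine allF2_step (l := ib4) 54 3 (by decide +kernel) ?_
  refine allF2_step (l := ib4) 57 3 (by decide +kernel) ?_
  refine allF2_step (l := ib4) 60 3 (by decide +kernel) ?_
  refine allF2_step (l := ib4) 63 3 (by decide +kernel) ?_
  refine allF2_step (l := ib4) 66 3 (by decide +kernel) ?_
  refine allF2_step (l := ib4) 69 3 (by decide +kernel) ?_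
  refine allF2_step (l := ib4) 72 3 (by decide +kernel) ?_
  refine allF2_step (l := ib4) 75 3 (by decide +kernel) ?_
  refine allF2_step (l := ib4) 78 3 (by decide +kernel) ?_
  refine allF2_step (l := ib4) 81 3 (by decide +kernel) ?_
  refine allF2_step (l := ib4) 84 3 (by decide +kernel) ?_
  refine allF2_step (l := ib4) 87 3 (by decide +kernel) ?_
  refine allF2_step (l := ib4) 90 3 (by decide +kernel) ?_
  refine allF2_step (l := ib4) 93 3 (by decide +kernel) ?_
  refine allF2_step (l := ib4) 96 3 (by decide +kernel) ?_
  refine allF2_step (l := ib4) 99 3 (by decide +kernel) ?_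
  refine allF2_step (l := ib4) 102 3 (by decide +kernel) ?_
  refine allF2_step (l := ib4) 105 3 (by decide +kernel) ?_
  refine allF2_step (l := ib4) 108 3 (by decide +kernel) ?_
  refine allF2_step (l := ib4) 111 3 (by decide +kernel) ?_
  refine allF2_step (l := ib4) 114 3 (by decide +kernel) ?_
  refine allF2_step (l := ib4) 117 3 (by decide +kernel) ?_
  refine allF2_step (l := ib4) 120 3 (by decide +kernel) ?_
  refine allF2_step (l := ib4) 123 3 (by decide +kernel) ?_
  refine allF2_step (l := ib4) 126 3 (by decide +kernel) ?_
  refine allF2_step (l := ib4) 129 3 (by decide +kernel) ?_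
  refine allF2_step (l := ib4) 132 3 (by decide +kernel) ?_
  refine allF2_step (l := ib4) 135 3 (by decide +kernel) ?_
  refine allF2_step (l := ib4) 138 3 (by decide +kernel) ?_
  refine allF2_step (l := ib4) 141 3 (by decide +kernel) ?_
  refine allF2_step (l := ib4) 144 3 (by decide +kernel) ?_
  refine allF2_step (l := ib4) 147 3 (by decide +kernel) ?_
  refine allF2_step (l := ib4) 150 3 (by decide +kernel) ?_
  refine allF2_step (l := ib4) 153 3 (by decide +kernel) ?_
  refine allF2_step (l := ib4) 156 3 (by decide +kernel) ?_
  refine allF2_step (l := ib4) 159 3 (by decide +kernel) ?_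
  refine allF2_step (l := ib4) 162 3 (by decide +kernel) ?_
  refine allF2_step (l := ib4) 165 3 (by decide +kernel) ?_
  refine allF2_step (l := ib4) 168 3 (by decide +kernel) ?_
  refine allF2_step (l := ib4) 171 3 (by decide +kernel) ?_
  refine allF2_step (l := ib4) 174 3 (by decide +kernel) ?_
  refine allF2_step (l := ib4) 177 3 (by decide +kernel) ?_
  decide +kernel

theorem okc5 : allF2 okc ib5 = true := by
  refine allF2_step (l := ib5) 0 3 (by decide +kernel) ?_
  refine allF2_step (l := ib5) 3 3 (by decide +kernel) ?_
  refine allF2_step (l := ib5) 6 3 (by decide +kernel) ?_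
  refine allF2_step (l := ib5) 9 3 (by decide +kernel) ?_
  refine allF2_step (l := ib5) 12 3 (by decide +kernel) ?_
  refine allF2_step (l := ib5) 15 3 (by decide +kernel) ?_
  refine allF2_step (l := ib5) 18 3 (by decide +kernel) ?_
  refine allF2_step (l := ib5) 21 3 (by decide +kernel) ?_
  refine allF2_step (l := ib5) 24 3 (by decide +kernel) ?_
  refine allF2_step (l := ib5) 27 3 (by decide +kernel) ?_
  refine allF2_step (l := ib5) 30 3 (by decide +kernel) ?_
  refine allF2_step (l := ib5) 33 3 (by decide +kernel) ?_
  refine allF2_step (l := ib5) 36 3 (by decide +kernel) ?_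
  refine allF2_step (l := ib5) 39 3 (by decide +kernel) ?_
  refine allF2_step (l := ib5) 42 3 (by decide +kernel) ?_
  refine allF2_step (l := ib5) 45 3 (by decide +kernel) ?_
  refine allF2_step (l := ib5) 48 3 (by decide +kernel) ?_
  refine allF2_step (l := ib5) 51 3 (by decide +kernel) ?_
  refine allF2_step (l := ib5) 54 3 (by decide +kernel) ?_
  refine allF2_step (l := ib5) 57 3 (by decide +kernel) ?_
  refine allF2_step (l := ib5) 60 3 (by decide +kernel) ?_
  refine allF2_step (l := ib5) 63 3 (by decide +kernel) ?_
  refine allF2_step (l := ib5) 66 3 (by decide +kernel) ?_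
  refine allF2_step (l := ib5) 69 3 (by decide +kernel) ?_
  refine allF2_step (l := ib5) 72 3 (by decide +kernel) ?_
  refine allF2_step (l := ib5) 75 3 (by decide +kernel) ?_
  refine allF2_step (l := ib5) 78 3 (by decide +kernel) ?_
  refine allF2_step (l := ib5) 81 3 (by decide +kernel) ?_
  refine allF2_step (l := ib5) 84 3 (by decide +kernel) ?_
  refine allF2_step (l := ib5) 87 3 (by decide +kernel) ?_
  refine allF2_step (l := ib5) 90 3 (by decide +kernel) ?_
  refine allF2_step (l := ib5) 93 3 (by decide +kernel) ?_
  refine allF2_step (l := ib5) 96 3 (by decide +kernel) ?_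
  refine allF2_step (l := ib5) 99 3 (by decide +kernel) ?_
  refine allF2_step (l := ib5) 102 3 (by decide +kernel) ?_
  refine allF2_step (l := ib5) 105 3 (by decide +kernel) ?_
  refine allF2_step (l := ib5) 108 3 (by decide +kernel) ?_
  refine allF2_step (l := ib5) 111 3 (by decide +kernel) ?_
  refine allF2_step (l := ib5) 114 3 (by decide +kernel) ?_
  refine allF2_step (l := ib5) 117 3 (by decide +kernel) ?_
  refine allF2_step (l := ib5) 120 3 (by decide +kernel) ?_
  refine allF2_step (l := ib5) 123 3 (by decide +kernel) ?_
  refine allF2_step (l := ib5) 126 3 (by decide +kernel) ?_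
  refine allF2_step (l := ib5) 129 3 (by decide +kernel) ?_
  refine allF2_step (l := ib5) 132 3 (by decide +kernel) ?_
  refine allF2_step (l := ib5) 135 3 (by decide +kernel) ?_
  refine allF2_step (l := ib5) 138 3 (by decide +kernel) ?_
  refine allF2_step (l := ib5) 141 3 (by decide +kernel) ?_
  refine allF2_step (l := ib5) 144 3 (by decide +kernel) ?_
  refine allF2_step (l := ib5) 147 3 (by decide +kernel) ?_
  refine allF2_step (l := ib5) 150 3 (by decide +kernel) ?_
  refine allF2_step (l := ib5) 153 3 (by decide +kernel) ?_
  refine allF2_step (l := ib5) 156 3 (by decide +kernel) ?_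
  refine allF2_step (l := ib5) 159 3 (by decide +kernel) ?_
  refine allF2_step (l := ib5) 162 3 (by decide +kernel) ?_
  refine allF2_step (l := ib5) 165 3 (by decide +kernel) ?_
  refine allF2_step (l := ib5) 168 3 (by decide +kernel) ?_
  refine allF2_step (l := ib5) 171 3 (by decide +kernel) ?_
  refine allF2_step (l := ib5) 174 3 (by decide +kernel) ?_
  refine allF2_step (l := ib5) 177 3 (by decide +kernel) ?_
  decide +kernel

theorem irr5 : allF2 (fun m => irrF (blk m)) ib5 = true := by
  refine allF2_step (l := ib5) 0 3 (by decide +kernel) ?_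
  refine allF2_step (l := ib5) 3 3 (by decide +kernel) ?_
  refine allF2_step (l := ib5) 6 3 (by decide +kernel) ?_
  refine allF2_step (l := ib5) 9 3 (by decide +kernel) ?_
  refine allF2_step (l := ib5) 12 3 (by decide +kernel) ?_
  refine allF2_step (l := ib5) 15 3 (by decide +kernel) ?_
  refine allF2_step (l := ib5) 18 3 (by decide +kernel) ?_
  refine allF2_step (l := ib5) 21 3 (by decide +kernel) ?_
  refine allF2_step (l := ib5) 24 3 (by decide +kernel) ?_
  refine allF2_step (l := ib5) 27 3 (by decide +kernel) ?_
  refine allF2_step (l := ib5) 30 3 (by decide +kernel) ?_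
  refine allF2_step (l := ib5) 33 3 (by decide +kernel) ?_
  refine allF2_step (l := ib5) 36 3 (by decide +kernel) ?_
  refine allF2_step (l := ib5) 39 3 (by decide +kernel) ?_
  refine allF2_step (l := ib5) 42 3 (by decide +kernel) ?_
  refine allF2_step (l := ib5) 45 3 (by decide +kernel) ?_
  refine allF2_step (l := ib5) 48 3 (by decide +kernel) ?_
  refine allF2_step (l := ib5) 51 3 (by decide +kernel) ?_
  refine allF2_step (l := ib5) 54 3 (by decide +kernel) ?_
  refine allF2_step (l := ib5) 57 3 (by decide +kernel) ?_
  refine allF2_step (l := ib5) 60 3 (by decide +kernel) ?_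
  refine allF2_step (l := ib5) 63 3 (by decide +kernel) ?_
  refine allF2_step (l := ib5) 66 3 (by decide +kernel) ?_
  refine allF2_step (l := ib5) 69 3 (by decide +kernel) ?_
  refine allF2_step (l := ib5) 72 3 (by decide +kernel) ?_
  refine allF2_step (l := ib5) 75 3 (by decide +kernel) ?_
  refine allF2_step (l := ib5) 78 3 (by decide +kernel) ?_
  refine allF2_step (l := ib5) 81 3 (by decide +kernel) ?_
  refine allF2_step (l := ib5) 84 3 (by decide +kernel) ?_
  refine allF2_step (l := ib5) 87 3 (by decide +kernel) ?_
  refine allF2_step (l := ib5) 90 3 (by decide +kernel) ?_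
  refine allF2_step (l := ib5) 93 3 (by decide +kernel) ?_
  refine allF2_step (l := ib5) 96 3 (by decide +kernel) ?_
  refine allF2_step (l := ib5) 99 3 (by decide +kernel) ?_
  refine allF2_step (l := ib5) 102 3 (by decide +kernel) ?_
  refine allF2_step (l := ib5) 105 3 (by decide +kernel) ?_
  refine allF2_step (l := ib5) 108 3 (by decide +kernel) ?_
  refine allF2_step (l := ib5) 111 3 (by decide +kernel) ?_
  refine allF2_step (l := ib5) 114 3 (by decide +kernel) ?_
  refine allF2_step (l := ib5) 117 3 (by decide +kernel) ?_
  refine allF2_step (l := ib5) 120 3 (by decide +kernel) ?_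
  refine allF2_step (l := ib5) 123 3 (by decide +kernel) ?_
  refine allF2_step (l := ib5) 126 3 (by decide +kernel) ?_
  refine allF2_step (l := ib5) 129 3 (by decide +kernel) ?_
  refine allF2_step (l := ib5) 132 3 (by decide +kernel) ?_
  refine allF2_step (l := ib5) 135 3 (by decide +kernel) ?_
  refine allF2_step (l := ib5) 138 3 (by decide +kernel) ?_
  refine allF2_step (l := ib5) 141 3 (by decide +kernel) ?_
  refine allF2_step (l := ib5) 144 3 (by decide +kernel) ?_
  refine allF2_step (l := ib5) 147 3 (by decide +kernel) ?_
  refine allF2_step (l := ib5) 150 3 (by decide +kernel) ?_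
  refine allF2_step (l := ib5) 153 3 (by decide +kernel) ?_
  refine allF2_step (l := ib5) 156 3 (by decide +kernel) ?_
  refine allF2_step (l := ib5) 159 3 (by decide +kernel) ?_
  refine allF2_step (l := ib5) 162 3 (by decide +kernel) ?_
  refine allF2_step (l := ib5) 165 3 (by decide +kernel) ?_
  refine allF2_step (l := ib5) 168 3 (by decide +kernel) ?_
  refine allF2_step (l := ib5) 171 3 (by decide +kernel) ?_
  refine allF2_step (l := ib5) 174 3 (by decide +kernel) ?_
  refine allF2_step (l := ib5) 177 3 (by decide +kernel) ?_
  decide +kernel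

end Pool.Agent.Lib.GJ
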