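import Pool.Agent.Lib.GJ.InS

/-!
# GJ.InK3: kernel computations for the inner blocks, in small pieces
-/

set_option maxRecDepth 100000

namespace Pool.Agent.Lib.GJ

theorem okc6 : allF2 okc ib6 = true := by
  refine allF2_step (l := ib6) 0 3 (by decide +kernel) ?_
  refine allF2_step (l := ib6) 3 3 (by decide +kernel) ?_
  refine allF2_step (l := ib6) 6 3 (by decide +kernel) ?_
  refine allF2_step (l := ib6) 9 3 (by decide +kernel) ?_
  refine allF2_step (l := ib6) 12 3 (by decide +kernel) ?_
  refine allF2_step (l := ib6) 15 3 (by decide +kernel) ?_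
  refine allF2_step (l := ib6) 18 3 (by decide +kernel) ?_
  refine allF2_step (l := ib6) 21 3 (by decide +kernel) ?_
  refine allF2_step (l := ib6) 24 3 (by decide +kernel) ?_
  refine allF2_step (l := ib6) 27 3 (by decide +kernel) ?_
  refine allF2_step (l := ib6) 30 3 (by decide +kernel) ?_
  refine allF2_step (l := ib6) 33 3 (by decide +kernel) ?_
  refine allF2_step (l := ib6) 36 3 (by decide +kernel) ?_
  refine allF2_step (l := ib6) 39 3 (by decide +kernel) ?_
  refine allF2_step (l := ib6) 42 3 (by decide +kernel) ?_
  refine allF2_step (l := ib6) 45 3 (by decide +kernel) ?_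
  refine allF2_step (l := ib6) 48 3 (by decide +kernel) ?_
  refine allF2_step (l := ib6) 51 3 (by decide +kernel) ?_
  refine allF2_step (l := ib6) 54 3 (by decide +kernel) ?_
  refine allF2_step (l := ib6) 57 3 (by decide +kernel) ?_
  refine allF2_step (l := ib6) 60 3 (by decide +kernel) ?_
  refine allF2_step (l := ib6) 63 3 (by decide +kernel) ?_
  refine allF2_step (l := ib6) 66 3 (by decide +kernel) ?_
  refine allF2_step (l := ib6) 69 3 (by decide +kernel) ?_
  refine allF2_step (l := ib6) 72 3 (by decide +kernel) ?_
  refine allF2_step (l := ib6) 75 3 (by decide +kernel) ?_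
  refine allF2_step (l := ib6) 78 3 (by decide +kernel) ?_
  refine allF2_step (l := ib6) 81 3 (by decide +kernel) ?_
  refine allF2_step (l := ib6) 84 3 (by decide +kernel) ?_
  refine allF2_step (l := ib6) 87 3 (by decide +kernel) ?_
  refine allF2_step (l := ib6) 90 3 (by decide +kernel) ?_
  refine allF2_step (l := ib6) 93 3 (by decide +kernel) ?_
  refine allF2_step (l := ib6) 96 3 (by decide +kernel) ?_
  refine allF2_step (l := ib6) 99 3 (by decide +kernel) ?_
  refine allF2_step (l := ib6) 102 3 (by decide +kernel) ?_
  refine allF2_step (l := ib6) 105 3 (by decide +kernel) ?_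
  refine allF2_step (l := ib6) 108 3 (by decide +kernel) ?_
  refine allF2_step (l := ib6) 111 3 (by decide +kernel) ?_
  refine allF2_step (l := ib6) 114 3 (by decide +kernel) ?_
  refine allF2_step (l := ib6) 117 3 (by decide +kernel) ?_
  refine allF2_step (l := ib6) 120 3 (by decide +kernel) ?_
  refine allF2_step (l := ib6) 123 3 (by decide +kernel) ?_
  refine allF2_step (l := ib6) 126 3 (by decide +kernel) ?_
  refine allF2_step (l := ib6) 129 3 (by decide +kernel) ?_
  refine allF2_step (l := ib6) 132 3 (by decide +kernel) ?_
  refine allF2_step (l := ib6) 135 3 (by decide +kernel) ?_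
  refine allF2_step (l := ib6) 138 3 (by decide +kernel) ?_
  refine allF2_step (l := ib6) 141 3 (by decide +kernel) ?_
  refine allF2_step (l := ib6) 144 3 (by decide +kernel) ?_
  refine allF2_step (l := ib6) 147 3 (by decide +kernel) ?_
  refine allF2_step (l := ib6) 150 3 (by decide +kernel) ?_
  refine allF2_step (l := ib6) 153 3 (by decide +kernel) ?_
  refine allF2_step (l := ib6) 156 3 (by decide +kernel) ?_
  refine allF2_step (l := ib6) 159 3 (by decide +kernel) ?_
  refine allF2_step (l := ib6) 162 3 (by decide +kernel) ?_
  refine allF2_step (l := ib6) 165 3 (by decide +kernel) ?_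
  refine allF2_step (l := ib6) 168 3 (by decide +kernel) ?_
  refine allF2_step (l := ib6) 171 3 (by decide +kernel) ?_
  refine allF2_step (l := ib6) 174 3 (by decide +kernel) ?_
  refine allF2_step (l := ib6) 177 3 (by decide +kernel) ?_
  decide +kernel

theorem irr6 : allF2 (fun m => irrF (blk m)) ib6 = true := by
  refine allF2_step (l := ib6) 0 3 (by decide +kernel) ?_
  refine allF2_step (l := ib6) 3 3 (by decide +kernel) ?_
  refine allF2_step (l := ib6) 6 3 (by decide +kernel) ?_
  refine allF2_step (l := ib6) 9 3 (by decide +kernel) ?_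
  refine allF2_step (l := ib6) 12 3 (by decide +kernel) ?_
  refine allF2_step (l := ib6) 15 3 (by decide +kernel) ?_
  refine allF2_step (l := ib6) 18 3 (by decide +kernel) ?_
  refine allF2_step (l := ib6) 21 3 (by decide +kernel) ?_
  refine allF2_step (l := ib6) 24 3 (by decide +kernel) ?_
  refine allF2_step (l := ib6) 27 3 (by decide +kernel) ?_
  refine allF2_step (l := ib6) 30 3 (by decide +kernel) ?_
  refine allF2_step (l := ib6) 33 3 (by decide +kernel) ?_
  refine allF2_step (l := ib6) 36 3 (by decide +kernel) ?_
  refine allF2_step (l := ib6) 39 3 (by decide +kernel) ?_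
  refine allF2_step (l := ib6) 42 3 (by decide +kernel) ?_
  refine allF2_step (l := ib6) 45 3 (by decide +kernel) ?_
  refine allF2_step (l := ib6) 48 3 (by decide +kernel) ?_
  refine allF2_step (l := ib6) 51 3 (by decide +kernel) ?_
  refine allF2_step (l := ib6) 54 3 (by decide +kernel) ?_
  refine allF2_step (l := ib6) 57 3 (by decide +kernel) ?_
  refine allF2_step (l := ib6) 60 3 (by decide +kernel) ?_
  refine allF2_step (l := ib6) 63 3 (by decide +kernel) ?_
  refine allF2_step (l := ib6) 66 3 (by decide +kernel) ?_
  refine allF2_step (l := ib6) 69 3 (by decide +kernel) ?_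
  refine allF2_step (l := ib6) 72 3 (by decide +kernel) ?_
  refine allF2_step (l := ib6) 75 3 (by decide +kernel) ?_
  refine allF2_step (l := ib6) 78 3 (by decide +kernel) ?_
  refine allF2_step (l := ib6) 81 3 (by decide +kernel) ?_
  refine allF2_step (l := ib6) 84 3 (by decide +kernel) ?_
  refine allF2_step (l := ib6) 87 3 (by decide +kernel) ?_
  refine allF2_step (l := ib6) 90 3 (by decide +kernel) ?_
  refine allF2_step (l := ib6) 93 3 (by decide +kernel) ?_
  refine allF2_step (l := ib6) 96 3 (by decide +kernel) ?_
  refine allF2_step (l := ib6) 99 3 (by decide +kernel) ?_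
  refine allF2_step (l := ib6) 102 3 (by decide +kernel) ?_
  refine allF2_step (l := ib6) 105 3 (by decide +kernel) ?_
  refine allF2_step (l := ib6) 108 3 (by decide +kernel) ?_
  refine allF2_step (l := ib6) 111 3 (by decide +kernel) ?_
  refine allF2_step (l := ib6) 114 3 (by decide +kernel) ?_
  refine allF2_step (l := ib6) 117 3 (by decide +kernel) ?_
  refine allF2_step (l := ib6) 120 3 (by decide +kernel) ?_
  refine allF2_step (l := ib6) 123 3 (by decide +kernel) ?_
  refine allF2_step (l := ib6) 126 3 (by decide +kernel) ?_
  refine allF2_step (l := ib6) 129 3 (by decide +kernel) ?_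
  refine allF2_step (l := ib6) 132 3 (by decide +kernel) ?_
  refine allF2_step (l := ib6) 135 3 (by decide +kernel) ?_
  refine allF2_step (l := ib6) 138 3 (by decide +kernel) ?_
  refine allF2_step (l := ib6) 141 3 (by decide +kernel) ?_
  refine allF2_step (l := ib6) 144 3 (by decide +kernel) ?_
  refine allF2_step (l := ib6) 147 3 (by decide +kernel) ?_
  refine allF2_step (l := ib6) 150 3 (by decide +kernel) ?_
  refine allF2_step (l := ib6) 153 3 (by decide +kernel) ?_
  refine allF2_step (l := ib6) 156 3 (by decide +kernel) ?_
  refine allF2_step (l := ib6) 159 3 (by decide +kernel) ?_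
  refine allF2_step (l := ib6) 162 3 (by decide +kernel) ?_
  refine allF2_step (l := ib6) 165 3 (by decide +kernel) ?_
  refine allF2_step (l := ib6) 168 3 (by decide +kernel) ?_
  refine allF2_step (l := ib6) 171 3 (by decide +kernel) ?_
  refine allF2_step (l := ib6) 174 3 (by decide +kernel) ?_
  refine allF2_step (l := ib6) 177 3 (by decide +kernel) ?_
  decide +kernel

theorem okc7 : allF2 okc ib7 = true := by
  refine allF2_step (l := ib7) 0 3 (by decide +kernel) ?_
  refine allF2_step (l := ib7) 3 3 (by decide +kernel) ?_
  refine allF2_step (l := ib7) 6 3 (by decide +kernel) ?_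
  refine allF2_step (l := ib7) 9 3 (by decide +kernel) ?_
  refine allF2_step (l := ib7) 12 3 (by decide +kernel) ?_
  refine allF2_step (l := ib7) 15 3 (by decide +kernel) ?_
  refine allF2_step (l := ib7) 18 3 (by decide +kernel) ?_
  refine allF2_step (l := ib7) 21 3 (by decide +kernel) ?_
  refine allF2_step (l := ib7) 24 3 (by decide +kernel) ?_
  refine allF2_step (l := ib7) 27 3 (by decide +kernel) ?_
  refine allF2_step (l := ib7) 30 3 (by decide +kernel) ?_
  refine allF2_step (l := ib7) 33 3 (by decide +kernel) ?_
  refine allF2_step (l := ib7) 36 3 (by decide +kernel) ?_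
  refine allF2_step (l := ib7) 39 3 (by decide +kernel) ?_
  refine allF2_step (l := ib7) 42 3 (by decide +kernel) ?_
  refine allF2_step (l := ib7) 45 3 (by decide +kernel) ?_
  refine allF2_step (l := ib7) 48 3 (by decide +kernel) ?_
  refine allF2_step (l := ib7) 51 3 (by decide +kernel) ?_
  refine allF2_step (l := ib7) 54 3 (by decide +kernel) ?_
  refine allF2_step (l := ib7) 57 3 (by decide +kernel) ?_
  refine allF2_step (l := ib7) 60 3 (by decide +kernel) ?_
  refine allF2_step (l := ib7) 63 3 (by decide +kernel) ?_
  refine allF2_step (l := ib7) 66 3 (by decide +kernel) ?_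
  refine allF2_step (l := ib7) 69 3 (by decide +kernel) ?_
  refine allF2_step (l := ib7) 72 3 (by decide +kernel) ?_
  refine allF2_step (l := ib7) 75 3 (by decide +kernel) ?_
  refine allF2_step (l := ib7) 78 3 (by decide +kernel) ?_
  refine allF2_step (l := ib7) 81 3 (by decide +kernel) ?_
  refine allF2_step (l := ib7) 84 3 (by decide +kernel) ?_
  refine allF2_step (l := ib7) 87 3 (by decide +kernel) ?_
  refine allF2_step (l := ib7) 90 3 (by decide +kernel) ?_
  refine allF2_step (l := ib7) 93 3 (by decide +kernel) ?_
  refine allF2_step (l := ib7) 96 3 (by decide +kernel) ?_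
  refine allF2_step (l := ib7) 99 3 (by decide +kernel) ?_
  refine allF2_step (l := ib7) 102 3 (by decide +kernel) ?_
  refine allF2_step (l := ib7) 105 3 (by decide +kernel) ?_
  refine allF2_step (l := ib7) 108 3 (by decide +kernel) ?_
  refine allF2_step (l := ib7) 111 3 (by decide +kernel) ?_
  refine allF2_step (l := ib7) 114 3 (by decide +kernel) ?_
  refine allF2_step (l := ib7) 117 3 (by decide +kernel) ?_
  refine allF2_step (l := ib7) 120 3 (by decide +kernel) ?_
  refine allF2_step (l := ib7) 123 3 (by decide +kernel) ?_
  refine allF2_step (l := ib7) 126 3 (by decide +kernel) ?_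
  refine allF2_step (l := ib7) 129 3 (by decide +kernel) ?_
  refine allF2_step (l := ib7) 132 3 (by decide +kernel) ?_
  refine allF2_step (l := ib7) 135 3 (by decide +kernel) ?_
  refine allF2_step (l := ib7) 138 3 (by decide +kernel) ?_
  refine allF2_step (l := ib7) 141 3 (by decide +kernel) ?_
  refine allF2_step (l := ib7) 144 3 (by decide +kernel) ?_
  refine allF2_step (l := ib7) 147 3 (by decide +kernel) ?_
  refine allF2_step (l := ib7) 150 3 (by decide +kernel) ?_
  refine allF2_step (l := ib7) 153 3 (by decide +kernel) ?_
  refine allF2_step (l := ib7) 156 3 (by decide +kernel) ?_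
  refine allF2_step (l := ib7) 159 3 (by decide +kernel) ?_
  refine allF2_step (l := ib7) 162 3 (by decide +kernel) ?_
  refine allF2_step (l := ib7) 165 3 (by decide +kernel) ?_
  refine allF2_step (l := ib7) 168 3 (by decide +kernel) ?_
  refine allF2_step (l := ib7) 171 3 (by decide +kernel) ?_
  refine allF2_step (l := ib7) 174 3 (by decide +kernel) ?_
  refine allF2_step (l := ib7) 177 3 (by decide +kernel) ?_
  decide +kernel

theorem irr7 : allF2 (fun m => irrF (blk m)) ib7 = true := by
  refine allF2_step (l := ib7) 0 3 (by decide +kernel) ?_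
  refine allF2_step (l := ib7) 3 3 (by decide +kernel) ?_
  refine allF2_step (l := ib7) 6 3 (by decide +kernel) ?_
  refine allF2_step (l := ib7) 9 3 (by decide +kernel) ?_
  refine allF2_step (l := ib7) 12 3 (by decide +kernel) ?_
  refine allF2_step (l := ib7) 15 3 (by decide +kernel) ?_
  refine allF2_step (l := ib7) 18 3 (by decide +kernel) ?_
  refine allF2_step (l := ib7) 21 3 (by decide +kernel) ?_
  refine allF2_step (l := ib7) 24 3 (by decide +kernel) ?_
  refine allF2_step (l := ib7) 27 3 (by decide +kernel) ?_
  refine allF2_step (l := ib7) 30 3 (by decide +kernel) ?_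
  refine allF2_step (l := ib7) 33 3 (by decide +kernel) ?_
  refine allF2_step (l := ib7) 36 3 (by decide +kernel) ?_
  refine allF2_step (l := ib7) 39 3 (by decide +kernel) ?_
  refine allF2_step (l := ib7) 42 3 (by decide +kernel) ?_
  refine allF2_step (l := ib7) 45 3 (by decide +kernel) ?_
  refine allF2_step (l := ib7) 48 3 (by decide +kernel) ?_
  refine allF2_step (l := ib7) 51 3 (by decide +kernel) ?_
  refine allF2_step (l := ib7) 54 3 (by decide +kernel) ?_
  refine allF2_step (l := ib7) 57 3 (by decide +kernel) ?_
  refine allF2_step (l := ib7) 60 3 (by decide +kernel) ?_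
  refine allF2_step (l := ib7) 63 3 (by decide +kernel) ?_
  refine allF2_step (l := ib7) 66 3 (by decide +kernel) ?_
  refine allF2_step (l := ib7) 69 3 (by decide +kernel) ?_
  refine allF2_step (l := ib7) 72 3 (by decide +kernel) ?_
  refine allF2_step (l := ib7) 75 3 (by decide +kernel) ?_
  refine allF2_step (l := ib7) 78 3 (by decide +kernel) ?_
  refine allF2_step (l := ib7) 81 3 (by decide +kernel) ?_
  refine allF2_step (l := ib7) 84 3 (by decide +kernel) ?_
  refine allF2_step (l := ib7) 87 3 (by decide +kernel) ?_
  refine allF2_step (l := ib7) 90 3 (by decide +kernel) ?_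
  refine allF2_step (l := ib7) 93 3 (by decide +kernel) ?_
  refine allF2_step (l := ib7) 96 3 (by decide +kernel) ?_
  refine allF2_step (l := ib7) 99 3 (by decide +kernel) ?_
  refine allF2_step (l := ib7) 102 3 (by decide +kernel) ?_
  refine allF2_step (l := ib7) 105 3 (by decide +kernel) ?_
  refine allF2_step (l := ib7) 108 3 (by decide +kernel) ?_
  refine allF2_step (l := ib7) 111 3 (by decide +kernel) ?_
  refine allF2_step (l := ib7) 114 3 (by decide +kernel) ?_
  refine allF2_step (l := ib7) 117 3 (by decide +kernel) ?_
  refine allF2_step (l := ib7) 120 3 (by decide +kernel) ?_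
  refine allF2_step (l := ib7) 123 3 (by decide +kernel) ?_
  refine allF2_step (l := ib7) 126 3 (by decide +kernel) ?_
  refine allF2_step (l := ib7) 129 3 (by decide +kernel) ?_
  refine allF2_step (l := ib7) 132 3 (by decide +kernel) ?_
  refine allF2_step (l := ib7) 135 3 (by decide +kernel) ?_
  refine allF2_step (l := ib7) 138 3 (by decide +kernel) ?_
  refine allF2_step (l := ib7) 141 3 (by decide +kernel) ?_
  refine allF2_step (l := ib7) 144 3 (by decide +kernel) ?_
  refine allF2_step (l := ib7) 147 3 (by decide +kernel) ?_
  refine allF2_step (l := ib7) 150 3 (by decide +kernel) ?_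
  refine allF2_step (l := ib7) 153 3 (by decide +kernel) ?_
  refine allF2_step (l := ib7) 156 3 (by decide +kernel) ?_
  refine allF2_step (l := ib7) 159 3 (by decide +kernel) ?_
  refine allF2_step (l := ib7) 162 3 (by decide +kernel) ?_
  refine allF2_step (l := ib7) 165 3 (by decide +kernel) ?_
  refine allF2_step (l := ib7) 168 3 (by decide +kernel) ?_
  refine allF2_step (l := ib7) 171 3 (by decide +kernel) ?_
  refine allF2_step (l := ib7) 174 3 (by decide +kernel) ?_
  refine allF2_step (l := ib7) 177 3 (by decide +kernel) ?_
  decide +kernel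

end Pool.Agent.Lib.GJ
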