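import Pool.Agent.Lib.GJ.InK0
import Pool.Agent.Lib.GJ.InK1
import Pool.Agent.Lib.GJ.InK2
import Pool.Agent.Lib.GJ.InK3
import Pool.Agent.Lib.GJ.Chn

/-!
# Module InT: what the tests of the inner blocks say

PROOFS.  `okF_iff`: `goF L f R = go f L R` (induction on `L`, cases on the bits), `resF = res`, `lenF = List.length`, `begF a m = true ↔ ∃ c, m = a ++ c`,
`scanF n A R = true ↔ ∀ l1 l2, R.take n = l1 ++ true :: l2 → res (l1.reverse ++ A) (l2 ++ R.drop n) = true` when `n ≤ R.length` (induction on `n`), so `scanF b.length [f, t, f] (b ++ [t, f]) = true ↔ AllOK [f, t, f] b [t, f]`.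
`allF2 f l = true ↔ ∀ m ∈ l, f m = true`; `ib_irr`: `p = p' + 1`, `p' ∈ List.range (lenF b - 1)`.
`ib_nodup`: `incF 0 ib = true` gives that `ib` is strictly increasing, so it has no duplicates; `encB (blk m) 1 = m` for `m ∈ ib` (part of `okc`), so `blk` is injective on `ib` (`List.Nodup.map_on`).
`ib_weight`: `wsum ib = ∑ 791 ^ length * 1000 ^ (58 - length)`, lengths at most `58`; divide `wsum_all` by `1000 ^ 58`.
-/

namespace Pool.Agent.Lib.GJ

theorem goF_nil (f : Bool) (R : List Bool) : goF [] f R = false := rfl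

theorem goF_eq (L : List Bool) (f : Bool) (R : List Bool) : goF L f R = go f L R := by
  induction L generalizing f R with
  | nil => simp [goF, go]
  | cons l L ih =>
    cases R with
    | nil => simp [goF, go]
    | cons r R =>
      have h := ih
      unfold goF at h ⊢
      cases l <;> cases r <;> cases f <;> simp [go, h]

theorem resF_eq (L R : List Bool) : resF L R = res L R := by
  rcases L with _ | ⟨a, _ | ⟨l, L⟩⟩ <;> rcases R with _ | ⟨b, _ | ⟨r, R⟩⟩
  all_goals first
    | rfl
    | (cases a <;> rfl)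
    | (cases a <;> cases b <;> rfl)
    | (cases a <;> cases b <;> cases l <;> cases r <;> simp [resF, res, goF_eq])

theorem lenF_eq (l : List Bool) : lenF l = l.length := by
  induction l with
  | nil => rfl
  | cons b l ih =>
    rw [List.length_cons, ← ih]
    rfl

theorem begF_iff (a m : List Bool) : begF a m = true ↔ ∃ c, m = a ++ c := by
  induction a generalizing m with
  | nil => simp [begF]
  | cons a l ih =>
    cases m with
    | nil => simp [begF]
    | cons b m =>
      have h := ih m
      unfold begF at h ⊢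
      cases a <;> cases b <;> simp [h]

theorem scanF_iff (m R : List Bool) (A : List Bool) :
    scanF m.length A (m ++ R) = true ↔ AllOK A m R := by
  induction m generalizing A with
  | nil =>
    constructor
    · intro _ l1 l2 h
      simp at h
    · intro _
      rfl
  | cons b m ih =>
    have e : AllOK A (b :: m) R ↔ AllOK A [b] (m ++ R) ∧ AllOK (b :: A) m R := by
      have := @AllOK.append A [b] m R
      simpa using this
    rw [e]
    have ih' := ih (b :: A)
    unfold scanF at ih' ⊢
    cases b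
    · have h1 : AllOK A [false] (m ++ R) := by
        intro l1 l2 h
        rcases l1 with _ | ⟨x, l1⟩
        · simp at h
        · simp at h
      simp only [List.length_cons, List.cons_append]
      rw [← ih']
      simp [h1]
    · have h1 : AllOK A [true] (m ++ R) ↔ res A (m ++ R) = true := by
        constructor
        · intro h
          have := h [] [] rfl
          simpa using this
        · intro h l1 l2 h2
          rcases l1 with _ | ⟨x, l1⟩
          · simp only [List.nil_append, List.cons.injEq, true_and] at h2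
            subst h2
            simpa using h
          · simp at h2
      simp only [List.length_cons, List.cons_append]
      rw [h1, ← ih', ← resF_eq]
      cases resF A (m ++ R) <;> simp

theorem okF_iff (b : List Bool) : okF b = true ↔ OKB b := by
  have h1 := begF_iff [true, false] b
  have h2 := begF_iff [false, true, false] (b.reverse ++ [false, true, false])
  have h3 := scanF_iff b [true, false] [false, true, false]
  unfold okF OKB
  rw [lenF_eq]
  constructor
  · intro h
    split at h
    · exact absurd h (by simp)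
    · rename_i e1
      split at h
      · exact absurd h (by simp)
      · rename_i e2
        refine ⟨h3.1 h, ?_, ?_⟩
        · simpa using h1.1 e1
        · simpa using h2.1 e2
  · rintro ⟨a1, a2, a3⟩
    have b1 : begF [true, false] b = true := h1.2 (by simpa using a2)
    have b2 : begF [false, true, false] (b.reverse ++ [false, true, false]) = true :=
      h2.2 (by simpa using a3)
    rw [b1, b2]
    exact h3.2 a1

theorem allF2_iff (f : ℕ → Bool) (l : List ℕ) : allF2 f l = true ↔ ∀ m ∈ l, f m = true := by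
  induction l with
  | nil => simp [allF2]
  | cons a l ih =>
    unfold allF2 at ih ⊢
    simp only [List.mem_cons, forall_eq_or_imp]
    rw [← ih]
    cases f a <;> simp

theorem mem_ib {m : ℕ} (h : m ∈ ib) :
    m ∈ ib0 ∨ m ∈ ib1 ∨ m ∈ ib2 ∨ m ∈ ib3 ∨ m ∈ ib4 ∨ m ∈ ib5 ∨ m ∈ ib6 ∨ m ∈ ib7 := by
  unfold ib at h
  simpa only [List.mem_append] using h

theorem okc_ib {m : ℕ} (h : m ∈ ib) : okc m = true := by
  rcases mem_ib h with h | h | h | h | h | h | h | h
  · exact (allF2_iff _ _).1 okc0 m h
  · exact (allF2_iff _ _).1 okc1 m h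
  · exact (allF2_iff _ _).1 okc2 m h
  · exact (allF2_iff _ _).1 okc3 m h
  · exact (allF2_iff _ _).1 okc4 m h
  · exact (allF2_iff _ _).1 okc5 m h
  · exact (allF2_iff _ _).1 okc6 m h
  · exact (allF2_iff _ _).1 okc7 m h

theorem irr_ib {m : ℕ} (h : m ∈ ib) : irrF (blk m) = true := by
  rcases mem_ib h with h | h | h | h | h | h | h | h
  · exact (allF2_iff _ _).1 irr0 m h
  · exact (allF2_iff _ _).1 irr1 m h
  · exact (allF2_iff _ _).1 irr2 m h
  · exact (allF2_iff _ _).1 irr3 m h
  · exact (allF2_iff _ _).1 irr4 m h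
  · exact (allF2_iff _ _).1 irr5 m h
  · exact (allF2_iff _ _).1 irr6 m h
  · exact (allF2_iff _ _).1 irr7 m h

theorem okc_parts {m : ℕ} (h : okc m = true) :
    okF (blk m) = true ∧ okl (blk m) = true ∧ okd (blk m) = true ∧ encB (blk m) 1 = m := by
  unfold okc at h
  simp only [Bool.and_eq_true] at h
  obtain ⟨h1, h2, h3, h4⟩ := h
  exact ⟨h1, h2, h3, Nat.eq_of_beq_eq_true h4⟩

theorem ib_okb : ∀ b ∈ ibl, OKB b := by
  intro b hb
  obtain ⟨m, hm, rfl⟩ := List.mem_map.1 hb
  exact (okF_iff _).1 (okc_parts (okc_ib hm)).1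

theorem ib_irr : ∀ b ∈ ibl, ∀ p, 1 ≤ p → p < b.length → ¬ (OKB (b.take p) ∧ OKB (b.drop p)) := by
  intro b hb p hp1 hp2 ⟨h1, h2⟩
  obtain ⟨m, hm, rfl⟩ := List.mem_map.1 hb
  have h := irr_ib hm
  unfold irrF at h
  rw [allF2_iff] at h
  obtain ⟨q, rfl⟩ : ∃ q, p = q + 1 := ⟨p - 1, by omega⟩
  have h3 := h q (by rw [List.mem_range, lenF_eq]; omega)
  rw [(okF_iff _).2 h1, (okF_iff _).2 h2] at h3
  exact absurd h3 (by simp)

theorem len_ib {m : ℕ} (h : m ∈ ib) : 2 ≤ (blk m).length ∧ (blk m).length ≤ 58 := by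
  have h2 := (okc_parts (okc_ib h)).2.1
  unfold okl at h2
  rw [Bool.and_eq_true, lenF_eq] at h2
  exact ⟨Nat.le_of_ble_eq_true h2.1, Nat.le_of_ble_eq_true h2.2⟩

theorem ib_len : ∀ b ∈ ibl, 2 ≤ b.length ∧ b.length ≤ 58 := by
  intro b hb
  obtain ⟨m, hm, rfl⟩ := List.mem_map.1 hb
  exact len_ib hm

theorem incF_pw (l : List ℕ) (a : ℕ) (h : incF a l = true) :
    (∀ m ∈ l, a < m) ∧ l.Pairwise (· < ·) := by
  induction l generalizing a with
  | nil => simp
  | cons m l ih =>
    unfold incF at ih h
    simp only at h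
    split at h
    · rename_i e
      have e1 : a < m := Nat.le_of_ble_eq_true e
      obtain ⟨i1, i2⟩ := ih m h
      refine ⟨?_, ?_⟩
      · intro x hx
        rcases List.mem_cons.1 hx with rfl | hx
        · exact e1
        · exact e1.trans (i1 x hx)
      · exact List.pairwise_cons.2 ⟨i1, i2⟩
    · exact absurd h (by simp)

theorem ib_nd : ib.Nodup :=
  (incF_pw ib 0 inc_all).2.imp (fun h => ne_of_lt h)

theorem ib_nodup : ibl.Nodup := by
  unfold ibl
  refine List.Nodup.map_on ?_ ib_nd
  intro x hx y hy h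
  rw [← (okc_parts (okc_ib hx)).2.2.2, ← (okc_parts (okc_ib hy)).2.2.2, h]

theorem wsum_cons (m : ℕ) (l : List ℕ) : wsum (m :: l) =
    791 ^ (blk m).length * 1000 ^ (58 - (blk m).length) + wsum l := by
  rw [← lenF_eq]
  rfl

theorem wsum_eq (l : List ℕ) (hl : ∀ m ∈ l, (blk m).length ≤ 58) :
    (wsum l : ℝ) = 1000 ^ 58 * ((l.map blk).map (fun b => (791 / 1000 : ℝ) ^ b.length)).sum := by
  induction l with
  | nil => simp [wsum]
  | cons m l ih =>
    rw [wsum_cons, Nat.cast_add, ih (fun x hx => hl x (by simp [hx]))]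
    simp only [List.map_cons, List.sum_cons, mul_add]
    congr 1
    have h := hl m (by simp)
    push_cast
    rw [div_pow]
    have e : (1000 : ℝ) ^ 58 = 1000 ^ (58 - (blk m).length) * 1000 ^ (blk m).length := by
      rw [← pow_add, Nat.sub_add_cancel h]
    rw [e]
    have h0 : (1000 : ℝ) ^ (blk m).length ≠ 0 := by positivity
    field_simp

theorem ble_cast (n b : ℕ) (h : Nat.ble (Nat.pow 1000 n) b = true) :
    ((1000 : ℝ)) ^ n ≤ (b : ℝ) := by
  have h2 : (1000 : ℕ) ^ n ≤ b := Nat.le_of_ble_eq_true h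
  exact_mod_cast h2

theorem ib_weight_aux (b : ℕ) (w : ℝ) (h1 : Nat.ble (Nat.pow 1000 58) b = true)
    (h2 : (b : ℝ) = 1000 ^ 58 * w) : 1 ≤ w := by
  have h3 : ((1000 : ℝ)) ^ 58 ≤ (b : ℝ) := ble_cast 58 b h1
  rw [h2] at h3
  have h4 : (0 : ℝ) < 1000 ^ 58 := by positivity
  have h5 : (1000 : ℝ) ^ 58 * 1 ≤ 1000 ^ 58 * w := by
    rw [mul_one]; exact h3
  exact le_of_mul_le_mul_left h5 h4

theorem ib_weight : 1 ≤ (ibl.map (fun b => (791 / 1000 : ℝ) ^ b.length)).sum := by
  have h := wsum_eq ib (fun m hm => (len_ib hm).2)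
  have h1 := wsum_all
  revert h h1
  generalize wsum ib = b
  intro h h1
  exact ib_weight_aux b _ h1 h

end Pool.Agent.Lib.GJ
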