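import Pool.Agent.Lib.GJ.Chn

/-!
# Module Uniq: unique factorization into irreducible blocks

PROOF.  `res_inter`: for `go`: if `go f L (R ++ R') = true` and `go f (L ++ L') R = true` then `go f L R = true`: induction on `L`, cases on `R`: if `L = []` the first hypothesis is false; if `R = []` the second is; otherwise compare the heads.  Then `res`.
`uniq`: induction on `bs` (or on the total length).  If one of `bs`, `cs` is empty, so is the other (blocks are nonempty).  Let `bs = b :: bs'`, `cs = c :: cs'`.  If `b.length = c.length` then `b = c`, and use induction.  Let `b.length < c.length` (the other case is symmetric): `c = b ++ s`,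
`s ≠ []`, and `bs'.flatten = s ++ cs'.flatten`, so `bs' ≠ []`.  Claim: `OKB b` and `OKB s`, a contradiction to the irreducibility of `c` (`p = b.length`).
-/

namespace Pool.Agent.Lib.GJ

theorem go_inter {f : Bool} {L L' R R' : List Bool} (h1 : go f L (R ++ R') = true)
    (h2 : go f (L ++ L') R = true) : go f L R = true := by
  induction L generalizing f R with
  | nil => simp [go] at h1
  | cons l L ih =>
    cases R with
    | nil => simp [go] at h2
    | cons r R =>
      simp only [List.cons_append, go] at h1 h2 ⊢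
      split_ifs at h1 h2 ⊢ with h
      · exact ih h1 h2
      · exact h1

theorem res_inter {L L' R R' : List Bool} (h1 : res L (R ++ R') = true)
    (h2 : res (L ++ L') R = true) : res L R = true := by
  rcases L with _ | ⟨a, _ | ⟨l, L⟩⟩
  · simp [res] at h1
  · cases a <;> simp [res] at h1
  · rcases R with _ | ⟨b, _ | ⟨r, R⟩⟩
    · cases a <;> simp [res] at h2
    · cases a <;> cases b <;> simp [res] at h2
    · cases a
      · cases b
        · simp only [List.cons_append, res] at h1 h2 ⊢
          split_ifs at h1 h2 ⊢ with h3 h4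
          · rfl
          · exact go_inter h1 h2
        · simp [res] at h1
      · simp [res] at h1

/-- irreducible blocks -/
def Irr (b : List Bool) : Prop := OKB b ∧ ∀ p, 1 ≤ p → p < b.length → ¬ (OKB (b.take p) ∧ OKB (b.drop p))

theorem irr_aux {b c s : List Bool} {bs cs : List (List Bool)} (hb : OKB b)
    (hbs : ∀ x ∈ bs, OKB x) (hc : Irr c) (hcs : ∀ x ∈ cs, OKB x) (hs : c = b ++ s) (hne : s ≠ [])
    (h : bs.flatten = s ++ cs.flatten) : False := by
  obtain ⟨hcok, hirr⟩ := hc
  obtain ⟨hc1, -, ⟨c1, hc3⟩⟩ := hcok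
  have hb' := hb
  obtain ⟨-, ⟨b0, hb2⟩, ⟨b1, hb3⟩⟩ := hb
  have hW : Cat bs.flatten := ⟨bs, hbs, rfl⟩
  have hT : Cat cs.flatten := ⟨cs, hcs, rfl⟩
  obtain ⟨hW1, hW2, -⟩ := hW.ok
  obtain ⟨-, hT2, -⟩ := hT.ok
  have hrev : s.reverse ++ (false :: true :: false :: b1) = false :: true :: false :: c1 := by
    rw [← hb3, ← hc3, hs, List.reverse_append, List.append_assoc]
  -- the start of `s`
  obtain ⟨s2, hs2⟩ : ∃ s2, s = true :: false :: s2 := by
    rcases hW2 with h0 | ⟨w, hw⟩
    · rw [h0] at h
      exact absurd (List.append_eq_nil_iff.1 h.symm).1 hne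
    · rw [hw] at h
      rcases s with _ | ⟨x, _ | ⟨y, s2⟩⟩
      · exact absurd rfl hne
      · simp only [List.cons_append, List.nil_append, List.cons.injEq] at h
        rw [← h.1] at hrev
        simp at hrev
      · simp only [List.cons_append, List.cons.injEq] at h
        exact ⟨s2, by rw [← h.1, ← h.2.1]⟩
  have hs3 : ∃ c, s.reverse ++ [false, true, false] = false :: true :: false :: c := by
    have hlen : 2 ≤ s.reverse.length := by rw [List.length_reverse, hs2]; simp
    generalize hz : s.reverse = z at hrev hlen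
    rcases z with _ | ⟨x, _ | ⟨y, _ | ⟨w, z⟩⟩⟩
    · simp at hlen
    · simp at hlen
    · simp only [List.cons_append, List.nil_append, List.cons.injEq] at hrev
      obtain ⟨rfl, rfl, -⟩ := hrev
      exact ⟨[true, false], rfl⟩
    · simp only [List.cons_append, List.cons.injEq] at hrev
      obtain ⟨rfl, rfl, rfl, -⟩ := hrev
      exact ⟨z ++ [false, true, false], rfl⟩
  have hR : ∃ R', cs.flatten ++ [true, false] = [true, false] ++ R' := by
    rcases hT2 with h0 | ⟨w, hw⟩
    · exact ⟨[], by rw [h0]; rfl⟩
    · exact ⟨w ++ [true, false], by rw [hw]; rfl⟩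
  obtain ⟨R', hR'⟩ := hR
  have hs1 : AllOK [false, true, false] s [true, false] := by
    intro l1 l2 hl
    have e1 := hW1 l1 (l2 ++ cs.flatten) (by rw [h, hl]; simp)
    have e2 := hc1 (b ++ l1) l2 (by rw [hs, hl]; simp)
    rw [List.append_assoc, hR', ← List.append_assoc] at e1
    rw [List.reverse_append, List.append_assoc, hb3] at e2
    have e3 : l1.reverse ++ (false :: true :: false :: b1) =
        (l1.reverse ++ [false, true, false]) ++ b1 := by simp
    rw [e3] at e2
    exact res_inter e1 e2
  have hsok : OKB s := ⟨hs1, ⟨s2, hs2⟩, hs3⟩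
  refine hirr b.length ?_ ?_ ⟨?_, ?_⟩
  · rw [hb2]; simp
  · rw [hs, List.length_append]
    have : 0 < s.length := List.length_pos_iff.2 hne
    omega
  · rw [hs, List.take_left']
    · exact hb'
    · rfl
  · rw [hs, List.drop_left']
    · exact hsok
    · rfl

theorem uniq {bs cs : List (List Bool)} (hb : ∀ b ∈ bs, Irr b) (hc : ∀ c ∈ cs, Irr c)
    (h : bs.flatten = cs.flatten) : bs = cs := by
  induction bs generalizing cs with
  | nil =>
    rcases cs with _ | ⟨c, cs⟩
    · rfl
    · obtain ⟨⟨-, ⟨x, hx⟩, -⟩, -⟩ := hc c (by simp)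
      rw [hx] at h
      simp at h
  | cons b bs ih =>
    rcases cs with _ | ⟨c, cs⟩
    · obtain ⟨⟨-, ⟨x, hx⟩, -⟩, -⟩ := hb b (by simp)
      rw [hx] at h
      simp at h
    · have hb1 := hb b (by simp)
      have hc1 := hc c (by simp)
      have hb2 : ∀ x ∈ bs, Irr x := fun x hx => hb x (by simp [hx])
      have hc2 : ∀ x ∈ cs, Irr x := fun x hx => hc x (by simp [hx])
      simp only [List.flatten_cons] at h
      rcases List.append_eq_append_iff.1 h with ⟨s, hs1, hs2⟩ | ⟨s, hs1, hs2⟩
      · -- `c = b ++ s`
        by_cases hne : s = []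
        · subst hne
          rw [List.append_nil] at hs1
          rw [List.nil_append] at hs2
          rw [hs1, ih hb2 hc2 hs2]
        · exact (irr_aux hb1.1 (fun x hx => (hb2 x hx).1) hc1 (fun x hx => (hc2 x hx).1) hs1 hne hs2).elim
      · by_cases hne : s = []
        · subst hne
          rw [List.append_nil] at hs1
          rw [List.nil_append] at hs2
          rw [hs1, ih hb2 hc2 hs2.symm]
        · exact (irr_aux hc1.1 (fun x hx => (hc2 x hx).1) hb1 (fun x hx => (hb2 x hx).1) hs1 hne hs2).elim

end Pool.Agent.Lib.GJ
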