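import Pool.Agent.Lib.GJ.InA
import Pool.Agent.Lib.GJ.InT
import Pool.Agent.Lib.GJ.Uniq

/-!
# Module CntW: many words of the same length

PROOF.  Let `S` be the finset of the elements of `ibl` (`ib_nodup`), `z = 791 / 1000`, `y = 79106 / 100000`, so `y / z > 1`, and `∑ b ∈ S, z ^ b.length ≥ 1` (`ib_weight`).
For `k`: the map `f ↦ (List.ofFn f).flatten` from `Fin k → S` to lists is injective (`uniq` with `ib_okb`, `ib_irr`; `List.ofFn` is injective), and `∑ f, z ^ length = (∑ b ∈ S, z ^ b.length) ^ k ≥ 1` (`Finset.prod_univ_sum` / `Finset.sum_pow'`; length of a flatten is the sum of the lengths).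
The lengths are between `2 k` and `58 k`.  Choose `k ≥ 1` with `(y / z) ^ (2 k) > 58 k + 1` (exponential against linear).  Let `𝒢 N` be the set of the concatenations of `k` blocks of total length `N`.  `∑_{N ≤ 58 k} |𝒢 N| z ^ N ≥ 1`, so for some `N ∈ [2 k, 58 k]` `|𝒢 N| z ^ N ≥ 1 / (58 k + 1)`
(pigeonhole, `Finset.exists_le_of_sum_le` or by contradiction; for `N < 2 k` the set is empty), and `|𝒢 N| ≥ z⁻¹ ^ N / (58 k + 1) > z⁻¹ ^ N (z / y) ^ (2 k) ≥ y⁻¹ ^ N`.
-/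

namespace Pool.Agent.Lib.GJ
namespace CntWAux

theorem expo : ∃ k : ℕ, 1 ≤ k ∧ (58 * k + 1 : ℝ) < (79106 / 79100 : ℝ) ^ (2 * k) := by
  refine ⟨59 * 79100 ^ 2, by norm_num, ?_⟩
  generalize hk : (59 * 79100 ^ 2 : ℕ) = k
  have hk' : (k : ℝ) = 59 * 79100 ^ 2 := by rw [← hk]; norm_num
  have h1 : 1 + (k : ℝ) * (6 / 79100) ≤ (1 + 6 / 79100 : ℝ) ^ k :=
    one_add_mul_le_pow (by norm_num) k
  have h2 : (79106 / 79100 : ℝ) = 1 + 6 / 79100 := by norm_num
  rw [h2, mul_comm 2 k, pow_mul]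
  have h3 : (1 + (k : ℝ) * (6 / 79100)) ^ 2 ≤ ((1 + 6 / 79100 : ℝ) ^ k) ^ 2 := by
    apply pow_le_pow_left₀ _ h1
    rw [hk']; norm_num
  refine lt_of_lt_of_le ?_ h3
  rw [hk']
  norm_num

theorem length_ofFn {k : ℕ} (f : Fin k → List Bool) :
    (List.ofFn f).flatten.length = ∑ i, (f i).length := by
  rw [List.length_flatten, List.map_ofFn, List.sum_ofFn]
  rfl

theorem many_core (S : Finset (List Bool)) (hlen : ∀ b ∈ S, 2 ≤ b.length ∧ b.length ≤ 58)
    (hw : 1 ≤ ∑ b ∈ S, (791 / 1000 : ℝ) ^ b.length)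
    (hinj : ∀ bs cs : List (List Bool), (∀ b ∈ bs, b ∈ S) → (∀ c ∈ cs, c ∈ S) →
      bs.flatten = cs.flatten → bs = cs) :
    ∃ N : ℕ, 1 ≤ N ∧ ∃ G : Finset (List Bool),
      (∀ g ∈ G, g.length = N ∧ ∃ bs : List (List Bool), (∀ b ∈ bs, b ∈ S) ∧ g = bs.flatten) ∧
      (100000 / 79106 : ℝ) ^ N < G.card := by
  classical
  obtain ⟨k, hk1, hk⟩ := expo
  let P : Finset (Fin k → List Bool) := Fintype.piFinset (fun _ => S)
  let φ : (Fin k → List Bool) → List Bool := fun f => (List.ofFn f).flatten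
  have hP : ∀ f ∈ P, ∀ i, f i ∈ S := fun f hf i => Fintype.mem_piFinset.1 hf i
  have hφS : ∀ f ∈ P, ∀ b ∈ List.ofFn f, b ∈ S := by
    intro f hf b hb
    obtain ⟨i, rfl⟩ := (List.mem_ofFn' f b).1 hb
    exact hP f hf i
  have hφi : ∀ f ∈ P, ∀ g ∈ P, φ f = φ g → f = g := by
    intro f hf g hg h
    exact List.ofFn_injective (hinj _ _ (hφS f hf) (hφS g hg) h)
  have hφl : ∀ f, (φ f).length = ∑ i, (f i).length := fun f => length_ofFn f
  have hlo : ∀ f ∈ P, 2 * k ≤ (φ f).length := by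
    intro f hf
    rw [hφl]
    calc 2 * k = ∑ _i : Fin k, 2 := by simp [mul_comm]
      _ ≤ _ := Finset.sum_le_sum (fun i _ => (hlen _ (hP f hf i)).1)
  have hhi : ∀ f ∈ P, (φ f).length ≤ 58 * k := by
    intro f hf
    rw [hφl]
    calc ∑ i, (f i).length ≤ ∑ _i : Fin k, 58 :=
          Finset.sum_le_sum (fun i _ => (hlen _ (hP f hf i)).2)
      _ = 58 * k := by simp [mul_comm]
  have hsum : 1 ≤ ∑ f ∈ P, (791 / 1000 : ℝ) ^ (φ f).length := by
    have h1 : ∑ f ∈ P, (791 / 1000 : ℝ) ^ (φ f).length =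
        (∑ b ∈ S, (791 / 1000 : ℝ) ^ b.length) ^ k := by
      have h2 := Finset.prod_univ_sum (fun _ : Fin k => S)
        (fun (_ : Fin k) (b : List Bool) => (791 / 1000 : ℝ) ^ b.length)
      rw [Finset.prod_const, Finset.card_univ, Fintype.card_fin] at h2
      rw [h2]
      refine Finset.sum_congr rfl (fun f _ => ?_)
      rw [hφl, Finset.prod_pow_eq_pow_sum]
    rw [h1]
    exact one_le_pow₀ hw
  have hfib : ∑ N ∈ Finset.range (58 * k + 1),
      (((P.filter (fun f => (φ f).length = N)).card : ℝ) * (791 / 1000 : ℝ) ^ N) =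
      ∑ f ∈ P, (791 / 1000 : ℝ) ^ (φ f).length := by
    rw [← Finset.sum_fiberwise_of_maps_to (t := Finset.range (58 * k + 1))
      (g := fun f => (φ f).length) (fun f hf => Finset.mem_range.2 (by have := hhi f hf; omega))]
    refine Finset.sum_congr rfl (fun N _ => ?_)
    rw [Finset.sum_congr rfl (g := fun _ => (791 / 1000 : ℝ) ^ N), Finset.sum_const, nsmul_eq_mul]
    intro f hf
    rw [(Finset.mem_filter.1 hf).2]
  have hex : ∃ N ∈ Finset.range (58 * k + 1), 1 / (58 * k + 1 : ℝ) ≤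
      ((P.filter (fun f => (φ f).length = N)).card : ℝ) * (791 / 1000 : ℝ) ^ N := by
    by_contra hcon
    push Not at hcon
    have h3 : ∑ N ∈ Finset.range (58 * k + 1),
        (((P.filter (fun f => (φ f).length = N)).card : ℝ) * (791 / 1000 : ℝ) ^ N) <
        ∑ _N ∈ Finset.range (58 * k + 1), (1 / (58 * k + 1 : ℝ)) :=
      Finset.sum_lt_sum_of_nonempty ⟨0, by simp⟩ hcon
    rw [Finset.sum_const, Finset.card_range, nsmul_eq_mul, hfib] at h3
    have h4 : ((58 * k + 1 : ℕ) : ℝ) * (1 / (58 * k + 1 : ℝ)) = 1 := by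
      push_cast
      field_simp
    rw [h4] at h3
    linarith
  obtain ⟨N, hN, hc⟩ := hex
  set Q := P.filter (fun f => (φ f).length = N) with hQ
  have hpos : (0 : ℝ) < 58 * k + 1 := by positivity
  have hne : Q.Nonempty := by
    rw [Finset.nonempty_iff_ne_empty]
    intro h0
    rw [h0] at hc
    simp only [Finset.card_empty, Nat.cast_zero, zero_mul] at hc
    have : (0 : ℝ) < 1 / (58 * k + 1 : ℝ) := by positivity
    linarith
  have hN2 : 2 * k ≤ N := by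
    obtain ⟨f, hf⟩ := hne
    have h5 := Finset.mem_filter.1 hf
    have := hlo f h5.1
    omega
  refine ⟨N, by omega, Q.image φ, ?_, ?_⟩
  · intro g hg
    obtain ⟨f, hf, rfl⟩ := Finset.mem_image.1 hg
    have h5 := Finset.mem_filter.1 hf
    exact ⟨h5.2, List.ofFn f, hφS f h5.1, rfl⟩
  · rw [Finset.card_image_of_injOn (fun f hf g hg h =>
      hφi f (Finset.mem_filter.1 hf).1 g (Finset.mem_filter.1 hg).1 h)]
    -- card Q * z ^ N ≥ 1/(58k+1) > (z/y)^(2k) ≥ (z/y)^N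
    have hz : (0 : ℝ) < (791 / 1000 : ℝ) ^ N := by positivity
    have h6 : (79100 / 79106 : ℝ) ^ (2 * k) < 1 / (58 * k + 1 : ℝ) := by
      rw [lt_div_iff₀ hpos]
      have h7 : (79100 / 79106 : ℝ) ^ (2 * k) * (79106 / 79100 : ℝ) ^ (2 * k) = 1 := by
        rw [← mul_pow]; norm_num
      have h8 : (0 : ℝ) < (79100 / 79106 : ℝ) ^ (2 * k) := by positivity
      calc (79100 / 79106 : ℝ) ^ (2 * k) * (58 * k + 1) <
          (79100 / 79106 : ℝ) ^ (2 * k) * (79106 / 79100 : ℝ) ^ (2 * k) :=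
            mul_lt_mul_of_pos_left hk h8
        _ = 1 := h7
    have h9 : (79100 / 79106 : ℝ) ^ N ≤ (79100 / 79106 : ℝ) ^ (2 * k) :=
      pow_le_pow_of_le_one (by norm_num) (by norm_num) hN2
    have h10 : (79100 / 79106 : ℝ) ^ N < (Q.card : ℝ) * (791 / 1000 : ℝ) ^ N := by linarith
    have h11 : (79100 / 79106 : ℝ) ^ N = (100000 / 79106 : ℝ) ^ N * (791 / 1000 : ℝ) ^ N := by
      rw [← mul_pow]; norm_num
    rw [h11] at h10
    exact lt_of_mul_lt_mul_right h10 hz.le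

end CntWAux

theorem exists_many : ∃ N : ℕ, 1 ≤ N ∧ ∃ G : Finset (List Bool),
    (∀ g ∈ G, g.length = N ∧ CatI g) ∧ (100000 / 79106 : ℝ) ^ N < G.card := by
  classical
  have hw : 1 ≤ ∑ b ∈ ibl.toFinset, (791 / 1000 : ℝ) ^ b.length := by
    rw [List.sum_toFinset _ ib_nodup]
    exact ib_weight
  obtain ⟨N, hN, G, hG, hc⟩ := CntWAux.many_core ibl.toFinset
    (fun b hb => ib_len b (List.mem_toFinset.1 hb)) hw
    (fun bs cs hb hc h => uniq
      (fun b hb' => ⟨ib_okb b (List.mem_toFinset.1 (hb b hb')),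
        ib_irr b (List.mem_toFinset.1 (hb b hb'))⟩)
      (fun c hc' => ⟨ib_okb c (List.mem_toFinset.1 (hc c hc')),
        ib_irr c (List.mem_toFinset.1 (hc c hc'))⟩) h)
  refine ⟨N, hN, G, fun g hg => ?_, hc⟩
  obtain ⟨h1, bs, hbs, h2⟩ := hG g hg
  exact ⟨h1, bs, fun b hb => List.mem_toFinset.1 (hbs b hb), h2⟩

theorem CatI.cat {u : List Bool} (h : CatI u) : Cat u := by
  obtain ⟨bs, hbs, rfl⟩ := h
  exact ⟨bs, fun b hb => ib_okb b (hbs b hb), rfl⟩

end Pool.Agent.Lib.GJ
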