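import Mathlib

/-!
# GJ.Defs: definitions for the jump of the dimension function at the golden ratio (MP_c51bb9_nt)
-/

open Filter

namespace Pool.Agent.Lib.GJ

/-! ### The spectrum -/

/-- distance to the nearest integer -/
noncomputable def nid (x : ℝ) : ℝ := |x - round x|

/-- the spectrum of `α`: all values `limsup ‖ξ α ^ n‖` -/
def Spec (α : ℝ) : Set ℝ := {v | ∃ ξ : ℝ, v = limsup (fun n : ℕ => nid (ξ * α ^ n)) atTop}

/-- the golden ratio, its conjugate and its square -/
noncomputable def ph : ℝ := (1 + Real.sqrt 5) / 2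

noncomputable def ps : ℝ := (1 - Real.sqrt 5) / 2

noncomputable def be : ℝ := ph ^ 2

theorem sqrt5_lb : (2.2360679 : ℝ) < Real.sqrt 5 := by
  rw [Real.lt_sqrt (by norm_num)]; norm_num

theorem sqrt5_ub : Real.sqrt 5 < (2.2360680 : ℝ) := by
  rw [Real.sqrt_lt' (by norm_num)]; norm_num

theorem sqrt5_sq : Real.sqrt 5 ^ 2 = 5 := Real.sq_sqrt (by norm_num)

theorem ph_lb : (1.61803395 : ℝ) < ph := by
  have := sqrt5_lb; unfold ph; linarith

theorem ph_ub : ph < (1.618034 : ℝ) := by
  have := sqrt5_ub; unfold ph; linarith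

theorem ph_sq : ph ^ 2 = ph + 1 := by
  have := sqrt5_sq; unfold ph; nlinarith

theorem ps_sq : ps ^ 2 = ps + 1 := by
  have := sqrt5_sq; unfold ps; nlinarith

theorem ph_mul_ps : ph * ps = -1 := by
  have := sqrt5_sq; unfold ph ps; nlinarith

theorem ph_add_ps : ph + ps = 1 := by unfold ph ps; ring

theorem ph_sub_ps : ph - ps = Real.sqrt 5 := by unfold ph ps; ring

theorem ph_pos : 0 < ph := by have := ph_lb; linarith

theorem ph_inv : ph⁻¹ = -ps := by
  have h := ph_mul_ps
  have hp := ph_pos
  field_simp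
  linarith

theorem ph_inv' : ph⁻¹ = ph - 1 := by rw [ph_inv]; linarith [ph_add_ps]

theorem ps_eq : ps = 1 - ph := by linarith [ph_add_ps]

theorem be_eq : be = ph + 1 := ph_sq

theorem be_pos : 0 < be := by rw [be_eq]; linarith [ph_pos]

theorem be_inv : be⁻¹ = 2 - ph := by
  have h := be_pos
  rw [inv_eq_iff_eq_inv, ← one_div, eq_div_iff (by linarith [ph_ub])]
  rw [be_eq]; nlinarith [ph_sq]

/-! ### Signed words -/

/-- `sg s w`: the trues of `w` replaced by `s, -s, s, ...`, the falses by `0` -/
def sg : ℤ → List Bool → List ℤ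
  | _, [] => []
  | s, (b :: t) => if b then s :: sg (-s) t else 0 :: sg s t

/-- the sum of two lists -/
def addL (a b : List ℤ) : List ℤ := List.zipWith (· + ·) a b

/-- the parity of the number of trues -/
def par : List Bool → Bool
  | [] => false
  | (b :: t) => xor b (par t)

/-- `1` for `false`, `-1` for `true` -/
def sn (b : Bool) : ℤ := if b then -1 else 1

/-- all boolean words of length `n` -/
def aw (n : ℕ) : Finset (List Bool) :=
  (Finset.univ : Finset (Fin n → Bool)).image (fun f => List.ofFn f)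

theorem mem_aw {n : ℕ} {l : List Bool} : l ∈ aw n ↔ l.length = n := by
  unfold aw
  constructor
  · intro h
    obtain ⟨f, -, rfl⟩ := Finset.mem_image.1 h
    simp
  · rintro rfl
    refine Finset.mem_image.2 ⟨fun i => l.get i, Finset.mem_univ _, ?_⟩
    simp

/-- `n` values of `x` starting at `a` -/
def wd (x : ℤ → Bool) (a : ℤ) (n : ℕ) : List Bool :=
  (List.range n).map (fun i : ℕ => x (a + i))

@[simp] theorem wd_length (x : ℤ → Bool) (a : ℤ) (n : ℕ) : (wd x a n).length = n := by
  simp [wd]

theorem wd_add (x : ℤ → Bool) (a : ℤ) (m n : ℕ) : wd x a (m + n) = wd x a m ++ wd x (a + m) n := by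
  unfold wd
  rw [List.range_add, List.map_append, List.map_map]
  congr 1
  refine List.map_congr_left fun i _ => ?_
  simp only [Function.comp_apply, Nat.cast_add]
  congr 1
  ring

/-- the word `0 ^ t 1 0` -/
def chunk (t : ℕ) : List Bool := List.replicate t false ++ [true, false]

/-! ### Legal sequences -/

/-- the side on which the next difference has to be: `true` for the left side.  `nd x d k` is
`x (d + 2)` changed once for every true `x (d + i)`, `3 ≤ i ≤ k`. -/
def nd (x : ℤ → Bool) (d : ℤ) : ℕ → Bool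
  | 0 => x (d + 2)
  | 1 => x (d + 2)
  | 2 => x (d + 2)
  | (k + 3) => xor (nd x d (k + 2)) (x (d + ((k + 3 : ℕ) : ℤ)))

/-- legal up to radius `K` -/
def Leg (K : ℕ) (x : ℤ → Bool) : Prop :=
  (∀ i, ¬ (x i = true ∧ x (i + 1) = true)) ∧
  ∀ d, x d = true → (x (d - 2) = true ∨ x (d + 2) = true) ∧
    ∀ k : ℕ, 3 ≤ k → k ≤ K → x (d - 2) ≠ x (d + 2) →
      (∀ i : ℕ, 3 ≤ i → i < k → x (d - i) = x (d + i)) →
      x (d - k) ≠ x (d + k) → x (d - k) = nd x d (k - 1)

/-! ### Values -/

/-- the value of an infinite boolean sequence: signs alternate, the first one is `1` -/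
noncomputable def sq (y : ℕ → Bool) (k : ℕ) : ℝ :=
  if y k then (-1) ^ (((Finset.range k).filter (fun i => y i = true)).card) else 0

noncomputable def val (y : ℕ → Bool) : ℝ := ∑' k : ℕ, be⁻¹ ^ k * sq y k

end Pool.Agent.Lib.GJ
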