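import Mathlib
import Pool.Agent.Lib.MP98e33a.Lower

/-!
# Module DimLow: lower bound of the Hausdorff dimension from a coding with separation

PROOF.  `M = Fintype.card α ≥ 2`; identify `α` with `Fin M`.  For `t ∈ [0, 1)` let `D t : ℕ → Fin M` be the base `M` digits (`D t k = ⌊t M ^ (k+1)⌋ mod M`), and `f t = F (D t)`.  If `t ≠ t'` then the digit sequences differ; let `j` be the first difference; then
`|t - t'| ≤ 2 M⁻¹ ^ j`.  With `s = log M / log r⁻¹ > 0`: `(r ^ j) ^ s = M⁻¹ ^ j`, so `|t - t'| ≤ 2 c⁻¹ ^ s |f t - f t'| ^ s`.  So the inverse of `f` is Hoelder with exponent `s` on the image, which is contained in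
`S`, and maps onto `[0, 1)` of dimension `1`: `dimH S ≥ s`.
-/

namespace Pool.Agent.Lib.GJ

open Pool.Agent.Lib.MP98e33a in
theorem dim_low {α : Type} [Fintype α] (hM : 2 ≤ Fintype.card α) {r c : ℝ} (hr0 : 0 < r)
    (hr1 : r < 1) (hc : 0 < c) {S : Set ℝ} (F : (ℕ → α) → ℝ) (hF : ∀ a, F a ∈ S)
    (hsep : ∀ (a b : ℕ → α) (j : ℕ), (∀ i < j, a i = b i) → a j ≠ b j → c * r ^ j ≤ |F a - F b|) :
    ENNReal.ofReal (Real.log (Fintype.card α) / Real.log r⁻¹) ≤ dimH S := by
  set M : ℕ := Fintype.card α with hMdef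
  set N : ℕ → ℕ := fun _ => M with hN
  have hN2 : ∀ j, 2 ≤ N j := fun _ => hM
  have hN0 : ∀ j, 0 < N j := fun j => lt_of_lt_of_le (by norm_num) (hN2 j)
  have hprd : ∀ j, prd N j = M ^ j := by
    intro j
    simp [prd, hN]
  have hrad : ∀ t j, rad N t j < M := fun t j => Nat.mod_lt _ (hN0 j)
  let e : Fin M ≃ α := (Fintype.equivFin α).symm
  let D : ℝ → ℕ → α := fun t k => e ⟨rad N t k, hrad t k⟩
  let f : ℝ → ℝ := fun t => F (D t)
  have hMr : (2 : ℝ) ≤ M := by exact_mod_cast hM
  have hM0 : (0 : ℝ) < M := by linarith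
  have hlogM : 0 < Real.log M := Real.log_pos (by linarith)
  have hlogr : 0 < Real.log r⁻¹ := Real.log_pos ((one_lt_inv₀ hr0).2 hr1)
  set s : ℝ := Real.log M / Real.log r⁻¹ with hs
  have hs0 : 0 < s := div_pos hlogM hlogr
  have hkey : ∀ j : ℕ, (r ^ j) ^ s = ((M : ℝ) ^ j)⁻¹ := by
    intro j
    have h1 : 0 < r ^ j := pow_pos hr0 j
    rw [Real.rpow_def_of_pos h1, Real.log_pow]
    have h2 : Real.log r⁻¹ = - Real.log r := Real.log_inv r
    have h3 : (j : ℝ) * Real.log r * s = -(j * Real.log M) := by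
      rw [hs, h2]
      have h4 : Real.log r ≠ 0 := by
        intro h0
        rw [h2, h0] at hlogr
        simp at hlogr
      field_simp
    rw [h3, Real.exp_neg, ← Real.log_pow, Real.exp_log (pow_pos hM0 j)]
  have hmain := le_dimH_image (f := f) (s := s) (C := 2 * (c ^ s)⁻¹) hs0
    (mul_pos (by norm_num) (inv_pos.2 (Real.rpow_pos_of_pos hc s))) (by
      intro t ht t' ht' hne
      obtain ⟨j, hj1, hj2⟩ := exists_first_diff hN2 ht ht' hne
      have hB := abs_sub_le_rad hN0 ht ht' hj1 hj2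
      have hd : |(rad N t j : ℝ) - rad N t' j| ≤ M := by
        have h1 : (rad N t j : ℝ) ≤ M := by exact_mod_cast (hrad t j).le
        have h2 : (rad N t' j : ℝ) ≤ M := by exact_mod_cast (hrad t' j).le
        have h3 : (0 : ℝ) ≤ rad N t j := Nat.cast_nonneg _
        have h4 : (0 : ℝ) ≤ rad N t' j := Nat.cast_nonneg _
        rw [abs_le]
        constructor <;> linarith
      have hB2 : |t - t'| ≤ 2 * ((M : ℝ) ^ j)⁻¹ := by
        refine hB.trans ?_
        rw [hprd]
        push_cast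
        have h5 : (0 : ℝ) < (M : ℝ) ^ j := pow_pos hM0 j
        rw [div_le_iff₀ (pow_pos hM0 _), pow_succ]
        have h6 : 2 * ((M : ℝ) ^ j)⁻¹ * ((M : ℝ) ^ j * M) = 2 * M := by
          field_simp
        rw [h6]
        linarith
      have hse : c * r ^ j ≤ |f t - f t'| := by
        apply hsep (D t) (D t') j
        · intro i hi
          change e _ = e _
          congr 1
          exact Fin.ext (hj1 i hi)
        · intro h
          apply hj2
          have h7 := e.injective h
          exact congrArg Fin.val h7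
      have h8 : (c * r ^ j) ^ s ≤ |f t - f t'| ^ s :=
        Real.rpow_le_rpow (by positivity) hse hs0.le
      rw [Real.mul_rpow hc.le (by positivity), hkey] at h8
      have h9 : 0 < c ^ s := Real.rpow_pos_of_pos hc s
      calc |t - t'| ≤ 2 * ((M : ℝ) ^ j)⁻¹ := hB2
        _ = 2 * (c ^ s)⁻¹ * (c ^ s * ((M : ℝ) ^ j)⁻¹) := by
          field_simp
        _ ≤ 2 * (c ^ s)⁻¹ * |f t - f t'| ^ s := by
          apply mul_le_mul_of_nonneg_left h8
          positivity)
  refine hmain.trans (dimH_mono ?_)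
  rintro _ ⟨t, _, rfl⟩
  exact hF _

end Pool.Agent.Lib.GJ
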