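import Pool.Agent.Lib.GJ.InT

/-!
# Module InA: the concatenations of inner blocks are accepted by the separation automaton

PROOF.  `ib_acc`: `dstB q b = dst q b` for `q < 34`, and `dstB 99 b = 99`; `dfoldB b q` in `{1, 3, 7, 14}` shows that no intermediate state is `≥ 34`: every value of `dst q b`, `q < 34`, is `< 34` or `= 99` (`decide`), and `99` is absorbing.
`icat_acc`: every `g i` is a concatenation of inner blocks, so from a state in `{1, 3, 7, 14}` it leads to such a state without leaving the living states (induction on the list of blocks, `ib_acc`); so `drun 3 y (N * i)` is in the set for all `i` (induction), and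
`drun 3 y (N * i + k) = dfl (drun 3 y (N * i)) ((g i).take k)` for `k ≤ N`.
-/

namespace Pool.Agent.Lib.GJ

/-- concatenations of inner blocks -/
def CatI (u : List Bool) : Prop := ∃ bs : List (List Bool), (∀ b ∈ bs, b ∈ ibl) ∧ u = bs.flatten

/-- the state after a word -/
def dfl (q : ℕ) (l : List Bool) : ℕ := l.foldl dst q

theorem four_iff (q : ℕ) : four q = true ↔ (q = 3 ∨ q = 7 ∨ q = 14 ∨ q = 1) := by
  simp [four]

theorem four_lt {q : ℕ} (h : four q = true) : q < 34 := by
  rw [four_iff] at h
  omega

theorem dst_lt : ∀ q < 34, (dst q true < 34 ∨ dst q true = 99) ∧ (dst q false < 34 ∨ dst q false = 99) := by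
  decide

theorem dst_lt' {q : ℕ} (hq : q < 34) (b : Bool) : dst q b < 34 ∨ dst q b = 99 := by
  cases b
  · exact (dst_lt q hq).2
  · exact (dst_lt q hq).1

theorem dstB_eq' {q : ℕ} (hq : q < 34) (b : Bool) : dstB q b = dst q b := by
  cases b
  · exact (dstB_eq q hq).2
  · exact (dstB_eq q hq).1

theorem dfoldB_cons (b : Bool) (l : List Bool) (q : ℕ) : dfoldB (b :: l) q = dfoldB l (dstB q b) := rfl

theorem dfoldB_dead (l : List Bool) : dfoldB l 99 = 99 := by
  induction l with
  | nil => rfl
  | cons b l ih =>
    rw [dfoldB_cons]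
    have h : dstB 99 b = 99 := by
      cases b
      · exact dstB_dead.2
      · exact dstB_dead.1
    rw [h, ih]

theorem dfl_cons (q : ℕ) (b : Bool) (l : List Bool) : dfl q (b :: l) = dfl (dst q b) l := rfl

theorem dfl_nil (q : ℕ) : dfl q [] = q := rfl

theorem dfl_append (q : ℕ) (l m : List Bool) : dfl q (l ++ m) = dfl (dfl q l) m := by
  unfold dfl
  rw [List.foldl_append]

theorem dfoldB_alive : ∀ (l : List Bool) (q : ℕ), q < 34 → four (dfoldB l q) = true →
    dfl q l = dfoldB l q ∧ ∀ k, k ≤ l.length → dfl q (l.take k) < 34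
  | [], q, hq, _ => ⟨rfl, fun k _ => by rw [List.take_nil]; exact hq⟩
  | b :: l, q, hq, h => by
      rw [dfoldB_cons, dstB_eq' hq] at h
      rcases dst_lt' hq b with h1 | h1
      · obtain ⟨h2, h3⟩ := dfoldB_alive l (dst q b) h1 h
        refine ⟨?_, ?_⟩
        · rw [dfl_cons, dfoldB_cons, dstB_eq' hq, h2]
        · intro k hk
          rcases k with _ | k
          · rw [List.take_zero]; exact hq
          · rw [List.take_succ_cons, dfl_cons]
            exact h3 k (by simpa using hk)
      · rw [h1, dfoldB_dead] at h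
        exact absurd (four_lt h) (by norm_num)

theorem ib_acc : ∀ b ∈ ibl, ∀ q, four q = true →
    four (dfl q b) = true ∧ ∀ k, k ≤ b.length → dfl q (b.take k) < 34 := by
  intro b hb q hq
  obtain ⟨m, hm, rfl⟩ := List.mem_map.1 hb
  have h := (okc_parts (okc_ib hm)).2.2.1
  unfold okd at h
  simp only [Bool.and_eq_true] at h
  have h4 : four (dfoldB (blk m) q) = true := by
    rcases (four_iff q).1 hq with rfl | rfl | rfl | rfl
    · exact h.2.1
    · exact h.2.2.1
    · exact h.2.2.2
    · exact h.1
  obtain ⟨h5, h6⟩ := dfoldB_alive (blk m) q (four_lt hq) h4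
  exact ⟨by rw [h5]; exact h4, h6⟩

theorem flatten_acc : ∀ bs : List (List Bool), (∀ b ∈ bs, b ∈ ibl) → ∀ q, four q = true →
    four (dfl q bs.flatten) = true ∧ ∀ k, k ≤ bs.flatten.length → dfl q (bs.flatten.take k) < 34
  | [], _, q, hq => ⟨hq, fun k _ => by rw [List.flatten_nil, List.take_nil]; exact four_lt hq⟩
  | b :: bs, hbs, q, hq => by
      obtain ⟨h1, h2⟩ := ib_acc b (hbs b (by simp)) q hq
      obtain ⟨h3, h4⟩ := flatten_acc bs (fun c hc => hbs c (by simp [hc])) (dfl q b) h1
      rw [List.flatten_cons]
      refine ⟨by rw [dfl_append]; exact h3, ?_⟩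
      intro k hk
      rcases le_total k b.length with hkb | hkb
      · rw [List.take_append_of_le_length hkb]
        exact h2 k hkb
      · obtain ⟨j, rfl⟩ := Nat.exists_eq_add_of_le hkb
        rw [List.length_append] at hk
        rw [List.take_length_add_append, dfl_append]
        exact h4 j (by omega)

theorem catI_acc {u : List Bool} (hu : CatI u) {q : ℕ} (hq : four q = true) :
    four (dfl q u) = true ∧ ∀ k, k ≤ u.length → dfl q (u.take k) < 34 := by
  obtain ⟨bs, hbs, rfl⟩ := hu
  exact flatten_acc bs hbs q hq

theorem icat_acc {N : ℕ} (hN : 1 ≤ N) {g : ℕ → List Bool} (hg : ∀ i, (g i).length = N ∧ CatI (g i)) :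
    Acc 3 (fun k => (g (k / N)).getD (k % N) false) := by
  have hrun : ∀ i k, k ≤ N → drun 3 (fun k => (g (k / N)).getD (k % N) false) (N * i + k) =
      dfl (drun 3 (fun k => (g (k / N)).getD (k % N) false) (N * i)) ((g i).take k) := by
    intro i k
    induction k with
    | zero => intro _; rw [List.take_zero, dfl_nil, Nat.add_zero]
    | succ k ih =>
      intro hk
      have hkl : k < (g i).length := by rw [(hg i).1]; omega
      have hd : (N * i + k) / N = i := by
        rw [Nat.mul_add_div (by omega), Nat.div_eq_of_lt (by omega), Nat.add_zero]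
      have hm : (N * i + k) % N = k := by
        rw [Nat.mul_add_mod, Nat.mod_eq_of_lt (by omega)]
      have hstep : drun 3 (fun k => (g (k / N)).getD (k % N) false) (N * i + (k + 1)) =
          dst (drun 3 (fun k => (g (k / N)).getD (k % N) false) (N * i + k))
            ((g ((N * i + k) / N)).getD ((N * i + k) % N) false) := rfl
      rw [hstep, hd, hm, ih (by omega), ← List.take_concat_get' _ _ hkl, dfl_append,
        List.getD_eq_getElem _ _ hkl]
      rfl
  have hfour : ∀ i, four (drun 3 (fun k => (g (k / N)).getD (k % N) false) (N * i)) = true := by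
    intro i
    induction i with
    | zero => exact rfl
    | succ i ih =>
      have h1 := hrun i N le_rfl
      have h2 := (catI_acc (hg i).2 ih).1
      rw [List.take_of_length_le (by rw [(hg i).1])] at h1
      rw [Nat.mul_succ, h1]
      exact h2
  intro n
  have hn : N * (n / N) + n % N = n := Nat.div_add_mod n N
  have hlt : n % N < N := Nat.mod_lt _ (by omega)
  have h := hrun (n / N) (n % N) hlt.le
  rw [hn] at h
  rw [h]
  exact (catI_acc (hg (n / N)).2 (hfour (n / N))).2 _ (by rw [(hg (n / N)).1]; omega)

end Pool.Agent.Lib.GJ
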