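import Pool.Agent.Lib.GJ.Defs

/-!
# Module TL: side values of a one-sided sequence of digits

PROOFS.  `|sq y k| ≤ 1`, so the series converge (geometric with ratio `ph⁻¹ < 1`).
`tv_rec`: split off the term `k = 0` (`Summable.tsum_eq_zero_add`) and use `sq y (k+1) = (if y 0 then -1 else 1) * sq (fun i => y (i+1)) k` (the number of trues below `k + 1` is that of the shifted sequence below `k`, plus one
if `y 0`).
-/

namespace Pool.Agent.Lib.GJ

/-- value of a sequence in base `ph` -/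
noncomputable def tv (y : ℕ → Bool) : ℝ := ∑' k : ℕ, ph⁻¹ ^ (k + 1) * sq y k

/-- value of a sequence in base `be` -/
noncomputable def tb (y : ℕ → Bool) : ℝ := ∑' k : ℕ, be⁻¹ ^ (k + 1) * sq y k

/-- the right side value at `n` -/
noncomputable def tau (X : ℕ → Bool) (n : ℕ) : ℝ := tv (fun k => X (n + 1 + k))

/-- the left side value at `n` -/
noncomputable def lam (X : ℕ → Bool) : ℕ → ℝ
  | 0 => 0
  | n + 1 => ps * (if X n then 1 - lam X n else lam X n)

/-- the value at `n` (up to sign) -/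
noncomputable def Vv (X : ℕ → Bool) (n : ℕ) : ℝ :=
  if X n then 1 - tau X n - lam X n else tau X n - lam X n

/-- digits have distance at least four -/
def Gap4 (X : ℕ → Bool) : Prop :=
  ∀ n, X n = true → X (n + 1) = false ∧ X (n + 2) = false ∧ X (n + 3) = false

namespace TLAux

theorem abs_sq_le (y : ℕ → Bool) (k : ℕ) : |sq y k| ≤ 1 := by
  unfold sq
  split_ifs
  · rw [abs_pow, abs_neg, abs_one, one_pow]
  · simp

theorem sq_zero (y : ℕ → Bool) : sq y 0 = if y 0 then 1 else 0 := by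
  unfold sq
  simp

theorem card_succ (y : ℕ → Bool) (k : ℕ) :
    ((Finset.range (k + 1)).filter (fun i => y i = true)).card =
      ((Finset.range k).filter (fun i => y (i + 1) = true)).card + (if y 0 then 1 else 0) := by
  rw [Finset.card_filter, Finset.card_filter, Finset.sum_range_succ']

theorem sq_succ (y : ℕ → Bool) (k : ℕ) :
    sq y (k + 1) = (if y 0 then -1 else 1) * sq (fun i => y (i + 1)) k := by
  unfold sq
  rw [card_succ]
  by_cases h0 : y 0 = true
  · by_cases h1 : y (k + 1) = true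
    · simp [h0, h1, pow_succ]
    · simp [h0, h1]
  · by_cases h1 : y (k + 1) = true
    · simp [h0, h1]
    · simp [h0, h1]

theorem summ {r : ℝ} (h0 : 0 ≤ r) (h1 : r < 1) (y : ℕ → Bool) :
    Summable (fun k : ℕ => r ^ (k + 1) * sq y k) := by
  refine Summable.of_norm_bounded (g := fun k : ℕ => r ^ k * r)
    ((summable_geometric_of_lt_one h0 h1).mul_right r) (fun k => ?_)
  rw [Real.norm_eq_abs, abs_mul, abs_of_nonneg (pow_nonneg h0 _), pow_succ]
  have hp : 0 ≤ r ^ k * r := mul_nonneg (pow_nonneg h0 _) h0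
  have := mul_le_mul_of_nonneg_left (abs_sq_le y k) hp
  linarith

theorem rec_gen {r : ℝ} (h0 : 0 ≤ r) (h1 : r < 1) (y : ℕ → Bool) :
    (∑' k : ℕ, r ^ (k + 1) * sq y k) =
      r * (if y 0 then 1 - ∑' k : ℕ, r ^ (k + 1) * sq (fun i => y (i + 1)) k
        else ∑' k : ℕ, r ^ (k + 1) * sq (fun i => y (i + 1)) k) := by
  rw [(summ h0 h1 y).tsum_eq_zero_add]
  have h : ∀ k : ℕ, r ^ (k + 1 + 1) * sq y (k + 1) =
      (r * (if y 0 then -1 else 1)) * (r ^ (k + 1) * sq (fun i => y (i + 1)) k) := by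
    intro k
    rw [sq_succ, pow_succ]
    ring
  simp_rw [h]
  rw [tsum_mul_left, sq_zero]
  split_ifs
  · ring
  · ring

theorem phi_lt : ph⁻¹ < 1 := by
  rw [ph_inv']
  linarith [ph_ub]

theorem phi_nn : 0 ≤ ph⁻¹ := by
  rw [ph_inv']
  linarith [ph_lb]

theorem bei_lt : be⁻¹ < 1 := by
  rw [be_inv]
  linarith [ph_lb]

theorem bei_nn : 0 ≤ be⁻¹ := by
  rw [be_inv]
  linarith [ph_ub]

end TLAux

theorem tv_rec (y : ℕ → Bool) : tv y = ph⁻¹ * (if y 0 then 1 - tv (fun i => y (i + 1))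
    else tv (fun i => y (i + 1))) := by
  unfold tv
  exact TLAux.rec_gen TLAux.phi_nn TLAux.phi_lt y

theorem tb_rec (y : ℕ → Bool) : tb y = be⁻¹ * (if y 0 then 1 - tb (fun i => y (i + 1))
    else tb (fun i => y (i + 1))) := by
  unfold tb
  exact TLAux.rec_gen TLAux.bei_nn TLAux.bei_lt y

theorem tb_bound (y : ℕ → Bool) : |tb y| ≤ 1 := by
  have hs := TLAux.summ TLAux.bei_nn TLAux.bei_lt y
  have hg : Summable (fun k : ℕ => be⁻¹ ^ k * be⁻¹) :=
    (summable_geometric_of_lt_one TLAux.bei_nn TLAux.bei_lt).mul_right _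
  have hb : ∀ k : ℕ, ‖be⁻¹ ^ (k + 1) * sq y k‖ ≤ be⁻¹ ^ k * be⁻¹ := by
    intro k
    rw [Real.norm_eq_abs, abs_mul, abs_of_nonneg (pow_nonneg TLAux.bei_nn _), pow_succ]
    have hp : 0 ≤ be⁻¹ ^ k * be⁻¹ := mul_nonneg (pow_nonneg TLAux.bei_nn _) TLAux.bei_nn
    have := mul_le_mul_of_nonneg_left (TLAux.abs_sq_le y k) hp
    linarith
  have h1 : ‖tb y‖ ≤ ∑' k : ℕ, be⁻¹ ^ k * be⁻¹ := tsum_of_norm_bounded hg.hasSum hb
  rw [tsum_mul_right, tsum_geometric_of_lt_one TLAux.bei_nn TLAux.bei_lt,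
    Real.norm_eq_abs] at h1
  refine h1.trans ?_
  have h2 : (0 : ℝ) < 1 - be⁻¹ := by linarith [TLAux.bei_lt]
  rw [inv_mul_le_iff₀ h2, be_inv]
  linarith [ph_lb]

theorem tau_rec (X : ℕ → Bool) (n : ℕ) :
    tau X n = ph⁻¹ * (if X (n + 1) then 1 - tau X (n + 1) else tau X (n + 1)) := by
  unfold tau
  rw [tv_rec]
  have h : (fun i => X (n + 1 + (i + 1))) = (fun k => X (n + 1 + 1 + k)) := by
    funext i
    congr 1
    ring
  simp only [Nat.add_zero, h]

end Pool.Agent.Lib.GJ
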