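import Pool.Agent.Lib.GJ.SepK
import Pool.Agent.Lib.GJ.TL

/-!
# Module SepT: separation of the sums `val u + ph⁻¹ * val v`

PROOF.  `val y = ∑' k, be⁻¹ ^ k * sq y k` satisfies `val y = if y 0 then 1 - be⁻¹ * val (y ∘ succ) else be⁻¹ * val (y ∘ succ)` and `|val y| ≤ 3`.
(1) Bounds: `Acc q y`, `q < 34`, implies `dlo q / 10 ^ 6 ≤ val y ≤ dhi q / 10 ^ 6`: by induction on `n` (for all `q`, `y`) `dlo q / 10 ^ 6 - 4 be⁻¹ ^ n ≤ val y ≤ dhi q / 10 ^ 6 + 4 be⁻¹ ^ n` with `skB_all`
(`0.381966 < be⁻¹ = 2 - ph < 0.381967`; `val y ≥ ...`: for the bit `false` `val y = be⁻¹ val y' ≥ be⁻¹ (lo' - 4 be⁻¹ ^ n)`, `be⁻¹ lo' ≥ 0.381966 lo' ≥ lo`; for the bit `true` `val y = 1 - be⁻¹ val y'`), then `n → ∞`.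
(2) Semantics of a node `t`: four sequences `F, F', P, P'`, accepted from the states of the node.  Put `W = (±val F) - (±val F')`, `Q = (±val P) - (±val P')` (signs of the node: minus if the second component is `true`), and
`Δ t = W + ph⁻¹ Q - (x + y ph)` if `par = false`, `Δ t = ph⁻¹ W + Q - (x + y ph)` if `par = true`.  Reading a bit of each of the two active sequences: `±val F = bv * 1 + be⁻¹ * (±' val F_1)` where the new sign is changed iff the bit is true; so
`Δ t = ph⁻¹ * Δ (nxt t b b')`.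
(3) `killed t = true` implies `|Δ t| ≥ 1 / 100`.
(4) `skN n t = true` and the sequences accepted imply `|Δ t| ≥ ph⁻¹ ^ n / 100`.
(5) Factor out the common beginning and apply `sk0`.
So `κ = ph⁻¹ ^ 7 / 100`.
-/

namespace Pool.Agent.Lib.GJ

namespace SepTAux

/-! ### the value -/

theorem phi_ub : ph⁻¹ ≤ (618034 : ℝ) / 1000000 := by
  rw [ph_inv']; linarith [ph_ub]

theorem phi_lb : (618033 : ℝ) / 1000000 ≤ ph⁻¹ := by
  rw [ph_inv']; linarith [ph_lb]

theorem bei_ub : be⁻¹ ≤ (381967 : ℝ) / 1000000 := by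
  rw [be_inv]; linarith [ph_lb]

theorem bei_lb : (381966 : ℝ) / 1000000 ≤ be⁻¹ := by
  rw [be_inv]; linarith [ph_ub]

theorem tb_val (y : ℕ → Bool) : tb y = be⁻¹ * val y := by
  unfold tb val
  rw [← tsum_mul_left]
  refine tsum_congr fun k => ?_
  rw [pow_succ]
  ring

theorem val_rec (y : ℕ → Bool) : val y = if y 0 then 1 - be⁻¹ * val (fun i => y (i + 1))
    else be⁻¹ * val (fun i => y (i + 1)) := by
  have h := tb_rec y
  rw [tb_val, tb_val] at h
  have hb : be⁻¹ ≠ 0 := inv_ne_zero be_pos.ne'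
  exact mul_left_cancel₀ hb h

theorem val_bound (y : ℕ → Bool) : |val y| ≤ 3 := by
  have h := tb_bound y
  rw [tb_val, abs_mul, abs_of_pos (inv_pos.2 be_pos)] at h
  have h1 := bei_lb
  have h2 : 0 ≤ |val y| := abs_nonneg _
  nlinarith

theorem drun_shift (q : ℕ) (y : ℕ → Bool) (j n : ℕ) :
    drun (drun q y j) (fun i => y (i + j)) n = drun q y (j + n) := by
  induction n with
  | zero => rfl
  | succ n ih =>
    show dst (drun (drun q y j) (fun i => y (i + j)) n) (y (n + j)) = dst (drun q y (j + n)) (y (j + n))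
    rw [ih, add_comm n j]

theorem acc_shift {q : ℕ} {y : ℕ → Bool} (h : Acc q y) (j : ℕ) :
    Acc (drun q y j) (fun i => y (i + j)) := by
  intro n
  rw [drun_shift]
  exact h _

theorem acc_one {q : ℕ} {y : ℕ → Bool} (h : Acc q y) :
    Acc (dst q (y 0)) (fun i => y (i + 1)) := acc_shift h 1

theorem acc_lt {q : ℕ} {y : ℕ → Bool} (h : Acc q y) : q < 34 := h 0

theorem skB_spec {q : ℕ} (hq : q < 34) : skB q = true :=
  List.all_eq_true.1 skB_all q (List.mem_range.2 hq)

theorem lo_nn {q : ℕ} (hq : q < 34) : 0 ≤ dlo.getD q 0 := by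
  have h := skB_spec hq
  unfold skB at h
  simp only [Bool.and_eq_true, decide_eq_true_eq] at h
  exact h.1.1.1

theorem hi_nn {q : ℕ} (hq : q < 34) : 0 ≤ dhi.getD q 0 := by
  have h := skB_spec hq
  unfold skB at h
  simp only [Bool.and_eq_true, decide_eq_true_eq] at h
  exact h.1.1.2

theorem lo_le {q : ℕ} (hq : q < 34) : dlo.getD q 0 ≤ 1000000 := by
  have h : (List.range 34).all (fun q => decide (dlo.getD q 0 ≤ 1000000)) = true := by
    decide +kernel
  have := List.all_eq_true.1 h q (List.mem_range.2 hq)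
  simpa using this

theorem sk_false {q : ℕ} (hq : q < 34) (h1 : dst q false < 34) :
    1000000 * dlo.getD q 0 ≤ 381966 * dlo.getD (dst q false) 0 ∧
    381967 * dhi.getD (dst q false) 0 ≤ 1000000 * dhi.getD q 0 := by
  have h := skB_spec hq
  unfold skB at h
  simp only [Bool.and_eq_true, Bool.or_eq_true, decide_eq_true_eq] at h
  rcases h.1.2 with h2 | h2
  · omega
  · exact h2

theorem sk_true {q : ℕ} (hq : q < 34) (h1 : dst q true < 34) :
    1000000 * dlo.getD q 0 ≤ 1000000000000 - 381967 * dhi.getD (dst q true) 0 ∧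
    1000000000000 - 381966 * dlo.getD (dst q true) 0 ≤ 1000000 * dhi.getD q 0 := by
  have h := skB_spec hq
  unfold skB at h
  simp only [Bool.and_eq_true, Bool.or_eq_true, decide_eq_true_eq] at h
  rcases h.2 with h2 | h2
  · omega
  · exact h2

theorem bnd_n (n : ℕ) : ∀ (q : ℕ) (y : ℕ → Bool), Acc q y →
    ((dlo.getD q 0 : ℤ) : ℝ) / 1000000 - 4 * be⁻¹ ^ n ≤ val y ∧
    val y ≤ ((dhi.getD q 0 : ℤ) : ℝ) / 1000000 + 4 * be⁻¹ ^ n := by
  induction n with
  | zero =>
    intro q y h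
    have h1 := abs_le.1 (val_bound y)
    have h2 : ((dlo.getD q 0 : ℤ) : ℝ) ≤ 1000000 := by exact_mod_cast lo_le (acc_lt h)
    have h3 : (0 : ℝ) ≤ ((dhi.getD q 0 : ℤ) : ℝ) := by exact_mod_cast hi_nn (acc_lt h)
    rw [pow_zero]
    constructor <;> linarith
  | succ n ih =>
    intro q y h
    obtain ⟨i1, i2⟩ := ih _ _ (acc_one h)
    have hq := acc_lt h
    have hq' := acc_lt (acc_one h)
    have e1 := bei_lb
    have e2 := bei_ub
    have hb0 : (0 : ℝ) < be⁻¹ := inv_pos.2 be_pos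
    have l0 : (0 : ℝ) ≤ ((dlo.getD (dst q (y 0)) 0 : ℤ) : ℝ) := by exact_mod_cast lo_nn hq'
    have u0 : (0 : ℝ) ≤ ((dhi.getD (dst q (y 0)) 0 : ℤ) : ℝ) := by exact_mod_cast hi_nn hq'
    have j1 := mul_le_mul_of_nonneg_left i1 hb0.le
    have j2 := mul_le_mul_of_nonneg_left i2 hb0.le
    have k1 := mul_le_mul_of_nonneg_right e1 l0
    have k2 := mul_le_mul_of_nonneg_right e2 u0
    rw [val_rec y]
    have hp : be⁻¹ ^ (n + 1) = be⁻¹ * be⁻¹ ^ n := by rw [pow_succ]; ring
    rw [hp]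
    cases hy : y 0 with
    | false =>
      rw [hy] at hq' j1 j2 k1 k2
      obtain ⟨a1, a2⟩ := sk_false hq hq'
      have b1 : (1000000 : ℝ) * ((dlo.getD q 0 : ℤ) : ℝ) ≤
          381966 * ((dlo.getD (dst q false) 0 : ℤ) : ℝ) := by exact_mod_cast a1
      have b2 : (381967 : ℝ) * ((dhi.getD (dst q false) 0 : ℤ) : ℝ) ≤
          1000000 * ((dhi.getD q 0 : ℤ) : ℝ) := by exact_mod_cast a2
      simp only [Bool.false_eq_true, if_false]
      constructor <;> nlinarith
    | true =>
      rw [hy] at hq' j1 j2 k1 k2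
      obtain ⟨a1, a2⟩ := sk_true hq hq'
      have b1 : (1000000 : ℝ) * ((dlo.getD q 0 : ℤ) : ℝ) ≤
          1000000000000 - 381967 * ((dhi.getD (dst q true) 0 : ℤ) : ℝ) := by exact_mod_cast a1
      have b2 : (1000000000000 : ℝ) - 381966 * ((dlo.getD (dst q true) 0 : ℤ) : ℝ) ≤
          1000000 * ((dhi.getD q 0 : ℤ) : ℝ) := by exact_mod_cast a2
      simp only [if_true]
      constructor <;> nlinarith

theorem exists_small {e : ℝ} (he : 0 < e) : ∃ n : ℕ, 4 * be⁻¹ ^ n < e := by
  obtain ⟨n, hn⟩ := exists_pow_lt_of_lt_one (show (0 : ℝ) < e / 4 by positivity) TLAux.bei_lt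
  exact ⟨n, by linarith⟩

theorem bnd {q : ℕ} {y : ℕ → Bool} (h : Acc q y) :
    ((dlo.getD q 0 : ℤ) : ℝ) / 1000000 ≤ val y ∧ val y ≤ ((dhi.getD q 0 : ℤ) : ℝ) / 1000000 := by
  constructor
  · refine le_of_forall_pos_le_add fun e he => ?_
    obtain ⟨n, hn⟩ := exists_small he
    have := (bnd_n n q y h).1
    linarith
  · refine le_of_forall_pos_le_add fun e he => ?_
    obtain ⟨n, hn⟩ := exists_small he
    have := (bnd_n n q y h).2
    linarith

/-! ### nodes -/

/-- the sign -/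
noncomputable def sgn (s : Bool) : ℝ := if s then -1 else 1

theorem sgn_xor (a b : Bool) : sgn (xor a b) = sgn a * sgn b := by
  cases a <;> cases b <;> simp [sgn]

theorem abs_sgn (a : Bool) : |sgn a| = 1 := by
  cases a <;> simp [sgn]

theorem sgn_sq (a : Bool) : sgn a * sgn a = 1 := by
  cases a <;> simp [sgn]

theorem sval_rec (s : Bool) (y : ℕ → Bool) :
    sgn s * val y = (bv s (y 0) : ℤ) + be⁻¹ * (sgn (xor s (y 0)) * val (fun i => y (i + 1))) := by
  rw [val_rec y]
  cases hy : y 0 <;> cases s <;> simp [sgn, bv] <;> ring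

theorem sbnd {q : ℕ} {y : ℕ → Bool} (h : Acc q y) (s : Bool) :
    ((rlo q s : ℤ) : ℝ) / 1000000 ≤ sgn s * val y ∧ sgn s * val y ≤ ((rhi q s : ℤ) : ℝ) / 1000000 := by
  obtain ⟨h1, h2⟩ := bnd h
  cases s
  · simp only [rlo, rhi, sgn, Bool.false_eq_true, if_false]
    constructor <;> linarith
  · simp only [rlo, rhi, sgn, if_true, Int.cast_neg]
    constructor <;> linarith

/-- the scaled difference -/
noncomputable def De (t : Nod) (F F' P P' : ℕ → Bool) : ℝ :=
  if t.par then ph⁻¹ * (sgn t.f.2 * val F - sgn t.f'.2 * val F') +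
      (sgn t.p.2 * val P - sgn t.p'.2 * val P') - (t.x + t.y * ph)
  else (sgn t.f.2 * val F - sgn t.f'.2 * val F') +
      ph⁻¹ * (sgn t.p.2 * val P - sgn t.p'.2 * val P') - (t.x + t.y * ph)

/-- accepted -/
def Ok (t : Nod) (F F' P P' : ℕ → Bool) : Prop :=
  Acc t.f.1 F ∧ Acc t.f'.1 F' ∧ Acc t.p.1 P ∧ Acc t.p'.1 P'

theorem phi_sq : ph⁻¹ * ph⁻¹ = be⁻¹ := by
  rw [be_inv, ph_inv']
  nlinarith [ph_sq]

theorem phi_ph : ph⁻¹ * ph = 1 := inv_mul_cancel₀ ph_pos.ne'

theorem De_nxt_false {t : Nod} (hp : t.par = false) (F F' P P' : ℕ → Bool) :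
    De t F F' P P' = ph⁻¹ * De (nxt t (F 0) (F' 0)) (fun i => F (i + 1)) (fun i => F' (i + 1)) P P' := by
  unfold De nxt
  rw [hp]
  simp only [Bool.false_eq_true, if_false, if_true]
  rw [sval_rec t.f.2 F, sval_rec t.f'.2 F', ← phi_sq]
  push_cast
  have h1 := phi_ph
  have h2 := ph_inv'
  generalize sgn (xor t.f.2 (F 0)) * val (fun i => F (i + 1)) = A
  generalize sgn (xor t.f'.2 (F' 0)) * val (fun i => F' (i + 1)) = B
  generalize sgn t.p.2 * val P = C
  generalize sgn t.p'.2 * val P' = D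
  linear_combination ((t.x : ℝ) - ((bv t.f.2 (F 0) : ℝ) - (bv t.f'.2 (F' 0) : ℝ)) + t.y) * h1 + (t.y : ℝ) * h2

theorem De_nxt_true {t : Nod} (hp : t.par = true) (F F' P P' : ℕ → Bool) :
    De t F F' P P' = ph⁻¹ * De (nxt t (P 0) (P' 0)) F F' (fun i => P (i + 1)) (fun i => P' (i + 1)) := by
  unfold De nxt
  rw [hp]
  simp only [Bool.false_eq_true, if_false, if_true]
  rw [sval_rec t.p.2 P, sval_rec t.p'.2 P', ← phi_sq]
  push_cast
  have h1 := phi_ph
  have h2 := ph_inv'
  generalize sgn (xor t.p.2 (P 0)) * val (fun i => P (i + 1)) = A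
  generalize sgn (xor t.p'.2 (P' 0)) * val (fun i => P' (i + 1)) = B
  generalize sgn t.f.2 * val F = C
  generalize sgn t.f'.2 * val F' = D
  linear_combination ((t.x : ℝ) - ((bv t.p.2 (P 0) : ℝ) - (bv t.p'.2 (P' 0) : ℝ)) + t.y) * h1 + (t.y : ℝ) * h2

theorem Ok_nxt_false {t : Nod} (hp : t.par = false) {F F' P P' : ℕ → Bool} (h : Ok t F F' P P') :
    Ok (nxt t (F 0) (F' 0)) (fun i => F (i + 1)) (fun i => F' (i + 1)) P P' := by
  unfold Ok nxt
  rw [hp]
  simp only [Bool.false_eq_true, if_false]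
  exact ⟨acc_one h.1, acc_one h.2.1, h.2.2.1, h.2.2.2⟩

theorem Ok_nxt_true {t : Nod} (hp : t.par = true) {F F' P P' : ℕ → Bool} (h : Ok t F F' P P') :
    Ok (nxt t (P 0) (P' 0)) F F' (fun i => P (i + 1)) (fun i => P' (i + 1)) := by
  unfold Ok nxt
  rw [hp]
  simp only [if_true]
  exact ⟨h.1, h.2.1, acc_one h.2.2.1, acc_one h.2.2.2⟩

theorem muU_le (z : ℤ) : ph⁻¹ * z * 1000000 ≤ (muU z : ℤ) := by
  unfold muU
  have h1 := phi_ub
  have h2 := phi_lb
  split_ifs with h
  · have h' : (0 : ℝ) ≤ z := by exact_mod_cast h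
    push_cast
    nlinarith
  · have h' : (z : ℝ) ≤ 0 := by exact_mod_cast (not_le.1 h).le
    push_cast
    nlinarith

theorem muL_le (z : ℤ) : ((muL z : ℤ) : ℝ) ≤ ph⁻¹ * z * 1000000 := by
  unfold muL
  have h1 := phi_ub
  have h2 := phi_lb
  split_ifs with h
  · have h' : (0 : ℝ) ≤ z := by exact_mod_cast h
    push_cast
    nlinarith
  · have h' : (z : ℝ) ≤ 0 := by exact_mod_cast (not_le.1 h).le
    push_cast
    nlinarith

theorem dl_le (y : ℤ) : (((if 0 ≤ y then 1618033 * y else 1618034 * y : ℤ)) : ℝ) ≤ y * ph * 1000000 := by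
  have h1 := ph_ub
  have h2 := ph_lb
  split_ifs with h
  · have h' : (0 : ℝ) ≤ y := by exact_mod_cast h
    push_cast
    nlinarith
  · have h' : (y : ℝ) ≤ 0 := by exact_mod_cast (not_le.1 h).le
    push_cast
    nlinarith

theorem du_le (y : ℤ) : y * ph * 1000000 ≤ (((if 0 ≤ y then 1618034 * y else 1618033 * y : ℤ)) : ℝ) := by
  have h1 := ph_ub
  have h2 := ph_lb
  split_ifs with h
  · have h' : (0 : ℝ) ≤ y := by exact_mod_cast h
    push_cast
    nlinarith
  · have h' : (y : ℝ) ≤ 0 := by exact_mod_cast (not_le.1 h).le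
    push_cast
    nlinarith

/-- arithmetic core of `killed` -/
theorem kill_core {U V : ℝ} {a b c d x y H Lo Dl Du : ℤ}
    (hU1 : (b : ℝ) / 1000000 ≤ U) (hU2 : U ≤ (a : ℝ) / 1000000)
    (hV1 : (d : ℝ) / 1000000 ≤ V) (hV2 : V ≤ (c : ℝ) / 1000000)
    (hH : H = 1000000 * a + muU c) (hL : Lo = 1000000 * b + muL d)
    (hDl : Dl = 1000000000000 * x + 1000000 * (if 0 ≤ y then 1618033 * y else 1618034 * y))
    (hDu : Du = 1000000000000 * x + 1000000 * (if 0 ≤ y then 1618034 * y else 1618033 * y))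
    (h : H + 10000000000 ≤ Dl ∨ Du ≤ Lo - 10000000000) :
    1 / 100 ≤ |U + ph⁻¹ * V - (x + y * ph)| := by
  have p0 : (0 : ℝ) ≤ ph⁻¹ := TLAux.phi_nn
  have m1 := muU_le c
  have m2 := muL_le d
  have m3 := dl_le y
  have m4 := du_le y
  have n1 := mul_le_mul_of_nonneg_left hV1 p0
  have n2 := mul_le_mul_of_nonneg_left hV2 p0
  have hH' : (H : ℝ) = 1000000 * a + muU c := by exact_mod_cast hH
  have hL' : (Lo : ℝ) = 1000000 * b + muL d := by exact_mod_cast hL
  have hDl' : (Dl : ℝ) = 1000000000000 * x +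
      1000000 * (((if 0 ≤ y then 1618033 * y else 1618034 * y : ℤ)) : ℝ) := by
    rw [hDl]; push_cast; ring
  have hDu' : (Du : ℝ) = 1000000000000 * x +
      1000000 * (((if 0 ≤ y then 1618034 * y else 1618033 * y : ℤ)) : ℝ) := by
    rw [hDu]; push_cast; ring
  rcases h with h | h
  · have h' : (H : ℝ) + 10000000000 ≤ Dl := by exact_mod_cast h
    rw [abs_sub_comm]
    refine le_trans ?_ (le_abs_self _)
    linarith
  · have h' : (Du : ℝ) ≤ Lo - 10000000000 := by exact_mod_cast h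
    refine le_trans ?_ (le_abs_self _)
    linarith

theorem killed_spec {t : Nod} {F F' P P' : ℕ → Bool} (h : Ok t F F' P P') (hk : killed t = true) :
    1 / 100 ≤ |De t F F' P P'| := by
  obtain ⟨a1, a2⟩ := sbnd h.1 t.f.2
  obtain ⟨b1, b2⟩ := sbnd h.2.1 t.f'.2
  obtain ⟨c1, c2⟩ := sbnd h.2.2.1 t.p.2
  obtain ⟨d1, d2⟩ := sbnd h.2.2.2 t.p'.2
  unfold killed at hk
  unfold De
  cases hp : t.par with
  | false =>
    simp only [hp, Bool.false_eq_true, if_false, Bool.or_eq_true, decide_eq_true_eq] at hk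
    simp only [Bool.false_eq_true, if_false]
    refine kill_core (a := rhi t.f.1 t.f.2 - rlo t.f'.1 t.f'.2)
      (b := rlo t.f.1 t.f.2 - rhi t.f'.1 t.f'.2) (c := rhi t.p.1 t.p.2 - rlo t.p'.1 t.p'.2)
      (d := rlo t.p.1 t.p.2 - rhi t.p'.1 t.p'.2) ?_ ?_ ?_ ?_ rfl rfl rfl rfl hk
    all_goals push_cast; linarith
  | true =>
    simp only [hp, if_true, Bool.or_eq_true, decide_eq_true_eq] at hk
    simp only [if_true]
    have e : ph⁻¹ * (sgn t.f.2 * val F - sgn t.f'.2 * val F') +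
        (sgn t.p.2 * val P - sgn t.p'.2 * val P') - (t.x + t.y * ph) =
        (sgn t.p.2 * val P - sgn t.p'.2 * val P') +
        ph⁻¹ * (sgn t.f.2 * val F - sgn t.f'.2 * val F') - (t.x + t.y * ph) := by ring
    rw [e]
    refine kill_core (a := rhi t.p.1 t.p.2 - rlo t.p'.1 t.p'.2)
      (b := rlo t.p.1 t.p.2 - rhi t.p'.1 t.p'.2) (c := rhi t.f.1 t.f.2 - rlo t.f'.1 t.f'.2)
      (d := rlo t.f.1 t.f.2 - rhi t.f'.1 t.f'.2) ?_ ?_ ?_ ?_ (add_comm _ _) (add_comm _ _) rfl rfl hk
    all_goals push_cast; linarith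

theorem dead_spec {t : Nod} {F F' P P' : ℕ → Bool} (h : Ok t F F' P P') : dead t = false := by
  have h1 := acc_lt h.1
  have h2 := acc_lt h.2.1
  have h3 := acc_lt h.2.2.1
  have h4 := acc_lt h.2.2.2
  unfold dead
  simp only [Bool.or_eq_false_iff, decide_eq_false_iff_not, not_le]
  exact ⟨⟨⟨h1, h2⟩, h3⟩, h4⟩

theorem phi_pow_le (n : ℕ) : ph⁻¹ ^ n ≤ 1 := pow_le_one₀ TLAux.phi_nn TLAux.phi_lt.le

theorem skN_spec (n : ℕ) : ∀ (t : Nod) (F F' P P' : ℕ → Bool), Ok t F F' P P' → skN n t = true →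
    ph⁻¹ ^ n / 100 ≤ |De t F F' P P'| := by
  induction n with
  | zero =>
    intro t F F' P P' h hs
    unfold skN at hs
    rw [dead_spec h, Bool.false_or] at hs
    have := killed_spec h hs
    rw [pow_zero]
    exact this
  | succ n ih =>
    intro t F F' P P' h hs
    unfold skN at hs
    rw [dead_spec h, Bool.false_or] at hs
    cases hk : killed t with
    | true =>
      have h1 := killed_spec h hk
      have h2 := phi_pow_le (n + 1)
      linarith
    | false =>
      rw [hk, Bool.false_or] at hs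
      simp only [Bool.and_eq_true] at hs
      obtain ⟨⟨⟨s1, s2⟩, s3⟩, s4⟩ := hs
      have hall : ∀ b b' : Bool, skN n (nxt t b b') = true := by
        intro b b'
        cases b <;> cases b'
        · exact s4
        · exact s3
        · exact s2
        · exact s1
      have p0 : (0 : ℝ) ≤ ph⁻¹ := TLAux.phi_nn
      cases hp : t.par with
      | false =>
        rw [De_nxt_false hp, abs_mul, abs_of_nonneg p0]
        have h1 := ih _ _ _ _ _ (Ok_nxt_false hp h) (hall _ _)
        have h2 := mul_le_mul_of_nonneg_left h1 p0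
        rw [pow_succ]
        linarith
      | true =>
        rw [De_nxt_true hp, abs_mul, abs_of_nonneg p0]
        have h1 := ih _ _ _ _ _ (Ok_nxt_true hp h) (hall _ _)
        have h2 := mul_le_mul_of_nonneg_left h1 p0
        rw [pow_succ]
        linarith

theorem sk0_spec {f p : ℕ} (hf : f < 34) (hp : p < 34) (s par : Bool) : sk0 f p s par = true := by
  have h := List.all_eq_true.1 skf_all f (List.mem_range.2 hf)
  unfold skf at h
  have h2 := List.all_eq_true.1 h p (List.mem_range.2 hp)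
  simp only [Bool.and_eq_true] at h2
  obtain ⟨⟨⟨s1, s2⟩, s3⟩, s4⟩ := h2
  cases s <;> cases par
  · exact s1
  · exact s3
  · exact s2
  · exact s4

/-- the first difference -/
theorem first {f p : ℕ} (s par : Bool) {F F' P P' : ℕ → Bool}
    (h : Ok ⟨0, 0, (f, false), (f, false), (p, s), (p, s), par⟩ F F' P P')
    (hd : if par then P 0 ≠ P' 0 else F 0 ≠ F' 0) :
    ph⁻¹ ^ 6 / 100 ≤ |De ⟨0, 0, (f, false), (f, false), (p, s), (p, s), par⟩ F F' P P'| := by
  have hs := sk0_spec (acc_lt h.1) (acc_lt h.2.2.1) s par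
  unfold sk0 at hs
  simp only [Bool.and_eq_true] at hs
  have hall : ∀ b b' : Bool, b ≠ b' →
      skN 5 (nxt ⟨0, 0, (f, false), (f, false), (p, s), (p, s), par⟩ b b') = true := by
    intro b b' hb
    cases b <;> cases b'
    · exact absurd rfl hb
    · exact hs.2
    · exact hs.1
    · exact absurd rfl hb
  have p0 : (0 : ℝ) ≤ ph⁻¹ := TLAux.phi_nn
  cases par with
  | false =>
    have hd' : F 0 ≠ F' 0 := by simpa using hd
    rw [De_nxt_false rfl, abs_mul, abs_of_nonneg p0]
    have h1 := skN_spec 5 _ _ _ _ _ (Ok_nxt_false rfl h) (hall _ _ hd')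
    have h2 := mul_le_mul_of_nonneg_left h1 p0
    have h3 : ph⁻¹ ^ 6 = ph⁻¹ * ph⁻¹ ^ 5 := by ring
    rw [h3]
    linarith
  | true =>
    have hd' : P 0 ≠ P' 0 := by simpa using hd
    rw [De_nxt_true rfl, abs_mul, abs_of_nonneg p0]
    have h1 := skN_spec 5 _ _ _ _ _ (Ok_nxt_true rfl h) (hall _ _ hd')
    have h2 := mul_le_mul_of_nonneg_left h1 p0
    have h3 : ph⁻¹ ^ 6 = ph⁻¹ * ph⁻¹ ^ 5 := by ring
    rw [h3]
    linarith

/-! ### common beginnings -/

/-- the parity of the first `j` bits -/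
def ep : ℕ → (ℕ → Bool) → Bool
  | 0, _ => false
  | j + 1, y => xor (y 0) (ep j (fun i => y (i + 1)))

theorem val_sub (j : ℕ) : ∀ (u u' : ℕ → Bool), (∀ i < j, u i = u' i) →
    val u - val u' = be⁻¹ ^ j * (sgn (ep j u) * (val (fun i => u (i + j)) - val (fun i => u' (i + j)))) := by
  induction j with
  | zero =>
    intro u u' _
    simp [ep, sgn]
  | succ j ih =>
    intro u u' h
    have h1 := ih (fun i => u (i + 1)) (fun i => u' (i + 1)) (fun i hi => h (i + 1) (by omega))
    have h2 : (fun i => u (i + j + 1)) = fun i => u (i + (j + 1)) := by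
      funext i; rw [add_assoc]
    have h3 : (fun i => u' (i + j + 1)) = fun i => u' (i + (j + 1)) := by
      funext i; rw [add_assoc]
    simp only [h2, h3] at h1
    have h0 : u 0 = u' 0 := h 0 (by omega)
    rw [val_rec u, val_rec u', ← h0, pow_succ]
    unfold ep
    rw [sgn_xor]
    cases hu : u 0 with
    | false =>
      simp only [Bool.false_eq_true, if_false, sgn]
      rw [← mul_sub, h1]
      simp only [sgn]
      ring
    | true =>
      simp only [if_true, sgn]
      have h4 : (1 : ℝ) - be⁻¹ * val (fun i => u (i + 1)) - (1 - be⁻¹ * val (fun i => u' (i + 1))) =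
          -be⁻¹ * (val (fun i => u (i + 1)) - val (fun i => u' (i + 1))) := by ring
      rw [h4, h1]
      simp only [sgn]
      ring

theorem drun_congr {u u' : ℕ → Bool} (q j : ℕ) (h : ∀ i < j, u i = u' i) :
    drun q u j = drun q u' j := by
  induction j with
  | zero => rfl
  | succ j ih =>
    show dst (drun q u j) (u j) = dst (drun q u' j) (u' j)
    rw [ih (fun i hi => h i (by omega)), h j (by omega)]

end SepTAux

open SepTAux in
theorem sep : ∃ κ : ℝ, 0 < κ ∧ ∀ (u u' v v' : ℕ → Bool) (j : ℕ),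
    Acc 3 u → Acc 3 u' → Acc 3 v → Acc 3 v' → (∀ i < j, u i = u' i ∧ v i = v' i) →
    (u j ≠ u' j ∨ v j ≠ v' j) →
    κ * be⁻¹ ^ j ≤ |(val u + ph⁻¹ * val v) - (val u' + ph⁻¹ * val v')| := by
  have p0 : (0 : ℝ) < ph⁻¹ := inv_pos.2 ph_pos
  have b0 : (0 : ℝ) < be⁻¹ := inv_pos.2 be_pos
  refine ⟨ph⁻¹ ^ 7 / 100, by positivity, ?_⟩
  intro u u' v v' j au au' av av' hag hdiff
  have hu : ∀ i < j, u i = u' i := fun i hi => (hag i hi).1
  have hv : ∀ i < j, v i = v' i := fun i hi => (hag i hi).2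
  have aU := acc_shift au j
  have aU' := acc_shift au' j
  have aV := acc_shift av j
  have aV' := acc_shift av' j
  rw [← drun_congr 3 j hu] at aU'
  rw [← drun_congr 3 j hv] at aV'
  have tot : (val u + ph⁻¹ * val v) - (val u' + ph⁻¹ * val v') =
      (be⁻¹ ^ j * sgn (ep j u)) * ((val (fun i => u (i + j)) - val (fun i => u' (i + j))) +
        ph⁻¹ * (sgn (xor (ep j u) (ep j v)) * val (fun i => v (i + j)) -
          sgn (xor (ep j u) (ep j v)) * val (fun i => v' (i + j)))) := by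
    have h1 := val_sub j u u' hu
    have h2 := val_sub j v v' hv
    have h3 := sgn_sq (ep j u)
    rw [sgn_xor]
    generalize val (fun i => u (i + j)) - val (fun i => u' (i + j)) = A at *
    generalize val (fun i => v (i + j)) = B at *
    generalize val (fun i => v' (i + j)) = C at *
    linear_combination h1 + ph⁻¹ * h2 - be⁻¹ ^ j * ph⁻¹ * sgn (ep j v) * (B - C) * h3
  have habs : |be⁻¹ ^ j * sgn (ep j u)| = be⁻¹ ^ j := by
    rw [abs_mul, abs_sgn, mul_one, abs_of_pos (pow_pos b0 j)]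
  rw [tot, abs_mul, habs, mul_comm (ph⁻¹ ^ 7 / 100)]
  refine mul_le_mul_of_nonneg_left ?_ (pow_pos b0 j).le
  by_cases hj : u j = u' j
  · -- the bits of `u` agree
    have hvj : v j ≠ v' j := by
      rcases hdiff with h | h
      · exact absurd hj h
      · exact h
    have hU0 : (fun i => u (i + j)) 0 = (fun i => u' (i + j)) 0 := by
      simpa using hj
    have aU1 := acc_one aU
    have aU1' := acc_one aU'
    have hU0' : u (0 + j) = u' (0 + j) := by simpa using hj
    rw [← hU0'] at aU1'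
    have r1 := val_sub 1 (fun i => u (i + j)) (fun i => u' (i + j))
      (fun i hi => by
        have : i = 0 := by omega
        subst this
        exact hU0)
    rw [r1, pow_one, ← phi_sq]
    have e1 : ep 1 (fun i => u (i + j)) = u (0 + j) := by
      simp [ep]
    rw [e1]
    have e2 : ph⁻¹ * ph⁻¹ * (sgn (u (0 + j)) * (val (fun i => (fun i => u (i + j)) (i + 1)) -
          val (fun i => (fun i => u' (i + j)) (i + 1)))) +
        ph⁻¹ * (sgn (xor (ep j u) (ep j v)) * val (fun i => v (i + j)) -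
          sgn (xor (ep j u) (ep j v)) * val (fun i => v' (i + j))) =
        (ph⁻¹ * sgn (u (0 + j))) *
        De ⟨0, 0, (dst (drun 3 u j) (u (0 + j)), false), (dst (drun 3 u j) (u (0 + j)), false),
          (drun 3 v j, xor (u (0 + j)) (xor (ep j u) (ep j v))),
          (drun 3 v j, xor (u (0 + j)) (xor (ep j u) (ep j v))), true⟩
          (fun i => (fun i => u (i + j)) (i + 1)) (fun i => (fun i => u' (i + j)) (i + 1))
          (fun i => v (i + j)) (fun i => v' (i + j)) := by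
      unfold De
      simp only [if_true, Int.cast_zero]
      rw [sgn_xor (u (0 + j))]
      have h3 := sgn_sq (u (0 + j))
      have h4 : sgn false = 1 := by simp [sgn]
      rw [h4]
      generalize sgn (xor (ep j u) (ep j v)) = S
      generalize val (fun i => v (i + j)) = B at *
      generalize val (fun i => v' (i + j)) = C at *
      generalize val (fun i => u (i + 1 + j)) = A at *
      generalize val (fun i => u' (i + 1 + j)) = A' at *
      linear_combination (-ph⁻¹ * S * (B - C)) * h3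
    rw [e2, abs_mul, abs_mul, abs_sgn, mul_one, abs_of_pos p0]
    have h5 := first (f := dst (drun 3 u j) (u (0 + j))) (p := drun 3 v j)
      (xor (u (0 + j)) (xor (ep j u) (ep j v))) true
      (F := fun i => (fun i => u (i + j)) (i + 1)) (F' := fun i => (fun i => u' (i + j)) (i + 1))
      (P := fun i => v (i + j)) (P' := fun i => v' (i + j)) ⟨aU1, aU1', aV, aV'⟩
      (by
        simp only [if_true, zero_add]
        exact hvj)
    have h6 := mul_le_mul_of_nonneg_left h5 p0.le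
    have h7 : ph⁻¹ ^ 7 = ph⁻¹ * ph⁻¹ ^ 6 := by ring
    rw [h7]
    linarith
  · -- the bits of `u` differ
    have h5 := first (f := drun 3 u j) (p := drun 3 v j) (xor (ep j u) (ep j v)) false
      (F := fun i => u (i + j)) (F' := fun i => u' (i + j))
      (P := fun i => v (i + j)) (P' := fun i => v' (i + j)) ⟨aU, aU', aV, aV'⟩
      (by
        simp only [Bool.false_eq_true, if_false, zero_add]
        exact hj)
    unfold De at h5
    simp only [Bool.false_eq_true, if_false, Int.cast_zero, zero_mul, add_zero, sub_zero] at h5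
    have h4 : sgn false = 1 := by simp [sgn]
    rw [h4, one_mul, one_mul] at h5
    refine le_trans ?_ h5
    have h8 : ph⁻¹ ^ 7 ≤ ph⁻¹ ^ 6 := by
      have h9 : ph⁻¹ ^ 7 = ph⁻¹ * ph⁻¹ ^ 6 := by ring
      rw [h9]
      have := TLAux.phi_lt
      have h10 : 0 < ph⁻¹ ^ 6 := pow_pos p0 6
      nlinarith
    linarith

end Pool.Agent.Lib.GJ
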