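import Pool.Agent.Lib.GJ.VstA

/-!
# Module VstD: differences of the limit values

PROOF.  `tb (app l y) = E l + σ l * be⁻¹ ^ l.length * tb y` with `E l` a constant and `σ l = 1` or `-1` according to the parity of the number of trues of `l` (induction on `l` with `tb_rec`), and
`tb y = be⁻¹ * val y` (`val` in GJ.Defs).  Let `n = 4 g + 1`, so `(n + 3) / 2 = 2 (g + 1)`.  The list of `yin` has `1 + (trues of chn n) + 2 (g + 1)` trues and length `2 + |chn n| + 4 (g + 1)`; the list of `zin` has `2 + (trues of chn n)` trues and length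
`(n + 3) + 3 + |chn n| = 4 (g + 1) + 3 + |chn n|`.  So with `σ = σ (chn n)`, `m = 2 + |chn n| + 4 (g + 1)`:
`- tb (yin n uu) = const + σ be⁻¹ ^ m tb uu` and `ph * tb (zin n vv) = const + σ * ph * be⁻¹ ^ (m + 1) tb vv = const + σ ph⁻¹ be⁻¹ ^ m tb vv` (`ph * be⁻¹ = ph⁻¹`).  Hence
`Vst = const + σ be⁻¹ ^ (m + 1) (val uu + ph⁻¹ val vv)`, and `c = be⁻¹ ^ (m + 1)`.
-/

namespace Pool.Agent.Lib.GJ

namespace VstDAux

theorem app_nil (y : ℕ → Bool) : app [] y = y := by
  funext k
  simp [app]

theorem app_cons_zero (b : Bool) (l : List Bool) (y : ℕ → Bool) : app (b :: l) y 0 = b := by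
  simp [app]

theorem app_cons_succ (b : Bool) (l : List Bool) (y : ℕ → Bool) :
    (fun i => app (b :: l) y (i + 1)) = app l y := by
  funext i
  unfold app
  rw [List.length_cons]
  by_cases h : i < l.length
  · rw [if_pos h, if_pos (by omega), List.getD_cons_succ]
  · rw [if_neg h, if_neg (by omega)]
    congr 1
    omega

theorem tb_app (l : List Bool) : ∃ E : ℝ, ∀ y : ℕ → Bool,
    tb (app l y) = E + (-1) ^ (l.count true) * be⁻¹ ^ l.length * tb y := by
  induction l with
  | nil => exact ⟨0, fun y => by rw [app_nil]; simp⟩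
  | cons b l ih =>
    obtain ⟨E, hE⟩ := ih
    cases b with
    | false =>
      refine ⟨be⁻¹ * E, fun y => ?_⟩
      rw [tb_rec, app_cons_zero, app_cons_succ, if_neg (by simp), hE,
        List.count_cons_of_ne (by decide), List.length_cons, pow_succ]
      ring
    | true =>
      refine ⟨be⁻¹ * (1 - E), fun y => ?_⟩
      rw [tb_rec, app_cons_zero, app_cons_succ, if_pos rfl, hE,
        List.count_cons_self, List.length_cons, pow_succ, pow_succ]
      ring

theorem tb_val (y : ℕ → Bool) : tb y = be⁻¹ * val y := by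
  unfold tb val
  rw [← tsum_mul_left]
  congr 1
  funext k
  ring

theorem ten_length (m : ℕ) : (ten m).length = 2 * m := by
  unfold ten
  rw [List.length_flatten, List.map_replicate, List.sum_replicate]
  simp [mul_comm]

theorem ten_count (m : ℕ) : (ten m).count true = m := by
  unfold ten
  rw [List.count_flatten, List.map_replicate, List.sum_replicate]
  simp

end VstDAux

open VstDAux

theorem vst_diff (g : ℕ) : ∃ c : ℝ, 0 < c ∧ ∀ uu vv uu' vv' : ℕ → Bool,
    |Vst (4 * g + 1) uu vv - Vst (4 * g + 1) uu' vv'| =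
      c * |(val uu + ph⁻¹ * val vv) - (val uu' + ph⁻¹ * val vv')| := by
  have hb0 : 0 < be⁻¹ := by rw [be_inv]; linarith [ph_ub]
  refine ⟨be⁻¹ ^ (2 + (chn (4 * g + 1)).length + 4 * (g + 1) + 1), pow_pos hb0 _, ?_⟩
  obtain ⟨E1, h1⟩ := tb_app ([false, true] ++ (chn (4 * g + 1) ++ ten ((4 * g + 1 + 3) / 2)))
  obtain ⟨E2, h2⟩ := tb_app (List.replicate (4 * g + 1 + 3) false ++
    ([true, false, true] ++ chn (4 * g + 1)))
  have hdiv : (4 * g + 1 + 3) / 2 = 2 * (g + 1) := by omega
  have l1 : ([false, true] ++ (chn (4 * g + 1) ++ ten ((4 * g + 1 + 3) / 2))).length =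
      2 + (chn (4 * g + 1)).length + 4 * (g + 1) := by
    rw [List.length_append, List.length_append, ten_length, hdiv]
    simp only [List.length_cons, List.length_nil]
    omega
  have c1 : ([false, true] ++ (chn (4 * g + 1) ++ ten ((4 * g + 1 + 3) / 2))).count true =
      1 + (chn (4 * g + 1)).count true + 2 * (g + 1) := by
    rw [List.count_append, List.count_append, ten_count, hdiv]
    have : ([false, true] : List Bool).count true = 1 := by decide
    omega
  have l2 : (List.replicate (4 * g + 1 + 3) false ++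
      ([true, false, true] ++ chn (4 * g + 1))).length =
      2 + (chn (4 * g + 1)).length + 4 * (g + 1) + 1 := by
    rw [List.length_append, List.length_append, List.length_replicate]
    simp only [List.length_cons, List.length_nil]
    omega
  have c2 : (List.replicate (4 * g + 1 + 3) false ++
      ([true, false, true] ++ chn (4 * g + 1))).count true =
      2 + (chn (4 * g + 1)).count true := by
    rw [List.count_append, List.count_append, List.count_replicate]
    have : ([true, false, true] : List Bool).count true = 2 := by decide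
    simp [this]
  rw [l1, c1] at h1
  rw [l2, c2] at h2
  have hph : ph * be⁻¹ = ph⁻¹ := by
    have h0 := ph_pos.ne'
    rw [be]
    field_simp
  intro uu vv uu' vv'
  unfold Vst yin zin
  rw [h1, h1, h2, h2, tb_val uu, tb_val vv, tb_val uu', tb_val vv']
  set M := 2 + (chn (4 * g + 1)).length + 4 * (g + 1) with hM
  set C := (chn (4 * g + 1)).count true with hC
  have hs : ((-1 : ℝ)) ^ (1 + C + 2 * (g + 1)) = - (-1) ^ C := by
    rw [pow_add, pow_add, pow_mul]
    simp
  have hs' : ((-1 : ℝ)) ^ (2 + C) = (-1) ^ C := by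
    rw [pow_add]
    simp
  rw [hs, hs']
  have e : 1 - (E1 + - (-1) ^ C * be⁻¹ ^ M * (be⁻¹ * val uu)) +
        ph * (E2 + (-1) ^ C * be⁻¹ ^ (M + 1) * (be⁻¹ * val vv)) -
      (1 - (E1 + - (-1) ^ C * be⁻¹ ^ M * (be⁻¹ * val uu')) +
        ph * (E2 + (-1) ^ C * be⁻¹ ^ (M + 1) * (be⁻¹ * val vv'))) =
      (-1) ^ C * (be⁻¹ ^ (M + 1) * ((val uu + ph⁻¹ * val vv) - (val uu' + ph⁻¹ * val vv'))) := by
    rw [← hph]
    ring
  rw [e, abs_mul, abs_mul, abs_pow, abs_neg, abs_one, one_pow, one_mul,
    abs_of_pos (pow_pos hb0 _)]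

end Pool.Agent.Lib.GJ
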