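import Pool.Agent.Lib.GJ.Vst
import Pool.Agent.Lib.GJ.VstD
import Pool.Agent.Lib.GJ.InA
import Pool.Agent.Lib.GJ.SepT
import Pool.Agent.Lib.GJ.CntW
import Pool.Agent.Lib.GJ.DimLow

/-!
# Module Lower: the lower bound of the dimension beyond the threshold

PROOF.  `N`, `G` from `exists_many`; `κ` from `sep`.  `d = 2 log |G| / (N log be)`.  `|G| > (100000/79106) ^ N`, so `d > 2 log (100000/79106) / log be ≥ log (1598/1000) / log be`, because `(100000/79106) ^ 2 ≥ 1598/1000` (`norm_num`).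
Let `t > 2 - ph`.  `√5 (2 - ph) = 1 - be⁻¹ ^ 2`.  Choose `g` with `n = 4 g + 1`: `1 - be⁻¹ ^ 2 + be⁻¹ ^ (n + 5) + ph⁻¹ ^ (2 n + 7) ≤ √5 t`.
`α = G × G` (subtypes of the finset), `F a = Vst n (icat N (fun i => (a i).1)) (icat N (fun i => (a i).2)) / √5 ∈ Spec ph ∩ Icc 0 t` by `vst_mem` (`CatI.cat`).
Separation: let `a`, `b` agree before `j` and differ at `j`; `uu`, `uu'`, `vv`, `vv'` the four sequences.  They agree at all `k < N j`, and at least one of the pairs differs at some `k` with `N j ≤ k < N (j + 1)` (different lists of length `N`); let `k` be the least index with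
`uu k ≠ uu' k ∨ vv k ≠ vv' k`; `N j ≤ k < N (j+1)`.  `sep` (accepted by `icat_acc`; `icat N g = fun k => (g (k / N)).getD (k % N) false` by definition) gives a difference at least `κ be⁻¹ ^ k ≥ κ be⁻¹ ^ N (be⁻¹ ^ N) ^ j`; with `vst_diff`:
`|F a - F b| ≥ c κ be⁻¹ ^ N / √5 * (be⁻¹ ^ N) ^ j`.  `dim_low` with `r = be⁻¹ ^ N`: `log (|G| ^ 2) / log (be ^ N) = d`.  (`2 ≤ |G × G|`: `|G| > 1`.)
-/

namespace Pool.Agent.Lib.GJ

namespace LowerAux

theorem be_gt : (1 : ℝ) < be := by rw [be_eq]; linarith [ph_pos]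

theorem bi_pos : (0 : ℝ) < be⁻¹ := inv_pos.2 be_pos

theorem bi_lt : be⁻¹ < 1 := inv_lt_one_of_one_lt₀ be_gt

theorem s5_pos : (0 : ℝ) < Real.sqrt 5 := by linarith [sqrt5_lb]

/-- two different lists of the same length differ at an index -/
theorem exists_ne {N : ℕ} {u v : List Bool} (hu : u.length = N) (hv : v.length = N) (h : u ≠ v) :
    ∃ i, i < N ∧ u.getD i false ≠ v.getD i false := by
  by_contra hc
  push Not at hc
  apply h
  apply List.ext_getElem (by rw [hu, hv])
  intro i h1 h2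
  have := hc i (by omega)
  rw [List.getD_eq_getElem _ _ h1, List.getD_eq_getElem _ _ h2] at this
  exact this

theorem icat_at {N : ℕ} (g : ℕ → List Bool) {j i : ℕ} (hi : i < N) :
    icat N g (N * j + i) = (g j).getD i false := by
  unfold icat
  have h0 : 0 < N := by omega
  rw [Nat.mul_add_div h0, Nat.div_eq_of_lt hi, Nat.mul_add_mod, Nat.mod_eq_of_lt hi, Nat.add_zero]

/-- the choice of the parameter -/
theorem exists_g {t : ℝ} (ht : 2 - ph < t) : ∃ g : ℕ,
    1 - be⁻¹ ^ 2 + be⁻¹ ^ ((4 * g + 1) + 5) + ph⁻¹ ^ (2 * (4 * g + 1) + 7) ≤ Real.sqrt 5 * t := by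
  have e : Real.sqrt 5 * (2 - ph) = 1 - be⁻¹ ^ 2 := by
    rw [be_inv, ← ph_sub_ps, ps_eq]
    nlinarith [ph_sq]
  have hpi : 0 < ph⁻¹ := inv_pos.2 ph_pos
  have hpi1 : ph⁻¹ < 1 := by rw [ph_inv']; linarith [ph_ub]
  have hε : 0 < Real.sqrt 5 * (t - (2 - ph)) / 2 := by
    have := mul_pos s5_pos (sub_pos.2 ht)
    linarith
  obtain ⟨g, hg⟩ := exists_pow_lt_of_lt_one hε hpi1
  refine ⟨g, ?_⟩
  have h1 : be⁻¹ ^ ((4 * g + 1) + 5) ≤ ph⁻¹ ^ g := by
    have h2 : be⁻¹ ≤ ph⁻¹ := by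
      rw [be_inv, ph_inv']; linarith [ph_lb]
    calc be⁻¹ ^ ((4 * g + 1) + 5) ≤ be⁻¹ ^ g :=
          pow_le_pow_of_le_one bi_pos.le bi_lt.le (by omega)
      _ ≤ ph⁻¹ ^ g := pow_le_pow_left₀ bi_pos.le h2 g
  have h3 : ph⁻¹ ^ (2 * (4 * g + 1) + 7) ≤ ph⁻¹ ^ g :=
    pow_le_pow_of_le_one hpi.le hpi1.le (by omega)
  have h4 : Real.sqrt 5 * t = Real.sqrt 5 * (2 - ph) + Real.sqrt 5 * (t - (2 - ph)) := by ring
  rw [h4, e]
  linarith

end LowerAux

open LowerAux in
theorem lower : ∃ d : ℝ, Real.log (1598 / 1000) / Real.log be < d ∧ ∀ t : ℝ, 2 - ph < t →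
    ENNReal.ofReal d ≤ dimH (Spec ph ∩ Set.Icc 0 t) := by
  obtain ⟨N, hN, G, hG, hcard⟩ := exists_many
  obtain ⟨κ, hκ, hsep⟩ := sep
  have hb1 : 1 < be := be_gt
  have hlog : 0 < Real.log be := Real.log_pos hb1
  have hNpos : (0 : ℝ) < N := by exact_mod_cast hN
  have hc : Fintype.card (G × G) = G.card * G.card := by simp
  have h100 : (1 : ℝ) ≤ (100000 / 79106 : ℝ) ^ N := one_le_pow₀ (by norm_num)
  have hG1 : (1 : ℝ) < G.card := lt_of_le_of_lt h100 hcard
  have hG2 : 2 ≤ G.card := by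
    have : (1 : ℕ) < G.card := by exact_mod_cast hG1
    omega
  have h2 : 2 ≤ Fintype.card (G × G) := by rw [hc]; nlinarith
  refine ⟨Real.log (Fintype.card (G × G)) / Real.log (be⁻¹ ^ N)⁻¹, ?_, ?_⟩
  · have e1 : Real.log (be⁻¹ ^ N)⁻¹ = N * Real.log be := by
      rw [inv_pow, inv_inv, Real.log_pow]
    rw [e1, div_lt_div_iff₀ hlog (by positivity), hc]
    have e2 : (N : ℝ) * Real.log (1598 / 1000) < Real.log ((G.card * G.card : ℕ) : ℝ) := by
      rw [← Real.log_pow]
      apply Real.log_lt_log (by positivity)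
      push_cast
      calc (1598 / 1000 : ℝ) ^ N ≤ ((100000 / 79106) * (100000 / 79106) : ℝ) ^ N :=
            pow_le_pow_left₀ (by norm_num) (by norm_num) N
        _ = (100000 / 79106 : ℝ) ^ N * (100000 / 79106 : ℝ) ^ N := mul_pow _ _ _
        _ < G.card * G.card := by
            apply mul_lt_mul hcard hcard.le (by positivity) (by positivity)
    calc Real.log (1598 / 1000) * (N * Real.log be) = (N * Real.log (1598 / 1000)) * Real.log be := by
          ring
      _ < Real.log ((G.card * G.card : ℕ) : ℝ) * Real.log be := mul_lt_mul_of_pos_right e2 hlog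
  · intro t ht
    obtain ⟨g, hg⟩ := exists_g ht
    obtain ⟨c0, hc0, hdiff⟩ := vst_diff g
    have hs := s5_pos
    have hb := bi_pos
    refine dim_low (α := G × G) h2 (r := be⁻¹ ^ N) (c := c0 * κ * be⁻¹ ^ N / Real.sqrt 5)
      (by positivity) (pow_lt_one₀ bi_pos.le bi_lt (by omega)) (by positivity)
      (fun a => Vst (4 * g + 1) (icat N (fun i => ((a i).1 : List Bool)))
        (icat N (fun i => ((a i).2 : List Bool))) / Real.sqrt 5) ?_ ?_
    · intro a
      obtain ⟨m1, m2, m3⟩ := vst_mem (n := 4 * g + 1) hN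
        (g := fun i => ((a i).1 : List Bool)) (g' := fun i => ((a i).2 : List Bool))
        (fun i => ⟨(hG _ (a i).1.2).2.cat, (hG _ (a i).1.2).1⟩)
        (fun i => ⟨(hG _ (a i).2.2).2.cat, (hG _ (a i).2.2).1⟩)
      refine ⟨m1, div_nonneg m2 hs.le, ?_⟩
      rw [div_le_iff₀ hs]
      linarith [mul_comm t (Real.sqrt 5)]
    · intro a b j _ hj
      set uu := icat N (fun i => ((a i).1 : List Bool)) with huu
      set vv := icat N (fun i => ((a i).2 : List Bool)) with hvv
      set uu' := icat N (fun i => ((b i).1 : List Bool)) with huu'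
      set vv' := icat N (fun i => ((b i).2 : List Bool)) with hvv'
      have hex : ∃ k, k < N * (j + 1) ∧ (uu k ≠ uu' k ∨ vv k ≠ vv' k) := by
        have hor : ((a j).1 : List Bool) ≠ (b j).1 ∨ ((a j).2 : List Bool) ≠ (b j).2 := by
          by_contra hcon
          push Not at hcon
          exact hj (Prod.ext (Subtype.ext hcon.1) (Subtype.ext hcon.2))
        rcases hor with h | h
        · obtain ⟨i, hi, hne⟩ := exists_ne (hG _ (a j).1.2).1 (hG _ (b j).1.2).1 h
          refine ⟨N * j + i, by rw [Nat.mul_add, Nat.mul_one]; omega, Or.inl ?_⟩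
          rw [huu, huu', icat_at _ hi, icat_at _ hi]
          exact hne
        · obtain ⟨i, hi, hne⟩ := exists_ne (hG _ (a j).2.2).1 (hG _ (b j).2.2).1 h
          refine ⟨N * j + i, by rw [Nat.mul_add, Nat.mul_one]; omega, Or.inr ?_⟩
          rw [hvv, hvv', icat_at _ hi, icat_at _ hi]
          exact hne
      classical
      have hex' : ∃ k, uu k ≠ uu' k ∨ vv k ≠ vv' k := by
        obtain ⟨k, -, hk⟩ := hex
        exact ⟨k, hk⟩
      have hkmin : ∀ m, m < Nat.find hex' → ¬ (uu m ≠ uu' m ∨ vv m ≠ vv' m) :=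
        fun m hm => Nat.find_min hex' hm
      have hkspec := Nat.find_spec hex'
      have hklt : Nat.find hex' < N * (j + 1) := by
        obtain ⟨k, hk1, hk2⟩ := hex
        exact lt_of_le_of_lt (Nat.find_min' hex' hk2) hk1
      generalize Nat.find hex' = k at hkmin hkspec hklt
      have hs1 := hsep uu uu' vv vv' k
        (icat_acc hN (g := fun i => ((a i).1 : List Bool))
          (fun i => hG _ (a i).1.2))
        (icat_acc hN (g := fun i => ((b i).1 : List Bool))
          (fun i => hG _ (b i).1.2))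
        (icat_acc hN (g := fun i => ((a i).2 : List Bool))
          (fun i => hG _ (a i).2.2))
        (icat_acc hN (g := fun i => ((b i).2 : List Bool))
          (fun i => hG _ (b i).2.2))
        (fun i hi => by
          have := hkmin i hi
          push Not at this
          exact this) hkspec
      have hd := hdiff uu vv uu' vv'
      have hpow : be⁻¹ ^ N * (be⁻¹ ^ N) ^ j ≤ be⁻¹ ^ k := by
        have e : be⁻¹ ^ N * (be⁻¹ ^ N) ^ j = be⁻¹ ^ (N * (j + 1)) := by
          rw [← pow_mul, ← pow_add]; congr 1; ring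
        rw [e]
        exact pow_le_pow_of_le_one bi_pos.le bi_lt.le hklt.le
      have e3 : Vst (4 * g + 1) uu vv / Real.sqrt 5 - Vst (4 * g + 1) uu' vv' / Real.sqrt 5 =
          (Vst (4 * g + 1) uu vv - Vst (4 * g + 1) uu' vv') / Real.sqrt 5 := by ring
      show c0 * κ * be⁻¹ ^ N / Real.sqrt 5 * (be⁻¹ ^ N) ^ j ≤
        |Vst (4 * g + 1) uu vv / Real.sqrt 5 - Vst (4 * g + 1) uu' vv' / Real.sqrt 5|
      rw [e3, abs_div, abs_of_pos hs, hd]
      have e4 : c0 * κ * be⁻¹ ^ N / Real.sqrt 5 * (be⁻¹ ^ N) ^ j =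
          c0 * (κ * (be⁻¹ ^ N * (be⁻¹ ^ N) ^ j)) / Real.sqrt 5 := by ring
      rw [e4]
      apply div_le_div_of_nonneg_right _ hs.le
      apply mul_le_mul_of_nonneg_left _ hc0.le
      exact (mul_le_mul_of_nonneg_left hpow hκ.le).trans hs1

end Pool.Agent.Lib.GJ
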