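import Pool.Agent.Lib.GJ.Outer
import Pool.Agent.Lib.GJ.Lower

/-!
# Module Final: the jump

PROOF.  `d1 = log (1598/1000) / log be`, `d2 = d` from `lower`.  For `t < 2 - ph`: `Spec ph ∩ Icc 0 t ⊆ Spec ph ∩ Iio (2 - ph)`, `upper`.
Not continuous: if `D` were continuous at `t1 = 2 - ph` within `Ici 0`, then `D t1 ≤ ofReal d1` (limit from the left, `t1 > 0`) and `D t1 ≥ ofReal d2` (limit from the right; `ge_of_tendsto`), but `ofReal d1 < ofReal d2` (`0 ≤ d1 < d2`).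
-/

open Filter Topology

namespace Pool.Agent.Lib.GJ

theorem jump : ∃ d1 d2 : ℝ, 0 < d1 ∧ d1 < d2 ∧
    (∀ t : ℝ, t < 2 - ph → dimH (Spec ph ∩ Set.Icc 0 t) ≤ ENNReal.ofReal d1) ∧
    (∀ t : ℝ, 2 - ph < t → ENNReal.ofReal d2 ≤ dimH (Spec ph ∩ Set.Icc 0 t)) ∧
    ¬ ContinuousWithinAt (fun t : ℝ => dimH (Spec ph ∩ Set.Icc 0 t)) (Set.Ici 0) (2 - ph) := by
  obtain ⟨d2, h12, hlow⟩ := lower
  have hbe : 1 < be := by
    rw [be_eq]
    linarith [ph_pos]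
  have hd1 : 0 < Real.log (1598 / 1000) / Real.log be :=
    div_pos (Real.log_pos (by norm_num)) (Real.log_pos hbe)
  have hup : ∀ t : ℝ, t < 2 - ph → dimH (Spec ph ∩ Set.Icc 0 t) ≤
      ENNReal.ofReal (Real.log (1598 / 1000) / Real.log be) := by
    intro t ht
    refine (dimH_mono ?_).trans upper
    exact Set.inter_subset_inter_right _ fun x hx => lt_of_le_of_lt hx.2 ht
  refine ⟨Real.log (1598 / 1000) / Real.log be, d2, hd1, h12, hup, hlow, fun hc => ?_⟩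
  have ht1 : 0 < 2 - ph := by linarith [ph_ub]
  have hmem : Set.Ici (0 : ℝ) ∈ 𝓝 (2 - ph) := Ici_mem_nhds ht1
  have hl : Tendsto (fun t : ℝ => dimH (Spec ph ∩ Set.Icc 0 t)) (𝓝[<] (2 - ph))
      (𝓝 (dimH (Spec ph ∩ Set.Icc 0 (2 - ph)))) :=
    Tendsto.mono_left hc (nhdsWithin_le_of_mem (mem_nhdsWithin_of_mem_nhds hmem))
  have hr : Tendsto (fun t : ℝ => dimH (Spec ph ∩ Set.Icc 0 t)) (𝓝[>] (2 - ph))
      (𝓝 (dimH (Spec ph ∩ Set.Icc 0 (2 - ph)))) :=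
    Tendsto.mono_left hc (nhdsWithin_le_of_mem (mem_nhdsWithin_of_mem_nhds hmem))
  have h1 : dimH (Spec ph ∩ Set.Icc 0 (2 - ph)) ≤
      ENNReal.ofReal (Real.log (1598 / 1000) / Real.log be) := by
    refine le_of_tendsto hl ?_
    filter_upwards [self_mem_nhdsWithin] with t ht using hup t ht
  have h2 : ENNReal.ofReal d2 ≤ dimH (Spec ph ∩ Set.Icc 0 (2 - ph)) := by
    refine ge_of_tendsto hr ?_
    filter_upwards [self_mem_nhdsWithin] with t ht using hlow t ht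
  have h3 := (ENNReal.ofReal_le_ofReal_iff hd1.le).1 (h2.trans h1)
  linarith

end Pool.Agent.Lib.GJ
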