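import Pool.Agent.Lib.GJ.AutoE
import Pool.Agent.Lib.GJ.Cnt
import Pool.Agent.Lib.GJ.GfT

/-!
# Module GfC: the numbers of blocks of length at most 50

PROOF of `nC_table`.
(1) `gfF K n st p = gf K n st p` (`stepF_eq`; `Nat.add`, `Nat.mul`, `bif` unfold by `rfl`; the constants are `2 ^ 52`, `2 ^ 104`).
(2) `gfl n gt d st p = gf 20 (d + n) st p`, if all leaves of the table are right: in the case `d = 0` the value `v = findF k' gt` with `k' = 2 * k + (p)`; if it is `0`
or one of the tests fails the value is `gfF 20 n st p`; otherwise `gchk n k' v = true` (`gtc`, `allT_find`) says `gfF 20 n (decF (k' / 2)) (k' % 2 = 1) + 1 = v`, and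
`decF (k' / 2) = st`, `k' % 2 = 1` iff `p`.  So `gf 20 50 S0 false` is the number in `gfl50` (`26 + 24 = 50`).
(3) `gf K n st p = ∑ l ∈ Icc 1 n, ∑ e : Bool, nC K l st e * M ^ (2 * (l - 1) + (if xor p e then 1 else 0))`, `M = 2 ^ 52`, by induction on `n` with `nC_one`,
`nC_succ`.
(4) `nC K l st e ≤ 2 ^ l < M` for `l ≤ 50` (a subset of `aw l`, whose cardinality is at most `2 ^ l`).
(5) Base `M` digits: if `∑ i < m, c i * M ^ i = Z` with all `c i < M` then `c i = Z / M ^ i % M` (or `Nat.digits`); compute the 100 digits by `decide`/`norm_num`/`rfl`.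
-/

namespace Pool.Agent.Lib.GJ

/-- the numbers of blocks of even and of odd parity of length `i + 1` -/
def cEv : List ℕ :=
  [0, 0, 0, 0, 1, 0, 0, 0, 0, 0, 0, 0, 0, 0, 0, 1, 0, 0, 0, 0, 0, 1, 0, 1, 0, 1, 1, 1, 1, 2, 0, 1,
    2, 2, 4, 12, 2, 13, 4, 10, 10, 17, 6, 22, 12, 22, 29, 28, 32, 44]

def cOd : List ℕ :=
  [0, 1, 0, 0, 0, 0, 0, 0, 0, 0, 0, 0, 0, 0, 0, 0, 0, 0, 0, 0, 0, 0, 0, 0, 0, 0, 2, 0, 0, 0, 2, 0,
    2, 0, 4, 0, 2, 2, 8, 0, 8, 4, 4, 4, 8, 10, 8, 8, 4, 19]

/-- the number of blocks of length `l` and parity `e` (for `l ≤ 50`) -/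
def ctab (l : ℕ) (e : Bool) : ℕ := (if e then cOd else cEv).getD (l - 1) 0

namespace GfCAux

theorem gfF_eq (K : ℕ) : ∀ (n : ℕ) (st : St) (p : Bool), gfF K n st p = gf K n st p := by
  intro n
  induction n with
  | zero => intro st p; rfl
  | succ n ih =>
    intro st p
    simp only [gfF, gf, stepF_eq]
    have e1 : (4503599627370496 : ℕ) = 2 ^ 52 := by norm_num
    have e2 : (20282409603651670423947251286016 : ℕ) = 2 ^ 104 := by norm_num
    rcases step K st false with _ | ⟨q1, c1⟩ <;> rcases step K st true with _ | ⟨q2, c2⟩ <;>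
      cases p <;> (try cases c1) <;> (try cases c2) <;>
      simp [ih, e1, e2]

theorem gfl_eq' : ∀ (d : ℕ) (m : ℕ), m = d + 24 → ∀ (st : St) (p : Bool), gfl 24 gt d st p = gf 20 m st p := by
  intro d
  induction d with
  | zero =>
    intro m hm st p
    rw [zero_add] at hm
    subst hm
    have key : ∀ k' : ℕ, Nat.div k' 2 = encF st → Nat.beq (Nat.mod k' 2) 1 = p →
        (bif Nat.beq (findF k' gt) 0 then gfF 20 24 st p else
            bif eqbF (decF (Nat.div k' 2)) st && Nat.ble 1 (findF k' gt) then Nat.pred (findF k' gt)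
            else gfF 20 24 st p) = gf 20 24 st p := by
      intro k' h1 h2
      by_cases h0 : findF k' gt = 0
      · rw [h0]; simp [gfF_eq]
      · have hb : Nat.beq (findF k' gt) 0 = false := by
          cases h5 : Nat.beq (findF k' gt) 0 with
          | false => rfl
          | true => exact absurd (Nat.eq_of_beq_eq_true h5) h0
        rw [hb]
        simp only [cond_false]
        cases hc : (eqbF (decF (Nat.div k' 2)) st && Nat.ble 1 (findF k' gt)) with
        | false => simp [gfF_eq]
        | true =>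
          simp only [cond_true]
          have hE : eqbF (decF (Nat.div k' 2)) st = true := by
            cases h3 : eqbF (decF (Nat.div k' 2)) st with
            | true => rfl
            | false => rw [h3] at hc; simp at hc
          have hst : decF (Nat.div k' 2) = st := eqbF_eq hE
          have hf := allT_find gtc h0
          unfold gchk at hf
          have hf2 := Nat.eq_of_beq_eq_true hf
          rw [hst, h2] at hf2
          rw [← hf2]
          simp [gfF_eq]
    have := key (Nat.add (Nat.mul 2 (encF st)) (bif p then 1 else 0)) ?_ ?_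
    · rw [← this]; rfl
    · have : ∀ a : ℕ, Nat.div (Nat.add (Nat.mul 2 a) (bif p then 1 else 0)) 2 = a := by
        intro a
        show (2 * a + (bif p then 1 else 0)) / 2 = a
        cases p <;> simp <;> omega
      exact this _
    · have : ∀ a : ℕ, Nat.beq (Nat.mod (Nat.add (Nat.mul 2 a) (bif p then 1 else 0)) 2) 1 = p := by
        intro a
        show Nat.beq ((2 * a + (bif p then 1 else 0)) % 2) 1 = p
        cases p
        · have : (2 * a + (bif false then 1 else 0)) % 2 = 0 := by simp
          rw [this]; rfl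
        · have : (2 * a + (bif true then 1 else 0)) % 2 = 1 := by simp <;> omega
          rw [this]; rfl
      exact this _
  | succ d ih =>
    intro m hm st p
    obtain ⟨m', rfl⟩ : ∃ m', m = m' + 1 := ⟨m - 1, by omega⟩
    have ih2 := ih m' (by omega)
    have e1 : (4503599627370496 : ℕ) = 2 ^ 52 := by norm_num
    have e2 : (20282409603651670423947251286016 : ℕ) = 2 ^ 104 := by norm_num
    simp only [gfl, gf, stepF_eq, ih2]
    clear ih ih2 hm
    rcases step 20 st false with _ | ⟨q1, c1⟩ <;> rcases step 20 st true with _ | ⟨q2, c2⟩ <;>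
      cases p <;> (try cases c1) <;> (try cases c2) <;>
      simp [e1, e2]

theorem gfl_eq (d : ℕ) (st : St) (p : Bool) : gfl 24 gt d st p = gf 20 (d + 24) st p :=
  gfl_eq' d (d + 24) rfl st p

theorem gf_sum (K : ℕ) : ∀ (n : ℕ) (st : St) (p : Bool), gf K n st p =
    ∑ l ∈ Finset.range n, ∑ e : Bool, nC K (l + 1) st e *
      (2 ^ 52) ^ (2 * l + (if xor p e then 1 else 0)) := by
  intro n
  induction n with
  | zero => intro st p; simp [gf]
  | succ n ih =>
    intro st p
    rw [Finset.sum_range_succ']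
    have h1 : ∀ l ∈ Finset.range n, (∑ e : Bool, nC K (l + 1 + 1) st e *
        (2 ^ 52) ^ (2 * (l + 1) + (if xor p e then 1 else 0))) =
        2 ^ 104 * ((match step K st false with
          | none => 0
          | some q => ∑ e : Bool, nC K (l + 1) q.1 e * (2 ^ 52) ^ (2 * l + (if xor p e then 1 else 0))) +
        (match step K st true with
          | none => 0
          | some q => ∑ e : Bool, nC K (l + 1) q.1 e *
            (2 ^ 52) ^ (2 * l + (if xor (!p) e then 1 else 0)))) := by
      intro l _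
      have h3 : ∀ e, nC K (l + 1 + 1) st e = ∑ b : Bool, match step K st b with
          | none => 0
          | some q => nC K (l + 1) q.1 (xor b e) := nC_succ K (l + 1) (by omega) st
      rw [Fintype.sum_bool, h3, h3, Fintype.sum_bool, Fintype.sum_bool]
      have e2 : (2 : ℕ) ^ 104 = (2 ^ 52) ^ 2 := by norm_num
      rw [e2]
      rcases step K st false with _ | ⟨q1, c1⟩ <;> rcases step K st true with _ | ⟨q2, c2⟩ <;>
        cases p <;> simp [Fintype.sum_bool] <;> ring
    rw [Finset.sum_congr rfl h1, ← Finset.mul_sum, Finset.sum_add_distrib]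
    simp only [zero_add, mul_zero]
    rw [Fintype.sum_bool, nC_one, nC_one]
    simp only [gf]
    rcases step K st false with _ | ⟨q1, c1⟩ <;> rcases step K st true with _ | ⟨q2, c2⟩ <;>
      cases p <;> (try cases c1) <;> (try cases c2) <;>
      simp [ih] <;> ring

theorem nC_lt {K l : ℕ} (hl : l ≤ 50) (st : St) (e : Bool) : nC K l st e < 2 ^ 52 := by
  have h1 : nC K l st e ≤ (aw l).card := Finset.card_filter_le _ _
  have h2 : (aw l).card ≤ 2 ^ l := by
    unfold aw
    refine Finset.card_image_le.trans ?_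
    simp
  have h3 : 2 ^ l ≤ 2 ^ 50 := Nat.pow_le_pow_right (by norm_num) hl
  have h4 : (2 : ℕ) ^ 50 < 2 ^ 52 := by norm_num
  omega

theorem digit (M : ℕ) (hM : 0 < M) (c : ℕ → ℕ) : ∀ m : ℕ, (∀ i < m, c i < M) → ∀ i < m,
    (∑ j ∈ Finset.range m, c j * M ^ j) / M ^ i % M = c i := by
  intro m
  induction m generalizing c with
  | zero => intro _ i hi; omega
  | succ m ih =>
    intro h i hi
    rw [Finset.sum_range_succ']
    have h1 : ∑ k ∈ Finset.range m, c (k + 1) * M ^ (k + 1) =
        M * ∑ k ∈ Finset.range m, c (k + 1) * M ^ k := by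
      rw [Finset.mul_sum]
      refine Finset.sum_congr rfl fun k _ => ?_
      ring
    rw [h1]
    cases i with
    | zero =>
      simp only [pow_zero, Nat.div_one, mul_one]
      rw [Nat.mul_add_mod]
      exact Nat.mod_eq_of_lt (h 0 (by omega))
    | succ i =>
      have h2 := ih (fun k => c (k + 1)) (fun k hk => h (k + 1) (by omega)) i (by omega)
      rw [pow_succ', ← Nat.div_div_eq_div_mul]
      have h3 : (M * ∑ k ∈ Finset.range m, c (k + 1) * M ^ k + c 0 * M ^ 0) / M =
          ∑ k ∈ Finset.range m, c (k + 1) * M ^ k := by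
        rw [pow_zero, mul_one, Nat.mul_add_div hM, Nat.div_eq_of_lt (h 0 (by omega)), add_zero]
      rw [h3]
      exact h2

/-- the digits -/
def dg (i : ℕ) : ℕ := nC 20 (i / 2 + 1) S0 (decide (i % 2 = 1))

theorem gf_dg (n : ℕ) : gf 20 n S0 false = ∑ j ∈ Finset.range (2 * n), dg j * (2 ^ 52) ^ j := by
  rw [gf_sum]
  induction n with
  | zero => simp
  | succ n ih =>
    rw [Finset.sum_range_succ, ih, show 2 * (n + 1) = 2 * n + 1 + 1 by ring, Finset.sum_range_succ,
      Finset.sum_range_succ, Fintype.sum_bool]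
    have h1 : dg (2 * n) = nC 20 (n + 1) S0 false := by
      unfold dg
      rw [show 2 * n / 2 = n by omega, show 2 * n % 2 = 0 by omega]; rfl
    have h2 : dg (2 * n + 1) = nC 20 (n + 1) S0 true := by
      unfold dg
      rw [show (2 * n + 1) / 2 = n by omega, show (2 * n + 1) % 2 = 1 by omega]; rfl
    rw [h1, h2]
    simp
    ring

theorem tab : ∀ l < 50, ∀ e : Bool,
    gf 20 50 S0 false / (2 ^ 52) ^ (2 * l + (if e then 1 else 0)) % 2 ^ 52 = ctab (l + 1) e := by
  have hZ := gfl50
  rw [gfl_eq] at hZ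
  rw [show (26 + 24 : ℕ) = 50 by norm_num] at hZ
  rw [hZ]
  decide +kernel

end GfCAux

theorem nC_table {l : ℕ} (h1 : 1 ≤ l) (h2 : l ≤ 50) (e : Bool) : nC 20 l S0 e = ctab l e := by
  obtain ⟨k, rfl⟩ : ∃ k, l = k + 1 := ⟨l - 1, by omega⟩
  have h3 := GfCAux.tab k (by omega) e
  rw [GfCAux.gf_dg] at h3
  have h4 := GfCAux.digit (2 ^ 52) (by norm_num) GfCAux.dg (2 * 50) (fun i hi => by
    unfold GfCAux.dg
    exact GfCAux.nC_lt (by omega) _ _) (2 * k + (if e then 1 else 0)) (by cases e <;> simp <;> omega)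
  rw [h4] at h3
  rw [← h3]
  unfold GfCAux.dg
  cases e
  · simp
  · simp only [if_true]
    rw [show (2 * k + 1) / 2 = k by omega, show (2 * k + 1) % 2 = 1 by omega]
    rfl

end Pool.Agent.Lib.GJ
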