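import Pool.Agent.Lib.GJ.AutoF

/-!
# GJ.GfD: the generating number of the blocks (definitions)
-/

namespace Pool.Agent.Lib.GJ

/-- the sum of `(2 ^ 52) ^ (2 (length - 1) + parity)` over the closed words of length at most `n` from the state `st`;
`p` is the parity of what has been read before -/
def gf (K : ℕ) : ℕ → St → Bool → ℕ
  | 0, _, _ => 0
  | n + 1, st, p =>
    (match step K st false with
      | none => 0
      | some q => (if q.2 then (if p then 2 ^ 52 else 1) else 0) + 2 ^ 104 * gf K n q.1 p) +
    (match step K st true with
      | none => 0
      | some q => (if q.2 then (if p then 1 else 2 ^ 52) else 0) + 2 ^ 104 * gf K n q.1 (!p))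

/-- the same, for the kernel -/
def gfF (K : ℕ) : ℕ → St → Bool → ℕ
  | 0, _, _ => 0
  | n + 1, st, p =>
    Nat.add (match stepF K st false with
      | none => 0
      | some q => Nat.add (bif q.2 then (bif p then 4503599627370496 else 1) else 0)
          (Nat.mul 20282409603651670423947251286016 (gfF K n q.1 p)))
    (match stepF K st true with
      | none => 0
      | some q => Nat.add (bif q.2 then (bif p then 1 else 4503599627370496) else 0)
          (Nat.mul 20282409603651670423947251286016 (gfF K n q.1 (!p))))

end Pool.Agent.Lib.GJ
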