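import Pool.Agent.Lib.GJ.AutoE
import Pool.Agent.Lib.GJ.Cnt
import Pool.Agent.Lib.GJ.Chk0
import Pool.Agent.Lib.GJ.Chk1
import Pool.Agent.Lib.GJ.Chk2
import Pool.Agent.Lib.GJ.Chk3
import Pool.Agent.Lib.GJ.Chk4
import Pool.Agent.Lib.GJ.Chk5
import Pool.Agent.Lib.GJ.Chk6
import Pool.Agent.Lib.GJ.Chk7

/-!
# Module Pot: the bounds for the numbers of words from the table of potentials

PROOF.  `allT (chkF root) root = true` from `chk0 .. chk7` (`root` is a tree of `tab0 .. tab7`; `simp only [root, allT, chk0, ...]`).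
Let `InT st v`, `decF k = st`, `findF k root = v ≠ 0`.  `allT_find` gives `chkF root k v = true`, so (`stepF_eq`) there are `a`, `b` with
`valF root (step 20 st false) = some a`, `valF root (step 20 st true) = some b`, `8 (a + b) + 1000 ≤ 10 v`.  By definition `valF root none = some 0`, and
`valF root (some (st', cl)) = some a'` means: `v' = findF (encF st') root ≠ 0`, `decF (encF st') = st'` (`eqbF_eq`), so `InT st' v'`, and
`a' = v' + (if cl then 10 ^ 9 else 0)`.
`pot_closed`: induction on `n` for all `st`, `v`, in the form `∑ l ∈ Icc 1 n, (nC l st false + nC l st true) (4/5) ^ l * 10 ^ 9 ≤ v`: by `nC_one`, `nC_succ` the sum for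
`n + 1` is `∑_b` of (`4/5 * 10 ^ 9` if the flag is set) `+ 4/5 * (the sum for n from the successor)`, at most `4/5 * (a + b) ≤ v`.
`pot_alive`: induction on `n` by `nR_succ`; for `n = 0`: `100 ≤ v` from `1000 ≤ 10 v`.
`inT_S0`, `inT_SU`: `k = encF S0`, `encF SU`; `decide +kernel` for `findF (encF S0) root = 1073172749` and `eqbF (decF (encF S0)) S0 = true`.
-/

namespace Pool.Agent.Lib.GJ

/-- the state is in the table, with the potential `v` -/
def InT (st : St) (v : ℕ) : Prop := ∃ k, decF k = st ∧ findF k root = v ∧ v ≠ 0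

namespace PotAux

theorem allT_root (f : ℕ → ℕ → Bool) (h0 : allT f tab0 = true) (h1 : allT f tab1 = true)
    (h2 : allT f tab2 = true) (h3 : allT f tab3 = true) (h4 : allT f tab4 = true)
    (h5 : allT f tab5 = true) (h6 : allT f tab6 = true) (h7 : allT f tab7 = true) :
    allT f root = true := by
  simp only [root, allT, h0, h1, h2, h3, h4, h5, h6, h7, Bool.and_self]

theorem all_root : allT (chkF root) root = true :=
  allT_root _ chk0 chk1 chk2 chk3 chk4 chk5 chk6 chk7

theorem val_some (rt : Tr) (st : St) (cl : Bool) (a : ℕ) (h : valF rt (some (st, cl)) = some a) :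
    ∃ v, (∃ k, decF k = st ∧ findF k rt = v ∧ v ≠ 0) ∧ a = v + (if cl then 1000000000 else 0) := by
  simp only [valF] at h
  by_cases h1 : Nat.beq (findF (encF st) rt) 0 = true
  · rw [h1] at h
    simp at h
  · have h1' : Nat.beq (findF (encF st) rt) 0 = false := Bool.eq_false_iff.2 h1
    rw [h1'] at h
    by_cases h2 : eqbF (decF (encF st)) st = true
    · rw [h2] at h
      simp only [cond_false, cond_true, Option.some.injEq] at h
      refine ⟨findF (encF st) rt, ⟨encF st, eqbF_eq h2, rfl, ?_⟩, ?_⟩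
      · intro h3
        rw [h3] at h1'
        exact absurd h1' (by decide)
      · rw [← h]
        cases cl
        · simp
        · simp
    · have h2' : eqbF (decF (encF st)) st = false := Bool.eq_false_iff.2 h2
      rw [h2'] at h
      simp at h

theorem chk_spec (rt : Tr) (k v : ℕ) (h : chkF rt k v = true) :
    ∃ a b, valF rt (step 20 (decF k) false) = some a ∧ valF rt (step 20 (decF k) true) = some b ∧
      8 * (a + b) + 1000 ≤ 10 * v := by
  simp only [chkF, stepF_eq] at h
  cases h1 : valF rt (step 20 (decF k) false) with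
  | none => rw [h1] at h; simp at h
  | some a =>
    cases h2 : valF rt (step 20 (decF k) true) with
    | none => rw [h1, h2] at h; simp at h
    | some b =>
      rw [h1, h2] at h
      exact ⟨a, b, rfl, rfl, Nat.le_of_ble_eq_true h⟩

theorem inT_spec {st : St} {v : ℕ} (h : InT st v) :
    ∃ a b, valF root (step 20 st false) = some a ∧ valF root (step 20 st true) = some b ∧
      8 * (a + b) + 1000 ≤ 10 * v := by
  obtain ⟨k, hk, hv, h0⟩ := h
  have h1 := allT_find all_root (k := k) (by rw [hv]; exact h0)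
  rw [hv] at h1
  have h2 := chk_spec root k v h1
  rw [hk] at h2
  exact h2

/-- the sum of the closed words -/
noncomputable def sC (n : ℕ) (st : St) : ℝ :=
  ∑ l ∈ Finset.Icc 1 n,
      ((nC 20 l st false : ℝ) + (nC 20 l st true : ℝ)) * (4 / 5 : ℝ) ^ l * 10 ^ 9

/-- the contribution of a successor -/
noncomputable def tC (n : ℕ) (r : Option (St × Bool)) : ℝ :=
  match r with
  | none => 0
  | some q => (if q.2 then 10 ^ 9 else 0) + sC n q.1

theorem one_term (st : St) :
    ((nC 20 1 st false : ℝ) + (nC 20 1 st true : ℝ)) * (4 / 5 : ℝ) ^ 1 * 10 ^ 9 =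
      4 / 5 * ((match step 20 st false with
        | none => (0 : ℝ)
        | some q => if q.2 then 10 ^ 9 else 0) +
        (match step 20 st true with
        | none => (0 : ℝ)
        | some q => if q.2 then 10 ^ 9 else 0)) := by
  rw [nC_one, nC_one]
  rcases step 20 st false with _ | ⟨q, c⟩ <;> rcases step 20 st true with _ | ⟨q', c'⟩
  · simp
  · cases c' <;> simp
  · cases c <;> simp
  · cases c <;> cases c' <;> simp <;> norm_num

theorem succ_term (l : ℕ) (hl : 1 ≤ l) (st : St) :
    ((nC 20 (l + 1) st false : ℝ) + (nC 20 (l + 1) st true : ℝ)) * (4 / 5 : ℝ) ^ (l + 1) * 10 ^ 9 =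
      4 / 5 * ((match step 20 st false with
        | none => (0 : ℝ)
        | some q => ((nC 20 l q.1 false : ℝ) + (nC 20 l q.1 true : ℝ)) * (4 / 5 : ℝ) ^ l * 10 ^ 9) +
        (match step 20 st true with
        | none => (0 : ℝ)
        | some q => ((nC 20 l q.1 false : ℝ) + (nC 20 l q.1 true : ℝ)) * (4 / 5 : ℝ) ^ l * 10 ^ 9)) := by
  rw [nC_succ 20 l hl, nC_succ 20 l hl]
  simp only [Fintype.sum_bool]
  rcases step 20 st false with _ | ⟨q, c⟩ <;> rcases step 20 st true with _ | ⟨q', c'⟩ <;>
    simp <;> ring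

theorem sC_succ (n : ℕ) (st : St) :
    sC (n + 1) st = 4 / 5 * (tC n (step 20 st false) + tC n (step 20 st true)) := by
  have h1 : sC (n + 1) st = ((nC 20 1 st false : ℝ) + (nC 20 1 st true : ℝ)) * (4 / 5 : ℝ) ^ 1 * 10 ^ 9
      + ∑ l ∈ Finset.Icc 1 n, ((nC 20 (l + 1) st false : ℝ) + (nC 20 (l + 1) st true : ℝ)) *
        (4 / 5 : ℝ) ^ (l + 1) * 10 ^ 9 := by
    unfold sC
    rw [← Finset.add_sum_Ioc_eq_sum_Icc (by omega : 1 ≤ n + 1)]
    congr 1
    rw [show Finset.Ioc 1 (n + 1) = (Finset.Icc 1 n).map (addRightEmbedding 1) by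
      ext x
      simp only [Finset.mem_Ioc, Finset.mem_map, Finset.mem_Icc, addRightEmbedding_apply]
      constructor
      · rintro ⟨a, b⟩
        exact ⟨x - 1, by omega, by omega⟩
      · rintro ⟨y, hy, rfl⟩
        omega]
    rw [Finset.sum_map]
    rfl
  rw [h1, one_term, Finset.sum_congr rfl (fun l hl => succ_term l (Finset.mem_Icc.1 hl).1 st),
    ← Finset.mul_sum, Finset.sum_add_distrib]
  unfold tC sC
  rcases step 20 st false with _ | ⟨q, c⟩ <;> rcases step 20 st true with _ | ⟨q', c'⟩
  · simp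
  · simp only [Finset.sum_const_zero, zero_add]
    ring
  · simp only [Finset.sum_const_zero, add_zero]
    ring
  · ring

theorem sC_le (n : ℕ) : ∀ (st : St) (v : ℕ), InT st v → sC n st ≤ (v : ℝ) := by
  induction n with
  | zero =>
    intro st v h
    unfold sC
    simp
  | succ n ih =>
    intro st v h
    obtain ⟨a, b, ha, hb, hab⟩ := inT_spec h
    have key : ∀ r c, valF root r = some c → tC n r ≤ (c : ℝ) := by
      intro r c hc
      rcases r with _ | ⟨q, cl⟩
      · unfold tC
        positivity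
      · obtain ⟨w, hw, rfl⟩ := val_some root q cl c hc
        have h1 := ih q w hw
        unfold tC
        cases cl
        · simpa using h1
        · simp only [if_true]
          push_cast
          linarith
    have h1 := key _ _ ha
    have h2 := key _ _ hb
    have h3 : (8 : ℝ) * (a + b) + 1000 ≤ 10 * v := by exact_mod_cast hab
    rw [sC_succ]
    linarith

/-- the contribution of a successor -/
noncomputable def tR (n : ℕ) (r : Option (St × Bool)) : ℝ :=
  match r with
  | none => 0
  | some q => (nR 20 n q.1 : ℝ) * (4 / 5 : ℝ) ^ n * 100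

theorem nR_step (n : ℕ) (st : St) :
    (nR 20 (n + 1) st : ℝ) * (4 / 5 : ℝ) ^ (n + 1) * 100 =
      4 / 5 * (tR n (step 20 st false) + tR n (step 20 st true)) := by
  rw [nR_succ]
  simp only [Fintype.sum_bool]
  unfold tR
  rcases step 20 st false with _ | ⟨q, c⟩ <;> rcases step 20 st true with _ | ⟨q', c'⟩ <;>
    simp <;> ring

theorem nR_le (n : ℕ) : ∀ (st : St) (v : ℕ), InT st v →
    (nR 20 n st : ℝ) * (4 / 5 : ℝ) ^ n * 100 ≤ (v : ℝ) := by
  induction n with
  | zero =>
    intro st v h
    obtain ⟨a, b, ha, hb, hab⟩ := inT_spec h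
    have h3 : (8 : ℝ) * (a + b) + 1000 ≤ 10 * v := by exact_mod_cast hab
    have ha0 : (0 : ℝ) ≤ a := by positivity
    have hb0 : (0 : ℝ) ≤ b := by positivity
    rw [nR_zero]
    simp only [Nat.cast_one, pow_zero, one_mul]
    linarith
  | succ n ih =>
    intro st v h
    obtain ⟨a, b, ha, hb, hab⟩ := inT_spec h
    have key : ∀ r c, valF root r = some c → tR n r ≤ (c : ℝ) := by
      intro r c hc
      rcases r with _ | ⟨q, cl⟩
      · unfold tR
        positivity
      · obtain ⟨w, hw, rfl⟩ := val_some root q cl c hc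
        have h1 := ih q w hw
        unfold tR
        refine h1.trans ?_
        push_cast
        cases cl
        · simp
        · simp
    have h1 := key _ _ ha
    have h2 := key _ _ hb
    have h3 : (8 : ℝ) * (a + b) + 1000 ≤ 10 * v := by exact_mod_cast hab
    rw [nR_step]
    linarith

end PotAux

theorem inT_S0 : InT S0 1073172749 :=
  ⟨encF S0, eqbF_eq (by decide +kernel), by decide +kernel, by norm_num⟩

theorem inT_SU : InT SU 2501565745 :=
  ⟨encF SU, eqbF_eq (by decide +kernel), by decide +kernel, by norm_num⟩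

theorem pot_closed {st : St} {v : ℕ} (h : InT st v) (n : ℕ) :
    ∑ l ∈ Finset.Icc 1 n,
      ((nC 20 l st false : ℝ) + (nC 20 l st true : ℝ)) * (4 / 5 : ℝ) ^ l * 10 ^ 9 ≤ (v : ℝ) :=
  PotAux.sC_le n st v h

theorem pot_alive {st : St} {v : ℕ} (h : InT st v) (n : ℕ) :
    (nR 20 n st : ℝ) * (4 / 5 : ℝ) ^ n * 100 ≤ (v : ℝ) :=
  PotAux.nR_le n st v h

end Pool.Agent.Lib.GJ
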