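import Pool.Agent.Lib.GJ.Parse
import Pool.Agent.Lib.GJ.Pot
import Pool.Agent.Lib.GJ.GfC

/-!
# Module HeadC: cardinalities of heads and unfinished words, tail of the block numbers

PROOF.
`card_Il`: `(Il 20 n).card = nR 20 n S0`, `pot_alive inT_S0 n`: `nR * (4/5) ^ n * 100 ≤ 1073172749`.
`card_Hl`: a head of length `n` is determined by `i ≤ n - 2` and a closed word of length `n - 2 - i` from `SU`: the number is at most `∑ l ∈ range n, (nC 20 l SU false + nC 20 l SU true)`, and one term is at most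
`3 (5/4) ^ l` by `pot_closed inT_SU l` (`2501565745 / 10 ^ 9 < 3`; `nC 20 0 = 0`); the geometric sum is at most `12 (5/4) ^ n`.
`card_Jl`: at most `1 + 1 + ∑ l ∈ range n, nR 20 l SU`, `nR 20 l SU ≤ 25015658 * (5/4) ^ l`; sum `≤ 4 * 25015658 (5/4) ^ n`.
`tail`: for every `n`: with `T n = ∑ l ∈ Icc 1 n, (nC l false + nC l true) (4/5) ^ l`, `T n ≤ 1.073172749` (`pot_closed`), and `T 50` is the explicit number from `nC_table`;
for `l ≥ 51`: `θ ^ l ≤ (4/5) ^ l * (θ / 0.8) ^ 51`, `θ = 0.79415`, `(θ / 0.8) ^ 51 < 0.6882`, and `0.0169135 * 0.6882 < 0.0117`.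
-/

namespace Pool.Agent.Lib.GJ

namespace HeadCAux

theorem of_pow {c v : ℝ} (n : ℕ) (h : c * (4 / 5 : ℝ) ^ n ≤ v) : c ≤ v * (5 / 4 : ℝ) ^ n := by
  have e : (4 / 5 : ℝ) ^ n * (5 / 4 : ℝ) ^ n = 1 := by
    rw [← mul_pow]; norm_num
  have hp : (0 : ℝ) ≤ (5 / 4 : ℝ) ^ n := by positivity
  calc c = c * (4 / 5 : ℝ) ^ n * (5 / 4 : ℝ) ^ n := by rw [mul_assoc, e, mul_one]
    _ ≤ v * (5 / 4 : ℝ) ^ n := mul_le_mul_of_nonneg_right h hp

theorem geo (n : ℕ) : ∑ l ∈ Finset.range n, (5 / 4 : ℝ) ^ l ≤ 4 * (5 / 4 : ℝ) ^ n := by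
  induction n with
  | zero => simp
  | succ n ih =>
    rw [Finset.sum_range_succ, pow_succ]
    have : (0 : ℝ) ≤ (5 / 4 : ℝ) ^ n := by positivity
    linarith

theorem nR_le (st : St) (v : ℕ) (h : InT st v) (c : ℝ) (hc : (v : ℝ) / 100 ≤ c) (n : ℕ) :
    (nR 20 n st : ℝ) ≤ c * (5 / 4 : ℝ) ^ n := by
  have h1 := pot_alive h n
  have h2 := of_pow (c := (nR 20 n st : ℝ)) (v := (v : ℝ) / 100) n (by linarith)
  have hp : (0 : ℝ) ≤ (5 / 4 : ℝ) ^ n := by positivity
  exact h2.trans (mul_le_mul_of_nonneg_right hc hp)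

theorem nC_le (n : ℕ) :
    ((nC 20 n SU false + nC 20 n SU true : ℕ) : ℝ) ≤ 3 * (5 / 4 : ℝ) ^ n := by
  by_cases hn : n = 0
  · subst hn
    rw [nC_zero, nC_zero]
    norm_num
  have h1 := pot_closed inT_SU n
  have h2 : ((nC 20 n SU false : ℝ) + (nC 20 n SU true : ℝ)) * (4 / 5 : ℝ) ^ n * 10 ^ 9 ≤
      ∑ l ∈ Finset.Icc 1 n,
        ((nC 20 l SU false : ℝ) + (nC 20 l SU true : ℝ)) * (4 / 5 : ℝ) ^ l * 10 ^ 9 := by
    refine Finset.single_le_sum (f := fun l =>
      ((nC 20 l SU false : ℝ) + (nC 20 l SU true : ℝ)) * (4 / 5 : ℝ) ^ l * 10 ^ 9) ?_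
      (Finset.mem_Icc.2 ⟨by omega, le_refl n⟩)
    intro l _
    positivity
  have h3 := of_pow (c := (nC 20 n SU false : ℝ) + (nC 20 n SU true : ℝ)) (v := 3) n (by
    push_cast at h1
    linarith)
  push_cast
  exact h3

theorem aw_filter_card_le {S : Finset (List Bool)} {n : ℕ} {q : List Bool → Prop}
    [DecidablePred q] (F : ℕ → List Bool → List Bool)
    (hS : ∀ u ∈ S, ∃ l < n, ∃ w, w.length = l ∧ q w ∧ u = F l w) :
    S.card ≤ ∑ l ∈ Finset.range n, ((aw l).filter q).card := by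
  classical
  have h1 : S ⊆ (Finset.range n).biUnion (fun l => ((aw l).filter q).image (F l)) := by
    intro u hu
    obtain ⟨l, hl, w, hw, hq, rfl⟩ := hS u hu
    rw [Finset.mem_biUnion]
    refine ⟨l, Finset.mem_range.2 hl, Finset.mem_image.2 ⟨w, ?_, rfl⟩⟩
    rw [Finset.mem_filter, mem_aw]
    exact ⟨hw, hq⟩
  refine (Finset.card_le_card h1).trans (Finset.card_biUnion_le.trans ?_)
  exact Finset.sum_le_sum fun l _ => Finset.card_image_le

/-- the number of blocks of length at most 50, weighted -/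
def bigN : ℕ := ∑ i ∈ Finset.range 50, (ctab (1 + i) false + ctab (1 + i) true) *
  4 ^ (1 + i) * 5 ^ (49 - i)

theorem bigN_ge : 10562592 * 5 ^ 50 ≤ bigN * 10 ^ 7 := by decide +kernel

noncomputable def T (n : ℕ) : ℝ := ∑ l ∈ Finset.Ioc 0 n,
  ((nC 20 l S0 false : ℝ) + (nC 20 l S0 true : ℝ)) * (4 / 5 : ℝ) ^ l

theorem T50 : (10562592 : ℝ) / 10 ^ 7 ≤ T 50 := by
  have h0 : T 50 = (bigN : ℝ) / 5 ^ 50 := by
    unfold T bigN
    have e1 : Finset.Ioc 0 50 = Finset.Ico 1 51 := by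
      ext l; simp only [Finset.mem_Ioc, Finset.mem_Ico]; omega
    rw [e1, Finset.sum_Ico_eq_sum_range, Nat.cast_sum, Finset.sum_div]
    refine Finset.sum_congr rfl fun i hi => ?_
    have hi' : i < 50 := Finset.mem_range.1 hi
    rw [nC_table (by omega) (by omega), nC_table (by omega) (by omega)]
    have e2 : (5 : ℝ) ^ 50 = 5 ^ (1 + i) * 5 ^ (49 - i) := by
      rw [← pow_add]; congr 1; omega
    push_cast
    rw [e2, div_pow]
    have h5 : (5 : ℝ) ^ (1 + i) ≠ 0 := by positivity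
    have h6 : (5 : ℝ) ^ (49 - i) ≠ 0 := by positivity
    field_simp
  rw [h0, div_le_div_iff₀ (by positivity) (by positivity)]
  exact_mod_cast bigN_ge

theorem T_le (n : ℕ) : T n ≤ 1073172749 / 10 ^ 9 := by
  have h1 := pot_closed inT_S0 n
  have e1 : Finset.Icc 1 n = Finset.Ioc 0 n := by
    ext l; simp only [Finset.mem_Ioc, Finset.mem_Icc]; omega
  rw [e1, ← Finset.sum_mul] at h1
  unfold T
  rw [le_div_iff₀ (by positivity)]
  push_cast at h1
  exact h1

end HeadCAux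

open HeadCAux

theorem card_Il (n : ℕ) : ((Il 20 n).card : ℝ) ≤ 10731728 * (5 / 4 : ℝ) ^ n := by
  have h : (Il 20 n).card = nR 20 n S0 := rfl
  rw [h]
  exact nR_le S0 _ inT_S0 _ (by norm_num) n

theorem card_Hl (n : ℕ) : ((Hl 20 n).card : ℝ) ≤ 200125264 * (5 / 4 : ℝ) ^ n := by
  classical
  have h1 : (Hl 20 n).card ≤ ∑ l ∈ Finset.range n,
      ((aw l).filter (fun u => closed 20 SU u = true)).card := by
    refine aw_filter_card_le (fun l w => List.replicate (n - 2 - l) false ++ ([true, false] ++ w)) ?_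
    intro u hu
    unfold Hl at hu
    rw [Finset.mem_filter, mem_aw] at hu
    obtain ⟨hlen, i, w, rfl, hw⟩ := hu
    simp only [List.length_append, List.length_replicate, List.length_cons,
      List.length_nil] at hlen
    refine ⟨w.length, by omega, w, rfl, hw, ?_⟩
    have : n - 2 - w.length = i := by omega
    simp only [this]
  have h2 : ((Hl 20 n).card : ℝ) ≤ ∑ l ∈ Finset.range n, 3 * (5 / 4 : ℝ) ^ l := by
    refine (Nat.cast_le.2 h1).trans ?_
    rw [Nat.cast_sum]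
    refine Finset.sum_le_sum fun l _ => ?_
    rw [nC_total]
    exact nC_le l
  rw [← Finset.mul_sum] at h2
  have h3 := geo n
  have hp : (0 : ℝ) ≤ (5 / 4 : ℝ) ^ n := by positivity
  linarith

theorem card_Jl (n : ℕ) : ((Jl 20 n).card : ℝ) ≤ 200125264 * (5 / 4 : ℝ) ^ n := by
  classical
  have h1 : Jl 20 n ⊆ {List.replicate n false, List.replicate (n - 1) false ++ [true]} ∪
      (Jl 20 n).filter (fun u => ∃ i w, u = List.replicate i false ++ ([true, false] ++ w) ∧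
        (run 20 SU w).isSome = true) := by
    intro u hu
    have hu' := hu
    unfold Jl at hu'
    rw [Finset.mem_filter, mem_aw] at hu'
    obtain ⟨hlen, h | ⟨i, rfl⟩ | h⟩ := hu'
    · rw [h]; simp
    · simp only [List.length_append, List.length_replicate, List.length_cons,
        List.length_nil] at hlen
      have : n - 1 = i := by omega
      rw [this]; simp
    · rw [Finset.mem_union, Finset.mem_filter]
      exact Or.inr ⟨hu, h⟩
  have h2 : ((Jl 20 n).filter (fun u => ∃ i w, u = List.replicate i false ++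
      ([true, false] ++ w) ∧ (run 20 SU w).isSome = true)).card ≤ ∑ l ∈ Finset.range n,
      ((aw l).filter (fun u => (run 20 SU u).isSome = true)).card := by
    refine aw_filter_card_le (fun l w => List.replicate (n - 2 - l) false ++ ([true, false] ++ w)) ?_
    intro u hu
    rw [Finset.mem_filter] at hu
    obtain ⟨hJ, i, w, rfl, hw⟩ := hu
    unfold Jl at hJ
    rw [Finset.mem_filter, mem_aw] at hJ
    have hlen := hJ.1
    simp only [List.length_append, List.length_replicate, List.length_cons,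
      List.length_nil] at hlen
    refine ⟨w.length, by omega, w, rfl, hw, ?_⟩
    have : n - 2 - w.length = i := by omega
    simp only [this]
  have h3 : (Jl 20 n).card ≤ 2 + ∑ l ∈ Finset.range n, nR 20 l SU := by
    refine (Finset.card_le_card h1).trans ((Finset.card_union_le _ _).trans ?_)
    exact Nat.add_le_add Finset.card_le_two h2
  have h4 : ((Jl 20 n).card : ℝ) ≤ 2 + ∑ l ∈ Finset.range n, 25015658 * (5 / 4 : ℝ) ^ l := by
    refine (Nat.cast_le.2 h3).trans ?_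
    push_cast
    refine add_le_add (le_refl _) (Finset.sum_le_sum fun l _ => ?_)
    exact nR_le SU _ inT_SU _ (by norm_num) l
  rw [← Finset.mul_sum] at h4
  have h5 := geo n
  have hp : (1 : ℝ) ≤ (5 / 4 : ℝ) ^ n := one_le_pow₀ (by norm_num)
  linarith

theorem tail (n : ℕ) : ∑ l ∈ Finset.Ioc 50 n, ∑ e : Bool,
    (cB (Bl 20) l e : ℝ) * (79415 / 100000 : ℝ) ^ l ≤ 117 / 10000 := by
  by_cases hn : n ≤ 50
  · rw [Finset.Ioc_eq_empty (by omega)]
    norm_num
  push Not at hn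
  have h1 : ∑ l ∈ Finset.Ioc 50 n, ∑ e : Bool,
      (cB (Bl 20) l e : ℝ) * (79415 / 100000 : ℝ) ^ l ≤
      ∑ l ∈ Finset.Ioc 50 n, (((nC 20 l S0 false : ℝ) + (nC 20 l S0 true : ℝ)) *
        (4 / 5 : ℝ) ^ l) * (6882 / 10000) := by
    refine Finset.sum_le_sum fun l hl => ?_
    have hl' : 51 ≤ l := (Finset.mem_Ioc.1 hl).1
    obtain ⟨j, rfl⟩ := Nat.exists_eq_add_of_le hl'
    have e1 : ∀ e, (cB (Bl 20) (51 + j) e : ℝ) = (nC 20 (51 + j) S0 e : ℝ) := by
      intro e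
      have := cB_Bl 20 (51 + j) e
      unfold cB
      rw [this]
    rw [Fintype.sum_bool, e1, e1]
    have h2 : (79415 / 100000 : ℝ) ^ (51 + j) ≤ (4 / 5 : ℝ) ^ (51 + j) * (6882 / 10000) := by
      have h3 : (79415 / 100000 : ℝ) ^ 51 ≤ (4 / 5 : ℝ) ^ 51 * (6882 / 10000) := by norm_num
      have h4 : (79415 / 100000 : ℝ) ^ j ≤ (4 / 5 : ℝ) ^ j :=
        pow_le_pow_left₀ (by norm_num) (by norm_num) j
      rw [pow_add, pow_add]
      have h5 : (0 : ℝ) ≤ (79415 / 100000 : ℝ) ^ j := by positivity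
      have h6 : (0 : ℝ) ≤ (4 / 5 : ℝ) ^ 51 * (6882 / 10000) := by positivity
      calc (79415 / 100000 : ℝ) ^ 51 * (79415 / 100000 : ℝ) ^ j
          ≤ ((4 / 5 : ℝ) ^ 51 * (6882 / 10000)) * (4 / 5 : ℝ) ^ j := mul_le_mul h3 h4 h5 h6
        _ = (4 / 5 : ℝ) ^ 51 * (4 / 5 : ℝ) ^ j * (6882 / 10000) := by ring
    have h7 : (0 : ℝ) ≤ (nC 20 (51 + j) S0 false : ℝ) + (nC 20 (51 + j) S0 true : ℝ) := by
      positivity
    have h8 := mul_le_mul_of_nonneg_left h2 h7
    linarith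
  refine h1.trans ?_
  rw [← Finset.sum_mul]
  have h9 : T 50 + ∑ l ∈ Finset.Ioc 50 n, ((nC 20 l S0 false : ℝ) + (nC 20 l S0 true : ℝ)) *
      (4 / 5 : ℝ) ^ l = T n := by
    unfold T
    exact Finset.sum_Ioc_consecutive _ (by omega) (by omega)
  have h10 := T50
  have h11 := T_le n
  have h12 : ∑ l ∈ Finset.Ioc 50 n, ((nC 20 l S0 false : ℝ) + (nC 20 l S0 true : ℝ)) *
      (4 / 5 : ℝ) ^ l ≤ 169136 / 10 ^ 7 := by
    have : (1073172749 : ℝ) / 10 ^ 9 ≤ 10562592 / 10 ^ 7 + 169136 / 10 ^ 7 := by norm_num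
    linarith
  have h13 : (169136 : ℝ) / 10 ^ 7 * (6882 / 10000) ≤ 117 / 10000 := by norm_num
  linarith

end Pool.Agent.Lib.GJ
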