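import Pool.Agent.Lib.GJ.InS

/-!
# GJ.InK0: kernel computations for the inner blocks, in small pieces
-/

set_option maxRecDepth 100000

namespace Pool.Agent.Lib.GJ

theorem okc0 : allF2 okc ib0 = true := by
  refine allF2_step (l := ib0) 0 3 (by decide +kernel) ?_
  refine allF2_step (l := ib0) 3 3 (by decide +kernel) ?_
  refine allF2_step (l := ib0) 6 3 (by decide +kernel) ?_
  refine allF2_step (l := ib0) 9 3 (by decide +kernel) ?_
  refine allF2_step (l := ib0) 12 3 (by decide +kernel) ?_
  refine allF2_step (l := ib0) 15 3 (by decide +kernel) ?_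
  refine allF2_step (l := ib0) 18 3 (by decide +kernel) ?_
  refine allF2_step (l := ib0) 21 3 (by decide +kernel) ?_
  refine allF2_step (l := ib0) 24 3 (by decide +kernel) ?_
  refine allF2_step (l := ib0) 27 3 (by decide +kernel) ?_
  refine allF2_step (l := ib0) 30 3 (by decide +kernel) ?_
  refine allF2_step (l := ib0) 33 3 (by decide +kernel) ?_
  refine allF2_step (l := ib0) 36 3 (by decide +kernel) ?_
  refine allF2_step (l := ib0) 39 3 (by decide +kernel) ?_
  refine allF2_step (l := ib0) 42 3 (by decide +kernel) ?_
  refine allF2_step (l := ib0) 45 3 (by decide +kernel) ?_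
  refine allF2_step (l := ib0) 48 3 (by decide +kernel) ?_
  refine allF2_step (l := ib0) 51 3 (by decide +kernel) ?_
  refine allF2_step (l := ib0) 54 3 (by decide +kernel) ?_
  refine allF2_step (l := ib0) 57 3 (by decide +kernel) ?_
  refine allF2_step (l := ib0) 60 3 (by decide +kernel) ?_
  refine allF2_step (l := ib0) 63 3 (by decide +kernel) ?_
  refine allF2_step (l := ib0) 66 3 (by decide +kernel) ?_
  refine allF2_step (l := ib0) 69 3 (by decide +kernel) ?_
  refine allF2_step (l := ib0) 72 3 (by decide +kernel) ?_
  refine allF2_step (l := ib0) 75 3 (by decide +kernel) ?_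
  refine allF2_step (l := ib0) 78 3 (by decide +kernel) ?_
  refine allF2_step (l := ib0) 81 3 (by decide +kernel) ?_
  refine allF2_step (l := ib0) 84 3 (by decide +kernel) ?_
  refine allF2_step (l := ib0) 87 3 (by decide +kernel) ?_
  refine allF2_step (l := ib0) 90 3 (by decide +kernel) ?_
  refine allF2_step (l := ib0) 93 3 (by decide +kernel) ?_
  refine allF2_step (l := ib0) 96 3 (by decide +kernel) ?_
  refine allF2_step (l := ib0) 99 3 (by decide +kernel) ?_
  refine allF2_step (l := ib0) 102 3 (by decide +kernel) ?_
  refine allF2_step (l := ib0) 105 3 (by decide +kernel) ?_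
  refine allF2_step (l := ib0) 108 3 (by decide +kernel) ?_
  refine allF2_step (l := ib0) 111 3 (by decide +kernel) ?_
  refine allF2_step (l := ib0) 114 3 (by decide +kernel) ?_
  refine allF2_step (l := ib0) 117 3 (by decide +kernel) ?_
  refine allF2_step (l := ib0) 120 3 (by decide +kernel) ?_
  refine allF2_step (l := ib0) 123 3 (by decide +kernel) ?_
  refine allF2_step (l := ib0) 126 3 (by decide +kernel) ?_
  refine allF2_step (l := ib0) 129 3 (by decide +kernel) ?_
  refine allF2_step (l := ib0) 132 3 (by decide +kernel) ?_
  refine allF2_step (l := ib0) 135 3 (by decide +kernel) ?_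
  refine allF2_step (l := ib0) 138 3 (by decide +kernel) ?_
  refine allF2_step (l := ib0) 141 3 (by decide +kernel) ?_
  refine allF2_step (l := ib0) 144 3 (by decide +kernel) ?_
  refine allF2_step (l := ib0) 147 3 (by decide +kernel) ?_
  refine allF2_step (l := ib0) 150 3 (by decide +kernel) ?_
  refine allF2_step (l := ib0) 153 3 (by decide +kernel) ?_
  refine allF2_step (l := ib0) 156 3 (by decide +kernel) ?_
  refine allF2_step (l := ib0) 159 3 (by decide +kernel) ?_
  refine allF2_step (l := ib0) 162 3 (by decide +kernel) ?_
  refine allF2_step (l := ib0) 165 3 (by decide +kernel) ?_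
  refine allF2_step (l := ib0) 168 3 (by decide +kernel) ?_
  refine allF2_step (l := ib0) 171 3 (by decide +kernel) ?_
  refine allF2_step (l := ib0) 174 3 (by decide +kernel) ?_
  refine allF2_step (l := ib0) 177 3 (by decide +kernel) ?_
  decide +kernel

theorem irr0 : allF2 (fun m => irrF (blk m)) ib0 = true := by
  refine allF2_step (l := ib0) 0 3 (by decide +kernel) ?_
  refine allF2_step (l := ib0) 3 3 (by decide +kernel) ?_
  refine allF2_step (l := ib0) 6 3 (by decide +kernel) ?_
  refine allF2_step (l := ib0) 9 3 (by decide +kernel) ?_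
  refine allF2_step (l := ib0) 12 3 (by decide +kernel) ?_
  refine allF2_step (l := ib0) 15 3 (by decide +kernel) ?_
  refine allF2_step (l := ib0) 18 3 (by decide +kernel) ?_
  refine allF2_step (l := ib0) 21 3 (by decide +kernel) ?_
  refine allF2_step (l := ib0) 24 3 (by decide +kernel) ?_
  refine allF2_step (l := ib0) 27 3 (by decide +kernel) ?_
  refine allF2_step (l := ib0) 30 3 (by decide +kernel) ?_
  refine allF2_step (l := ib0) 33 3 (by decide +kernel) ?_
  refine allF2_step (l := ib0) 36 3 (by decide +kernel) ?_
  refine allF2_step (l := ib0) 39 3 (by decide +kernel) ?_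
  refine allF2_step (l := ib0) 42 3 (by decide +kernel) ?_
  refine allF2_step (l := ib0) 45 3 (by decide +kernel) ?_
  refine allF2_step (l := ib0) 48 3 (by decide +kernel) ?_
  refine allF2_step (l := ib0) 51 3 (by decide +kernel) ?_
  refine allF2_step (l := ib0) 54 3 (by decide +kernel) ?_
  refine allF2_step (l := ib0) 57 3 (by decide +kernel) ?_
  refine allF2_step (l := ib0) 60 3 (by decide +kernel) ?_
  refine allF2_step (l := ib0) 63 3 (by decide +kernel) ?_
  refine allF2_step (l := ib0) 66 3 (by decide +kernel) ?_
  refine allF2_step (l := ib0) 69 3 (by decide +kernel) ?_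
  refine allF2_step (l := ib0) 72 3 (by decide +kernel) ?_
  refine allF2_step (l := ib0) 75 3 (by decide +kernel) ?_
  refine allF2_step (l := ib0) 78 3 (by decide +kernel) ?_
  refine allF2_step (l := ib0) 81 3 (by decide +kernel) ?_
  refine allF2_step (l := ib0) 84 3 (by decide +kernel) ?_
  refine allF2_step (l := ib0) 87 3 (by decide +kernel) ?_
  refine allF2_step (l := ib0) 90 3 (by decide +kernel) ?_
  refine allF2_step (l := ib0) 93 3 (by decide +kernel) ?_
  refine allF2_step (l := ib0) 96 3 (by decide +kernel) ?_
  refine allF2_step (l := ib0) 99 3 (by decide +kernel) ?_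
  refine allF2_step (l := ib0) 102 3 (by decide +kernel) ?_
  refine allF2_step (l := ib0) 105 3 (by decide +kernel) ?_
  refine allF2_step (l := ib0) 108 3 (by decide +kernel) ?_
  refine allF2_step (l := ib0) 111 3 (by decide +kernel) ?_
  refine allF2_step (l := ib0) 114 3 (by decide +kernel) ?_
  refine allF2_step (l := ib0) 117 3 (by decide +kernel) ?_
  refine allF2_step (l := ib0) 120 3 (by decide +kernel) ?_
  refine allF2_step (l := ib0) 123 3 (by decide +kernel) ?_
  refine allF2_step (l := ib0) 126 3 (by decide +kernel) ?_
  refine allF2_step (l := ib0) 129 3 (by decide +kernel) ?_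
  refine allF2_step (l := ib0) 132 3 (by decide +kernel) ?_
  refine allF2_step (l := ib0) 135 3 (by decide +kernel) ?_
  refine allF2_step (l := ib0) 138 3 (by decide +kernel) ?_
  refine allF2_step (l := ib0) 141 3 (by decide +kernel) ?_
  refine allF2_step (l := ib0) 144 3 (by decide +kernel) ?_
  refine allF2_step (l := ib0) 147 3 (by decide +kernel) ?_
  refine allF2_step (l := ib0) 150 3 (by decide +kernel) ?_
  refine allF2_step (l := ib0) 153 3 (by decide +kernel) ?_
  refine allF2_step (l := ib0) 156 3 (by decide +kernel) ?_
  refine allF2_step (l := ib0) 159 3 (by decide +kernel) ?_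
  refine allF2_step (l := ib0) 162 3 (by decide +kernel) ?_
  refine allF2_step (l := ib0) 165 3 (by decide +kernel) ?_
  refine allF2_step (l := ib0) 168 3 (by decide +kernel) ?_
  refine allF2_step (l := ib0) 171 3 (by decide +kernel) ?_
  refine allF2_step (l := ib0) 174 3 (by decide +kernel) ?_
  refine allF2_step (l := ib0) 177 3 (by decide +kernel) ?_
  decide +kernel

theorem okc1 : allF2 okc ib1 = true := by
  refine allF2_step (l := ib1) 0 3 (by decide +kernel) ?_
  refine allF2_step (l := ib1) 3 3 (by decide +kernel) ?_
  refine allF2_step (l := ib1) 6 3 (by decide +kernel) ?_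
  refine allF2_step (l := ib1) 9 3 (by decide +kernel) ?_
  refine allF2_step (l := ib1) 12 3 (by decide +kernel) ?_
  refine allF2_step (l := ib1) 15 3 (by decide +kernel) ?_
  refine allF2_step (l := ib1) 18 3 (by decide +kernel) ?_
  refine allF2_step (l := ib1) 21 3 (by decide +kernel) ?_
  refine allF2_step (l := ib1) 24 3 (by decide +kernel) ?_
  refine allF2_step (l := ib1) 27 3 (by decide +kernel) ?_
  refine allF2_step (l := ib1) 30 3 (by decide +kernel) ?_
  refine allF2_step (l := ib1) 33 3 (by decide +kernel) ?_
  refine allF2_step (l := ib1) 36 3 (by decide +kernel) ?_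
  refine allF2_step (l := ib1) 39 3 (by decide +kernel) ?_
  refine allF2_step (l := ib1) 42 3 (by decide +kernel) ?_
  refine allF2_step (l := ib1) 45 3 (by decide +kernel) ?_
  refine allF2_step (l := ib1) 48 3 (by decide +kernel) ?_
  refine allF2_step (l := ib1) 51 3 (by decide +kernel) ?_
  refine allF2_step (l := ib1) 54 3 (by decide +kernel) ?_
  refine allF2_step (l := ib1) 57 3 (by decide +kernel) ?_
  refine allF2_step (l := ib1) 60 3 (by decide +kernel) ?_
  refine allF2_step (l := ib1) 63 3 (by decide +kernel) ?_
  refine allF2_step (l := ib1) 66 3 (by decide +kernel) ?_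
  refine allF2_step (l := ib1) 69 3 (by decide +kernel) ?_
  refine allF2_step (l := ib1) 72 3 (by decide +kernel) ?_
  refine allF2_step (l := ib1) 75 3 (by decide +kernel) ?_
  refine allF2_step (l := ib1) 78 3 (by decide +kernel) ?_
  refine allF2_step (l := ib1) 81 3 (by decide +kernel) ?_
  refine allF2_step (l := ib1) 84 3 (by decide +kernel) ?_
  refine allF2_step (l := ib1) 87 3 (by decide +kernel) ?_
  refine allF2_step (l := ib1) 90 3 (by decide +kernel) ?_
  refine allF2_step (l := ib1) 93 3 (by decide +kernel) ?_
  refine allF2_step (l := ib1) 96 3 (by decide +kernel) ?_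
  refine allF2_step (l := ib1) 99 3 (by decide +kernel) ?_
  refine allF2_step (l := ib1) 102 3 (by decide +kernel) ?_
  refine allF2_step (l := ib1) 105 3 (by decide +kernel) ?_
  refine allF2_step (l := ib1) 108 3 (by decide +kernel) ?_
  refine allF2_step (l := ib1) 111 3 (by decide +kernel) ?_
  refine allF2_step (l := ib1) 114 3 (by decide +kernel) ?_
  refine allF2_step (l := ib1) 117 3 (by decide +kernel) ?_
  refine allF2_step (l := ib1) 120 3 (by decide +kernel) ?_
  refine allF2_step (l := ib1) 123 3 (by decide +kernel) ?_
  refine allF2_step (l := ib1) 126 3 (by decide +kernel) ?_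
  refine allF2_step (l := ib1) 129 3 (by decide +kernel) ?_
  refine allF2_step (l := ib1) 132 3 (by decide +kernel) ?_
  refine allF2_step (l := ib1) 135 3 (by decide +kernel) ?_
  refine allF2_step (l := ib1) 138 3 (by decide +kernel) ?_
  refine allF2_step (l := ib1) 141 3 (by decide +kernel) ?_
  refine allF2_step (l := ib1) 144 3 (by decide +kernel) ?_
  refine allF2_step (l := ib1) 147 3 (by decide +kernel) ?_
  refine allF2_step (l := ib1) 150 3 (by decide +kernel) ?_
  refine allF2_step (l := ib1) 153 3 (by decide +kernel) ?_
  refine allF2_step (l := ib1) 156 3 (by decide +kernel) ?_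
  refine allF2_step (l := ib1) 159 3 (by decide +kernel) ?_
  refine allF2_step (l := ib1) 162 3 (by decide +kernel) ?_
  refine allF2_step (l := ib1) 165 3 (by decide +kernel) ?_
  refine allF2_step (l := ib1) 168 3 (by decide +kernel) ?_
  refine allF2_step (l := ib1) 171 3 (by decide +kernel) ?_
  refine allF2_step (l := ib1) 174 3 (by decide +kernel) ?_
  refine allF2_step (l := ib1) 177 3 (by decide +kernel) ?_
  decide +kernel

theorem irr1 : allF2 (fun m => irrF (blk m)) ib1 = true := by
  refine allF2_step (l := ib1) 0 3 (by decide +kernel) ?_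
  refine allF2_step (l := ib1) 3 3 (by decide +kernel) ?_
  refine allF2_step (l := ib1) 6 3 (by decide +kernel) ?_
  refine allF2_step (l := ib1) 9 3 (by decide +kernel) ?_
  refine allF2_step (l := ib1) 12 3 (by decide +kernel) ?_
  refine allF2_step (l := ib1) 15 3 (by decide +kernel) ?_
  refine allF2_step (l := ib1) 18 3 (by decide +kernel) ?_
  refine allF2_step (l := ib1) 21 3 (by decide +kernel) ?_
  refine allF2_step (l := ib1) 24 3 (by decide +kernel) ?_
  refine allF2_step (l := ib1) 27 3 (by decide +kernel) ?_
  refine allF2_step (l := ib1) 30 3 (by decide +kernel) ?_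
  refine allF2_step (l := ib1) 33 3 (by decide +kernel) ?_
  refine allF2_step (l := ib1) 36 3 (by decide +kernel) ?_
  refine allF2_step (l := ib1) 39 3 (by decide +kernel) ?_
  refine allF2_step (l := ib1) 42 3 (by decide +kernel) ?_
  refine allF2_step (l := ib1) 45 3 (by decide +kernel) ?_
  refine allF2_step (l := ib1) 48 3 (by decide +kernel) ?_
  refine allF2_step (l := ib1) 51 3 (by decide +kernel) ?_
  refine allF2_step (l := ib1) 54 3 (by decide +kernel) ?_
  refine allF2_step (l := ib1) 57 3 (by decide +kernel) ?_
  refine allF2_step (l := ib1) 60 3 (by decide +kernel) ?_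
  refine allF2_step (l := ib1) 63 3 (by decide +kernel) ?_
  refine allF2_step (l := ib1) 66 3 (by decide +kernel) ?_
  refine allF2_step (l := ib1) 69 3 (by decide +kernel) ?_
  refine allF2_step (l := ib1) 72 3 (by decide +kernel) ?_
  refine allF2_step (l := ib1) 75 3 (by decide +kernel) ?_
  refine allF2_step (l := ib1) 78 3 (by decide +kernel) ?_
  refine allF2_step (l := ib1) 81 3 (by decide +kernel) ?_
  refine allF2_step (l := ib1) 84 3 (by decide +kernel) ?_
  refine allF2_step (l := ib1) 87 3 (by decide +kernel) ?_
  refine allF2_step (l := ib1) 90 3 (by decide +kernel) ?_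
  refine allF2_step (l := ib1) 93 3 (by decide +kernel) ?_
  refine allF2_step (l := ib1) 96 3 (by decide +kernel) ?_
  refine allF2_step (l := ib1) 99 3 (by decide +kernel) ?_
  refine allF2_step (l := ib1) 102 3 (by decide +kernel) ?_
  refine allF2_step (l := ib1) 105 3 (by decide +kernel) ?_
  refine allF2_step (l := ib1) 108 3 (by decide +kernel) ?_
  refine allF2_step (l := ib1) 111 3 (by decide +kernel) ?_
  refine allF2_step (l := ib1) 114 3 (by decide +kernel) ?_
  refine allF2_step (l := ib1) 117 3 (by decide +kernel) ?_
  refine allF2_step (l := ib1) 120 3 (by decide +kernel) ?_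
  refine allF2_step (l := ib1) 123 3 (by decide +kernel) ?_
  refine allF2_step (l := ib1) 126 3 (by decide +kernel) ?_
  refine allF2_step (l := ib1) 129 3 (by decide +kernel) ?_
  refine allF2_step (l := ib1) 132 3 (by decide +kernel) ?_
  refine allF2_step (l := ib1) 135 3 (by decide +kernel) ?_
  refine allF2_step (l := ib1) 138 3 (by decide +kernel) ?_
  refine allF2_step (l := ib1) 141 3 (by decide +kernel) ?_
  refine allF2_step (l := ib1) 144 3 (by decide +kernel) ?_
  refine allF2_step (l := ib1) 147 3 (by decide +kernel) ?_
  refine allF2_step (l := ib1) 150 3 (by decide +kernel) ?_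
  refine allF2_step (l := ib1) 153 3 (by decide +kernel) ?_
  refine allF2_step (l := ib1) 156 3 (by decide +kernel) ?_
  refine allF2_step (l := ib1) 159 3 (by decide +kernel) ?_
  refine allF2_step (l := ib1) 162 3 (by decide +kernel) ?_
  refine allF2_step (l := ib1) 165 3 (by decide +kernel) ?_
  refine allF2_step (l := ib1) 168 3 (by decide +kernel) ?_
  refine allF2_step (l := ib1) 171 3 (by decide +kernel) ?_
  refine allF2_step (l := ib1) 174 3 (by decide +kernel) ?_
  refine allF2_step (l := ib1) 177 3 (by decide +kernel) ?_
  decide +kernel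

theorem wsum_all : Nat.ble (Nat.pow 1000 58) (wsum ib) = true := by decide +kernel

theorem inc_all : incF 0 ib = true := by decide +kernel

theorem dstB_eq : ∀ q < 34, dstB q true = dst q true ∧ dstB q false = dst q false := by
  decide +kernel

theorem dstB_dead : dstB 99 true = 99 ∧ dstB 99 false = 99 := by decide +kernel

end Pool.Agent.Lib.GJ
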