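import Pool.Agent.Lib.GJ.InD

/-!
# GJ.InS: the tests for a list can be done piece by piece
-/

namespace Pool.Agent.Lib.GJ

theorem allF2_app {f : ℕ → Bool} {l m : List ℕ} (h1 : allF2 f l = true) (h2 : allF2 f m = true) :
    allF2 f (l ++ m) = true := by
  induction l with
  | nil => exact h2
  | cons a l ih =>
    unfold allF2 at h1 ih ⊢
    simp only [List.cons_append] at h1 ⊢
    cases hf : f a with
    | false => rw [hf] at h1; exact absurd h1 (by simp)
    | true => rw [hf] at h1; exact ih h1

theorem allF2_step {f : ℕ → Bool} {l : List ℕ} (a c : ℕ) (h1 : allF2 f ((l.drop a).take c) = true)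
    (h2 : allF2 f (l.drop (a + c)) = true) : allF2 f (l.drop a) = true := by
  have h := allF2_app h1 h2
  rw [← List.drop_drop, List.take_append_drop] at h
  exact h

end Pool.Agent.Lib.GJ
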