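import Pool.Agent.Lib.GJ.InvP

/-!
# Module InvC: soundness of one step

PROOF of `step_sound`.  Let `(P1, R)` be as in `stepP_sound` (with `b = x (n + 1)`), `P2`, `C1`, `C2` as in `step`.
* `P2` satisfies `Pd .. (n + 1)` for all its elements and `Cp K x a (n + 1) P2 0` (if `b` is true then `(0, false)` was added; it satisfies `Pd`: `a + 2 ≤ n + 1` because `a + 1 ≤ n`).
* every `c' ∈ C2` satisfies `Cd K x a m (n + 1) (n + 1 - c')`.
  - `c' = c + 1`, `c ∈ C`, `kil R (c + 1) = false`; let `q = n - c`.  Only the last condition is new, for digits `d ≥ q + 2` with `d + rad = n + 1`: `e = rad`, `d = n + 1 - e`, so `e ∈ R`.  As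
    `d ≥ q + 2` means `e + 2 ≤ c + 1`, `kil = false` gives `2 e ≤ c + 2`, that is `q - 1 ≤ d - e`.
  - `c' = 3`, created: `b = false`, `x n = true`, `x (n - 2) = true` (bits `0` and `2`, `4 ≤ L`), `q = n - 2`; all `p ∈ P1` have age at most `1`.  `lo ≤ q`: if `m = true` from `a + 4 ≤ n`, otherwise from
    `4 ≤ L ≤ n - a + 1`.  Digits `a ≤ d ≤ q`: if `d = a` then `Rz .. 1` and `rad = 1`; if `d = a + 1` then `Rz .. 2` (or `1`) and `rad ≤ 2`; in both cases `d + rad ≤ q + 3`.  If `d ≥ a + 2`: if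
    `rad > n + 1 - d` then `d` is unresolved at `n + 1`, so `(n + 1 - d, _) ∈ P1` by `Cp`, with age `≥ 3`: contradiction.  Digits `d ≥ q + 2 = n` with `d + rad ≤ n + 1`: `d = n + 1` is no digit, `d = n`
    has `rad ≤ 1`, so `rad = 1`, but `¬ Rz K x a n 1` (as `n - 1 ≥ a`).
* if `C2.any (fin K P2) = true`: `c ∈ C2`, `K ≤ c + 2`, `K ≤ c - e + 1` for all `(e, f) ∈ P2`; `q = n + 1 - c` is a cut: let `d ≥ q + 2` be a digit.  If `d + rad ≤ n + 1`: `Cd`.  Otherwise, if `d ≤ n + 1`,
  it is unresolved at `n + 1`: `e = n + 1 - d`, `(e, f) ∈ P2`, `rad ≤ K ≤ c - e + 1` (natural subtraction; `c < e` is impossible as then `K ≤ 1`), so `d - rad ≥ n - c = q - 1`.  If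
  `d > n + 1`: `d - rad ≥ n + 2 - K ≥ n - c`.  This is the first alternative of the claim (`q + 3 ≤ n + 1`, `lo ≤ q` from `Cd`).
* otherwise the new state satisfies `Inv`: bits of `2 W + b` (`Nat.testBit_succ`...), of `(2 W + b) % 2 ^ need` below `need` (`Nat.testBit_mod_two_pow`); `needL` is at least `K` and at least `p.1 + K + 1` for all
  `p ∈ P2`, and `L' = needL ≤ L + 1` in the truncated case.  If not truncated and the old state was in the second alternative of `full`: `K ≤ L + 1`, and `p.1 + K + 1 ≤ L + 1` for `p ∈ P1` (its age is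
  one more than the age of an element of `P`, third clause of `stepP_sound`), and for `(0, false)`.

-/

namespace Pool.Agent.Lib.GJ

/-- the first position of a cut that counts: after a cut (`m = true`) the old cut itself is excluded -/
def lo (a : ℤ) (m : Bool) : ℤ := if m then a + 2 else a + 1

/-- the conditions for a candidate `q` at time `n` -/
def Cd (K : ℕ) (x : ℤ → Bool) (a : ℤ) (m : Bool) (n q : ℤ) : Prop :=
  lo a m ≤ q ∧ q + 3 ≤ n ∧ x q = true ∧ x (q + 2) = true ∧
  (∀ d, a ≤ d → d ≤ q → x d = true → d + (rad K x a d : ℤ) ≤ q + 3) ∧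
  ∀ d, q + 2 ≤ d → x d = true → d + (rad K x a d : ℤ) ≤ n → q - 1 ≤ d - (rad K x a d : ℤ)

/-- the state describes the sequence at time `n` -/
structure Inv (K : ℕ) (x : ℤ → Bool) (a : ℤ) (m : Bool) (n : ℤ) (st : St) : Prop where
  start : (if m then a + 4 else a + 1) ≤ n
  bits : ∀ i : ℕ, i < st.L → st.W.testBit i = x (n - i)
  len : (st.L : ℤ) ≤ n - a + 1
  full : (st.L : ℤ) = n - a + 1 ∧ st.B = m ∨
    (st.B = false ∧ K ≤ st.L ∧ ∀ p ∈ st.P, p.1 + K + 1 ≤ st.L)
  pend : ∀ p ∈ st.P, Pd K x a n p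
  comp : Cp K x a n st.P 0
  cand : ∀ c ∈ st.C, Cd K x a m n (n - c)

namespace InvCAux

theorem needL_K (K : ℕ) (P : List (ℕ × Bool)) : K ≤ needL K P := by
  induction P with
  | nil => exact le_refl K
  | cons p P ih =>
    have h2 : needL K (p :: P) = max (p.1 + K + 1) (needL K P) := rfl
    rw [h2]
    exact le_trans ih (le_max_right _ _)

theorem needL_mem (K : ℕ) (P : List (ℕ × Bool)) : ∀ p ∈ P, p.1 + K + 1 ≤ needL K P := by
  induction P with
  | nil =>
    intro p hp
    simp at hp
  | cons q P ih =>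
    intro p hp
    have h2 : needL K (q :: P) = max (q.1 + K + 1) (needL K P) := rfl
    rw [h2]
    rcases List.mem_cons.1 hp with h | h
    · rw [h]
      exact le_max_left _ _
    · exact le_trans (ih p h) (le_max_right _ _)

theorem rad_le_of {K : ℕ} {x : ℤ → Bool} {a d : ℤ} {k : ℕ} (h1 : 1 ≤ k) (h : Rz K x a d k) :
    rad K x a d ≤ k := by
  by_contra hcon
  exact not_Rz h1 (by omega) h

theorem bits_succ {x : ℤ → Bool} {n : ℤ} {W L : ℕ} (bits : ∀ i : ℕ, i < L → W.testBit i = x (n - i)) :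
    ∀ i : ℕ, i < L + 1 → (2 * W + (if x (n + 1) = true then 1 else 0)).testBit i = x (n + 1 - i) := by
  intro i hi
  cases i with
  | zero =>
    have e0 : n + 1 - ((0 : ℕ) : ℤ) = n + 1 := by simp
    rw [e0, Nat.testBit_zero]
    cases hb : x (n + 1)
    · simp
    · have h1 : (2 * W + 1) % 2 = 1 := by omega
      simp [h1]
  | succ j =>
    have e1 : n + 1 - ((j + 1 : ℕ) : ℤ) = n - j := by push_cast; ring
    rw [e1, ← bits j (by omega), Nat.testBit_succ]
    congr 1
    split_ifs <;> omega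

theorem lo_ge (a : ℤ) (m : Bool) : a + 1 ≤ lo a m := by
  unfold lo
  split_ifs <;> omega

theorem pd_new {K : ℕ} {x : ℤ → Bool} {a n : ℤ} {P1 : List (ℕ × Bool)} (han : a + 1 ≤ n)
    (h2 : ∀ p ∈ P1, Pd K x a (n + 1) p) :
    ∀ p ∈ (if x (n + 1) = true then (0, false) :: P1 else P1), Pd K x a (n + 1) p := by
  intro p hp
  by_cases hb : x (n + 1) = true
  · rw [if_pos hb] at hp
    rcases List.mem_cons.1 hp with h | h
    · rw [h]
      refine ⟨?_, ?_, ?_, ?_⟩
      · show a + 2 ≤ n + 1 - ((0 : ℕ) : ℤ)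
        push_cast
        omega
      · show x (n + 1 - ((0 : ℕ) : ℤ)) = true
        simpa using hb
      · intro k hk1 hk2
        have hk3 : k ≤ 0 := hk2
        omega
      · intro hcon
        have hcon2 : 2 ≤ 0 := hcon
        omega
    · exact h2 p h
  · rw [if_neg hb] at hp
    exact h2 p hp

theorem cp_new {K : ℕ} {x : ℤ → Bool} {a n : ℤ} {P1 : List (ℕ × Bool)}
    (h3 : Cp K x a (n + 1) P1 1) :
    Cp K x a (n + 1) (if x (n + 1) = true then (0, false) :: P1 else P1) 0 := by
  intro e _ g1 g2 g3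
  rcases Nat.eq_zero_or_pos e with h | h
  · rw [h] at g2
    have g2' : x (n + 1) = true := by simpa using g2
    rw [if_pos g2', h]
    exact ⟨false, List.mem_cons_self⟩
  · obtain ⟨f, hf⟩ := h3 e h g1 g2 g3
    refine ⟨f, ?_⟩
    split_ifs
    · exact List.mem_cons_of_mem _ hf
    · exact hf

theorem cd_old {K : ℕ} {x : ℤ → Bool} {a n : ℤ} {m : Bool} {R : List ℕ} (hK : 6 ≤ K)
    (h4 : ∀ e : ℕ, e ∈ R ↔ 1 ≤ e ∧ a + 2 ≤ n + 1 - e ∧ x (n + 1 - e) = true ∧
        rad K x a (n + 1 - e) = e) {c : ℕ} (hc : Cd K x a m n (n - c)) (hk : kil R (c + 1) = false) :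
    Cd K x a m (n + 1) (n + 1 - ((c + 1 : ℕ) : ℤ)) := by
  have e1 : n + 1 - ((c + 1 : ℕ) : ℤ) = n - c := by push_cast; ring
  rw [e1]
  obtain ⟨g1, g2, g3, g4, g5, g6⟩ := hc
  refine ⟨g1, by omega, g3, g4, g5, ?_⟩
  intro d hd hxd hr
  by_cases hr2 : d + (rad K x a d : ℤ) ≤ n
  · exact g6 d hd hxd hr2
  · have hr3 : d + (rad K x a d : ℤ) = n + 1 := by omega
    have hlo := lo_ge a m
    have hde : d = n + 1 - ((rad K x a d : ℕ) : ℤ) := by omega
    have hmem : rad K x a d ∈ R := by
      rw [h4]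
      rw [← hde]
      exact ⟨rad_pos (by omega) x a d, by omega, hxd, rfl⟩
    unfold kil at hk
    rw [List.any_eq_false] at hk
    have h5 := hk _ hmem
    simp only [Bool.and_eq_true, decide_eq_true_eq, not_and, not_lt] at h5
    have h6 := h5 (by omega)
    omega

theorem cd_three {K : ℕ} {x : ℤ → Bool} {a n : ℤ} {m : Bool} {W L : ℕ} {P1 : List (ℕ × Bool)}
    (hK : 6 ≤ K) (start : (if m then a + 4 else a + 1) ≤ n)
    (bits : ∀ i : ℕ, i < L → W.testBit i = x (n - i))
    (len : (L : ℤ) ≤ n - a + 1) (h3 : Cp K x a (n + 1) P1 1)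
    (hc : crea W L (x (n + 1)) P1 = true) :
    Cd K x a m (n + 1) (n + 1 - ((3 : ℕ) : ℤ)) := by
  have e1 : n + 1 - ((3 : ℕ) : ℤ) = n - 2 := by push_cast; ring
  rw [e1]
  unfold crea at hc
  simp only [Bool.and_eq_true, decide_eq_true_eq, List.all_eq_true] at hc
  obtain ⟨⟨⟨⟨c1, c2⟩, c3⟩, c4⟩, c5⟩ := hc
  have b0 := bits 0 (by omega)
  have b2 := bits 2 (by omega)
  rw [c2] at b0
  rw [c3] at b2
  have b0' : x n = true := by
    rw [b0]
    simp
  have b2' : x (n - 2) = true := by
    rw [b2]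
    simp
  have hlo : lo a m ≤ n - 2 := by
    unfold lo
    cases m
    · simp only [Bool.false_eq_true, if_false]
      omega
    · simp only [if_true] at start ⊢
      omega
  have hlo2 := lo_ge a m
  refine ⟨hlo, by omega, b2', ?_, ?_, ?_⟩
  · rw [show n - 2 + 2 = n by ring]
    exact b0'
  · intro d had hd hxd
    by_contra hcon
    have hcon2 : n + 1 < d + (rad K x a d : ℤ) := by omega
    rcases lt_or_ge d (a + 2) with h | h
    · have hR : Rz K x a d 2 := by
        left
        push_cast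
        omega
      have := rad_le_of (by omega) hR
      omega
    · obtain ⟨e, he⟩ : ∃ e : ℕ, (e : ℤ) = n + 1 - d := ⟨(n + 1 - d).toNat, by omega⟩
      have hde : n + 1 - (e : ℤ) = d := by omega
      obtain ⟨f, hf⟩ := h3 e (by omega) (by rw [hde]; exact h) (by rw [hde]; exact hxd) (by
        intro k hk1 hk2
        rw [hde]
        exact not_Rz hk1 (by omega))
      have h6 := c5 _ hf
      have h7 : e ≤ 1 := h6
      omega
  · intro d hd hxd hr
    have h5 := rad_pos (by omega : 3 ≤ K) x a d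
    omega

theorem cut_of {K : ℕ} {x : ℤ → Bool} {a n : ℤ} {m : Bool} {P2 : List (ℕ × Bool)} {c : ℕ}
    (hK : 6 ≤ K) (h3 : Cp K x a (n + 1) P2 0) (hc : Cd K x a m (n + 1) (n + 1 - c))
    (hf : fin K P2 c = true) : Cut K x a (n + 1 - c) := by
  obtain ⟨g1, g2, g3, g4, g5, g6⟩ := hc
  have hlo := lo_ge a m
  unfold fin at hf
  simp only [Bool.and_eq_true, decide_eq_true_eq, List.all_eq_true] at hf
  obtain ⟨f1, f2⟩ := hf
  refine ⟨by omega, g3, g4, g5, ?_⟩
  intro d hd hxd
  have hrK := rad_le (by omega : 3 ≤ K) x a d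
  by_cases hr : d + (rad K x a d : ℤ) ≤ n + 1
  · exact g6 d hd hxd hr
  · by_cases hdn : d ≤ n + 1
    · obtain ⟨e, he⟩ : ∃ e : ℕ, (e : ℤ) = n + 1 - d := ⟨(n + 1 - d).toNat, by omega⟩
      have hde : n + 1 - (e : ℤ) = d := by omega
      obtain ⟨f, hf⟩ := h3 e (Nat.zero_le _) (by rw [hde]; omega) (by rw [hde]; exact hxd) (by
        intro k hk1 hk2
        rw [hde]
        exact not_Rz hk1 (by omega))
      have h6 : K ≤ c - e + 1 := f2 _ hf
      omega
    · omega

end InvCAux

open InvCAux in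
theorem step_sound {K : ℕ} {x : ℤ → Bool} {a n : ℤ} {m : Bool} {st : St} (hK : 6 ≤ K)
    (hx : Leg K x) (hm : m = true → NC K x a) (hI : Inv K x a m n st) :
    (∃ q, lo a m ≤ q ∧ q + 3 ≤ n + 1 ∧ Cut K x a q) ∨
    ∃ st' cl, step K st (x (n + 1)) = some (st', cl) ∧ Inv K x a m (n + 1) st' := by
  obtain ⟨start, bits, len, full, pend, comp, cand⟩ := hI
  obtain ⟨P1, R, h1, h2, h3, h4⟩ := stepP_sound (by omega : 4 ≤ K) hx hm bits len full pend comp
  have han : a + 1 ≤ n := by
    split_ifs at start <;> omega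
  have hPd := pd_new (K := K) (x := x) (a := a) (n := n) (P1 := P1) han (fun p hp => (h2 p hp).2.1)
  have hCp := cp_new h3
  have hStep : step K st (x (n + 1)) =
      (let cre := crea st.W st.L (x (n + 1)) P1
      let C1 := (st.C.map (· + 1)).filter (fun c => !(kil R c))
      let P2 := if x (n + 1) then (0, false) :: P1 else P1
      let C2 := if cre then 3 :: C1 else C1
      if C2.any (fin K P2) then none
      else
        let need := needL K P2
        let W1 := 2 * st.W + (if x (n + 1) then 1 else 0)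
        if need < st.L + 1 then
          some (⟨W1 % 2 ^ need, need, false, P2, C2⟩, cre && C1.isEmpty)
        else some (⟨W1, st.L + 1, st.B, P2, C2⟩, cre && C1.isEmpty)) := by
    unfold step
    rw [h1]
  dsimp only at hStep
  have hBits := bits_succ bits
  have hP2 : ∀ p ∈ (if x (n + 1) = true then (0, false) :: P1 else P1),
      p ∈ P1 ∨ p = (0, false) := by
    intro p hp
    split_ifs at hp
    · rcases List.mem_cons.1 hp with h | h
      · exact Or.inr h
      · exact Or.inl h
    · exact Or.inl hp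
  generalize (if x (n + 1) = true then (0, false) :: P1 else P1) = P2 at *
  generalize (2 * st.W + (if x (n + 1) = true then 1 else 0)) = W1 at *
  have hC1 : ∀ c ∈ (st.C.map (· + 1)).filter (fun c => !(kil R c)),
      Cd K x a m (n + 1) (n + 1 - c) := by
    intro c' hc'
    rw [List.mem_filter, List.mem_map] at hc'
    obtain ⟨⟨c, hc, rfl⟩, hk⟩ := hc'
    exact cd_old hK h4 (cand c hc) (by simpa using hk)
  generalize (st.C.map (· + 1)).filter (fun c => !(kil R c)) = C1 at *
  have hC2 : ∀ c ∈ (if crea st.W st.L (x (n + 1)) P1 = true then 3 :: C1 else C1),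
      Cd K x a m (n + 1) (n + 1 - c) := by
    intro c hc
    by_cases hcr : crea st.W st.L (x (n + 1)) P1 = true
    · rw [if_pos hcr] at hc
      rcases List.mem_cons.1 hc with h | h
      · rw [h]
        exact cd_three hK start bits len h3 hcr
      · exact hC1 c h
    · rw [if_neg hcr] at hc
      exact hC1 c hc
  generalize (if crea st.W st.L (x (n + 1)) P1 = true then 3 :: C1 else C1) = C2 at *
  by_cases hany : C2.any (fin K P2) = true
  · left
    rw [List.any_eq_true] at hany
    obtain ⟨c, hc, hfin⟩ := hany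
    have hcd := hC2 c hc
    exact ⟨n + 1 - c, hcd.1, hcd.2.1, cut_of hK hCp hcd hfin⟩
  · right
    rw [if_neg hany] at hStep
    by_cases hneed : needL K P2 < st.L + 1
    · rw [if_pos hneed] at hStep
      refine ⟨_, _, hStep, ?_, ?_, ?_, ?_, hPd, hCp, hC2⟩
      · omega
      · intro i hi
        have hi' : i < needL K P2 := hi
        show (W1 % 2 ^ needL K P2).testBit i = x (n + 1 - i)
        rw [Nat.testBit_mod_two_pow, hBits i (by omega)]
        simp [hi']
      · show ((needL K P2 : ℕ) : ℤ) ≤ n + 1 - a + 1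
        omega
      · right
        exact ⟨rfl, needL_K K P2, needL_mem K P2⟩
    · rw [if_neg hneed] at hStep
      refine ⟨_, _, hStep, ?_, ?_, ?_, ?_, hPd, hCp, hC2⟩
      · omega
      · exact hBits
      · show ((st.L + 1 : ℕ) : ℤ) ≤ n + 1 - a + 1
        push_cast
        omega
      · rcases full with ⟨f1, f2⟩ | ⟨f1, f2, f3⟩
        · left
          refine ⟨?_, f2⟩
          show ((st.L + 1 : ℕ) : ℤ) = n + 1 - a + 1
          push_cast
          omega
        · right
          refine ⟨f1, ?_, ?_⟩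
          · show K ≤ st.L + 1
            omega
          · intro p hp
            show p.1 + K + 1 ≤ st.L + 1
            rcases hP2 p hp with h | h
            · obtain ⟨g1, -, f, g2⟩ := h2 p h
              have g3 := f3 _ g2
              have g4 : p.1 - 1 + K + 1 ≤ st.L := g3
              omega
            · rw [h]
              show 0 + K + 1 ≤ st.L + 1
              omega

end Pool.Agent.Lib.GJ
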