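import Pool.Agent.Lib.GJ.InvC

/-!
# Module InvK: the automaton notices a cut

Use `stepP_sound` (module InvP) for the pending digits; the treatment of the candidates is as in module InvC (prove what you need again, or look at InvC when it is done).

PROOF of `step_close`.  `q = n - 2` is a cut and no earlier one.  `b = x (q + 3) = false` (adjacent to `x (q + 2)`), `x n`, `x (n - 2)` true, `4 ≤ L` (`L = n - a + 1 ≥ 4` or `L ≥ K`).  All `(e, f) ∈ P1` have `e ≤ 1`: otherwise
`d = n + 1 - e ≤ q + 1`, `d ≠ q + 1` (adjacent to `q`), `a ≤ d`, so `d + rad ≤ q + 3`, `rad ≤ e`, contradiction with `Pd` (third condition and `rad_spec`).  So `crea = true`.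
`C1 = []`: let `c' ∈ C1`, `q' = n + 1 - c'`; from `Cd .. n q'` (old candidate) `q' + 3 ≤ n`, so `q' < q`.  `q'` is a cut: let `d ≥ q' + 2` be a digit; if `d + rad ≤ n + 1` use `Cd` at time `n + 1`; otherwise `d > q` (by the
third condition of the cut `q`), so `d ≥ q + 2`, `q' - 1 ≤ q - 1 ≤ d - rad`.  Contradiction.
`fin K P1 3 = false` as `K > 5`.  So the step is `some` with flag `true`.
-/

namespace Pool.Agent.Lib.GJ

namespace InvKAux

theorem one_digit {x : ℤ → Bool} {K : ℕ} (hx : Leg K x) {i j : ℤ} (hi : x i = true)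
    (hj : x j = true) : j ≠ i + 1 := by
  intro h
  subst h
  exact hx.1 i ⟨hi, hj⟩

end InvKAux

open InvKAux in
theorem step_close {K : ℕ} {x : ℤ → Bool} {a n : ℤ} {m : Bool} {st : St} (hK : 6 ≤ K)
    (hx : Leg K x) (hm : m = true → NC K x a) (hI : Inv K x a m n st)
    (hlo : lo a m ≤ n - 2) (hc : Cut K x a (n - 2))
    (hf : ∀ q, lo a m ≤ q → q < n - 2 → ¬ Cut K x a q) :
    ∃ st', step K st (x (n + 1)) = some (st', true) := by
  have hK3 : 3 ≤ K := by omega
  obtain ⟨P1, R, hs, hP1, hC, hR⟩ := stepP_sound (K := K) (by omega) hx hm hI.bits hI.len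
    hI.full hI.pend hI.comp
  obtain ⟨c1, c2, c3, c4, c5⟩ := hc
  have c3' : x n = true := by rw [← c3]; congr 1; ring
  have hb : x (n + 1) = false := by
    by_contra h
    have h' : x (n + 1) = true := by simpa using h
    exact hx.1 n ⟨c3', h'⟩
  have hL : 4 ≤ st.L := by
    rcases hI.full with h | h
    · have := h.1; omega
    · have := h.2.1; omega
  have hage : ∀ p ∈ P1, p.1 ≤ 1 := by
    intro p hp
    by_contra hcon
    push_neg at hcon
    obtain ⟨h1, ⟨h2, h3, h4, -⟩, -⟩ := hP1 p hp
    have hd1 : (n + 1 - (p.1 : ℤ)) ≠ n - 1 := by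
      intro h
      rw [h] at h3
      exact one_digit hx h3 c3' (by ring)
    have hd2 : (n + 1 - (p.1 : ℤ)) ≤ n - 2 := by omega
    have h5 := c4 (n + 1 - (p.1 : ℤ)) (by omega) hd2 h3
    exact h4 (rad K x a (n + 1 - (p.1 : ℤ))) (rad_pos hK3 x a _) (by omega) (rad_spec hK3 x a _)
  have hcre : crea st.W st.L (x (n + 1)) P1 = true := by
    unfold crea
    have t0 : st.W.testBit 0 = true := by
      rw [hI.bits 0 (by omega)]; simpa using c3'
    have t2 : st.W.testBit 2 = true := by
      rw [hI.bits 2 (by omega)]; simpa using c2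
    rw [hb, t0, t2]
    simp only [Bool.not_false, Bool.and_self, Bool.true_and, Bool.and_eq_true, decide_eq_true_eq,
      List.all_eq_true]
    exact ⟨hL, fun p hp => hage p hp⟩
  have hC1 : (st.C.map (· + 1)).filter (fun c => !(kil R c)) = [] := by
    rw [List.filter_eq_nil_iff]
    intro c' hc' hk
    obtain ⟨c, hcC, rfl⟩ := List.mem_map.1 hc'
    have hk' : kil R (c + 1) = false := by simpa using hk
    obtain ⟨d1, d2, d3, d4, d5, d6⟩ := hI.cand c hcC
    have hlo' : a + 1 ≤ lo a m := by unfold lo; split <;> omega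
    refine hf (n - c) d1 (by omega) ⟨by omega, d3, d4, d5, ?_⟩
    intro d hd hxd
    by_cases h1 : d + (rad K x a d : ℤ) ≤ n
    · exact d6 d hd hxd h1
    by_cases h2 : d + (rad K x a d : ℤ) = n + 1
    · have he : rad K x a d ∈ R := by
        rw [hR]
        have hdd : n + 1 - (rad K x a d : ℤ) = d := by omega
        rw [hdd]
        exact ⟨rad_pos hK3 x a d, by omega, hxd, rfl⟩
      have h3 : ¬ (rad K x a d + 2 ≤ c + 1 ∧ c + 1 + 1 < 2 * rad K x a d) := by
        intro h4
        have : kil R (c + 1) = true := by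
          unfold kil
          rw [List.any_eq_true]
          exact ⟨rad K x a d, he, by simp only [Bool.and_eq_true, decide_eq_true_eq]; exact h4⟩
        rw [hk'] at this
        exact absurd this (by decide)
      omega
    · have h4 : ¬ d ≤ n - 2 := by
        intro h5
        have := c4 d (by omega) h5 hxd
        omega
      have h5 : d ≠ n - 1 := by
        intro h
        rw [h] at hxd
        exact one_digit hx hxd c3' (by ring)
      have := c5 d (by omega) hxd
      omega
  have hfin : fin K P1 3 = false := by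
    unfold fin
    have : ¬ (K ≤ 3 + 2) := by omega
    simp [this]
  have hany : ([3] : List ℕ).any (fin K P1) = false := by
    simp [hfin]
  rw [hb] at hcre hs ⊢
  unfold step
  rw [hs]
  simp only [hcre, hC1, if_true, hany, List.isEmpty_nil, Bool.and_self, Bool.false_eq_true,
    if_false]
  split
  · exact ⟨_, rfl⟩
  · exact ⟨_, rfl⟩

end Pool.Agent.Lib.GJ
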