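import Pool.Agent.Lib.GJ.Rad

/-!
# Module InvP: soundness of the treatment of the pending digits

PROOF of `stepP_sound`.  Write `b = x (n + 1)`.  First the statement for one pending digit `(e, f)`, `d = n - e` (so `d + e + 1 = n + 1`), which satisfies the
conditions of `pend`.  Note `e < K`: otherwise `k = K` contradicts the third condition (`Rz K x a d K`, `3 ≤ K`).
* `e = 0`: `b` is false, otherwise `x d`, `x (d + 1)` are both true.  So `stepD = some (some f)`; `¬ Rz K x a d 1` because `a + 2 ≤ d`.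
* `e = 1`: `3 < L`: if `L = n - a + 1` because `n - 1 = d ≥ a + 2`, otherwise `L ≥ K ≥ 4`.  So `W.testBit 3 = x (n - 3) = x (d - 2)`, and `b = x (d + 2)`.  Both false is not
legal.  Both true: `Rz K x a d 2`, resolved.  Different: `¬ Rz K x a d 2` (`d - 2 ≥ a`), pending with need `b = nd x d 2`.
* `e ≥ 2`, `L ≤ 2 e + 1`: then not the second alternative of `full` (there `L ≥ e + K + 1 ≥ 2 e + 2`), so `L = n - a + 1`, `d - (e + 1) = n - 2 e - 1 < a`, so
`Rz K x a d (e + 1)` and `rad K x a d = e + 1`.  If `B = m = true` this contradicts `NC K x a` (`a ≤ d - rad`).  So `B = false` and `stepD = some none`.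
* `e ≥ 2`, `2 e + 1 < L`: `W.testBit (2 e + 1) = x (n - (2 e + 1)) = x (d - (e + 1))`, `b = x (d + (e + 1))`; `d - (e + 1) ≥ a` because `L ≤ n - a + 1`.  Equal bits: if `e + 1 = K`
then `Rz`, resolved; otherwise `¬ Rz K x a d (e + 1)` and `nd x d (e + 1) = xor (nd x d e) b`.  Different bits: `Rz`, and `Leg` (with `k = e + 1`; `x (d - 2) ≠ x (d + 2)` and the
equalities for `3 ≤ i < k` come from `¬ Rz`) gives `x (d - k) = nd x d e = f`, so `stepD = some none`.
So `stepD` is never `none`; `some none` iff `Rz K x a d (e + 1)` (then `rad K x a d = e + 1`), and `some (some f')` otherwise, with the conditions for `(e + 1, f')`.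
Then induction on `P` for the lists; (b) and (d) use `comp`.
-/

namespace Pool.Agent.Lib.GJ

/-- the conditions for a pending digit `p = (age, need)` at time `n` -/
def Pd (K : ℕ) (x : ℤ → Bool) (a n : ℤ) (p : ℕ × Bool) : Prop :=
  a + 2 ≤ n - p.1 ∧ x (n - p.1) = true ∧ (∀ k : ℕ, 1 ≤ k → k ≤ p.1 → ¬ Rz K x a (n - p.1) k) ∧
    (2 ≤ p.1 → p.2 = nd x (n - p.1) p.1)

/-- every unresolved digit (age `e` at least `e0`) is in the list -/
def Cp (K : ℕ) (x : ℤ → Bool) (a n : ℤ) (P : List (ℕ × Bool)) (e0 : ℕ) : Prop :=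
  ∀ e : ℕ, e0 ≤ e → a + 2 ≤ n - e → x (n - e) = true →
    (∀ k : ℕ, 1 ≤ k → k ≤ e → ¬ Rz K x a (n - e) k) → ∃ f, (e, f) ∈ P

/-- one pending digit -/
theorem invP_stepD {K : ℕ} {x : ℤ → Bool} {a n : ℤ} {m : Bool} {W L : ℕ} {B : Bool}
    (hK : 4 ≤ K) (hx : Leg K x) (hm : m = true → NC K x a)
    (bits : ∀ i : ℕ, i < L → W.testBit i = x (n - i))
    (len : (L : ℤ) ≤ n - a + 1) (e : ℕ) (f : Bool)
    (full : (L : ℤ) = n - a + 1 ∧ B = m ∨ (B = false ∧ K ≤ L ∧ e + K + 1 ≤ L))
    (hp : Pd K x a n (e, f)) :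
    (stepD K W L B (x (n + 1)) e f = some none ∧ Rz K x a (n - e) (e + 1)) ∨
    ∃ f', stepD K W L B (x (n + 1)) e f = some (some f') ∧ ¬ Rz K x a (n - e) (e + 1) ∧
      (2 ≤ e + 1 → f' = nd x (n - e) (e + 1)) := by
  obtain ⟨h1, h2, h3, h4⟩ := hp
  have h1' : a + 2 ≤ n - (e : ℤ) := h1
  have h2' : x (n - (e : ℤ)) = true := h2
  have h3' : ∀ k : ℕ, 1 ≤ k → k ≤ e → ¬ Rz K x a (n - e) k := h3
  have h4' : 2 ≤ e → f = nd x (n - e) e := h4
  rcases Nat.lt_or_ge e 1 with he | he
  · -- `e = 0`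
    obtain rfl : e = 0 := by omega
    right
    have e0 : n - ((0 : ℕ) : ℤ) = n := by simp
    rw [e0] at h1' h2'
    have hb : x (n + 1) = false := by
      by_contra hcon
      exact hx.1 n ⟨h2', by simpa using hcon⟩
    refine ⟨f, ?_, ?_, fun h => by omega⟩
    · rw [hb]
      simp [stepD]
    · rw [e0]
      rintro (h | ⟨h, -⟩ | ⟨h, -⟩)
      · push_cast at h
        omega
      · omega
      · omega
  rcases Nat.lt_or_ge e 2 with he2 | he2
  · -- `e = 1`
    obtain rfl : e = 1 := by omega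
    have hL : 3 < L := by
      rcases full with ⟨h, -⟩ | ⟨-, h, -⟩
      · push_cast at h1'
        omega
      · omega
    have hbit := bits 3 hL
    have e3 : n - ((3 : ℕ) : ℤ) = n - ((1 : ℕ) : ℤ) - 2 := by push_cast; ring
    have e1 : n + 1 = n - ((1 : ℕ) : ℤ) + 2 := by push_cast; ring
    rw [e3] at hbit
    rw [e1]
    have hleg := (hx.2 _ h2').1
    have hnR : x (n - ((1 : ℕ) : ℤ) - 2) ≠ x (n - ((1 : ℕ) : ℤ) + 2) →
        ¬ Rz K x a (n - ((1 : ℕ) : ℤ)) (1 + 1) := by
      intro hne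
      rintro (h | ⟨-, h⟩ | ⟨h, -⟩)
      · push_cast at h h1'
        omega
      · exact hne h
      · omega
    have hnd : nd x (n - ((1 : ℕ) : ℤ)) (1 + 1) = x (n - ((1 : ℕ) : ℤ) + 2) := rfl
    cases hl : x (n - ((1 : ℕ) : ℤ) - 2) <;> cases hr : x (n - ((1 : ℕ) : ℤ) + 2)
    · rw [hl, hr] at hleg
      simp at hleg
    · right
      refine ⟨true, ?_, hnR (by rw [hl, hr]; decide), fun _ => by rw [hnd, hr]⟩
      rw [hl] at hbit
      simp [stepD, hbit]
    · right
      refine ⟨false, ?_, hnR (by rw [hl, hr]; decide), fun _ => by rw [hnd, hr]⟩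
      rw [hl] at hbit
      simp [stepD, hbit]
    · left
      refine ⟨?_, Or.inr (Or.inl ⟨rfl, by rw [hl, hr]⟩)⟩
      rw [hl] at hbit
      simp [stepD, hbit]
  · -- `e ≥ 2`
    have hf : f = nd x (n - e) e := h4' he2
    have heK : e < K := by
      by_contra hcon
      exact h3' K (by omega) (by omega) (Or.inr (Or.inr ⟨by omega, Or.inr rfl⟩))
    have n0 : e ≠ 0 := by omega
    have n1 : e ≠ 1 := by omega
    by_cases hLe : L ≤ 2 * e + 1
    · left
      have hfull : (L : ℤ) = n - a + 1 ∧ B = m := by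
        rcases full with h | ⟨-, -, h⟩
        · exact h
        · omega
      have hRz : Rz K x a (n - e) (e + 1) := by
        left
        push_cast
        omega
      have hB : B = false := by
        by_contra hcon
        have hBt : B = true := by simpa using hcon
        have hmt : m = true := by rw [← hfull.2]; exact hBt
        have h5 := hm hmt (n - e) h1' h2'
        have h6 : rad K x a (n - e) = e + 1 :=
          rad_eq (by omega) hRz (fun i hi1 hi2 => h3' i hi1 (by omega))
        rw [h6] at h5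
        push_cast at h5
        omega
      refine ⟨?_, hRz⟩
      unfold stepD
      rw [if_neg n0, if_neg n1, if_pos hLe, hB]
      rfl
    · have hbit := bits (2 * e + 1) (by omega)
      have e1 : n - ((2 * e + 1 : ℕ) : ℤ) = n - e - ((e + 1 : ℕ) : ℤ) := by push_cast; ring
      have e2 : n + 1 = n - e + ((e + 1 : ℕ) : ℤ) := by push_cast; ring
      rw [e1] at hbit
      rw [e2]
      have hge : ¬ (n - (e : ℤ) - ((e + 1 : ℕ) : ℤ) < a) := by
        push_cast
        omega
      by_cases heq : x (n - e - ((e + 1 : ℕ) : ℤ)) = x (n - e + ((e + 1 : ℕ) : ℤ))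
      · by_cases hKe : e + 1 = K
        · left
          refine ⟨?_, Or.inr (Or.inr ⟨by omega, Or.inr hKe⟩)⟩
          unfold stepD
          rw [if_neg n0, if_neg n1, if_neg hLe, hbit, heq, if_pos (by simp), if_pos hKe]
        · right
          refine ⟨xor f (x (n - e + ((e + 1 : ℕ) : ℤ))), ?_, ?_, ?_⟩
          · unfold stepD
            rw [if_neg n0, if_neg n1, if_neg hLe, hbit, heq, if_pos (by simp), if_neg hKe]
          · rintro (h | ⟨h, -⟩ | ⟨-, h | h⟩)
            · exact hge h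
            · omega
            · exact h heq
            · exact hKe h
          · intro _
            obtain ⟨j, rfl⟩ : ∃ j, e = j + 2 := ⟨e - 2, by omega⟩
            rw [hf]
            rfl
      · left
        refine ⟨?_, Or.inr (Or.inr ⟨by omega, Or.inl heq⟩)⟩
        have hne2 : x (n - e - 2) ≠ x (n - e + 2) := by
          intro h
          exact h3' 2 (by omega) he2 (Or.inr (Or.inl ⟨rfl, h⟩))
        have h5 := (hx.2 _ h2').2 (e + 1) (by omega) (by omega) hne2 (by
          intro i hi1 hi2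
          by_contra hcon
          exact h3' i (by omega) (by omega) (Or.inr (Or.inr ⟨hi1, Or.inl hcon⟩))) heq
        rw [Nat.add_sub_cancel, ← hf] at h5
        unfold stepD
        rw [if_neg n0, if_neg n1, if_neg hLe, hbit, if_neg (by simpa using heq), h5,
          if_pos (by simp)]

/-- the list of the pending digits -/
theorem invP_stepP {K : ℕ} {x : ℤ → Bool} {a n : ℤ} {m : Bool} {W L : ℕ} {B : Bool}
    (hK : 4 ≤ K) (hx : Leg K x) (hm : m = true → NC K x a)
    (bits : ∀ i : ℕ, i < L → W.testBit i = x (n - i))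
    (len : (L : ℤ) ≤ n - a + 1) (P : List (ℕ × Bool))
    (full : ∀ p ∈ P, (L : ℤ) = n - a + 1 ∧ B = m ∨ (B = false ∧ K ≤ L ∧ p.1 + K + 1 ≤ L))
    (pend : ∀ p ∈ P, Pd K x a n p) :
    ∃ P1 R, stepP K W L B (x (n + 1)) P = some (P1, R) ∧
      (∀ p ∈ P1, 1 ≤ p.1 ∧ Pd K x a (n + 1) p ∧ ∃ f, (p.1 - 1, f) ∈ P) ∧
      (∀ (e : ℕ) f, (e, f) ∈ P → ¬ Rz K x a (n - e) (e + 1) → ∃ f', (e + 1, f') ∈ P1) ∧
      (∀ e ∈ R, ∃ (e' : ℕ) (f : Bool), e = e' + 1 ∧ (e', f) ∈ P ∧ Rz K x a (n - e') (e' + 1)) ∧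
      (∀ (e : ℕ) f, (e, f) ∈ P → Rz K x a (n - e) (e + 1) → e + 1 ∈ R) := by
  induction P with
  | nil =>
    refine ⟨[], [], rfl, ?_, ?_, ?_, ?_⟩
    · intro p hp
      simp at hp
    · intro e f h
      simp at h
    · intro e h
      simp at h
    · intro e f h
      simp at h
  | cons q P ih =>
    obtain ⟨e, f⟩ := q
    obtain ⟨P2, R, i1, i2, i3, i4, i5⟩ := ih (fun p hp => full p (List.mem_cons_of_mem _ hp))
      (fun p hp => pend p (List.mem_cons_of_mem _ hp))
    have hq := pend (e, f) List.mem_cons_self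
    have hD := invP_stepD hK hx hm bits len e f (full (e, f) List.mem_cons_self) hq
    obtain ⟨g1, g2, g3, g4⟩ := hq
    have g1' : a + 2 ≤ n - (e : ℤ) := g1
    have g2' : x (n - (e : ℤ)) = true := g2
    have g3' : ∀ k : ℕ, 1 ≤ k → k ≤ e → ¬ Rz K x a (n - e) k := g3
    have em : (e, f) ∈ (e, f) :: P := List.mem_cons_self
    rcases hD with ⟨d1, d2⟩ | ⟨f', d1, d2, d3⟩
    · refine ⟨P2, (e + 1) :: R, ?_, ?_, ?_, ?_, ?_⟩
      · show (match stepD K W L B (x (n + 1)) e f with
          | none => none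
          | some r =>
            match stepP K W L B (x (n + 1)) P with
            | none => none
            | some (P2, R) =>
              match r with
              | none => some (P2, (e + 1) :: R)
              | some f' => some ((e + 1, f') :: P2, R)) = some (P2, (e + 1) :: R)
        rw [d1, i1]
      · intro p hp
        obtain ⟨a1, a2, g, a3⟩ := i2 p hp
        exact ⟨a1, a2, g, List.mem_cons_of_mem _ a3⟩
      · intro e1 f1 h1 h2
        rcases List.mem_cons.1 h1 with h | h
        · obtain ⟨rfl, rfl⟩ := Prod.mk.inj h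
          exact absurd d2 h2
        · exact i3 e1 f1 h h2
      · intro e1 h1
        rcases List.mem_cons.1 h1 with h | h
        · exact ⟨e, f, h, em, d2⟩
        · obtain ⟨e', f1, a1, a2, a3⟩ := i4 e1 h
          exact ⟨e', f1, a1, List.mem_cons_of_mem _ a2, a3⟩
      · intro e1 f1 h1 h2
        rcases List.mem_cons.1 h1 with h | h
        · obtain ⟨rfl, rfl⟩ := Prod.mk.inj h
          exact List.mem_cons_self
        · exact List.mem_cons_of_mem _ (i5 e1 f1 h h2)
    · refine ⟨(e + 1, f') :: P2, R, ?_, ?_, ?_, ?_, ?_⟩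
      · show (match stepD K W L B (x (n + 1)) e f with
          | none => none
          | some r =>
            match stepP K W L B (x (n + 1)) P with
            | none => none
            | some (P2, R) =>
              match r with
              | none => some (P2, (e + 1) :: R)
              | some f' => some ((e + 1, f') :: P2, R)) = some ((e + 1, f') :: P2, R)
        rw [d1, i1]
      · intro p hp
        rcases List.mem_cons.1 hp with h | h
        · rw [h]
          refine ⟨by show 1 ≤ e + 1; omega, ?_, f, ?_⟩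
          · have e1 : n + 1 - ((e + 1 : ℕ) : ℤ) = n - e := by push_cast; ring
            refine ⟨?_, ?_, ?_, ?_⟩
            · show a + 2 ≤ n + 1 - ((e + 1 : ℕ) : ℤ)
              rw [e1]
              exact g1'
            · show x (n + 1 - ((e + 1 : ℕ) : ℤ)) = true
              rw [e1]
              exact g2'
            · intro k hk1 hk2
              show ¬ Rz K x a (n + 1 - ((e + 1 : ℕ) : ℤ)) k
              rw [e1]
              have hk2' : k ≤ e + 1 := hk2
              rcases Nat.lt_or_ge k (e + 1) with h6 | h6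
              · exact g3' k hk1 (by omega)
              · obtain rfl : k = e + 1 := by omega
                exact d2
            · intro h2
              show f' = nd x (n + 1 - ((e + 1 : ℕ) : ℤ)) (e + 1)
              rw [e1]
              exact d3 h2
          · show (e + 1 - 1, f) ∈ (e, f) :: P
            rw [Nat.add_sub_cancel]
            exact em
        · obtain ⟨a1, a2, g, a3⟩ := i2 p h
          exact ⟨a1, a2, g, List.mem_cons_of_mem _ a3⟩
      · intro e1 f1 h1 h2
        rcases List.mem_cons.1 h1 with h | h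
        · obtain ⟨rfl, rfl⟩ := Prod.mk.inj h
          exact ⟨f', List.mem_cons_self⟩
        · obtain ⟨f2, h3⟩ := i3 e1 f1 h h2
          exact ⟨f2, List.mem_cons_of_mem _ h3⟩
      · intro e1 h1
        obtain ⟨e', f1, a1, a2, a3⟩ := i4 e1 h1
        exact ⟨e', f1, a1, List.mem_cons_of_mem _ a2, a3⟩
      · intro e1 f1 h1 h2
        rcases List.mem_cons.1 h1 with h | h
        · obtain ⟨rfl, rfl⟩ := Prod.mk.inj h
          exact absurd h2 d2
        · exact i5 e1 f1 h h2

theorem stepP_sound {K : ℕ} {x : ℤ → Bool} {a n : ℤ} {m : Bool} {W L : ℕ} {B : Bool}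
    {P : List (ℕ × Bool)} (hK : 4 ≤ K) (hx : Leg K x) (hm : m = true → NC K x a)
    (bits : ∀ i : ℕ, i < L → W.testBit i = x (n - i))
    (len : (L : ℤ) ≤ n - a + 1)
    (full : (L : ℤ) = n - a + 1 ∧ B = m ∨ (B = false ∧ K ≤ L ∧ ∀ p ∈ P, p.1 + K + 1 ≤ L))
    (pend : ∀ p ∈ P, Pd K x a n p) (comp : Cp K x a n P 0) :
    ∃ P1 R, stepP K W L B (x (n + 1)) P = some (P1, R) ∧
      (∀ p ∈ P1, 1 ≤ p.1 ∧ Pd K x a (n + 1) p ∧ ∃ f, (p.1 - 1, f) ∈ P) ∧
      Cp K x a (n + 1) P1 1 ∧
      (∀ e : ℕ, e ∈ R ↔ 1 ≤ e ∧ a + 2 ≤ n + 1 - e ∧ x (n + 1 - e) = true ∧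
        rad K x a (n + 1 - e) = e) := by
  obtain ⟨P1, R, i1, i2, i3, i4, i5⟩ := invP_stepP hK hx hm bits len P (fun p hp => by
    rcases full with h | ⟨h1, h2, h3⟩
    · exact Or.inl h
    · exact Or.inr ⟨h1, h2, h3 p hp⟩) pend
  refine ⟨P1, R, i1, i2, ?_, ?_⟩
  · intro e he h1 h2 h3
    obtain ⟨e', rfl⟩ : ∃ e', e = e' + 1 := ⟨e - 1, by omega⟩
    have e1 : n + 1 - ((e' + 1 : ℕ) : ℤ) = n - e' := by push_cast; ring
    rw [e1] at h1 h2 h3
    obtain ⟨f, hf⟩ := comp e' (Nat.zero_le _) h1 h2 (fun k hk1 hk2 => h3 k hk1 (by omega))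
    exact i3 e' f hf (h3 (e' + 1) (by omega) le_rfl)
  · intro e
    constructor
    · intro he
      obtain ⟨e', f, rfl, hf, hR⟩ := i4 e he
      have e1 : n + 1 - ((e' + 1 : ℕ) : ℤ) = n - e' := by push_cast; ring
      rw [e1]
      obtain ⟨g1, g2, g3, -⟩ := pend _ hf
      exact ⟨by omega, g1, g2, rad_eq (by omega) hR (fun i hi1 hi2 => g3 i hi1 (by show i ≤ e'; omega))⟩
    · rintro ⟨h0, h1, h2, h3⟩
      obtain ⟨e', rfl⟩ : ∃ e', e = e' + 1 := ⟨e - 1, by omega⟩
      have e1 : n + 1 - ((e' + 1 : ℕ) : ℤ) = n - e' := by push_cast; ring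
      rw [e1] at h1 h2 h3
      have hR : Rz K x a (n - e') (e' + 1) := by
        have := rad_spec (by omega : 3 ≤ K) x a (n - e')
        rwa [h3] at this
      obtain ⟨f, hf⟩ := comp e' (Nat.zero_le _) h1 h2
        (fun k hk1 hk2 => not_Rz hk1 (by rw [h3]; omega))
      exact i5 e' f hf hR

end Pool.Agent.Lib.GJ
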