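import Pool.Agent.Lib.GJ.Defs

/-!
# Module LegS: symmetries of legal sequences

`shift` is immediate from the definition (`a + (d - k) = (a + d) - k` and so on; prove
`nd (fun j => x (a + j)) d k = nd x (a + d) k` first).

`rev`: put `x' j = x (-j)`; a digit `d` of `x'` is the digit `-d` of `x`, and `x' (d - k) = x (-d + k)`, `x' (d + k) = x (-d - k)`.
Let `3 ≤ k ≤ K`, `x' (d - 2) ≠ x' (d + 2)`, `x' (d - i) = x' (d + i)` for `3 ≤ i < k` and `x' (d - k) ≠ x' (d + k)`.
`nd x' d (k - 1)` is `x' (d + 2)` changed once for every true `x' (d + i)`, `3 ≤ i < k`; as `x' (d + i) = x' (d - i) = x (-d + i)` for these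
`i` and `x' (d + 2) = ! x' (d - 2) = ! x (-d + 2)`, one gets `nd x' d (k - 1) = ! nd x (-d) (k - 1)` (induction on `k`).
`Leg K x` gives `x (-d - k) = nd x (-d) (k - 1)`, so `x' (d - k) = x (-d + k) = ! x (-d - k) = nd x' d (k - 1)`.
-/

namespace Pool.Agent.Lib.GJ

namespace LegSAux

theorem nd_shift (x : ℤ → Bool) (a d : ℤ) : ∀ k : ℕ, nd (fun j => x (a + j)) d k = nd x (a + d) k
  | 0 => by simp [nd, add_assoc]
  | 1 => by simp [nd, add_assoc]
  | 2 => by simp [nd, add_assoc]
  | (k + 3) => by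
      have ih := nd_shift x a d (k + 2)
      show xor (nd (fun j => x (a + j)) d (k + 2)) (x (a + (d + ((k + 3 : ℕ) : ℤ))))
        = xor (nd x (a + d) (k + 2)) (x (a + d + ((k + 3 : ℕ) : ℤ)))
      rw [ih, add_assoc]

theorem nd_rev (x : ℤ → Bool) (d : ℤ) (h2 : x (-(d - 2)) ≠ x (-(d + 2))) :
    ∀ k : ℕ, 2 ≤ k → (∀ i : ℕ, 3 ≤ i → i ≤ k → x (-(d - i)) = x (-(d + i))) →
      nd (fun j => x (-j)) d k = ! nd x (-d) k
  | 0 => by intro h; omega
  | 1 => by intro h; omega
  | 2 => by
      intro _ _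
      show x (-(d + 2)) = ! x (-d + 2)
      have e : -d + 2 = -(d - 2) := by ring
      rw [e]
      revert h2
      cases x (-(d - 2)) <;> cases x (-(d + 2)) <;> simp
  | (k + 3) => by
      intro _ hi
      have ih := nd_rev x d h2 (k + 2) (by omega) (fun i h3 hk => hi i h3 (by omega))
      have hk := hi (k + 3) (by omega) le_rfl
      show xor (nd (fun j => x (-j)) d (k + 2)) (x (-(d + ((k + 3 : ℕ) : ℤ))))
        = ! xor (nd x (-d) (k + 2)) (x (-d + ((k + 3 : ℕ) : ℤ)))
      have e : -d + ((k + 3 : ℕ) : ℤ) = -(d - ((k + 3 : ℕ) : ℤ)) := by ring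
      rw [ih, e, hk]
      cases nd x (-d) (k + 2) <;> cases x (-(d + ((k + 3 : ℕ) : ℤ))) <;> rfl

end LegSAux

theorem Leg.shift {K : ℕ} {x : ℤ → Bool} (h : Leg K x) (a : ℤ) : Leg K (fun j => x (a + j)) := by
  obtain ⟨h1, h2⟩ := h
  refine ⟨fun i => ?_, fun d hd => ?_⟩
  · have := h1 (a + i)
    simpa [add_assoc] using this
  · have hd' : x (a + d) = true := hd
    obtain ⟨h3, h4⟩ := h2 (a + d) hd'
    have em : ∀ k : ℤ, a + (d - k) = a + d - k := fun k => by ring
    have ep : ∀ k : ℤ, a + (d + k) = a + d + k := fun k => by ring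
    refine ⟨?_, fun k hk hkK hne hi hkk => ?_⟩
    · show x (a + (d - 2)) = true ∨ x (a + (d + 2)) = true
      rw [em, ep]; exact h3
    · show x (a + (d - k)) = nd (fun j => x (a + j)) d (k - 1)
      rw [LegSAux.nd_shift, em]
      refine h4 k hk hkK ?_ ?_ ?_
      · have := hne
        simp only [em, ep] at this
        exact this
      · intro i h3i hik
        have := hi i h3i hik
        simp only [em, ep] at this
        exact this
      · have := hkk
        simp only [em, ep] at this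
        exact this

theorem Leg.rev {K : ℕ} {x : ℤ → Bool} (h : Leg K x) : Leg K (fun j => x (-j)) := by
  obtain ⟨h1, h2⟩ := h
  refine ⟨fun i => ?_, fun d hd => ?_⟩
  · have := h1 (-(i + 1))
    intro hh
    apply this
    have e : -(i + 1) + 1 = -i := by ring
    rw [e]
    exact ⟨hh.2, hh.1⟩
  · have hd' : x (-d) = true := hd
    obtain ⟨h3, h4⟩ := h2 (-d) hd'
    have em : ∀ k : ℤ, -(d - k) = -d + k := fun k => by ring
    have ep : ∀ k : ℤ, -(d + k) = -d - k := fun k => by ring
    refine ⟨?_, fun k hk hkK hne hi hkk => ?_⟩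
    · show x (-(d - 2)) = true ∨ x (-(d + 2)) = true
      rw [em, ep]; exact h3.symm
    · show x (-(d - k)) = nd (fun j => x (-j)) d (k - 1)
      have hne' : x (-(d - 2)) ≠ x (-(d + 2)) := hne
      have hi' : ∀ i : ℕ, 3 ≤ i → i < k → x (-(d - i)) = x (-(d + i)) := hi
      have hkk' : x (-(d - k)) ≠ x (-(d + k)) := hkk
      rw [LegSAux.nd_rev x d hne' (k - 1) (by omega) (fun i h3i hik => hi' i h3i (by omega))]
      have h5 := h4 k hk hkK (by rw [← em, ← ep]; exact hne'.symm)
        (fun i h3i hik => by rw [← em, ← ep]; exact (hi' i h3i hik).symm)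
        (by rw [← em, ← ep]; exact hkk'.symm)
      rw [← h5, ← ep]
      revert hkk'
      cases x (-(d - k)) <;> cases x (-(d + k)) <;> simp

end Pool.Agent.Lib.GJ
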