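import Pool.Agent.Lib.GJ.Str
import Pool.Agent.Lib.GJ.Cmp

/-!
# Module LegX: the digits of one class below the threshold, and their legality

PROOF of `exists_cl`.  `exists_orb`, `exists_sys`, and `Sys.str` with `T = √5 v`; `T < 1 - be⁻¹ ^ 2` because
`√5 (2 - ph) = 1 - (2 - ph) ^ 2` (`ph = (1 + √5) / 2`) and `be⁻¹ = 2 - ph` (`be_inv`).  Let `c` be as in `Sys.str`, with digits `s'` and
side values `R'`, `L'`.
* `c = 1`: put `p j = -1 + 2 j`, otherwise (`c = 0`) `p j = 2 j`; so all digits are at positions `p j`.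
  `s j = s' (p j)`, `R j = R' (p j)`, `L j = L' (p j)`, `x j = decide (s j ≠ 0)`.
* the recursions: `s' (p j + 1) = 0` (wrong parity), so `R' (p j) = ph⁻¹ ^ 2 (s' (p j + 2) + R' (p j + 2))` and `ph⁻¹ ^ 2 = be⁻¹`; for `L'` the
  factor is `ps ^ 2 = ph⁻¹ ^ 2`.
* `|R j| ≤ be⁻¹`: if `s (j + 1) ≠ 0` then `s (j+1) * R (j+1) ≤ 0` and `|R (j+1)| ≤ be⁻¹ ^ 2 < 1`, so `|s + R| = 1 - |R| ≤ 1`.  Otherwise
  `|R j| = be⁻¹ |R (j+1)|`.  With `|R| ≤ B` everywhere, induction on `k` gives `|R j| ≤ max be⁻¹ (be⁻¹ ^ k * B)` for all `j`, hence the claim.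
* the value: in case `c = 1` it is `|s 0 + R 0 + L 0|`.  In case `c = 0`: `s' (-1) = 0`, `R' (-1) = ph⁻¹ (s' 0 + R' 0)`,
  `L' (-1) = ps (s' (-2) + L' (-2)) = - ph⁻¹ (s (-1) + L (-1))`.
* legality.  `x i`, `x (i+1)` both true is impossible by `Sys.gap`.  Let `x d = true`, and put `hR j = |R (d + j)|`, `hL j = |L (d - j)|`,
  `bR j = x (d + j)`, `bL j = x (d - j)`.  The recursions of `cmp` hold: `|R (d + j)| = be⁻¹ |s (d+j+1) + R (d+j+1)|` and the absolute value is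
  `1 - |R (d+j+1)|` if `x (d+j+1)` (as above), `|R (d+j+1)|` otherwise.  `bR 1 = bL 1 = false`.  All `|R j|, |L j| ≤ be⁻¹ < 0.382`, so the
  hypotheses `hsum` hold.  At the digit `d`: `|s + R + L| = 1 - |R d| - |L d|` (signs by `nR`, `nL`) is `≤ T < 1 - be⁻¹ ^ 2`, so
  `be⁻¹ ^ 2 < hR 0 + hL 0`.  `cmp_none` excludes that both `x (d ± 2)` are false, and `cmp` gives the rule, with
  `nd x d k = fl bR k` (same recursion).
-/

namespace Pool.Agent.Lib.GJ

/-- the digits of one class: bits `x`, digits `s`, side values `R`, `L` -/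
structure Cl (x : ℤ → Bool) (s : ℤ → ℤ) (R L : ℤ → ℝ) : Prop where
  bit : ∀ j, x j = true ↔ s j ≠ 0
  dig : ∀ j, s j = 0 ∨ s j = 1 ∨ s j = -1
  rR : ∀ j, R j = be⁻¹ * (s (j + 1) + R (j + 1))
  rL : ∀ j, L j = be⁻¹ * (s (j - 1) + L (j - 1))
  nR : ∀ j, s j ≠ 0 → s j * R j ≤ 0
  nL : ∀ j, s j ≠ 0 → s j * L j ≤ 0
  bR : ∀ j, |R j| ≤ be⁻¹
  bL : ∀ j, |L j| ≤ be⁻¹
  leg : ∀ K, Leg K x

namespace LegXAux

open StrAux

private theorem bi_pos : 0 < be⁻¹ := inv_pos.2 be_pos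

private theorem bi_lt : be⁻¹ < 0.382 := by rw [be_inv]; linarith [ph_lb]

/-- absolute value of a digit plus its side value -/
private theorem abs_add_dig {z : ℤ} (hz : z = 0 ∨ z = 1 ∨ z = -1) (h0 : z ≠ 0) {r : ℝ}
    (hr : (z : ℝ) * r ≤ 0) (hb : |r| ≤ 1) : |(z : ℝ) + r| = 1 - |r| := by
  rcases hz with rfl | rfl | rfl
  · exact absurd rfl h0
  · push_cast at hr ⊢
    rw [one_mul] at hr
    rw [abs_of_nonpos hr] at hb ⊢
    rw [abs_of_nonneg (by linarith)]
    ring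
  · push_cast at hr ⊢
    have hr' : 0 ≤ r := by linarith
    rw [abs_of_nonneg hr'] at hb ⊢
    rw [abs_of_nonpos (by linarith)]
    ring

private theorem abs_add_dig2 {z : ℤ} (hz : z = 0 ∨ z = 1 ∨ z = -1) (h0 : z ≠ 0) {r l : ℝ}
    (hr : (z : ℝ) * r ≤ 0) (hl : (z : ℝ) * l ≤ 0) : 1 - |r| - |l| ≤ |(z : ℝ) + r + l| := by
  rcases hz with rfl | rfl | rfl
  · exact absurd rfl h0
  · push_cast at hr hl ⊢
    rw [one_mul] at hr hl
    rw [abs_of_nonpos hr, abs_of_nonpos hl]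
    have := le_abs_self (1 + r + l)
    linarith
  · push_cast at hr hl ⊢
    have hr' : 0 ≤ r := by linarith
    have hl' : 0 ≤ l := by linarith
    rw [abs_of_nonneg hr', abs_of_nonneg hl']
    have := neg_le_abs (-1 + r + l)
    linarith

/-- a one-sided recursion gives the bound `be⁻¹` -/
private theorem bound {s : ℤ → ℤ} {R : ℤ → ℝ} (hdig : ∀ n, s n = 0 ∨ s n = 1 ∨ s n = -1)
    {e : ℤ} (hrec : ∀ j, R j = be⁻¹ * (s (j + e) + R (j + e)))
    (hneg : ∀ j, s j ≠ 0 → s j * R j ≤ 0) (hq : ∀ j, s j ≠ 0 → |R j| ≤ be⁻¹ ^ 2)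
    {B : ℝ} (hB : ∀ j, |R j| ≤ B) (j : ℤ) : |R j| ≤ be⁻¹ := by
  have hb := bi_pos
  have hb' := bi_lt
  have key : ∀ k : ℕ, ∀ j, |R j| ≤ max be⁻¹ (be⁻¹ ^ k * B) := by
    intro k
    induction k with
    | zero => intro j; rw [pow_zero, one_mul]; exact le_max_of_le_right (hB j)
    | succ k ih =>
      intro j
      rw [hrec j, abs_mul, abs_of_pos hb]
      by_cases h0 : s (j + e) = 0
      · rw [h0, Int.cast_zero, zero_add]
        have h1 := mul_le_mul_of_nonneg_left (ih (j + e)) hb.le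
        refine h1.trans ?_
        rw [mul_max_of_nonneg _ _ hb.le]
        refine max_le_max ?_ ?_
        · nlinarith
        · rw [pow_succ]
          exact le_of_eq (by ring)
      · refine le_max_of_le_left ?_
        have hq' := hq _ h0
        have h1 : |R (j + e)| ≤ 1 := by
          have : be⁻¹ ^ 2 ≤ 1 := by nlinarith
          linarith
        rw [abs_add_dig (hdig _) h0 (hneg _ h0) h1]
        have := abs_nonneg (R (j + e))
        nlinarith
  have hB0 : 0 ≤ B := (abs_nonneg _).trans (hB j)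
  obtain ⟨k, hk⟩ := exists_pow_lt_of_lt_one (show 0 < be⁻¹ / (B + 1) by positivity)
    (show be⁻¹ < 1 by linarith)
  have h1 := key k j
  have h2 : be⁻¹ ^ k * B ≤ be⁻¹ := by
    rw [lt_div_iff₀ (by linarith)] at hk
    have : 0 < be⁻¹ ^ k := pow_pos hb k
    nlinarith
  rwa [max_eq_left h2] at h1

private theorem nd_fl (x : ℤ → Bool) (d : ℤ) (k : ℕ) :
    nd x d k = fl (fun n : ℕ => x (d + (n : ℤ))) k := by
  induction k with
  | zero => rfl
  | succ k ih =>
    rcases k with _ | _ | k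
    · rfl
    · rfl
    · show xor (nd x d (k + 2)) (x (d + ((k + 3 : ℕ) : ℤ))) =
        xor (fl (fun n : ℕ => x (d + (n : ℤ))) (k + 2)) (x (d + ((k + 3 : ℕ) : ℤ)))
      rw [show nd x d (k + 2) = fl (fun n : ℕ => x (d + (n : ℤ))) (k + 2) from ih]

/-- legality from the recursions and the inequality at the digits -/
private theorem leg {x : ℤ → Bool} {s : ℤ → ℤ} {R L : ℤ → ℝ} {T : ℝ}
    (bit : ∀ j, x j = true ↔ s j ≠ 0)
    (dig : ∀ j, s j = 0 ∨ s j = 1 ∨ s j = -1)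
    (rR : ∀ j, R j = be⁻¹ * (s (j + 1) + R (j + 1)))
    (rL : ∀ j, L j = be⁻¹ * (s (j - 1) + L (j - 1)))
    (nR : ∀ j, s j ≠ 0 → s j * R j ≤ 0)
    (nL : ∀ j, s j ≠ 0 → s j * L j ≤ 0)
    (bR : ∀ j, |R j| ≤ be⁻¹)
    (bL : ∀ j, |L j| ≤ be⁻¹)
    (hgap : ∀ i, ¬ (x i = true ∧ x (i + 1) = true))
    (hle : ∀ j, |s j + R j + L j| ≤ T) (hT : T < 1 - be⁻¹ ^ 2) (K : ℕ) : Leg K x := by
  have hb := bi_pos
  have hb' := bi_lt
  have fR : ∀ (b : Bool) (j : ℤ), x j = b → |(s j : ℝ) + R j| = if b then 1 - |R j| else |R j| := by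
    intro b j hj
    cases b with
    | true =>
      have h0 := (bit j).1 hj
      simp only [if_true]
      exact abs_add_dig (dig j) h0 (nR j h0) (by linarith [bR j])
    | false =>
      have h0 : s j = 0 := by
        by_contra h
        rw [(bit j).2 h] at hj
        exact absurd hj (by simp)
      simp [h0]
  have fL : ∀ (b : Bool) (j : ℤ), x j = b → |(s j : ℝ) + L j| = if b then 1 - |L j| else |L j| := by
    intro b j hj
    cases b with
    | true =>
      have h0 := (bit j).1 hj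
      simp only [if_true]
      exact abs_add_dig (dig j) h0 (nL j h0) (by linarith [bL j])
    | false =>
      have h0 : s j = 0 := by
        by_contra h
        rw [(bit j).2 h] at hj
        exact absurd hj (by simp)
      simp [h0]
  refine ⟨hgap, fun d hd => ?_⟩
  have h0 := (bit d).1 hd
  -- the recursions seen from `d`
  have qR : ∀ j : ℕ, |R (d + (j : ℤ))| = be⁻¹ * (if x (d + ((j + 1 : ℕ) : ℤ)) then
      1 - |R (d + ((j + 1 : ℕ) : ℤ))| else |R (d + ((j + 1 : ℕ) : ℤ))|) := by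
    intro j
    have e : d + (j : ℤ) + 1 = d + ((j + 1 : ℕ) : ℤ) := by push_cast; ring
    rw [rR (d + j), abs_mul, abs_of_pos hb, e, fR _ _ rfl]
  have qL : ∀ j : ℕ, |L (d - (j : ℤ))| = be⁻¹ * (if x (d - ((j + 1 : ℕ) : ℤ)) then
      1 - |L (d - ((j + 1 : ℕ) : ℤ))| else |L (d - ((j + 1 : ℕ) : ℤ))|) := by
    intro j
    have e : d - (j : ℤ) - 1 = d - ((j + 1 : ℕ) : ℤ) := by push_cast; ring
    rw [rL (d - j), abs_mul, abs_of_pos hb, e, fL _ _ rfl]
  have h1R : x (d + ((1 : ℕ) : ℤ)) = false := by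
    have := hgap d
    rw [hd] at this
    simpa using this
  have h1L : x (d - ((1 : ℕ) : ℤ)) = false := by
    have := hgap (d - 1)
    rw [sub_add_cancel, hd] at this
    simpa using this
  have hbig : be⁻¹ ^ 2 < |R (d + ((0 : ℕ) : ℤ))| + |L (d - ((0 : ℕ) : ℤ))| := by
    have h1 := abs_add_dig2 (dig d) h0 (nR d h0) (nL d h0)
    have h2 := hle d
    simp only [Nat.cast_zero, add_zero, sub_zero]
    linarith
  have hsum : ∀ i j : ℤ, |R i| + |L j| < 1 := by
    intro i j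
    linarith [bR i, bL j]
  refine ⟨?_, ?_⟩
  · by_contra hcon
    push Not at hcon
    obtain ⟨c1, c2⟩ := hcon
    replace c1 : x (d - 2) = false := by simpa using c1
    replace c2 : x (d + 2) = false := by simpa using c2
    have := cmp_none (hR := fun n : ℕ => |R (d + (n : ℤ))|) (hL := fun n : ℕ => |L (d - (n : ℤ))|)
      (bR := fun n : ℕ => x (d + (n : ℤ))) (bL := fun n : ℕ => x (d - (n : ℤ)))
      (fun j _ => qR j) (fun j _ => qL j) h1R h1L (by simpa using c2) (by simpa using c1)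
      (hsum _ _)
    linarith
  · intro k hk3 _ hne heq hnek
    have := (cmp (hR := fun n : ℕ => |R (d + (n : ℤ))|) (hL := fun n : ℕ => |L (d - (n : ℤ))|)
      (bR := fun n : ℕ => x (d + (n : ℤ))) (bL := fun n : ℕ => x (d - (n : ℤ))) hk3
      (fun j _ => qR j) (fun j _ => qL j) h1R h1L (by simpa using hne.symm)
      (fun i h3 h4 => (heq i h3 h4).symm) (fun h => hnek h.symm) (hsum _ _)).1 hbig
    rw [nd_fl]
    exact this

/-- restriction of a system to one parity class -/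
private theorem cl_of {T : ℝ} {s : ℤ → ℤ} {R L : ℤ → ℝ} (h : Sys T s R L)
    (hT : T < 1 - be⁻¹ ^ 2) {c : ℤ} (hs : Str s R L c) (b : ℤ)
    (hcls : ∀ n, s n ≠ 0 → ∃ j : ℤ, n = b + 2 * j) :
    Cl (fun j => decide (s (b + 2 * j) ≠ 0)) (fun j => s (b + 2 * j)) (fun j => R (b + 2 * j))
      (fun j => L (b + 2 * j)) := by
  have hodd : ∀ n j : ℤ, n = b + 2 * j + 1 → s n = 0 := by
    intro n j hn
    by_contra h0
    obtain ⟨i, hi⟩ := hcls n h0
    omega
  have rR : ∀ j, R (b + 2 * j) = be⁻¹ * (s (b + 2 * (j + 1)) + R (b + 2 * (j + 1))) := by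
    intro j
    have e : b + 2 * (j + 1) = b + 2 * j + 1 + 1 := by ring
    rw [h.right (b + 2 * j), hodd _ j rfl, h.right (b + 2 * j + 1), e, ← w_sq]
    push_cast
    ring
  have rL : ∀ j, L (b + 2 * j) = be⁻¹ * (s (b + 2 * (j - 1)) + L (b + 2 * (j - 1))) := by
    intro j
    have e : b + 2 * (j - 1) = b + 2 * j - 1 - 1 := by ring
    have hps : ps ^ 2 = be⁻¹ := by rw [← w_sq, ph_inv]; ring
    rw [h.left (b + 2 * j), hodd (b + 2 * j - 1) (j - 1) (by ring), h.left (b + 2 * j - 1), e,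
      ← hps]
    push_cast
    ring
  obtain ⟨B, hB⟩ := h.bdd
  have bR : ∀ j, |R (b + 2 * j)| ≤ be⁻¹ :=
    bound (s := fun j => s (b + 2 * j)) (R := fun j => R (b + 2 * j)) (fun n => h.dig _) rR
      (fun j hj => hs.negR _ hj) (fun j hj => hs.bR _ hj) (fun j => (hB _).1)
  have bL : ∀ j, |L (b + 2 * j)| ≤ be⁻¹ :=
    bound (s := fun j => s (b + 2 * j)) (R := fun j => L (b + 2 * j)) (e := -1) (fun n => h.dig _)
      (fun j => rL j) (fun j hj => hs.negL _ hj) (fun j hj => hs.bL _ hj) (fun j => (hB _).2)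
  have bit : ∀ j, (fun j => decide (s (b + 2 * j) ≠ 0)) j = true ↔ s (b + 2 * j) ≠ 0 := by
    intro j
    simp
  exact
    { bit := bit
      dig := fun j => h.dig _
      rR := rR
      rL := rL
      nR := fun j hj => hs.negR _ hj
      nL := fun j hj => hs.negL _ hj
      bR := bR
      bL := bL
      leg := fun K => leg (s := fun j => s (b + 2 * j)) (R := fun j => R (b + 2 * j))
        (L := fun j => L (b + 2 * j)) bit (fun j => h.dig _) rR rL (fun j hj => hs.negR _ hj)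
        (fun j hj => hs.negL _ hj) bR bL (by
          rintro i ⟨h1, h2⟩
          rw [bit] at h1 h2
          have h3 := (h.gap _ h1).2.1
          apply h2
          have e : b + 2 * (i + 1) = b + 2 * i + 2 := by ring
          rw [e]
          exact h3) (fun j => h.le _) hT K }

end LegXAux

open LegXAux StrAux in
theorem exists_cl {v : ℝ} (hv : v ∈ Spec ph) (hv2 : v < 2 - ph) :
    ∃ x s R L, Cl x s R L ∧
      (Real.sqrt 5 * v = |s 0 + R 0 + L 0| ∨
       Real.sqrt 5 * v = |ph⁻¹ * ((s 0 + R 0) - (s (-1) + L (-1)))|) := by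
  obtain ⟨E, hE⟩ := exists_orb hv
  obtain ⟨s, R, L, hS, hval⟩ := exists_sys hE hv2
  have hT : Real.sqrt 5 * v < 1 - be⁻¹ ^ 2 := by
    have h5 : 0 < Real.sqrt 5 := by linarith [sqrt5_lb]
    have h1 : Real.sqrt 5 * v < Real.sqrt 5 * (2 - ph) := mul_lt_mul_of_pos_left hv2 h5
    have h2 : Real.sqrt 5 * (2 - ph) = 1 - be⁻¹ ^ 2 := by
      have h3 : Real.sqrt 5 = 2 * ph - 1 := by unfold ph; ring
      rw [h3, be_inv]
      nlinarith [ph_sq]
    linarith
  obtain ⟨c, hc, hs⟩ := hS.str hT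
  rcases hc with rfl | rfl
  · refine ⟨_, _, _, _, cl_of hS hT hs 0 hs.cls, Or.inr ?_⟩
    have h1 : s (-1) = 0 := by
      by_contra h0
      obtain ⟨j, hj⟩ := hs.cls _ h0
      omega
    have e : (s (-1) : ℝ) + R (-1) + L (-1) = ph⁻¹ * (((s (0 + 2 * 0) : ℤ) + R (0 + 2 * 0)) -
        ((s (0 + 2 * (-1)) : ℤ) + L (0 + 2 * (-1)))) := by
      rw [hS.right (-1), hS.left (-1), h1, ph_inv]
      norm_num
      ring
    rw [hval, e]
  · refine ⟨_, _, _, _, cl_of hS hT hs (-1) (fun n hn => ?_), Or.inl ?_⟩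
    · obtain ⟨j, hj⟩ := hs.cls n hn
      exact ⟨j + 1, by rw [hj]; ring⟩
    · rw [hval]
      norm_num

end Pool.Agent.Lib.GJ
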