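import Pool.Agent.Lib.GJ.Defs

/-!
# Module Orb: from the spectrum to bounded two-sided orbits

PROOF of `exists_orb`.  Let `e : ℕ → ℝ`, `e n = ξ * ph ^ n - round (ξ * ph ^ n)`, so `nid (ξ ph ^ n) = |e n| ∈ [0, 1/2]`
(`abs_sub_round`).  As `ph ^ (n+2) = ph ^ (n+1) + ph ^ n` (`ph_sq`), `e (n+2) - e (n+1) - e n` is an integer.
`v = limsup |e n|` (bounded sequence), so `v` is a cluster value: for every `ε > 0` one has `|e n| < v + ε` eventually
and `v - ε < |e n|` frequently (`Filter.frequently_lt_of_lt_limsup`, `Filter.eventually_lt_of_limsup_lt`).  Hence the filter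
`atTop ⊓ comap (fun n => |e n|) (𝓝 v)` is `NeBot`; let `U` be an ultrafilter below it (`Ultrafilter.of`), so `U ≤ atTop` and
`|e n| → v` along `U`.  (A subsequence `n_j` and a diagonal argument work as well.)
For `k : ℤ` the map `n ↦ e ((n + k).toNat)` has values in the compact set `Icc (-1/2) (1/2)`, hence converges along `U`
(`IsCompact.ultrafilter_le_nhds` applied to `U.map _`) to some `E k`.  Then `|E 0| = v`; `|E k| ≤ v`, since for each `ε` eventually
`|e m| < v + ε` and `(n + k).toNat → ∞`; and `E (k+2) - E (k+1) - E k` is a limit of integers (for `n ≥ -k` the three arguments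
`(n+k).toNat`, `+1`, `+2` are consecutive), hence an integer: the integers are closed in `ℝ`
(`Int.isClosedEmbedding_coe_real`, `IsClosed.mem_of_tendsto`).
-/

open Filter Topology

namespace Pool.Agent.Lib.GJ

/-- bounded two-sided orbits of the recurrence modulo integers, with the largest value at `0` -/
def Orb (v : ℝ) (E : ℤ → ℝ) : Prop :=
  |E 0| = v ∧ (∀ k, |E k| ≤ v) ∧ ∀ k, ∃ z : ℤ, E (k + 2) - E (k + 1) - E k = z

theorem exists_orb {v : ℝ} (hv : v ∈ Spec ph) : ∃ E, Orb v E := by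
  obtain ⟨ξ, hξ⟩ := hv
  obtain ⟨e, he⟩ : ∃ e : ℕ → ℝ, ∀ n, e n = ξ * ph ^ n - round (ξ * ph ^ n) := ⟨_, fun _ => rfl⟩
  have hfun : (fun n : ℕ => nid (ξ * ph ^ n)) = fun n => |e n| := by
    funext n; simp only [nid, he]
  rw [hfun] at hξ
  have hbd : ∀ n, |e n| ≤ 1 / 2 := fun n => by rw [he]; exact abs_sub_round _
  have hrec : ∀ n, ∃ z : ℤ, e (n + 2) - e (n + 1) - e n = z := by
    intro n
    refine ⟨-round (ξ * ph ^ (n + 2)) + round (ξ * ph ^ (n + 1)) + round (ξ * ph ^ n), ?_⟩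
    rw [he, he, he]
    have : ph ^ (n + 2) = ph ^ (n + 1) + ph ^ n := by
      rw [pow_add, ph_sq, pow_succ]; ring
    push_cast
    rw [this]; ring
  have hbu : IsBoundedUnder (· ≤ ·) atTop (fun n => |e n|) :=
    isBoundedUnder_of ⟨1 / 2, fun n => hbd n⟩
  have hbl : IsBoundedUnder (· ≥ ·) atTop (fun n => |e n|) :=
    isBoundedUnder_of ⟨0, fun n => abs_nonneg _⟩
  have hco : IsCoboundedUnder (· ≤ ·) atTop (fun n => |e n|) := hbl.isCoboundedUnder_le
  have hup : ∀ ε > 0, ∀ᶠ n in atTop, |e n| < v + ε := by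
    intro ε hε
    exact eventually_lt_of_limsup_lt (by rw [← hξ]; linarith) hbu
  have hfr : ∀ ε > 0, ∃ᶠ n in atTop, v - ε < |e n| := by
    intro ε hε
    exact frequently_lt_of_lt_limsup hco (by rw [← hξ]; linarith)
  have hne : NeBot (atTop ⊓ comap (fun n => |e n|) (𝓝 v)) := by
    rw [inf_neBot_iff_frequently_right]
    intro p hp
    rw [((Metric.nhds_basis_ball).comap _).eventually_iff] at hp
    obtain ⟨ε, hε, h⟩ := hp
    refine ((hfr ε hε).and_eventually (hup ε hε)).mono ?_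
    rintro n ⟨h1, h2⟩
    apply h
    simp only [Set.mem_preimage, Metric.mem_ball, Real.dist_eq]
    rw [abs_lt]; constructor <;> linarith
  set U : Ultrafilter ℕ := Ultrafilter.of (atTop ⊓ comap (fun n => |e n|) (𝓝 v)) with hU
  have hU1 : (U : Filter ℕ) ≤ atTop := (Ultrafilter.of_le _).trans inf_le_left
  have hU2 : Tendsto (fun n => |e n|) U (𝓝 v) :=
    tendsto_iff_comap.2 ((Ultrafilter.of_le _).trans inf_le_right)
  have hlim : ∀ k : ℤ, ∃ x : ℝ, Tendsto (fun n : ℕ => e ((n + k).toNat)) U (𝓝 x) := by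
    intro k
    have hc : IsCompact (Set.Icc (-(1 / 2) : ℝ) (1 / 2)) := isCompact_Icc
    have := hc.ultrafilter_le_nhds (U.map (fun n : ℕ => e ((n + k).toNat))) (by
      rw [le_principal_iff]
      refine Filter.mem_map.2 (Filter.univ_mem' ?_)
      intro n
      exact abs_le.1 (hbd _))
    obtain ⟨x, _, hx⟩ := this
    exact ⟨x, hx⟩
  choose E hE using hlim
  have htop : ∀ k : ℤ, Tendsto (fun n : ℕ => ((n : ℤ) + k).toNat) U atTop := by
    intro k
    refine Tendsto.mono_left ?_ hU1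
    rw [tendsto_atTop]
    intro b
    filter_upwards [eventually_ge_atTop (b + k.natAbs)] with n hn
    omega
  refine ⟨E, ?_, ?_, ?_⟩
  · have h1 : Tendsto (fun n : ℕ => |e (((n : ℤ) + 0).toNat)|) U (𝓝 |E 0|) := (hE 0).abs
    have h2 : (fun n : ℕ => |e (((n : ℤ) + 0).toNat)|) = fun n => |e n| := by
      funext n; simp
    rw [h2] at h1
    exact tendsto_nhds_unique h1 hU2
  · intro k
    refine le_of_forall_pos_le_add fun ε hε => ?_
    refine le_of_tendsto (hE k).abs ?_
    exact ((htop k).eventually (hup ε hε)).mono fun n hn => hn.le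
  · intro k
    have h3 : Tendsto (fun n : ℕ => e (((n : ℤ) + (k + 2)).toNat) - e (((n : ℤ) + (k + 1)).toNat) -
        e (((n : ℤ) + k).toNat)) U (𝓝 (E (k + 2) - E (k + 1) - E k)) :=
      ((hE (k + 2)).sub (hE (k + 1))).sub (hE k)
    have hcl : IsClosed (Set.range (fun z : ℤ => (z : ℝ))) := Int.isClosedEmbedding_coe_real.isClosed_range
    have hmem : E (k + 2) - E (k + 1) - E k ∈ Set.range (fun z : ℤ => (z : ℝ)) := by
      refine hcl.mem_of_tendsto h3 ?_
      refine hU1 ?_
      filter_upwards [eventually_ge_atTop k.natAbs] with n hn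
      have a1 : ((n : ℤ) + (k + 2)).toNat = ((n : ℤ) + k).toNat + 2 := by omega
      have a2 : ((n : ℤ) + (k + 1)).toNat = ((n : ℤ) + k).toNat + 1 := by omega
      rw [a1, a2]
      obtain ⟨z, hz⟩ := hrec (((n : ℤ) + k).toNat)
      exact ⟨z, hz.symm⟩
    obtain ⟨z, hz⟩ := hmem
    exact ⟨z, hz.symm⟩

end Pool.Agent.Lib.GJ
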