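import Pool.Agent.Lib.GJ.PairD

/-!
# Module PairB: the solution of the recurrences

PROOF of `growth`.  `x = (1 - ε)`.  Facts: `θ < 1 < w`, `1 / (w θ) ≤ η`, so `w⁻¹ ≤ η θ ≤ θ`; `ρ θ ≤ 1` gives `ρ ≤ 1 / θ ≤ w η`, so `ρ / η ≤ w`, and `ρ η ≤ 1`.
(1) `G n ≤ CG * η⁻¹ ^ n` with `CG = CI / ε`: strong induction by `r4`: the sum is at most `CG η⁻¹ ^ n ∑ c l e η ^ l ≤ (1 - ε) CG η⁻¹ ^ n` (the part
`l > L1` of the sum is at most `τ` by `tail`, as `η ≤ θ`; `h4`), and `U n ≤ CI ρ ^ n ≤ CI η⁻¹ ^ n = ε CG η⁻¹ ^ n`.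
(2) Put `A = CI * CG / (ε * δ) + ...` (any `A ≥ CI * CG / (ε δ)`).  Then for `k ≤ n`: `U n * G (n - k) ≤ CI ρ ^ n CG η⁻¹ ^ (n - k) = CI CG (ρ / η) ^ n η ^ k ≤
CI CG w ^ n θ ^ k ≤ ε * A * w ^ n * X k r`.
(3) Claim: `N n k r ≤ A * w ^ n * X k r` for all `k ≤ n`, `r`.  Strong induction on `n`; first `k ≥ 1`: for `l ≤ n`: `ds l k ≤ n - min l k`, `n - min l k < n`, so
`N (n - min l k) (ds l k) r' ≤ A w ^ (n - min l k) X (ds l k) r' = A w ^ n ff w X k l r'`.  Hence the stronger statement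
`(∑ l ∈ Icc 1 n, ∑ e, c l e * N (n - min l k) (ds l k) (xor r e)) ≤ (1 - ε) * A * w ^ n * X k r`  (*)
(extend or cut the sum at `L1`: all terms are nonnegative; the part `l > L1` is at most `A w ^ n M k ∑ c θ ^ l ≤ A w ^ n M k τ`; `h1`).  With (2) the claim for `k ≥ 1`.
`k = 0`, `r = true`: by `r2` and the claim for `k = l ≥ 1` at the same `n`: `∑ ≤ A w ^ n (∑_{l ≤ L1} c X + CJ τ) ≤ (1 - ε) A w ^ n X 0 true`, `xj` for `l > L1`.
`k = 0`, `r = false`: by `r3`, (*) for `k = l`, `r = e` (bound `(1 - ε) ≤ 1`): the first sum is at most `A w ^ n (∑ c X l e + CJ τ)`; the second: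
`N (n - l) 0 false ≤ A w ^ (n - l) X 0 false`, `w⁻¹ ^ l ≤ θ ^ l`; use `h3`, and (2) for the last term.
(4) `X k r ≤ CX θ ^ k`.
-/

namespace Pool.Agent.Lib.GJ

namespace PairBAux

section

variable {c : ℕ → Bool → ℝ} {L1 : ℕ} {θ τ : ℝ}

theorem sum_dom (hc : ∀ l e, 0 ≤ c l e) (hθ : 0 ≤ θ)
    (tail : ∀ n, ∑ l ∈ Finset.Ioc L1 n, ∑ e : Bool, c l e * θ ^ l ≤ τ) (n : ℕ)
    (f g : ℕ → Bool → ℝ) (hf : ∀ l e, 0 ≤ f l e) {K : ℝ} (hK : 0 ≤ K)
    (hfK : ∀ l e, L1 < l → f l e ≤ K * θ ^ l) {B : ℝ} (hB : 0 ≤ B)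
    (hg : ∀ l ∈ Finset.Icc 1 n, ∀ e, g l e ≤ B * f l e) :
    ∑ l ∈ Finset.Icc 1 n, ∑ e : Bool, c l e * g l e ≤
      B * ((∑ l ∈ Finset.Icc 1 L1, ∑ e : Bool, c l e * f l e) + τ * K) := by
  have s1 : ∑ l ∈ Finset.Icc 1 n, ∑ e : Bool, c l e * g l e ≤
      B * ∑ l ∈ Finset.Icc 1 n, ∑ e : Bool, c l e * f l e := by
    rw [Finset.mul_sum]
    refine Finset.sum_le_sum (fun l hl => ?_)
    rw [Finset.mul_sum]
    refine Finset.sum_le_sum (fun e _ => ?_)
    calc c l e * g l e ≤ c l e * (B * f l e) := mul_le_mul_of_nonneg_left (hg l hl e) (hc l e)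
      _ = B * (c l e * f l e) := by ring
  refine le_trans s1 (mul_le_mul_of_nonneg_left ?_ hB)
  have s2 : ∑ l ∈ Finset.Icc 1 n, ∑ e : Bool, c l e * f l e ≤
      ∑ l ∈ Finset.Icc 1 L1 ∪ Finset.Ioc L1 n, ∑ e : Bool, c l e * f l e := by
    refine Finset.sum_le_sum_of_subset_of_nonneg ?_ (fun l _ _ =>
      Finset.sum_nonneg (fun e _ => mul_nonneg (hc l e) (hf l e)))
    intro l hl
    rw [Finset.mem_Icc] at hl
    rw [Finset.mem_union, Finset.mem_Icc, Finset.mem_Ioc]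
    omega
  have hdis : Disjoint (Finset.Icc 1 L1) (Finset.Ioc L1 n) := by
    rw [Finset.disjoint_left]
    intro l h1 h2
    rw [Finset.mem_Icc] at h1
    rw [Finset.mem_Ioc] at h2
    omega
  rw [Finset.sum_union hdis] at s2
  have s3 : ∑ l ∈ Finset.Ioc L1 n, ∑ e : Bool, c l e * f l e ≤
      K * ∑ l ∈ Finset.Ioc L1 n, ∑ e : Bool, c l e * θ ^ l := by
    rw [Finset.mul_sum]
    refine Finset.sum_le_sum (fun l hl => ?_)
    rw [Finset.mul_sum]
    refine Finset.sum_le_sum (fun e _ => ?_)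
    rw [Finset.mem_Ioc] at hl
    calc c l e * f l e ≤ c l e * (K * θ ^ l) := mul_le_mul_of_nonneg_left (hfK l e hl.1) (hc l e)
      _ = K * (c l e * θ ^ l) := by ring
  have s4 := mul_le_mul_of_nonneg_left (tail n) hK
  linarith

end

end PairBAux

open PairBAux in
theorem growth {c : ℕ → Bool → ℝ} {N : ℕ → ℕ → Bool → ℝ} {G U : ℕ → ℝ} (hR : Rec c N G U)
    {L1 : ℕ} {w θ η ε τ : ℝ} {X : ℕ → Bool → ℝ} {M : ℕ → ℝ} {CJ CX δ : ℝ}
    (hN : NumHyp c L1 w θ η ε τ X M CJ CX δ) (hτ : 0 ≤ τ)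
    (tail : ∀ n, ∑ l ∈ Finset.Ioc L1 n, ∑ e : Bool, c l e * θ ^ l ≤ τ)
    {ρ CI : ℝ} (hρ : 0 < ρ) (hρθ : ρ * θ ≤ 1) (hU : ∀ n, U n ≤ CI * ρ ^ n) :
    ∃ A, ∀ n, G n ≤ A * η⁻¹ ^ n ∧ ∀ k, k ≤ n → ∀ r, N n k r ≤ A * w ^ n * θ ^ k := by
  have he0 := hN.e0
  have he1 := hN.e1
  have hη0 := hN.h0
  have hd0 := hN.d0
  have hθ0 : 0 < θ := lt_of_lt_of_le hN.h0 hN.ht
  have hw0 : 0 < w := lt_trans one_pos hN.w1
  have hCI : 0 ≤ CI := by
    have h1 := hU 0
    have h2 := hR.nnU 0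
    rw [pow_zero, mul_one] at h1
    linarith
  have hη1 : η < 1 := lt_of_le_of_lt hN.ht hN.t1
  -- the inverse of w
  have hwθ : w⁻¹ ≤ θ := by
    rw [inv_le_iff_one_le_mul₀ hw0]
    have h1 : w * θ * η ≤ w * θ * 1 := mul_le_mul_of_nonneg_left hη1.le (mul_pos hw0 hθ0).le
    have h2 := hN.wh
    linarith
  have hρw : ρ ≤ w * η := by
    have h1 : ρ * θ ≤ (w * η) * θ := by
      have := hN.wh
      calc ρ * θ ≤ 1 := hρθ
        _ ≤ w * θ * η := this
        _ = (w * η) * θ := by ring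
    exact le_of_mul_le_mul_right h1 hθ0
  have hρη : ρ ≤ η⁻¹ := by
    rw [le_inv_comm₀ hρ hη0, ← one_div, le_div_iff₀ hρ]
    calc η * ρ ≤ θ * ρ := mul_le_mul_of_nonneg_right hN.ht hρ.le
      _ = ρ * θ := mul_comm _ _
      _ ≤ 1 := hρθ
  have hX0 : ∀ k r, 0 ≤ X k r := fun k r =>
    le_trans (mul_nonneg hd0.le (pow_nonneg hθ0.le k)) (hN.xl k r)
  -- step 1
  set CG : ℝ := CI / ε with hCG
  have hCG0 : 0 ≤ CG := div_nonneg hCI he0.le
  have hG : ∀ n, G n ≤ CG * η⁻¹ ^ n := by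
    intro n
    induction n using Nat.strong_induction_on with
    | _ n ih =>
      have hp : 0 ≤ η⁻¹ ^ n := pow_nonneg (inv_nonneg.2 hη0.le) n
      have h1 := sum_dom (c := c) hR.nnc hθ0.le tail n (fun l _ => η ^ l) (fun l _ => G (n - l))
        (fun l _ => pow_nonneg hη0.le l) (K := 1) zero_le_one
        (fun l _ _ => by
          rw [one_mul]
          exact pow_le_pow_left₀ hη0.le hN.ht l)
        (B := CG * η⁻¹ ^ n) (mul_nonneg hCG0 hp)
        (fun l hl e => by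
          rw [Finset.mem_Icc] at hl
          have h2 := ih (n - l) (by omega)
          have h3 : η⁻¹ ^ n * η ^ l = η⁻¹ ^ (n - l) := by
            have : η⁻¹ ^ n = η⁻¹ ^ (n - l) * η⁻¹ ^ l := by
              rw [← pow_add]; congr 1; omega
            rw [this, mul_assoc, ← mul_pow, inv_mul_cancel₀ hη0.ne', one_pow, mul_one]
          calc G (n - l) ≤ CG * η⁻¹ ^ (n - l) := h2
            _ = CG * η⁻¹ ^ n * η ^ l := by rw [mul_assoc, h3])
      have h2 := hR.r4 n
      have h3 : U n ≤ ε * (CG * η⁻¹ ^ n) := by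
        calc U n ≤ CI * ρ ^ n := hU n
          _ ≤ CI * η⁻¹ ^ n := mul_le_mul_of_nonneg_left (pow_le_pow_left₀ hρ.le hρη n) hCI
          _ = ε * (CG * η⁻¹ ^ n) := by
            rw [hCG]
            field_simp
      have h4 : CG * η⁻¹ ^ n * ((∑ l ∈ Finset.Icc 1 L1, ∑ e : Bool, c l e * η ^ l) + τ * 1) ≤
          CG * η⁻¹ ^ n * (1 - ε) := by
        refine mul_le_mul_of_nonneg_left ?_ (mul_nonneg hCG0 hp)
        rw [mul_one]
        exact hN.h4
      nlinarith
  -- step 2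
  set A : ℝ := CI * CG / (ε * δ) with hA
  have hA0 : 0 ≤ A := div_nonneg (mul_nonneg hCI hCG0) (mul_pos he0 hd0).le
  have hUG : ∀ n k, k ≤ n → ∀ r, U n * G (n - k) ≤ ε * (A * w ^ n * X k r) := by
    intro n k hk r
    have h1 : U n * G (n - k) ≤ (CI * ρ ^ n) * (CG * η⁻¹ ^ (n - k)) :=
      mul_le_mul (hU n) (hG (n - k)) (hR.nnG _) (mul_nonneg hCI (pow_nonneg hρ.le n))
    have h2 : ρ ^ n * η⁻¹ ^ (n - k) ≤ w ^ n * θ ^ k := by
      have h3 : ρ ^ n ≤ (w * η) ^ n := pow_le_pow_left₀ hρ.le hρw n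
      have h4 : (w * η) ^ n * η⁻¹ ^ (n - k) = w ^ n * η ^ k := by
        have : η ^ n = η ^ k * η ^ (n - k) := by
          rw [← pow_add]; congr 1; omega
        rw [mul_pow, this, mul_assoc, mul_assoc, ← mul_pow, mul_inv_cancel₀ hη0.ne', one_pow,
          mul_one]
      calc ρ ^ n * η⁻¹ ^ (n - k) ≤ (w * η) ^ n * η⁻¹ ^ (n - k) :=
            mul_le_mul_of_nonneg_right h3 (pow_nonneg (inv_nonneg.2 hη0.le) _)
        _ = w ^ n * η ^ k := h4
        _ ≤ w ^ n * θ ^ k :=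
            mul_le_mul_of_nonneg_left (pow_le_pow_left₀ hη0.le hN.ht k) (pow_nonneg hw0.le n)
    calc U n * G (n - k) ≤ (CI * ρ ^ n) * (CG * η⁻¹ ^ (n - k)) := h1
      _ = (CI * CG) * (ρ ^ n * η⁻¹ ^ (n - k)) := by ring
      _ ≤ (CI * CG) * (w ^ n * θ ^ k) := mul_le_mul_of_nonneg_left h2 (mul_nonneg hCI hCG0)
      _ = ε * (A * w ^ n * (δ * θ ^ k)) := by
        rw [hA]
        field_simp
      _ ≤ ε * (A * w ^ n * X k r) := by
        refine mul_le_mul_of_nonneg_left ?_ he0.le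
        exact mul_le_mul_of_nonneg_left (hN.xl k r) (mul_nonneg hA0 (pow_nonneg hw0.le n))
  have hCJ : 0 ≤ CJ := by
    have h1 := hN.xl (L1 + 1) true
    have h2 := hN.xj (L1 + 1) true (Nat.lt_succ_self _)
    have h3 : 0 < θ ^ (L1 + 1) := pow_pos hθ0 _
    have h4 : δ ≤ CJ := le_of_mul_le_mul_right (le_trans h1 h2) h3
    linarith
  -- step 3
  have hmain : ∀ n k, k ≤ n → ∀ r, N n k r ≤ A * w ^ n * X k r := by
    intro n
    induction n using Nat.strong_induction_on with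
    | _ n ih =>
      have hB0 : 0 ≤ A * w ^ n := mul_nonneg hA0 (pow_nonneg hw0.le n)
      have star : ∀ k, 1 ≤ k → k ≤ n → ∀ r,
          (∑ l ∈ Finset.Icc 1 n, ∑ e : Bool, c l e * N (n - min l k) (ds l k) (xor r e)) ≤
            (1 - ε) * (A * w ^ n * X k r) := by
        intro k hk1 hkn r
        have h1 := sum_dom (c := c) hR.nnc hθ0.le tail n (fun l e => ff w X k l (xor r e))
          (fun l e => N (n - min l k) (ds l k) (xor r e))
          (fun l e => mul_nonneg (pow_nonneg (inv_nonneg.2 hw0.le) _) (hX0 _ _)) (K := M k)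
          (hN.m0 k) (fun l e hl => hN.hM k l _ hk1 hl) (B := A * w ^ n) hB0
          (fun l hl e => by
            rw [Finset.mem_Icc] at hl
            have h2 := ih (n - min l k) (by omega) (ds l k) (by unfold ds; omega) (xor r e)
            have h3 : w ^ n * w⁻¹ ^ (min l k) = w ^ (n - min l k) := by
              have : w ^ n = w ^ (n - min l k) * w ^ (min l k) := by
                rw [← pow_add]; congr 1; omega
              rw [this, mul_assoc, ← mul_pow, mul_inv_cancel₀ hw0.ne', one_pow, mul_one]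
            calc N (n - min l k) (ds l k) (xor r e) ≤ A * w ^ (n - min l k) * X (ds l k) (xor r e) :=
                  h2
              _ = A * w ^ n * ff w X k l (xor r e) := by
                unfold ff
                rw [← h3]
                ring)
        have h2 : A * w ^ n * ((∑ l ∈ Finset.Icc 1 L1, ∑ e : Bool, c l e * ff w X k l (xor r e)) +
            τ * M k) ≤ A * w ^ n * ((1 - ε) * X k r) :=
          mul_le_mul_of_nonneg_left (hN.h1 k r hk1) hB0
        calc _ ≤ _ := h1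
          _ ≤ _ := h2
          _ = _ := by ring
      have hk1 : ∀ k, 1 ≤ k → k ≤ n → ∀ r, N n k r ≤ A * w ^ n * X k r := by
        intro k hk1 hkn r
        have h1 := hR.r1 n k r hk1 hkn
        have h2 := star k hk1 hkn r
        have h3 := hUG n k hkn r
        linarith
      have ht : N n 0 true ≤ A * w ^ n * X 0 true := by
        have h1 := hR.r2 n
        have h2 := sum_dom (c := c) hR.nnc hθ0.le tail n (fun l e => X l (xor true e))
          (fun l e => N n l (xor true e)) (fun l e => hX0 _ _) (K := CJ) hCJ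
          (fun l e hl => hN.xj l _ hl) (B := A * w ^ n) hB0
          (fun l hl e => by
            rw [Finset.mem_Icc] at hl
            exact hk1 l hl.1 hl.2 _)
        have h3 := mul_le_mul_of_nonneg_left hN.h2 hB0
        have h4 := hUG n 0 (Nat.zero_le n) true
        rw [Nat.sub_zero] at h4
        linarith
      have hf : N n 0 false ≤ A * w ^ n * X 0 false := by
        have h1 := hR.r3 n
        have h2 := sum_dom (c := c) hR.nnc hθ0.le tail n (fun l e => X l e)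
          (fun l e => ∑ l' ∈ Finset.Icc 1 n, ∑ e' : Bool,
            c l' e' * N (n - min l' l) (ds l' l) (xor e e')) (fun l e => hX0 _ _) (K := CJ) hCJ
          (fun l e hl => hN.xj l _ hl) (B := A * w ^ n) hB0
          (fun l hl e => by
            rw [Finset.mem_Icc] at hl
            refine le_trans (star l hl.1 hl.2 e) ?_
            have h5 : 0 ≤ A * w ^ n * X l e := mul_nonneg hB0 (hX0 _ _)
            nlinarith)
        have h3 := sum_dom (c := c) hR.nnc hθ0.le tail n (fun l _ => w⁻¹ ^ l)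
          (fun l _ => N (n - l) 0 false) (fun l _ => pow_nonneg (inv_nonneg.2 hw0.le) _) (K := 1)
          zero_le_one (fun l _ _ => by
            rw [one_mul]
            exact pow_le_pow_left₀ (inv_nonneg.2 hw0.le) hwθ l) (B := A * w ^ n * X 0 false)
          (mul_nonneg hB0 (hX0 _ _))
          (fun l hl e => by
            rw [Finset.mem_Icc] at hl
            have h6 := ih (n - l) (by omega) 0 (Nat.zero_le _) false
            have h7 : w ^ n * w⁻¹ ^ l = w ^ (n - l) := by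
              have : w ^ n = w ^ (n - l) * w ^ l := by
                rw [← pow_add]; congr 1; omega
              rw [this, mul_assoc, ← mul_pow, mul_inv_cancel₀ hw0.ne', one_pow, mul_one]
            calc N (n - l) 0 false ≤ A * w ^ (n - l) * X 0 false := h6
              _ = A * w ^ n * X 0 false * w⁻¹ ^ l := by
                rw [← h7]
                ring)
        have h4 := mul_le_mul_of_nonneg_left hN.h3 hB0
        have h5 := hUG n 0 (Nat.zero_le n) false
        rw [Nat.sub_zero] at h5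
        rw [mul_one] at h3
        have h6 : A * w ^ n * ((((∑ l ∈ Finset.Icc 1 L1, ∑ e : Bool, c l e * X l e) + τ * CJ) +
            ((∑ l ∈ Finset.Icc 1 L1, ∑ e : Bool, c l e * w⁻¹ ^ l) + τ) * X 0 false) / 2) =
            (A * w ^ n * ((∑ l ∈ Finset.Icc 1 L1, ∑ e : Bool, c l e * X l e) + τ * CJ) +
              A * w ^ n * X 0 false * ((∑ l ∈ Finset.Icc 1 L1, ∑ e : Bool, c l e * w⁻¹ ^ l) + τ)) / 2 := by
          ring
        rw [h6] at h4
        linarith
      intro k hk r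
      rcases Nat.eq_zero_or_pos k with rfl | hk0
      · cases r
        · exact hf
        · exact ht
      · exact hk1 k hk0 hk r
  -- conclusion
  have hCX : 0 ≤ CX := by
    have h1 := hN.xl 0 true
    have h2 := hN.xu 0 true
    rw [pow_zero, mul_one] at h1 h2
    linarith
  refine ⟨CG + A * CX, fun n => ⟨?_, fun k hk r => ?_⟩⟩
  · have h1 := hG n
    have h2 : 0 ≤ A * CX * η⁻¹ ^ n :=
      mul_nonneg (mul_nonneg hA0 hCX) (pow_nonneg (inv_nonneg.2 hη0.le) n)
    linarith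
  · have h1 := hmain n k hk r
    have h2 : A * w ^ n * X k r ≤ A * w ^ n * (CX * θ ^ k) :=
      mul_le_mul_of_nonneg_left (hN.xu k r) (mul_nonneg hA0 (pow_nonneg hw0.le n))
    have h3 : 0 ≤ CG * w ^ n * θ ^ k :=
      mul_nonneg (mul_nonneg hCG0 (pow_nonneg hw0.le n)) (pow_nonneg hθ0.le k)
    linarith

end Pool.Agent.Lib.GJ
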