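import Pool.Agent.Lib.GJ.PairA
import Pool.Agent.Lib.GJ.PairB

/-!
# Module PairC: words with a head

PROOF of `heads`.  Facts as in module PairB: `w⁻¹ ≤ η θ`, `ρ / η ≤ w`, `ρ η ≤ ρ θ < 1`.
`card (FW n) ≤ CF * η⁻¹ ^ n`: `∑_{m ≤ n} CH ρ ^ m A η⁻¹ ^ (n - m) + CH ρ ^ n`, geometric series with ratio `ρ η < 1`.
Sums `addL (sg s u) (sg t v)`, `u, v ∈ FW n`:
* `u ∈ J n` or `v ∈ J n`: at most `2 CH ρ ^ n CF η⁻¹ ^ n ≤ 2 CH CF w ^ n`.
* `u = h ++ u'`, `v = h' ++ v'` with `h ∈ H m`, `h' ∈ H m'`, `m ≤ m' ≤ n` (the case `m' < m` is the same by `addL_comm`): write `h' = a ++ p` with `a.length = m`; by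
  `addL_sg_split` the sums are `(fixed list) ++ addL (sg _ u') (sg _ (p ++ v'))`, at most `card (SP (n - m) p _ _) ≤ A w ^ (n - m) θ ^ (m' - m)`.
  The number of pairs is at most `CH ^ 2 ρ ^ (m + m')`.  With `m' = m + j`: `∑_m ∑_j CH ^ 2 A w ^ n (ρ ^ 2 / w) ^ m (ρ θ) ^ j`, and both ratios are less than `1`.
There are four pairs of signs.
-/

namespace Pool.Agent.Lib.GJ

/-- words with a head from `H` (followed by a word of the language) or a word from `J` -/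
noncomputable def FW (B I H J : ℕ → Finset (List Bool)) (n : ℕ) : Finset (List Bool) :=
  J n ∪ (Finset.range (n + 1)).biUnion
    (fun m => (H m ×ˢ Wn B I (n - m)).image (fun q => q.1 ++ q.2))

/-- sums of two signed words of a set -/
noncomputable def SF (F : Finset (List Bool)) : Finset (List ℤ) :=
  (((({1, -1} : Finset ℤ) ×ˢ ({1, -1} : Finset ℤ)) ×ˢ (F ×ˢ F))).image
    (fun p => addL (sg p.1.1 p.2.1) (sg p.1.2 p.2.2))

namespace PairC

/-- the two signs -/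
def Sg : Finset (ℤ × ℤ) := ({1, -1} : Finset ℤ) ×ˢ ({1, -1} : Finset ℤ)

theorem card_Sg : Sg.card = 4 := by decide

theorem mem_Sg {s t : ℤ} : (s, t) ∈ Sg ↔ (s = 1 ∨ s = -1) ∧ (t = 1 ∨ t = -1) := by
  simp [Sg]

theorem pm_mul_sn {s : ℤ} (h : s = 1 ∨ s = -1) (b : Bool) : s * sn b = 1 ∨ s * sn b = -1 := by
  unfold sn
  rcases h with h | h <;> subst h <;> cases b <;> simp

/-- the sums of two words with known beginnings `h` and `h'` -/
noncomputable def TT (B I : ℕ → Finset (List Bool)) (n m m' : ℕ) (s t : ℤ) (h h' : List Bool) :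
    Finset (List ℤ) :=
  (Wn B I (n - m) ×ˢ Wn B I (n - m')).image
    (fun q => addL (sg s (h ++ q.1)) (sg t (h' ++ q.2)))

theorem card_TT {B I : ℕ → Finset (List Bool)} {w θ A : ℝ}
    (hS : ∀ n p s t, p.length ≤ n → (s = 1 ∨ s = -1) → (t = 1 ∨ t = -1) →
      ((SP B I n p s t).card : ℝ) ≤ A * w ^ n * θ ^ p.length)
    {n m j : ℕ} (hn : m + j ≤ n) {s t : ℤ} (hs : s = 1 ∨ s = -1) (ht : t = 1 ∨ t = -1)
    {h h' : List Bool} (hh : h.length = m) (hh' : h'.length = m + j) :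
    ((TT B I n m (m + j) s t h h').card : ℝ) ≤ A * w ^ (n - m) * θ ^ j := by
  have hp : (h'.drop m).length = j := by
    rw [List.length_drop, hh']
    omega
  have ha : (h'.take m).length = m := by
    rw [List.length_take, hh']
    omega
  have h1 : TT B I n m (m + j) s t h h' ⊆
      (SP B I (n - m) (h'.drop m) (s * sn (par h)) (t * sn (par (h'.take m)))).image
        (fun z => addL (sg s h) (sg t (h'.take m)) ++ z) := by
    intro z hz
    unfold TT at hz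
    rw [Finset.mem_image] at hz
    obtain ⟨q, hq, rfl⟩ := hz
    rw [Finset.mem_product] at hq
    rw [Finset.mem_image]
    refine ⟨addL (sg (s * sn (par h)) q.1) (sg (t * sn (par (h'.take m))) (h'.drop m ++ q.2)),
      ?_, ?_⟩
    · unfold SP
      rw [Finset.mem_image]
      refine ⟨q, Finset.mem_product.2 ⟨hq.1, ?_⟩, rfl⟩
      rw [hp, Nat.sub_sub]
      exact hq.2
    · have h2 : h' ++ q.2 = h'.take m ++ (h'.drop m ++ q.2) := by
        rw [← List.append_assoc, List.take_append_drop]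
      rw [h2, addL_sg_split (by rw [hh, ha])]
  have h3 : (TT B I n m (m + j) s t h h').card ≤
      (SP B I (n - m) (h'.drop m) (s * sn (par h)) (t * sn (par (h'.take m)))).card :=
    (Finset.card_le_card h1).trans Finset.card_image_le
  have h4 := hS (n - m) (h'.drop m) (s * sn (par h)) (t * sn (par (h'.take m)))
    (by rw [hp]; omega) (pm_mul_sn hs _) (pm_mul_sn ht _)
  rw [hp] at h4
  exact (Nat.cast_le.2 h3).trans h4

/-- the part of the sums with a word of `J` -/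
noncomputable def U1 (B I H J : ℕ → Finset (List Bool)) (n : ℕ) : Finset (List ℤ) :=
  (Sg ×ˢ (J n ×ˢ FW B I H J n)).image (fun p => addL (sg p.1.1 p.2.1) (sg p.1.2 p.2.2))

/-- the part of the sums with two heads -/
noncomputable def U2 (B I H : ℕ → Finset (List Bool)) (n : ℕ) : Finset (List ℤ) :=
  Sg.biUnion fun σ => (Finset.range (n + 1)).biUnion fun m =>
    (Finset.range (n + 1 - m)).biUnion fun j => (H m ×ˢ H (m + j)).biUnion fun g =>
      TT B I n m (m + j) σ.1 σ.2 g.1 g.2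

theorem sub_U {B I H J : ℕ → Finset (List Bool)} (n : ℕ) :
    SF (FW B I H J n) ⊆ U1 B I H J n ∪ U2 B I H n := by
  -- sums of two words with heads
  have key : ∀ s t : ℤ, (s, t) ∈ Sg → ∀ m m' : ℕ, m ≤ m' → m' ≤ n → ∀ h ∈ H m, ∀ h' ∈ H m',
      ∀ u ∈ Wn B I (n - m), ∀ v ∈ Wn B I (n - m'),
      addL (sg s (h ++ u)) (sg t (h' ++ v)) ∈ U2 B I H n := by
    intro s t hst m m' hm hm' h hh h' hh' u hu v hv
    obtain ⟨j, rfl⟩ := Nat.exists_eq_add_of_le hm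
    unfold U2
    rw [Finset.mem_biUnion]
    refine ⟨(s, t), hst, ?_⟩
    rw [Finset.mem_biUnion]
    refine ⟨m, Finset.mem_range.2 (by omega), ?_⟩
    rw [Finset.mem_biUnion]
    refine ⟨j, Finset.mem_range.2 (by omega), ?_⟩
    rw [Finset.mem_biUnion]
    refine ⟨(h, h'), Finset.mem_product.2 ⟨hh, hh'⟩, ?_⟩
    unfold TT
    rw [Finset.mem_image]
    exact ⟨(u, v), Finset.mem_product.2 ⟨hu, hv⟩, rfl⟩
  intro z hz
  unfold SF at hz
  rw [Finset.mem_image] at hz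
  obtain ⟨⟨⟨s, t⟩, ⟨u, v⟩⟩, hp, rfl⟩ := hz
  rw [Finset.mem_product] at hp
  obtain ⟨hst, huv⟩ := hp
  obtain ⟨hu, hv⟩ := Finset.mem_product.1 huv
  have hst' : (s, t) ∈ Sg := hst
  have hts : (t, s) ∈ Sg := by
    rw [mem_Sg] at hst' ⊢
    exact ⟨hst'.2, hst'.1⟩
  dsimp only at hu hv ⊢
  rw [Finset.mem_union]
  by_cases huJ : u ∈ J n
  · left
    unfold U1
    rw [Finset.mem_image]
    exact ⟨((s, t), (u, v)), Finset.mem_product.2 ⟨hst', Finset.mem_product.2 ⟨huJ, hv⟩⟩, rfl⟩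
  by_cases hvJ : v ∈ J n
  · left
    unfold U1
    rw [Finset.mem_image]
    exact ⟨((t, s), (v, u)), Finset.mem_product.2 ⟨hts, Finset.mem_product.2 ⟨hvJ, hu⟩⟩,
      addL_comm _ _⟩
  right
  unfold FW at hu hv
  rw [Finset.mem_union] at hu hv
  replace hu := hu.resolve_left huJ
  replace hv := hv.resolve_left hvJ
  rw [Finset.mem_biUnion] at hu hv
  obtain ⟨m, hm, hu⟩ := hu
  obtain ⟨m', hm', hv⟩ := hv
  rw [Finset.mem_image] at hu hv
  obtain ⟨⟨h, u'⟩, hhu, rfl⟩ := hu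
  obtain ⟨⟨h', v'⟩, hhv, rfl⟩ := hv
  rw [Finset.mem_product] at hhu hhv
  rw [Finset.mem_range] at hm hm'
  dsimp only at hhu hhv ⊢
  rcases le_total m m' with hle | hle
  · exact key s t hst' m m' hle (by omega) h hhu.1 h' hhv.1 u' hhu.2 v' hhv.2
  · rw [addL_comm]
    exact key t s hts m' m hle (by omega) h' hhv.1 h hhu.1 v' hhv.2 u' hhu.2

theorem geom_le {y : ℝ} (h0 : 0 ≤ y) (h1 : y < 1) (n : ℕ) :
    ∑ j ∈ Finset.range n, y ^ j ≤ (1 - y)⁻¹ := by
  rw [← tsum_geometric_of_lt_one h0 h1]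
  exact (summable_geometric_of_lt_one h0 h1).sum_le_tsum _ (fun _ _ => pow_nonneg h0 _)

theorem card_U2 {B I H : ℕ → Finset (List Bool)}
    (hH : ∀ l, ∀ b ∈ H l, b.length = l)
    {w θ ρ A CH : ℝ} (hθ : 0 < θ) (hw : 0 < w)
    (hρ : 0 < ρ) (hρθ : ρ * θ < 1) (hρw : ρ ^ 2 < w) (hA : 0 ≤ A) (hCH : 0 ≤ CH)
    (hS : ∀ n p s t, p.length ≤ n → (s = 1 ∨ s = -1) → (t = 1 ∨ t = -1) →
      ((SP B I n p s t).card : ℝ) ≤ A * w ^ n * θ ^ p.length)
    (cH : ∀ n, ((H n).card : ℝ) ≤ CH * ρ ^ n) (n : ℕ) :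
    ((U2 B I H n).card : ℝ) ≤
      4 * (CH ^ 2 * A * (1 - ρ ^ 2 / w)⁻¹ * (1 - ρ * θ)⁻¹) * w ^ n := by
  have hx0 : 0 ≤ ρ ^ 2 / w := by positivity
  have hx1 : ρ ^ 2 / w < 1 := (div_lt_one hw).2 hρw
  have hy0 : 0 ≤ ρ * θ := by positivity
  -- one pair of lengths
  have e1 : ∀ σ ∈ Sg, ∀ m ∈ Finset.range (n + 1), ∀ j ∈ Finset.range (n + 1 - m),
      ((((H m ×ˢ H (m + j)).biUnion fun g => TT B I n m (m + j) σ.1 σ.2 g.1 g.2).card : ℕ) : ℝ) ≤
        CH ^ 2 * A * w ^ n * ((ρ ^ 2 / w) ^ m * (ρ * θ) ^ j) := by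
    intro σ hσ m hm j hj
    rw [Finset.mem_range] at hm hj
    have hσ' := (mem_Sg (s := σ.1) (t := σ.2)).1 hσ
    have a1 : (((H m ×ˢ H (m + j)).biUnion fun g => TT B I n m (m + j) σ.1 σ.2 g.1 g.2).card : ℝ) ≤
        ∑ g ∈ H m ×ˢ H (m + j), A * w ^ (n - m) * θ ^ j := by
      refine (Nat.cast_le.2 Finset.card_biUnion_le).trans ?_
      rw [Nat.cast_sum]
      refine Finset.sum_le_sum fun g hg => ?_
      rw [Finset.mem_product] at hg
      exact card_TT hS (by omega) hσ'.1 hσ'.2 (hH m _ hg.1) (hH _ _ hg.2)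
    rw [Finset.sum_const, Finset.card_product, nsmul_eq_mul, Nat.cast_mul] at a1
    have a2 : ((H m).card : ℝ) * ((H (m + j)).card : ℝ) ≤ (CH * ρ ^ m) * (CH * ρ ^ (m + j)) :=
      mul_le_mul (cH m) (cH (m + j)) (Nat.cast_nonneg _) (by positivity)
    have a3 : 0 ≤ A * w ^ (n - m) * θ ^ j := by positivity
    refine a1.trans ((mul_le_mul_of_nonneg_right a2 a3).trans (le_of_eq ?_))
    have a4 : w ^ (n - m) * w ^ m = w ^ n := by
      rw [← pow_add]
      congr 1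
      omega
    have a5 : w ^ m ≠ 0 := (pow_pos hw m).ne'
    rw [div_pow, mul_pow, ← a4, pow_add, ← pow_mul, mul_comm 2 m, pow_mul]
    field_simp
  have e2 : ∀ σ ∈ Sg, (((Finset.range (n + 1)).biUnion fun m =>
      (Finset.range (n + 1 - m)).biUnion fun j => (H m ×ˢ H (m + j)).biUnion fun g =>
      TT B I n m (m + j) σ.1 σ.2 g.1 g.2).card : ℝ) ≤
      CH ^ 2 * A * w ^ n * ((1 - ρ ^ 2 / w)⁻¹ * (1 - ρ * θ)⁻¹) := by
    intro σ hσ
    have b0 : 0 ≤ CH ^ 2 * A * w ^ n := by positivity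
    have b4 : 0 < (1 - ρ * θ)⁻¹ := inv_pos.2 (by linarith)
    calc (((Finset.range (n + 1)).biUnion fun m =>
        (Finset.range (n + 1 - m)).biUnion fun j => (H m ×ˢ H (m + j)).biUnion fun g =>
        TT B I n m (m + j) σ.1 σ.2 g.1 g.2).card : ℝ)
        ≤ ∑ m ∈ Finset.range (n + 1), (((Finset.range (n + 1 - m)).biUnion fun j =>
          (H m ×ˢ H (m + j)).biUnion fun g => TT B I n m (m + j) σ.1 σ.2 g.1 g.2).card : ℝ) := by
          rw [← Nat.cast_sum]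
          exact Nat.cast_le.2 Finset.card_biUnion_le
      _ ≤ ∑ m ∈ Finset.range (n + 1), ∑ j ∈ Finset.range (n + 1 - m),
          CH ^ 2 * A * w ^ n * ((ρ ^ 2 / w) ^ m * (ρ * θ) ^ j) := by
          refine Finset.sum_le_sum fun m hm => ?_
          refine (Nat.cast_le.2 Finset.card_biUnion_le).trans ?_
          rw [Nat.cast_sum]
          exact Finset.sum_le_sum fun j hj => e1 σ hσ m hm j hj
      _ = ∑ m ∈ Finset.range (n + 1), CH ^ 2 * A * w ^ n * (ρ ^ 2 / w) ^ m *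
          ∑ j ∈ Finset.range (n + 1 - m), (ρ * θ) ^ j := by
          refine Finset.sum_congr rfl fun m _ => ?_
          rw [Finset.mul_sum]
          refine Finset.sum_congr rfl fun j _ => ?_
          ring
      _ ≤ ∑ m ∈ Finset.range (n + 1), CH ^ 2 * A * w ^ n * (ρ ^ 2 / w) ^ m * (1 - ρ * θ)⁻¹ := by
          refine Finset.sum_le_sum fun m _ => ?_
          exact mul_le_mul_of_nonneg_left (geom_le hy0 hρθ _) (by positivity)
      _ = CH ^ 2 * A * w ^ n * (1 - ρ * θ)⁻¹ * ∑ m ∈ Finset.range (n + 1), (ρ ^ 2 / w) ^ m := by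
          rw [Finset.mul_sum]
          refine Finset.sum_congr rfl fun m _ => ?_
          ring
      _ ≤ CH ^ 2 * A * w ^ n * (1 - ρ * θ)⁻¹ * (1 - ρ ^ 2 / w)⁻¹ := by
          exact mul_le_mul_of_nonneg_left (geom_le hx0 hx1 _) (by positivity)
      _ = CH ^ 2 * A * w ^ n * ((1 - ρ ^ 2 / w)⁻¹ * (1 - ρ * θ)⁻¹) := by ring
  unfold U2
  refine (Nat.cast_le.2 Finset.card_biUnion_le).trans ?_
  rw [Nat.cast_sum]
  refine (Finset.sum_le_sum e2).trans ?_
  rw [Finset.sum_const, card_Sg, nsmul_eq_mul]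
  apply le_of_eq
  push_cast
  ring

end PairC

open PairC

theorem heads {B I H J : ℕ → Finset (List Bool)}
    (hB : ∀ l, ∀ b ∈ B l, b.length = l) (hI : ∀ l, ∀ b ∈ I l, b.length = l)
    (hH : ∀ l, ∀ b ∈ H l, b.length = l) (hJ : ∀ l, ∀ b ∈ J l, b.length = l)
    {w θ η ρ A CH : ℝ} (hη : 0 < η) (hηθ : η ≤ θ) (hθ : θ < 1) (hw : 1 < w) (hwh : 1 ≤ w * θ * η)
    (hρ : 0 < ρ) (hρθ : ρ * θ < 1) (hρw : ρ ^ 2 < w)
    (hG : ∀ n, ((Wn B I n).card : ℝ) ≤ A * η⁻¹ ^ n)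
    (hS : ∀ n p s t, p.length ≤ n → (s = 1 ∨ s = -1) → (t = 1 ∨ t = -1) →
      ((SP B I n p s t).card : ℝ) ≤ A * w ^ n * θ ^ p.length)
    (cH : ∀ n, ((H n).card : ℝ) ≤ CH * ρ ^ n) (cJ : ∀ n, ((J n).card : ℝ) ≤ CH * ρ ^ n) :
    ∃ C, ∀ n, ((SF (FW B I H J n)).card : ℝ) ≤ C * w ^ n := by
  have _ := hB
  have _ := hI
  have _ := hJ
  have hθ0 : 0 < θ := hη.trans_le hηθ
  have hw0 : 0 < w := by linarith
  have hA : 0 ≤ A := by
    have h := (Nat.cast_nonneg (Wn B I 0).card).trans (hG 0)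
    rwa [pow_zero, mul_one] at h
  have hCH : 0 ≤ CH := by
    have h := (Nat.cast_nonneg (H 0).card).trans (cH 0)
    rwa [pow_zero, mul_one] at h
  have hρη : ρ * η < 1 := (mul_le_mul_of_nonneg_left hηθ hρ.le).trans_lt hρθ
  have hρi : ρ ≤ η⁻¹ := by
    rw [le_inv_comm₀ hρ hη]
    rw [← one_div, le_div_iff₀ hρ]
    linarith [mul_comm η ρ]
  -- the number of words
  have cF : ∀ n, ((FW B I H J n).card : ℝ) ≤ (CH + CH * A * (1 - ρ * η)⁻¹) * η⁻¹ ^ n := by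
    intro n
    have a0 : ρ ^ n ≤ η⁻¹ ^ n := pow_le_pow_left₀ hρ.le hρi n
    have a1 : ((FW B I H J n).card : ℝ) ≤ ((J n).card : ℝ) +
        ∑ m ∈ Finset.range (n + 1), ((H m).card : ℝ) * ((Wn B I (n - m)).card : ℝ) := by
      unfold FW
      have a2 := Finset.card_union_le (J n) ((Finset.range (n + 1)).biUnion
        (fun m => (H m ×ˢ Wn B I (n - m)).image (fun q => q.1 ++ q.2)))
      refine (Nat.cast_le.2 a2).trans ?_
      rw [Nat.cast_add]
      refine add_le_add le_rfl ?_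
      refine (Nat.cast_le.2 Finset.card_biUnion_le).trans ?_
      rw [Nat.cast_sum]
      refine Finset.sum_le_sum fun m _ => ?_
      rw [← Nat.cast_mul, ← Finset.card_product]
      exact Nat.cast_le.2 Finset.card_image_le
    have a3 : ∑ m ∈ Finset.range (n + 1), ((H m).card : ℝ) * ((Wn B I (n - m)).card : ℝ) ≤
        ∑ m ∈ Finset.range (n + 1), CH * A * η⁻¹ ^ n * (ρ * η) ^ m := by
      refine Finset.sum_le_sum fun m hm => ?_
      rw [Finset.mem_range] at hm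
      have a4 : ((H m).card : ℝ) * ((Wn B I (n - m)).card : ℝ) ≤
          (CH * ρ ^ m) * (A * η⁻¹ ^ (n - m)) :=
        mul_le_mul (cH m) (hG (n - m)) (Nat.cast_nonneg _) (by positivity)
      refine a4.trans (le_of_eq ?_)
      have a5 : η⁻¹ ^ (n - m) * η⁻¹ ^ m = η⁻¹ ^ n := by
        rw [← pow_add]
        congr 1
        omega
      have a6 : η⁻¹ ^ m * η ^ m = 1 := by
        rw [← mul_pow, inv_mul_cancel₀ hη.ne', one_pow]
      rw [← a5, mul_pow]
      calc CH * ρ ^ m * (A * η⁻¹ ^ (n - m)) =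
          CH * A * η⁻¹ ^ (n - m) * ρ ^ m * 1 := by ring
        _ = CH * A * η⁻¹ ^ (n - m) * ρ ^ m * (η⁻¹ ^ m * η ^ m) := by rw [a6]
        _ = _ := by ring
    have a7 : ∑ m ∈ Finset.range (n + 1), CH * A * η⁻¹ ^ n * (ρ * η) ^ m ≤
        CH * A * η⁻¹ ^ n * (1 - ρ * η)⁻¹ := by
      rw [← Finset.mul_sum]
      exact mul_le_mul_of_nonneg_left (geom_le (by positivity) hρη _) (by positivity)
    have a8 : ((J n).card : ℝ) ≤ CH * η⁻¹ ^ n :=
      (cJ n).trans (mul_le_mul_of_nonneg_left a0 hCH)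
    calc ((FW B I H J n).card : ℝ) ≤ CH * η⁻¹ ^ n + CH * A * η⁻¹ ^ n * (1 - ρ * η)⁻¹ :=
          a1.trans (add_le_add a8 (a3.trans a7))
      _ = _ := by ring
  set CF := CH + CH * A * (1 - ρ * η)⁻¹ with hCF
  have hCF0 : 0 ≤ CF := by
    have : 0 < (1 - ρ * η)⁻¹ := inv_pos.2 (by linarith)
    positivity
  have hρw' : ρ * η⁻¹ ≤ w := by
    rw [← div_eq_mul_inv, div_le_iff₀ hη]
    have h1 : ρ * θ ≤ w * θ * η := hρθ.le.trans hwh
    have h2 : ρ * θ ≤ (w * η) * θ := by linarith [mul_right_comm w θ η]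
    exact le_of_mul_le_mul_right h2 hθ0
  refine ⟨4 * (CH * CF) + 4 * (CH ^ 2 * A * (1 - ρ ^ 2 / w)⁻¹ * (1 - ρ * θ)⁻¹), fun n => ?_⟩
  have b1 : ((SF (FW B I H J n)).card : ℝ) ≤
      ((U1 B I H J n).card : ℝ) + ((U2 B I H n).card : ℝ) := by
    rw [← Nat.cast_add]
    exact Nat.cast_le.2 ((Finset.card_le_card (sub_U n)).trans (Finset.card_union_le _ _))
  have b2 : ((U1 B I H J n).card : ℝ) ≤ 4 * (CH * CF) * w ^ n := by
    have c1 : ((U1 B I H J n).card : ℝ) ≤ 4 * (((J n).card : ℝ) * ((FW B I H J n).card : ℝ)) := by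
      unfold U1
      refine (Nat.cast_le.2 Finset.card_image_le).trans ?_
      rw [Finset.card_product, Finset.card_product, card_Sg]
      push_cast
      exact le_rfl
    have c2 : ((J n).card : ℝ) * ((FW B I H J n).card : ℝ) ≤ (CH * ρ ^ n) * (CF * η⁻¹ ^ n) :=
      mul_le_mul (cJ n) (cF n) (Nat.cast_nonneg _) (by positivity)
    have c3 : ρ ^ n * η⁻¹ ^ n ≤ w ^ n := by
      rw [← mul_pow]
      exact pow_le_pow_left₀ (by positivity) hρw' n
    have c4 : (CH * ρ ^ n) * (CF * η⁻¹ ^ n) ≤ CH * CF * w ^ n := by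
      calc (CH * ρ ^ n) * (CF * η⁻¹ ^ n) = CH * CF * (ρ ^ n * η⁻¹ ^ n) := by ring
        _ ≤ CH * CF * w ^ n := mul_le_mul_of_nonneg_left c3 (by positivity)
    linarith [c2.trans c4]
  have b3 := card_U2 (B := B) (I := I) hH hθ0 hw0 hρ hρθ hρw hA hCH hS cH n
  calc ((SF (FW B I H J n)).card : ℝ) ≤ 4 * (CH * CF) * w ^ n +
        4 * (CH ^ 2 * A * (1 - ρ ^ 2 / w)⁻¹ * (1 - ρ * θ)⁻¹) * w ^ n :=
        b1.trans (add_le_add b2 b3)
    _ = _ := by ring

end Pool.Agent.Lib.GJ
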