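import Pool.Agent.Lib.GJ.PairD
import Pool.Agent.Lib.GJ.GfC

/-!
# Module PairN: the numerical hypotheses hold

Parameters: `L1 = 50`, `w = 1598/1000`, `θ = 79415/100000`, `η = 788/1000`, `ε = 1/1000`, `τ = 117/10000`; `w θ η = 1.0000127...`.
`X k r = Yt k r / 10 ^ 6 * θ ^ k` for `k ≤ 120` (`Yt k r = (if r then yO else yS).getD k 0`) and `X k r = CJ * θ ^ k` for `k > 120`, `CJ = 837838 / 10 ^ 6`, `CX = 1`, `δ = 1 / 4`,
and with `CJ2 = 900118 / 10 ^ 6`:
`M k = CJ2 * w⁻¹ ^ k * θ⁻¹ ^ k` for `k ≤ 30`, `M k = CX * w⁻¹ ^ k * θ⁻¹ ^ k` for `30 < k ≤ 50`, `M k = CX * θ ^ k` for `k > 50`.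
I have checked the following with exact rational arithmetic (python); the worst quotient (left side / `X k r`) in `h1` is `0.99843`, in `h2`, `h3` `0.99843`, in `h4` `0.9958`.

* `xl`, `xu`, `xj`: all `Yt` are between `250000` and `1000000`, those with `k > 50` are at most `837838`, those with `k ≥ 20` at most `900118` (`decide`).
* `hM` (`l > 50`): `ff w X k l r = w⁻¹ ^ (min l k) * X (ds l k) r`.
  - `k ≤ 30`: `ds l k = l - k ≥ 20`, `X ≤ CJ2 θ ^ (l - k)`: equality with `M k * θ ^ l`.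
  - `30 < k ≤ 50`: the same with `X ≤ CX θ ^ (l - k)`.
  - `k > 50`, `l ≤ k`: `w⁻¹ ^ l θ ^ (k - l) ≤ θ ^ k θ ^ l` because `w θ ^ 2 ≥ w θ η ≥ 1`.  `l > k`: `w⁻¹ ^ k θ ^ (l - k) ≤ θ ^ k θ ^ l` for the same reason.
* `h1` for `k > 120`: for `l ≤ 50`: `ds l k = k - l > 50`, so `ff = w⁻¹ ^ l X (k - l) ≤ CJ θ ^ k (w θ)⁻¹ ^ l ≤ CJ θ ^ k η ^ l`; the sum is at most `CJ θ ^ k (∑ c η ^ l)`, and `τ M k = τ θ ^ k`; need
  `CJ * ∑_{l ≤ 50} c η ^ l + τ ≤ 0.999 * CJ`, true (`0.99803 * CJ`).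
* `h1` for `1 ≤ k ≤ 120` (240 inequalities), `h2`, `h3`, `h4`: finite computations with the table `ctab` (only about 55 pairs `(l, e)` are nonzero).  Suggestion: divide by `θ ^ k`, so that for `l ≤ k` the term is
  `c * (w θ)⁻¹ ^ l * Yt (k - l) / 10 ^ 6`, for `l > k` it is `c * w⁻¹ ^ k * θ ^ (l - k) * θ⁻¹ ^ k * Yt (l - k) / 10 ^ 6 = c * (w θ ^ 2)⁻¹ ^ k * θ ^ l * Yt (l - k) / 10 ^ 6`.  Use natural number tables of upper bounds
  (scaled by `10 ^ 12`) of `(w θ)⁻¹ ^ l`, `θ ^ l` (`l ≤ 50`) and `(w θ ^ 2)⁻¹ ^ k` (`k ≤ 50`), justified by recursive checks such as `A l * 10 ^ 8 ≤ A (l+1) * 126905...` and then one boolean function for each `k`, `r`,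
  evaluated by `decide +kernel`; the margin is `5 * 10 ^ (-4)`, so the rounding does not matter.
-/

namespace Pool.Agent.Lib.GJ

/-- the potential: equal signs (`r = false`) -/
def yS : List ℕ :=
  [456060, 881049, 988653, 952385, 720498, 714173, 940042, 966646, 856000, 725653, 846860, 947235,
    912154, 803537, 792658, 900458, 915927, 862420, 804352, 849280, 900118, 884787, 834923, 829254,
    870388, 883514, 857240, 832477, 847496, 868936, 863820, 843554, 838911, 853743, 860544, 850076,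
    838767, 843057, 851297, 850304, 840815, 837612, 842340, 845426, 840958, 835395, 835775, 838731,
    838208, 833805, 831377, 836441, 837324, 837641, 834603, 835489, 837396, 837777, 836949, 835868,
    837155, 837838, 837675, 836760, 836781, 837577, 837664, 837268, 836757, 837158, 837434, 837289,
    836838, 836750, 837011, 837028, 836754, 836483, 836538, 836624, 836502, 836248, 836134, 836171,
    836135, 835958, 835786, 835741, 835724, 835629, 835466, 835368, 835329, 835276, 835158, 835040,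
    834975, 834927, 834849, 834741, 834658, 834602, 834541, 834455, 834365, 834298, 834239, 834169,
    834085, 834009, 833945, 833881, 833805, 833727, 833658, 833594, 833524, 833449, 833377, 833310,
    833243]

/-- the potential: opposite signs (`r = true`) -/
def yO : List ℕ :=
  [1000000, 927928, 608674, 808960, 968908, 964437, 800624, 700885, 900429, 960506, 891867, 764201,
    809158, 928085, 919601, 837194, 793260, 872011, 910406, 878493, 819810, 835199, 885868, 886144,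
    848443, 829316, 857278, 877220, 862275, 837734, 841442, 861160, 863502, 847772, 838294, 847603,
    856314, 850996, 839944, 839830, 846596, 848354, 841275, 836310, 838793, 842125, 839949, 834676,
    833381, 835563, 835978, 836567, 833616, 836265, 837211, 837531, 835929, 835606, 837432, 837824,
    837427, 836310, 836938, 837783, 837733, 837055, 836706, 837377, 837590, 837348, 836809, 836926,
    837234, 837182, 836831, 836611, 836765, 836833, 836646, 836372, 836330, 836399, 836327, 836111,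
    835956, 835948, 835931, 835798, 835624, 835549, 835522, 835453, 835312, 835200, 835147, 835099,
    835003, 834888, 834812, 834761, 834695, 834598, 834510, 834448, 834389, 834312, 834224, 834152,
    834091, 834025, 833945, 833867, 833801, 833737, 833665, 833588, 833517, 833452, 833384, 833311,
    833238]

namespace PairNAux

/-- upper bounds of `10 ^ 12 * (w θ)⁻¹ ^ l` -/
def AT : List ℕ :=
  [1000000000000, 787989961324, 620928179147, 489285171871, 385551803659, 303810950854,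
    239399979413, 188644780519, 148650193305, 117134860074, 92301093860, 72732335381,
    57312350144, 45161556574, 35586853219, 28042083092, 22096879972, 17412119595, 13720575447,
    10811675716, 8519491930, 6713274117, 5289992612, 4168461074, 3284705481, 2588314945,
    2039566194, 1607157687, 1266424124, 997929497, 786358426, 619642546, 488272106, 384753518,
    303181910, 238904302, 188254192, 148342414, 116892334, 92109986, 72581745, 57193687,
    45068052, 35513173, 27984024, 22051130, 17376070, 13692169, 10789292, 8501854, 6699376]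

/-- upper bounds of `10 ^ 12 * (w θ ^ 2)⁻¹ ^ l` -/
def BT : List ℕ :=
  [1000000000000, 992243230276, 984546628028, 976909726552, 969332062762, 961813177165,
    954352613832, 946949920371, 939604647898, 932316351012, 925084587767, 917908919644,
    910788911527, 903724131673, 896714151689, 889758546506, 882856894351, 876008776722,
    869213778365, 862471487245, 855781494525, 849143394538, 842556784764, 836021265805,
    829536441362, 823101918209, 816717306170, 810382218096, 804096269842, 797859080241,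
    791670271083, 785529467093, 779436295905, 773390388043, 767391376896, 761438898697,
    755532592501, 749672100162, 743857066312, 738087138341, 732361966373, 726681203245,
    721044504489, 715451528307, 709901935553, 704395389712, 698931556879, 693510105739,
    688130707547, 682793036109, 677496767759]

/-- upper bounds of `10 ^ 12 * θ ^ l` -/
def TT : List ℕ :=
  [1000000000000, 794150000001, 630674222501, 500849933800, 397749974928, 315873142590,
    250850656188, 199213048612, 158205042556, 125638534546, 99775842210, 79236985092,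
    62926051711, 49972723967, 39685838739, 31516508835, 25028835492, 19876649706, 15785041365,
    12535690601, 9955218691, 7905936924, 6278499809, 4986070624, 3959687987, 3144586215,
    2497273143, 1983209467, 1574965799, 1250759090, 993290332, 788821518, 626442609, 497489398,
    395081206, 313753740, 249167533, 197876397, 157143541, 124795544, 99106382, 78705334,
    62503841, 49637426, 39419562, 31305046, 24860903, 19743287, 15679132, 12451583, 9888425]

/-- upper bounds of `10 ^ 12 * w⁻¹ ^ l` -/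
def WT : List ℕ :=
  [1000000000000, 625782227785, 391603396612, 245058445940, 153353220238, 95965719799,
    60053641927, 37580501832, 23517210158, 14716652164, 9209419377, 5763090975, 3606439910,
    2256846002, 1412294119, 883788561, 553059175, 346094603, 216579852, 135531823, 84813407,
    53074723, 33213219, 20784243, 13006410, 8139181, 5093355, 3187332, 1994576, 1248171, 781084,
    488789, 305876, 191412, 119783, 74959, 46909, 29355, 18370, 11496, 7194, 4502, 2818, 1764,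
    1104, 691, 433, 271, 170, 107, 67]

/-- upper bounds of `10 ^ 12 * η ^ l` -/
def HT : List ℕ :=
  [1000000000000, 788000000001, 620944000001, 489303872001, 385571451137, 303830303496,
    239418279155, 188661603975, 148665343933, 117148291020, 92312853324, 72742528420,
    57321112395, 45169036568, 35593200816, 28047442244, 22101384489, 17415890978, 13723722091,
    10814293008, 8521662891, 6715070359, 5291475443, 4169682650, 3285709929, 2589139425,
    2040241867, 1607710592, 1266875947, 998298247, 786659019, 619887307, 488471198, 384915305,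
    303313261, 239010850, 188340550, 148412354, 116948935, 92155761, 72618740, 57223568,
    45092172, 35532632, 27999715, 22063776, 17386256, 13700370, 10795892, 8507163, 6703645]

/-- the numerator of the potential -/
def yt (k : ℕ) (r : Bool) : ℕ := (if r then yO else yS).getD k 0

/-- the numerator of the potential, for all `k` -/
def yv (k : ℕ) (r : Bool) : ℕ := if k ≤ 120 then yt k r else 837838

/-- sums over `l` from `1` to `n` and over the two parities -/
def sm (f : ℕ → Bool → ℕ) : ℕ → ℕ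
  | 0 => 0
  | n + 1 => sm f n + (f (n + 1) true + f (n + 1) false)

/-- the terms of `h1` -/
def f1 (k : ℕ) (r : Bool) (l : ℕ) (e : Bool) : ℕ :=
  if ctab l e = 0 then 0 else
    ctab l e * ((if l ≤ k then AT.getD l 0 * 10 ^ 12 else BT.getD k 0 * TT.getD l 0) *
      yt (if l ≤ k then k - l else l - k) (xor r e))

/-- `10 ^ 30 * M k / θ ^ k` -/
def Mn (k : ℕ) : ℕ :=
  if k ≤ 30 then 900118 * BT.getD k 0 * 10 ^ 12 else if k ≤ 50 then BT.getD k 0 * 10 ^ 18
    else 10 ^ 30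

set_option maxRecDepth 100000 in
theorem chk1 : ∀ k < 120, ∀ r : Bool,
    10 ^ 4 * sm (f1 (k + 1) r) 50 + 117 * Mn (k + 1) ≤ 9990 * yt (k + 1) r * 10 ^ 24 := by
  decide +kernel

theorem chkH : 10 ^ 4 * sm (fun l e => ctab l e * HT.getD l 0) 50 + 117 * 10 ^ 12 ≤
    9990 * 10 ^ 12 := by
  decide +kernel

theorem chkL : 837838 * (10 ^ 4 * sm (fun l e => ctab l e * HT.getD l 0) 50) +
    117 * 10 ^ 6 * 10 ^ 12 ≤ 9990 * 837838 * 10 ^ 12 := by
  decide +kernel

theorem chk2 : 10 ^ 4 * sm (fun l e => ctab l e * (yt l (xor true e) * TT.getD l 0)) 50 +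
    117 * 837838 * 10 ^ 12 ≤ 9990 * yt 0 true * 10 ^ 12 := by
  decide +kernel

theorem chk3 : 10 ^ 4 * sm (fun l e => ctab l e * (yt l e * TT.getD l 0)) 50 +
    117 * 837838 * 10 ^ 12 +
    (10 ^ 4 * sm (fun l e => ctab l e * WT.getD l 0) 50 + 117 * 10 ^ 12) * yt 0 false ≤
    2 * 9990 * yt 0 false * 10 ^ 12 := by
  decide +kernel

theorem yt_low : ∀ k < 121, ∀ r : Bool, 250000 ≤ yt k r := by
  decide +kernel

theorem yt_up : ∀ k < 121, ∀ r : Bool, yt k r ≤ 1000000 := by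
  decide +kernel

theorem yt_up20 : ∀ k < 121, ∀ r : Bool, 20 ≤ k → yt k r ≤ 900118 := by
  decide +kernel

theorem yt_up51 : ∀ k < 121, ∀ r : Bool, 50 < k → yt k r ≤ 837838 := by
  decide +kernel

theorem yv_low (k : ℕ) (r : Bool) : 250000 ≤ yv k r := by
  unfold yv
  split_ifs with h
  · exact yt_low k (by omega) r
  · norm_num

theorem yv_up (k : ℕ) (r : Bool) : yv k r ≤ 1000000 := by
  unfold yv
  split_ifs with h
  · exact yt_up k (by omega) r
  · norm_num

theorem yv_up20 (k : ℕ) (r : Bool) (hk : 20 ≤ k) : yv k r ≤ 900118 := by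
  unfold yv
  split_ifs with h
  · exact yt_up20 k (by omega) r hk
  · norm_num

theorem yv_up51 (k : ℕ) (r : Bool) (hk : 50 < k) : yv k r ≤ 837838 := by
  unfold yv
  split_ifs with h
  · exact yt_up51 k (by omega) r hk
  · norm_num

theorem yv_eq {k : ℕ} (r : Bool) (hk : k ≤ 120) : yv k r = yt k r := by
  unfold yv
  rw [if_pos hk]

theorem sm_eq (f : ℕ → Bool → ℕ) (n : ℕ) :
    ((sm f n : ℕ) : ℝ) = ∑ l ∈ Finset.Icc 1 n, ∑ e : Bool, (f l e : ℝ) := by
  induction n with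
  | zero => simp [sm]
  | succ n ih =>
    rw [Finset.sum_Icc_succ_top (by omega), ← ih]
    simp [sm]

theorem pow_tab (T : List ℕ) (num den n : ℕ) (a : ℝ) (ha : a = (num : ℝ) / den) (hd : 0 < den)
    (h0 : 10 ^ 12 ≤ T.getD 0 0)
    (hs : ∀ l < n, T.getD l 0 * num ≤ T.getD (l + 1) 0 * den) :
    ∀ l ≤ n, a ^ l ≤ (T.getD l 0 : ℝ) / 10 ^ 12 := by
  intro l
  induction l with
  | zero =>
    intro _
    rw [pow_zero, le_div_iff₀ (by positivity), one_mul]
    exact_mod_cast h0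
  | succ l ih =>
    intro hl
    have h1 := ih (by omega)
    have h2 := hs l (by omega)
    have hd' : (0 : ℝ) < den := by exact_mod_cast hd
    have h3 : (T.getD l 0 : ℝ) * num ≤ (T.getD (l + 1) 0 : ℝ) * den := by exact_mod_cast h2
    have ha0 : 0 ≤ a := by rw [ha]; positivity
    calc a ^ (l + 1) = a ^ l * a := pow_succ _ _
      _ ≤ (T.getD l 0 : ℝ) / 10 ^ 12 * a := mul_le_mul_of_nonneg_right h1 ha0
      _ = ((T.getD l 0 : ℝ) * num) / (den * 10 ^ 12) := by rw [ha]; field_simp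
      _ ≤ ((T.getD (l + 1) 0 : ℝ) * den) / (den * 10 ^ 12) := by gcongr
      _ = (T.getD (l + 1) 0 : ℝ) / 10 ^ 12 := by field_simp

theorem at_le : ∀ l ≤ 50, ((1598 / 1000 * (79415 / 100000) : ℝ)⁻¹) ^ l ≤
    (AT.getD l 0 : ℝ) / 10 ^ 12 :=
  pow_tab AT (10 ^ 8) (1598 * 79415) 50 _ (by norm_num) (by norm_num) (by decide +kernel)
    (by decide +kernel)

theorem bt_le : ∀ l ≤ 50, ((1598 / 1000 * (79415 / 100000) ^ 2 : ℝ)⁻¹) ^ l ≤
    (BT.getD l 0 : ℝ) / 10 ^ 12 :=
  pow_tab BT (10 ^ 13) (1598 * 79415 * 79415) 50 _ (by norm_num) (by norm_num)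
    (by decide +kernel) (by decide +kernel)

theorem tt_le : ∀ l ≤ 50, (79415 / 100000 : ℝ) ^ l ≤ (TT.getD l 0 : ℝ) / 10 ^ 12 :=
  pow_tab TT 79415 (10 ^ 5) 50 _ (by norm_num) (by norm_num) (by decide +kernel)
    (by decide +kernel)

theorem wt_le : ∀ l ≤ 50, ((1598 / 1000 : ℝ)⁻¹) ^ l ≤ (WT.getD l 0 : ℝ) / 10 ^ 12 :=
  pow_tab WT 1000 1598 50 _ (by norm_num) (by norm_num) (by decide +kernel)
    (by decide +kernel)

theorem ht_le : ∀ l ≤ 50, (788 / 1000 : ℝ) ^ l ≤ (HT.getD l 0 : ℝ) / 10 ^ 12 :=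
  pow_tab HT 788 1000 50 _ (by norm_num) (by norm_num) (by decide +kernel)
    (by decide +kernel)

/-! ### identities -/

theorem id1 {w θ : ℝ} (hθ : 0 < θ) {k l : ℕ} (h : l ≤ k) :
    w⁻¹ ^ l * θ ^ (k - l) = θ ^ k * (w * θ)⁻¹ ^ l := by
  obtain ⟨m, rfl⟩ := Nat.exists_eq_add_of_le h
  rw [Nat.add_sub_cancel_left, pow_add, mul_inv, mul_pow]
  have : θ ^ l * θ⁻¹ ^ l = 1 := by rw [← mul_pow, mul_inv_cancel₀ hθ.ne', one_pow]
  calc w⁻¹ ^ l * θ ^ m = w⁻¹ ^ l * θ ^ m * 1 := (mul_one _).symm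
    _ = w⁻¹ ^ l * θ ^ m * (θ ^ l * θ⁻¹ ^ l) := by rw [this]
    _ = θ ^ l * θ ^ m * (w⁻¹ ^ l * θ⁻¹ ^ l) := by ring

theorem id2 {w θ : ℝ} (hθ : 0 < θ) {k l : ℕ} (h : k ≤ l) :
    w⁻¹ ^ k * θ ^ (l - k) = θ ^ k * ((w * θ ^ 2)⁻¹ ^ k * θ ^ l) := by
  obtain ⟨m, rfl⟩ := Nat.exists_eq_add_of_le h
  rw [Nat.add_sub_cancel_left, pow_add, mul_inv, mul_pow]
  have : θ ^ k * θ ^ k * (θ ^ 2)⁻¹ ^ k = 1 := by
    rw [← mul_pow, ← mul_pow, ← pow_two, mul_inv_cancel₀ (by positivity), one_pow]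
  calc w⁻¹ ^ k * θ ^ m = w⁻¹ ^ k * θ ^ m * 1 := (mul_one _).symm
    _ = w⁻¹ ^ k * θ ^ m * (θ ^ k * θ ^ k * (θ ^ 2)⁻¹ ^ k) := by rw [this]
    _ = θ ^ k * (w⁻¹ ^ k * (θ ^ 2)⁻¹ ^ k * (θ ^ k * θ ^ m)) := by ring

theorem id3 {w θ : ℝ} (hθ : 0 < θ) (k : ℕ) :
    w⁻¹ ^ k * θ⁻¹ ^ k = θ ^ k * (w * θ ^ 2)⁻¹ ^ k := by
  rw [mul_inv, mul_pow]
  have : θ ^ k * (θ ^ 2)⁻¹ ^ k = θ⁻¹ ^ k := by
    rw [← mul_pow]
    congr 1
    field_simp
  calc w⁻¹ ^ k * θ⁻¹ ^ k = w⁻¹ ^ k * (θ ^ k * (θ ^ 2)⁻¹ ^ k) := by rw [this]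
    _ = θ ^ k * (w⁻¹ ^ k * (θ ^ 2)⁻¹ ^ k) := by ring

theorem ds_le {k l : ℕ} (h : l ≤ k) : ds l k = k - l := by
  unfold ds
  omega

theorem ds_ge {k l : ℕ} (h : k ≤ l) : ds l k = l - k := by
  unfold ds
  omega

/-- the potential -/
noncomputable def X (k : ℕ) (r : Bool) : ℝ := (yv k r : ℝ) / 10 ^ 6 * (79415 / 100000) ^ k

/-- the numbers `M k` -/
noncomputable def M (k : ℕ) : ℝ :=
  if k ≤ 30 then 900118 / 10 ^ 6 * ((1598 / 1000 : ℝ)⁻¹ ^ k * (79415 / 100000 : ℝ)⁻¹ ^ k)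
  else if k ≤ 50 then (1598 / 1000 : ℝ)⁻¹ ^ k * (79415 / 100000 : ℝ)⁻¹ ^ k
  else (79415 / 100000) ^ k

theorem X_nonneg (k : ℕ) (r : Bool) : 0 ≤ X k r := by
  unfold X
  positivity

theorem M_nonneg (k : ℕ) : 0 ≤ M k := by
  unfold M
  split_ifs <;> positivity

theorem X_low (k : ℕ) (r : Bool) : 1 / 4 * (79415 / 100000 : ℝ) ^ k ≤ X k r := by
  unfold X
  apply mul_le_mul_of_nonneg_right _ (by positivity)
  have h : (250000 : ℝ) ≤ (yv k r : ℝ) := by exact_mod_cast yv_low k r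
  linarith

theorem X_le {C : ℕ} (k : ℕ) (r : Bool) (h : yv k r ≤ C) :
    X k r ≤ (C : ℝ) / 10 ^ 6 * (79415 / 100000 : ℝ) ^ k := by
  unfold X
  have h' : (yv k r : ℝ) ≤ C := by exact_mod_cast h
  gcongr

theorem X_up (k : ℕ) (r : Bool) : X k r ≤ 1 * (79415 / 100000 : ℝ) ^ k := by
  have h := X_le k r (yv_up k r)
  norm_num at h ⊢
  exact h

theorem X_up51 (k : ℕ) (r : Bool) (hk : 50 < k) :
    X k r ≤ 837838 / 10 ^ 6 * (79415 / 100000 : ℝ) ^ k := by
  have h := X_le k r (yv_up51 k r hk)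
  norm_num at h ⊢
  exact h

theorem X_up20 (k : ℕ) (r : Bool) (hk : 20 ≤ k) :
    X k r ≤ 900118 / 10 ^ 6 * (79415 / 100000 : ℝ) ^ k := by
  have h := X_le k r (yv_up20 k r hk)
  norm_num at h ⊢
  exact h

theorem M_le (k : ℕ) : M k ≤ (79415 / 100000 : ℝ) ^ k * ((Mn k : ℝ) / 10 ^ 30) := by
  unfold M Mn
  split_ifs with h1 h2
  · rw [id3 (by norm_num)]
    have h := bt_le k (by omega)
    have h0 : (0 : ℝ) ≤ (79415 / 100000 : ℝ) ^ k := by positivity
    calc (900118 / 10 ^ 6 * ((79415 / 100000 : ℝ) ^ k *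
          (1598 / 1000 * (79415 / 100000) ^ 2 : ℝ)⁻¹ ^ k))
        = (79415 / 100000 : ℝ) ^ k * (900118 / 10 ^ 6 *
          (1598 / 1000 * (79415 / 100000) ^ 2 : ℝ)⁻¹ ^ k) := by ring
      _ ≤ (79415 / 100000 : ℝ) ^ k * (900118 / 10 ^ 6 * ((BT.getD k 0 : ℝ) / 10 ^ 12)) := by
          gcongr
      _ = _ := by
          push_cast
          ring
  · rw [id3 (by norm_num)]
    have h := bt_le k (by omega)
    have h0 : (0 : ℝ) ≤ (79415 / 100000 : ℝ) ^ k := by positivity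
    calc (79415 / 100000 : ℝ) ^ k * (1598 / 1000 * (79415 / 100000) ^ 2 : ℝ)⁻¹ ^ k
        ≤ (79415 / 100000 : ℝ) ^ k * ((BT.getD k 0 : ℝ) / 10 ^ 12) := by
          gcongr
      _ = _ := by
          push_cast
          ring
  · norm_num

theorem term1 {k l : ℕ} (hk : k ≤ 120) (hl : l ≤ 50) (r e : Bool) :
    (ctab l e : ℝ) * ff (1598 / 1000) X k l (xor r e) ≤
      (79415 / 100000 : ℝ) ^ k / 10 ^ 30 * (f1 k r l e : ℝ) := by
  unfold f1
  split_ifs with h0 h1
  · rw [h0]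
    simp
  · unfold ff
    rw [min_eq_left h1, ds_le h1]
    unfold X
    rw [yv_eq _ (by omega)]
    have h := at_le l hl
    have e1 : (1598 / 1000 : ℝ)⁻¹ ^ l * ((yt (k - l) (xor r e) : ℝ) / 10 ^ 6 *
        (79415 / 100000) ^ (k - l)) = (79415 / 100000 : ℝ) ^ k *
        (1598 / 1000 * (79415 / 100000) : ℝ)⁻¹ ^ l * ((yt (k - l) (xor r e) : ℝ) / 10 ^ 6) := by
      rw [← id1 (by norm_num) h1]
      ring
    rw [e1]
    calc (ctab l e : ℝ) * ((79415 / 100000 : ℝ) ^ k *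
        (1598 / 1000 * (79415 / 100000) : ℝ)⁻¹ ^ l * ((yt (k - l) (xor r e) : ℝ) / 10 ^ 6))
        ≤ (ctab l e : ℝ) * ((79415 / 100000 : ℝ) ^ k *
          ((AT.getD l 0 : ℝ) / 10 ^ 12) * ((yt (k - l) (xor r e) : ℝ) / 10 ^ 6)) := by
          gcongr
      _ = _ := by
          push_cast
          ring
  · have h2 : k ≤ l := by omega
    unfold ff
    rw [min_eq_right h2, ds_ge h2]
    unfold X
    rw [yv_eq _ (by omega)]
    have h := bt_le k (by omega)
    have h' := tt_le l hl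
    have e1 : (1598 / 1000 : ℝ)⁻¹ ^ k * ((yt (l - k) (xor r e) : ℝ) / 10 ^ 6 *
        (79415 / 100000) ^ (l - k)) = (79415 / 100000 : ℝ) ^ k *
        ((1598 / 1000 * (79415 / 100000) ^ 2 : ℝ)⁻¹ ^ k * (79415 / 100000) ^ l) *
        ((yt (l - k) (xor r e) : ℝ) / 10 ^ 6) := by
      rw [← id2 (by norm_num) h2]
      ring
    rw [e1]
    calc (ctab l e : ℝ) * ((79415 / 100000 : ℝ) ^ k *
        ((1598 / 1000 * (79415 / 100000) ^ 2 : ℝ)⁻¹ ^ k * (79415 / 100000) ^ l) *
        ((yt (l - k) (xor r e) : ℝ) / 10 ^ 6))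
        ≤ (ctab l e : ℝ) * ((79415 / 100000 : ℝ) ^ k *
          (((BT.getD k 0 : ℝ) / 10 ^ 12) * ((TT.getD l 0 : ℝ) / 10 ^ 12)) *
          ((yt (l - k) (xor r e) : ℝ) / 10 ^ 6)) := by
          gcongr
      _ = _ := by
          push_cast
          ring

theorem h1_small {k : ℕ} (hk1 : 1 ≤ k) (hk : k ≤ 120) (r : Bool) :
    (∑ l ∈ Finset.Icc 1 50, ∑ e : Bool, (ctab l e : ℝ) * ff (1598 / 1000) X k l (xor r e)) +
      117 / 10000 * M k ≤ (1 - 1 / 1000) * X k r := by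
  have hs : (∑ l ∈ Finset.Icc 1 50, ∑ e : Bool,
      (ctab l e : ℝ) * ff (1598 / 1000) X k l (xor r e)) ≤
      (79415 / 100000 : ℝ) ^ k / 10 ^ 30 * ((sm (f1 k r) 50 : ℕ) : ℝ) := by
    rw [sm_eq, Finset.mul_sum]
    apply Finset.sum_le_sum
    intro l hl
    rw [Finset.mul_sum]
    apply Finset.sum_le_sum
    intro e _
    exact term1 hk (Finset.mem_Icc.1 hl).2 r e
  have hM := M_le k
  have hc := chk1 (k - 1) (by omega) r
  rw [Nat.sub_add_cancel hk1] at hc
  have hc' : (10 ^ 4 * ((sm (f1 k r) 50 : ℕ) : ℝ) + 117 * (Mn k : ℝ)) ≤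
      9990 * (yt k r : ℝ) * 10 ^ 24 := by exact_mod_cast hc
  have hX : X k r = (79415 / 100000 : ℝ) ^ k * ((yt k r : ℝ) / 10 ^ 6) := by
    unfold X
    rw [yv_eq _ hk]
    ring
  rw [hX]
  have hp : (0 : ℝ) < (79415 / 100000 : ℝ) ^ k := by positivity
  generalize (79415 / 100000 : ℝ) ^ k = p at *
  generalize ((sm (f1 k r) 50 : ℕ) : ℝ) = s at *
  generalize (Mn k : ℝ) = m at *
  generalize (yt k r : ℝ) = y at *
  calc _ ≤ p / 10 ^ 30 * s + 117 / 10000 * (p * (m / 10 ^ 30)) := by linarith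
    _ = p / 10 ^ 34 * (10 ^ 4 * s + 117 * m) := by ring
    _ ≤ p / 10 ^ 34 * (9990 * y * 10 ^ 24) := by gcongr
    _ = _ := by ring

theorem sH_le : (∑ l ∈ Finset.Icc 1 50, ∑ e : Bool, (ctab l e : ℝ) * (788 / 1000 : ℝ) ^ l) ≤
    ((sm (fun l e => ctab l e * HT.getD l 0) 50 : ℕ) : ℝ) / 10 ^ 12 := by
  rw [sm_eq, Finset.sum_div]
  apply Finset.sum_le_sum
  intro l hl
  rw [Finset.sum_div]
  apply Finset.sum_le_sum
  intro e _
  have h := ht_le l (Finset.mem_Icc.1 hl).2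
  calc (ctab l e : ℝ) * (788 / 1000 : ℝ) ^ l ≤ (ctab l e : ℝ) * ((HT.getD l 0 : ℝ) / 10 ^ 12) := by
        gcongr
    _ = _ := by
        push_cast
        ring

theorem h4 : (∑ l ∈ Finset.Icc 1 50, ∑ e : Bool, (ctab l e : ℝ) * (788 / 1000 : ℝ) ^ l) +
    117 / 10000 ≤ 1 - 1 / 1000 := by
  have h := sH_le
  have hc : (10 ^ 4 * ((sm (fun l e => ctab l e * HT.getD l 0) 50 : ℕ) : ℝ) + 117 * 10 ^ 12) ≤
      9990 * 10 ^ 12 := by exact_mod_cast chkH
  linarith

theorem h1_large {k : ℕ} (hk : 120 < k) (r : Bool) :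
    (∑ l ∈ Finset.Icc 1 50, ∑ e : Bool, (ctab l e : ℝ) * ff (1598 / 1000) X k l (xor r e)) +
      117 / 10000 * M k ≤ (1 - 1 / 1000) * X k r := by
  have hs : (∑ l ∈ Finset.Icc 1 50, ∑ e : Bool,
      (ctab l e : ℝ) * ff (1598 / 1000) X k l (xor r e)) ≤
      837838 / 10 ^ 6 * (79415 / 100000 : ℝ) ^ k *
      (∑ l ∈ Finset.Icc 1 50, ∑ e : Bool, (ctab l e : ℝ) * (788 / 1000 : ℝ) ^ l) := by
    rw [Finset.mul_sum]
    apply Finset.sum_le_sum
    intro l hl
    rw [Finset.mul_sum]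
    apply Finset.sum_le_sum
    intro e _
    have hl' := (Finset.mem_Icc.1 hl).2
    have h1 : l ≤ k := by omega
    have h2 : X (k - l) (xor r e) ≤ 837838 / 10 ^ 6 * (79415 / 100000 : ℝ) ^ (k - l) :=
      X_up51 _ _ (by omega)
    have h3 : (1598 / 1000 * (79415 / 100000) : ℝ)⁻¹ ^ l ≤ (788 / 1000 : ℝ) ^ l := by
      gcongr
      norm_num
    unfold ff
    rw [min_eq_left h1, ds_le h1]
    calc (ctab l e : ℝ) * ((1598 / 1000 : ℝ)⁻¹ ^ l * X (k - l) (xor r e))
        ≤ (ctab l e : ℝ) * ((1598 / 1000 : ℝ)⁻¹ ^ l *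
          (837838 / 10 ^ 6 * (79415 / 100000 : ℝ) ^ (k - l))) := by gcongr
      _ = (ctab l e : ℝ) * (837838 / 10 ^ 6 * ((1598 / 1000 : ℝ)⁻¹ ^ l *
          (79415 / 100000 : ℝ) ^ (k - l))) := by ring
      _ = (ctab l e : ℝ) * (837838 / 10 ^ 6 * ((79415 / 100000 : ℝ) ^ k *
          (1598 / 1000 * (79415 / 100000) : ℝ)⁻¹ ^ l)) := by
          rw [id1 (by norm_num) h1]
      _ ≤ (ctab l e : ℝ) * (837838 / 10 ^ 6 * ((79415 / 100000 : ℝ) ^ k *
          (788 / 1000 : ℝ) ^ l)) := by gcongr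
      _ = _ := by ring
  have hM : M k = (79415 / 100000 : ℝ) ^ k := by
    unfold M
    rw [if_neg (by omega), if_neg (by omega)]
  have hX : X k r = 837838 / 10 ^ 6 * (79415 / 100000 : ℝ) ^ k := by
    unfold X yv
    rw [if_neg (by omega)]
    norm_num
  rw [hM, hX]
  have hH := sH_le
  have hc : 837838 * (10 ^ 4 * ((sm (fun l e => ctab l e * HT.getD l 0) 50 : ℕ) : ℝ)) +
      117 * 10 ^ 6 * 10 ^ 12 ≤ 9990 * 837838 * 10 ^ 12 := by exact_mod_cast chkL
  have hp : (0 : ℝ) < (79415 / 100000 : ℝ) ^ k := by positivity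
  generalize (79415 / 100000 : ℝ) ^ k = p at *
  generalize ((sm (fun l e => ctab l e * HT.getD l 0) 50 : ℕ) : ℝ) = s at *
  generalize (∑ l ∈ Finset.Icc 1 50, ∑ e : Bool, (ctab l e : ℝ) * (788 / 1000 : ℝ) ^ l) = S at *
  calc _ ≤ 837838 / 10 ^ 6 * p * S + 117 / 10000 * p := by linarith
    _ ≤ 837838 / 10 ^ 6 * p * (s / 10 ^ 12) + 117 / 10000 * p := by gcongr
    _ = p / 10 ^ 22 * (837838 * (10 ^ 4 * s) + 117 * 10 ^ 6 * 10 ^ 12) := by ring
    _ ≤ p / 10 ^ 22 * (9990 * 837838 * 10 ^ 12) := by gcongr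
    _ = _ := by ring

theorem hM {k l : ℕ} (r : Bool) (hk : 1 ≤ k) (hl : 50 < l) :
    ff (1598 / 1000) X k l r ≤ M k * (79415 / 100000 : ℝ) ^ l := by
  have hc : ∀ j : ℕ, (1598 / 1000 : ℝ)⁻¹ ^ j ≤
      (79415 / 100000 : ℝ) ^ j * (79415 / 100000 : ℝ) ^ j := by
    intro j
    rw [← mul_pow]
    gcongr
    norm_num
  have hinv : ∀ j : ℕ, j ≤ l → (79415 / 100000 : ℝ) ^ (l - j) =
      (79415 / 100000 : ℝ)⁻¹ ^ j * (79415 / 100000 : ℝ) ^ l := by
    intro j hj
    obtain ⟨m, rfl⟩ := Nat.exists_eq_add_of_le hj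
    rw [Nat.add_sub_cancel_left, pow_add, ← mul_assoc, ← mul_pow, inv_mul_cancel₀ (by norm_num),
      one_pow, one_mul]
  unfold M
  split_ifs with h1 h2
  · have hkl : k ≤ l := by omega
    unfold ff
    rw [min_eq_right hkl, ds_ge hkl]
    have h := X_up20 (l - k) r (by omega)
    calc (1598 / 1000 : ℝ)⁻¹ ^ k * X (l - k) r
        ≤ (1598 / 1000 : ℝ)⁻¹ ^ k * (900118 / 10 ^ 6 * (79415 / 100000 : ℝ) ^ (l - k)) := by
          gcongr
      _ = _ := by
          rw [hinv k hkl]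
          ring
  · have hkl : k ≤ l := by omega
    unfold ff
    rw [min_eq_right hkl, ds_ge hkl]
    have h := X_up (l - k) r
    calc (1598 / 1000 : ℝ)⁻¹ ^ k * X (l - k) r
        ≤ (1598 / 1000 : ℝ)⁻¹ ^ k * (1 * (79415 / 100000 : ℝ) ^ (l - k)) := by
          gcongr
      _ = _ := by
          rw [hinv k hkl]
          ring
  · rcases le_total l k with hlk | hkl
    · unfold ff
      rw [min_eq_left hlk, ds_le hlk]
      have h := X_up (k - l) r
      obtain ⟨m, rfl⟩ := Nat.exists_eq_add_of_le hlk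
      rw [Nat.add_sub_cancel_left] at h ⊢
      calc (1598 / 1000 : ℝ)⁻¹ ^ l * X m r
          ≤ ((79415 / 100000 : ℝ) ^ l * (79415 / 100000 : ℝ) ^ l) *
            (1 * (79415 / 100000 : ℝ) ^ m) := by
            apply mul_le_mul (hc l) h (X_nonneg _ _) (by positivity)
        _ = _ := by
            rw [pow_add]
            ring
    · unfold ff
      rw [min_eq_right hkl, ds_ge hkl]
      have h := X_up (l - k) r
      obtain ⟨m, rfl⟩ := Nat.exists_eq_add_of_le hkl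
      rw [Nat.add_sub_cancel_left] at h ⊢
      calc (1598 / 1000 : ℝ)⁻¹ ^ k * X m r
          ≤ ((79415 / 100000 : ℝ) ^ k * (79415 / 100000 : ℝ) ^ k) *
            (1 * (79415 / 100000 : ℝ) ^ m) := by
            apply mul_le_mul (hc k) h (X_nonneg _ _) (by positivity)
        _ = _ := by
            rw [pow_add]
            ring

theorem sX_le (f : Bool → Bool) :
    (∑ l ∈ Finset.Icc 1 50, ∑ e : Bool, (ctab l e : ℝ) * X l (f e)) ≤
    ((sm (fun l e => ctab l e * (yt l (f e) * TT.getD l 0)) 50 : ℕ) : ℝ) / 10 ^ 18 := by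
  rw [sm_eq, Finset.sum_div]
  apply Finset.sum_le_sum
  intro l hl
  rw [Finset.sum_div]
  apply Finset.sum_le_sum
  intro e _
  have hl' := (Finset.mem_Icc.1 hl).2
  have h := tt_le l hl'
  unfold X
  rw [yv_eq _ (by omega)]
  calc (ctab l e : ℝ) * ((yt l (f e) : ℝ) / 10 ^ 6 * (79415 / 100000 : ℝ) ^ l)
      ≤ (ctab l e : ℝ) * ((yt l (f e) : ℝ) / 10 ^ 6 * ((TT.getD l 0 : ℝ) / 10 ^ 12)) := by
        gcongr
    _ = _ := by
        push_cast
        ring

theorem sW_le : (∑ l ∈ Finset.Icc 1 50, ∑ e : Bool, (ctab l e : ℝ) * (1598 / 1000 : ℝ)⁻¹ ^ l) ≤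
    ((sm (fun l e => ctab l e * WT.getD l 0) 50 : ℕ) : ℝ) / 10 ^ 12 := by
  rw [sm_eq, Finset.sum_div]
  apply Finset.sum_le_sum
  intro l hl
  rw [Finset.sum_div]
  apply Finset.sum_le_sum
  intro e _
  have h := wt_le l (Finset.mem_Icc.1 hl).2
  calc (ctab l e : ℝ) * (1598 / 1000 : ℝ)⁻¹ ^ l
      ≤ (ctab l e : ℝ) * ((WT.getD l 0 : ℝ) / 10 ^ 12) := by
        gcongr
    _ = _ := by
        push_cast
        ring

theorem X_zero (r : Bool) : X 0 r = (yt 0 r : ℝ) / 10 ^ 6 := by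
  unfold X
  rw [yv_eq _ (by omega)]
  simp

theorem h2 : (∑ l ∈ Finset.Icc 1 50, ∑ e : Bool, (ctab l e : ℝ) * X l (xor true e)) +
    117 / 10000 * (837838 / 10 ^ 6) ≤ (1 - 1 / 1000) * X 0 true := by
  have h := sX_le (fun e => xor true e)
  have hc : (10 ^ 4 * ((sm (fun l e => ctab l e * (yt l (xor true e) * TT.getD l 0)) 50 : ℕ) : ℝ) +
      117 * 837838 * 10 ^ 12) ≤ 9990 * (yt 0 true : ℝ) * 10 ^ 12 := by exact_mod_cast chk2
  rw [X_zero]
  linarith

theorem h3 : ((∑ l ∈ Finset.Icc 1 50, ∑ e : Bool, (ctab l e : ℝ) * X l e) +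
    117 / 10000 * (837838 / 10 ^ 6) +
    ((∑ l ∈ Finset.Icc 1 50, ∑ e : Bool, (ctab l e : ℝ) * (1598 / 1000 : ℝ)⁻¹ ^ l) +
      117 / 10000) * X 0 false) / 2 ≤ (1 - 1 / 1000) * X 0 false := by
  have h := sX_le (fun e => e)
  have h' := sW_le
  have hc : (10 ^ 4 * ((sm (fun l e => ctab l e * (yt l e * TT.getD l 0)) 50 : ℕ) : ℝ) +
      117 * 837838 * 10 ^ 12 +
      (10 ^ 4 * ((sm (fun l e => ctab l e * WT.getD l 0) 50 : ℕ) : ℝ) + 117 * 10 ^ 12) *
        (yt 0 false : ℝ)) ≤ 2 * 9990 * (yt 0 false : ℝ) * 10 ^ 12 := by exact_mod_cast chk3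
  rw [X_zero]
  have hy : (0 : ℝ) ≤ (yt 0 false : ℝ) := by positivity
  generalize ((sm (fun l e => ctab l e * WT.getD l 0) 50 : ℕ) : ℝ) = s at *
  generalize ((sm (fun l e => ctab l e * (yt l e * TT.getD l 0)) 50 : ℕ) : ℝ) = t at *
  generalize (yt 0 false : ℝ) = y at *
  generalize (∑ l ∈ Finset.Icc 1 50, ∑ e : Bool, (ctab l e : ℝ) * (1598 / 1000 : ℝ)⁻¹ ^ l) = S at *
  have hm : S * (y / 10 ^ 6) ≤ s / 10 ^ 12 * (y / 10 ^ 6) := by gcongr
  have hexp : (S + 117 / 10000) * (y / 10 ^ 6) ≤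
      (10 ^ 4 * s + 117 * 10 ^ 12) * y / 10 ^ 22 := by
    calc (S + 117 / 10000) * (y / 10 ^ 6) = S * (y / 10 ^ 6) + 117 / 10000 * (y / 10 ^ 6) := by
          ring
      _ ≤ s / 10 ^ 12 * (y / 10 ^ 6) + 117 / 10000 * (y / 10 ^ 6) := by linarith
      _ = _ := by ring
  linarith

end PairNAux

theorem num {c : ℕ → Bool → ℝ} (hc : ∀ l e, 1 ≤ l → l ≤ 50 → c l e = (ctab l e : ℝ)) :
    ∃ X M CJ CX δ, NumHyp c 50 (1598 / 1000) (79415 / 100000) (788 / 1000) (1 / 1000)
      (117 / 10000) X M CJ CX δ := by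
  have hsum : ∀ g : ℕ → Bool → ℝ, (∑ l ∈ Finset.Icc 1 50, ∑ e : Bool, c l e * g l e) =
      ∑ l ∈ Finset.Icc 1 50, ∑ e : Bool, (ctab l e : ℝ) * g l e := by
    intro g
    apply Finset.sum_congr rfl
    intro l hl
    apply Finset.sum_congr rfl
    intro e _
    rw [hc l e (Finset.mem_Icc.1 hl).1 (Finset.mem_Icc.1 hl).2]
  refine ⟨PairNAux.X, PairNAux.M, 837838 / 10 ^ 6, 1, 1 / 4, ?_⟩
  constructor
  · norm_num
  · norm_num
  · norm_num
  · norm_num
  · norm_num
  · norm_num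
  · norm_num
  · norm_num
  · exact PairNAux.X_low
  · exact PairNAux.X_up
  · exact PairNAux.X_up51
  · exact PairNAux.M_nonneg
  · intro k l r hk hl
    exact PairNAux.hM r hk hl
  · intro k r hk
    rw [hsum (fun l e => ff (1598 / 1000) PairNAux.X k l (xor r e))]
    rcases le_or_gt k 120 with h | h
    · exact PairNAux.h1_small hk h r
    · exact PairNAux.h1_large h r
  · rw [hsum (fun l e => PairNAux.X l (xor true e))]
    exact PairNAux.h2
  · rw [hsum (fun l e => PairNAux.X l e), hsum (fun l _ => (1598 / 1000 : ℝ)⁻¹ ^ l)]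
    exact PairNAux.h3
  · rw [hsum (fun l _ => (788 / 1000 : ℝ) ^ l)]
    exact PairNAux.h4

end Pool.Agent.Lib.GJ
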