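import Pool.Agent.Lib.GJ.Vals
import Pool.Agent.Lib.P4a7640L.DimLim

/-!
# Module Up: the upper bound of the dimension from a bound for the number of sums of two legal words

PROOF of `dim_upper`.  Use `Pool.Agent.Lib.P4a7640L.dimH_limsup` (read it first) with `A = Spec ph ∩ Iio (2 - ph)`, `r k = be⁻¹ ^ k`
(`√5 > 2`, so the error `2 be⁻¹ ^ k / √5` is at most `be⁻¹ ^ k`) and the finite set `F k` of all reals
`|c0 + c1 * ev l| / √5` with `l ∈ SS K k` and `(c0, c1)` one of the four pairs of `approx`; `card (F k) ≤ 4 * card (SS K k) ≤ 4 C w ^ k`.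
For `σ > log w / log be` one has `w * (be⁻¹) ^ σ < 1`, so the sum converges (geometric series) and `dimH A ≤ σ`.  Let `σ` decrease to
`log w / log be` (`ENNReal` or `le_of_forall_gt_imp_ge_of_dense`; `dimH A ≤ ENNReal.ofReal σ` for all real `σ > log w / log be` gives the claim by
`ENNReal.le_of_forall_pos_le_add` or continuity of `ENNReal.ofReal`).
-/

open Filter

namespace Pool.Agent.Lib.GJ

open Classical in
/-- the legal words of length `n` -/
noncomputable def LW (K n : ℕ) : Finset (List Bool) :=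
  (aw n).filter (fun u => ∃ x : ℤ → Bool, Leg K x ∧ u = wd x 1 n)

/-- the sums of two signed legal words -/
noncomputable def SS (K n : ℕ) : Finset (List ℤ) :=
  (((({1, -1} : Finset ℤ) ×ˢ ({1, -1} : Finset ℤ)) ×ˢ (LW K n ×ˢ LW K n))).image
    (fun p => addL (sg p.1.1 p.2.1) (sg p.1.2 p.2.2))

namespace UpAux

/-- the four pairs of constants -/
noncomputable def cc : Finset (ℝ × ℝ) := {(0, be⁻¹), (1, be⁻¹), (-1, be⁻¹), (0, ph⁻¹)}

theorem cc_card : cc.card ≤ 4 := by
  unfold cc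
  refine (Finset.card_insert_le _ _).trans ?_
  refine (Nat.add_le_add_right (Finset.card_insert_le _ _) 1).trans ?_
  refine (Nat.add_le_add_right (Nat.add_le_add_right (Finset.card_insert_le _ _) 1) 1).trans ?_
  simp

/-- the centres of the intervals -/
noncomputable def FF (K k : ℕ) : Finset ℝ :=
  (SS K k ×ˢ cc).image (fun p => |p.2.1 + p.2.2 * ev p.1| / Real.sqrt 5)

theorem FF_card (K k : ℕ) : (FF K k).card ≤ (SS K k).card * 4 := by
  unfold FF
  refine Finset.card_image_le.trans ?_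
  rw [Finset.card_product]
  exact Nat.mul_le_mul_left _ cc_card

theorem be_gt : (1 : ℝ) < be := by
  rw [be_eq]
  linarith [ph_pos]

theorem cover (K k : ℕ) {v : ℝ} (hv : v ∈ Spec ph ∩ Set.Iio (2 - ph)) :
    ∃ y ∈ FF K k, |v - y| ≤ be⁻¹ ^ k := by
  classical
  obtain ⟨x, x', hx, hx', s1, s2, h1, h2, c0, c1, hc, h⟩ := approx hv.1 hv.2
  have h5 := sqrt5_lb
  refine ⟨|c0 + c1 * ev (addL (sg s1 (wd x 1 k)) (sg s2 (wd x' 1 k)))| / Real.sqrt 5, ?_, ?_⟩
  · unfold FF
    refine Finset.mem_image.2 ⟨(addL (sg s1 (wd x 1 k)) (sg s2 (wd x' 1 k)), (c0, c1)), ?_, rfl⟩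
    refine Finset.mem_product.2 ⟨?_, ?_⟩
    · unfold SS
      refine Finset.mem_image.2 ⟨((s1, s2), (wd x 1 k, wd x' 1 k)), ?_, rfl⟩
      refine Finset.mem_product.2 ⟨Finset.mem_product.2 ⟨?_, ?_⟩, Finset.mem_product.2 ⟨?_, ?_⟩⟩
      · show s1 ∈ ({1, -1} : Finset ℤ)
        rcases h1 with h1 | h1 <;> simp [h1]
      · show s2 ∈ ({1, -1} : Finset ℤ)
        rcases h2 with h2 | h2 <;> simp [h2]
      · show wd x 1 k ∈ LW K k
        unfold LW
        rw [Finset.mem_filter]
        exact ⟨mem_aw.2 (wd_length _ _ _), x, hx K, rfl⟩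
      · show wd x' 1 k ∈ LW K k
        unfold LW
        rw [Finset.mem_filter]
        exact ⟨mem_aw.2 (wd_length _ _ _), x', hx' K, rfl⟩
    · show (c0, c1) ∈ cc
      unfold cc
      rcases hc with ⟨ha, hb⟩ | ⟨ha, hb⟩ | ⟨ha, hb⟩ | ⟨ha, hb⟩ <;> rw [ha, hb] <;> simp
  · have h6 := h k
    have hs : (0 : ℝ) < Real.sqrt 5 := by linarith
    have e : v - |c0 + c1 * ev (addL (sg s1 (wd x 1 k)) (sg s2 (wd x' 1 k)))| / Real.sqrt 5 =
        (Real.sqrt 5 * v - |c0 + c1 * ev (addL (sg s1 (wd x 1 k)) (sg s2 (wd x' 1 k)))|) /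
          Real.sqrt 5 := by
      field_simp
    rw [e, abs_div, abs_of_pos hs, div_le_iff₀ hs]
    refine h6.trans ?_
    have h7 : (0 : ℝ) ≤ be⁻¹ ^ k := pow_nonneg (inv_nonneg.2 be_pos.le) k
    nlinarith

end UpAux

open UpAux in
theorem dim_upper {K : ℕ} {w C : ℝ} (hw : 1 < w) (h : ∀ n, ((SS K n).card : ℝ) ≤ C * w ^ n) :
    dimH (Spec ph ∩ Set.Iio (2 - ph)) ≤ ENNReal.ofReal (Real.log w / Real.log be) := by
  have hb := be_pos
  have hb1 := be_gt
  have hlb : 0 < Real.log be := Real.log_pos hb1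
  have hlw : 0 < Real.log w := Real.log_pos hw
  have hw0 : 0 < w := by linarith
  have hbi : (0 : ℝ) < be⁻¹ := inv_pos.2 hb
  have hbi1 : be⁻¹ < 1 := inv_lt_one_of_one_lt₀ hb1
  set D : ℝ := Real.log w / Real.log be with hD
  have hD0 : 0 < D := div_pos hlw hlb
  refine ENNReal.le_of_forall_pos_le_add fun ε hε _ => ?_
  have hσ : (0 : NNReal) < D.toNNReal + ε := by positivity
  have hσr : ((D.toNNReal + ε : NNReal) : ℝ) = D + ε := by
    rw [NNReal.coe_add, Real.coe_toNNReal _ hD0.le]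
  have key : dimH (Spec ph ∩ Set.Iio (2 - ph)) ≤ ((D.toNNReal + ε : NNReal) : ENNReal) := by
    refine P4a7640L.dimH_limsup (F := FF K) (r := fun k => be⁻¹ ^ k)
      (fun k => pow_nonneg hbi.le k) (tendsto_pow_atTop_nhds_zero_of_lt_one hbi.le hbi1) hσ ?_ ?_
    · rw [hσr]
      have hq0 : (0 : ℝ) < be⁻¹ ^ (D + (ε : ℝ)) := Real.rpow_pos_of_pos hbi _
      have hq : w * be⁻¹ ^ (D + (ε : ℝ)) < 1 := by
        rw [← Real.log_neg_iff (mul_pos hw0 hq0), Real.log_mul hw0.ne' hq0.ne', Real.log_rpow hbi,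
          Real.log_inv]
        have e1 : D * Real.log be = Real.log w := by
          rw [hD]
          field_simp
        have e2 : 0 < (ε : ℝ) * Real.log be := mul_pos (by exact_mod_cast hε) hlb
        nlinarith
      have hC : 0 ≤ C := by
        have h0 := h 0
        rw [pow_zero, mul_one] at h0
        exact le_trans (Nat.cast_nonneg _) h0
      refine Summable.of_nonneg_of_le (fun k => ?_) (fun k => ?_)
        ((summable_geometric_of_lt_one (mul_pos hw0 hq0).le hq).mul_left (4 * C))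
      · exact mul_nonneg (Nat.cast_nonneg _) (Real.rpow_nonneg (pow_nonneg hbi.le k) _)
      · have e3 : (be⁻¹ ^ k) ^ (D + (ε : ℝ)) = (be⁻¹ ^ (D + (ε : ℝ))) ^ k := by
          rw [← Real.rpow_natCast, ← Real.rpow_mul hbi.le, mul_comm, Real.rpow_mul hbi.le,
            Real.rpow_natCast]
        rw [e3, mul_pow]
        have e4 : ((FF K k).card : ℝ) ≤ 4 * (C * w ^ k) := by
          have h1 : ((FF K k).card : ℝ) ≤ ((SS K k).card : ℝ) * 4 := by
            have := (Nat.cast_le (α := ℝ)).2 (FF_card K k)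
            rwa [Nat.cast_mul, Nat.cast_ofNat] at this
          have h2 := h k
          linarith
        calc ((FF K k).card : ℝ) * (be⁻¹ ^ (D + (ε : ℝ))) ^ k
            ≤ 4 * (C * w ^ k) * (be⁻¹ ^ (D + (ε : ℝ))) ^ k :=
              mul_le_mul_of_nonneg_right e4 (pow_nonneg hq0.le k)
          _ = 4 * C * (w ^ k * (be⁻¹ ^ (D + (ε : ℝ))) ^ k) := by ring
    · intro v hv
      exact (Filter.Eventually.of_forall fun k => cover K k hv).frequently
  refine key.trans (le_of_eq ?_)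
  rw [ENNReal.coe_add]
  rfl

end Pool.Agent.Lib.GJ
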