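import Pool.Agent.Lib.GJ.HeadC
import Pool.Agent.Lib.GJ.PairN
import Pool.Agent.Lib.GJ.PairC
import Pool.Agent.Lib.GJ.Up

/-!
# Module Outer: the upper bound

PROOF of `card_SS`.  `exists_rec (Bl 20) (Il 20)` (`Bl 20 0 = ∅`: the empty word is not closed; lengths from `mem_aw`), `num` (module PairN) with `c l e = cB (Bl 20) l e` (`cB_Bl`, `nC_table`), `growth` with
`τ = 117 / 10000`, `ρ = 5 / 4`, `CI` from `card_Il`, tail from `tail`; then `heads` with `H = Hl 20`, `J = Jl 20` (the numbers `N` bound the cardinalities of `SP`).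
`LW 20 n ⊆ FW (Bl 20) (Il 20) (Hl 20) (Jl 20) n` by `mem_heads` (`p = 1`), so `SS 20 n ⊆ SF (FW ..)`.
`upper`: `dim_upper`.
-/

namespace Pool.Agent.Lib.GJ

namespace OuterAux

theorem len_Bl : ∀ l, ∀ b ∈ Bl 20 l, b.length = l := fun _ _ hb =>
  mem_aw.1 (Finset.mem_filter.1 hb).1

theorem len_Il : ∀ l, ∀ b ∈ Il 20 l, b.length = l := fun _ _ hb =>
  mem_aw.1 (Finset.mem_filter.1 hb).1

theorem len_Hl : ∀ l, ∀ b ∈ Hl 20 l, b.length = l := by
  intro l b hb
  classical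
  unfold Hl at hb
  rw [Finset.mem_filter] at hb
  exact mem_aw.1 hb.1

theorem len_Jl : ∀ l, ∀ b ∈ Jl 20 l, b.length = l := by
  intro l b hb
  classical
  unfold Jl at hb
  rw [Finset.mem_filter] at hb
  exact mem_aw.1 hb.1

theorem Bl_zero : Bl 20 0 = ∅ := by
  rw [Finset.eq_empty_iff_forall_notMem]
  intro b hb
  have h1 := Finset.mem_filter.1 hb
  have h2 : b = [] := List.length_eq_zero_iff.1 (mem_aw.1 h1.1)
  rw [h2] at h1
  have h3 := h1.2
  simp [closed] at h3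

theorem cB_eq (l : ℕ) (e : Bool) (h1 : 1 ≤ l) (h2 : l ≤ 50) :
    (cB (Bl 20) l e : ℝ) = (ctab l e : ℝ) := by
  have h : cB (Bl 20) l e = ctab l e := by
    unfold cB
    rw [cB_Bl]
    exact nC_table h1 h2 e
  rw [h]

theorem LW_sub (n : ℕ) : LW 20 n ⊆ FW (Bl 20) (Il 20) (Hl 20) (Jl 20) n := by
  classical
  intro u hu
  unfold LW at hu
  rw [Finset.mem_filter] at hu
  obtain ⟨-, x, hx, rfl⟩ := hu
  unfold FW
  rw [Finset.mem_union]
  rcases mem_heads (by norm_num) hx 1 n with h | ⟨m, hm, a, ha, b, hb, he⟩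
  · exact Or.inl h
  · refine Or.inr (Finset.mem_biUnion.2 ⟨m, Finset.mem_range.2 (by omega), ?_⟩)
    rw [he]
    exact Finset.mem_image.2 ⟨(a, b), Finset.mem_product.2 ⟨ha, hb⟩, rfl⟩

theorem SS_sub (n : ℕ) : SS 20 n ⊆ SF (FW (Bl 20) (Il 20) (Hl 20) (Jl 20) n) := by
  unfold SS SF
  exact Finset.image_subset_image (Finset.product_subset_product (Finset.Subset.refl _)
    (Finset.product_subset_product (LW_sub n) (LW_sub n)))

end OuterAux

open OuterAux in
theorem card_SS : ∃ C : ℝ, ∀ n, ((SS 20 n).card : ℝ) ≤ C * (1598 / 1000 : ℝ) ^ n := by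
  obtain ⟨N, hR, hN⟩ := exists_rec (Bl 20) (Il 20) Bl_zero len_Bl len_Il
  obtain ⟨X, M, CJ, CX, δ, hNum⟩ := num (c := fun l e => (cB (Bl 20) l e : ℝ)) cB_eq
  obtain ⟨A, hA⟩ := growth hR hNum (by norm_num) tail (ρ := 5 / 4) (CI := 10731728)
    (by norm_num) (by norm_num) card_Il
  obtain ⟨C, hC⟩ := heads (B := Bl 20) (I := Il 20) (H := Hl 20) (J := Jl 20)
    (w := 1598 / 1000) (θ := 79415 / 100000) (η := 788 / 1000) (ρ := 5 / 4) (A := A)
    (CH := 200125264) len_Bl len_Il len_Hl len_Jl (by norm_num) (by norm_num) (by norm_num)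
    (by norm_num) (by norm_num) (by norm_num) (by norm_num) (by norm_num)
    (fun n => (hA n).1)
    (fun n p s t hp hs ht => le_trans (hN n p s t hp hs ht) ((hA n).2 _ hp _))
    card_Hl card_Jl
  refine ⟨C, fun n => le_trans ?_ (hC n)⟩
  exact_mod_cast Finset.card_le_card (SS_sub n)

theorem upper : dimH (Spec ph ∩ Set.Iio (2 - ph)) ≤
    ENNReal.ofReal (Real.log (1598 / 1000) / Real.log be) := by
  obtain ⟨C, hC⟩ := card_SS
  exact dim_upper (K := 20) (by norm_num) hC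

end Pool.Agent.Lib.GJ
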