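import Pool.Agent.Lib.GJ.PairU

/-!
# Module PairA: the recurrences for the number of sums

PROOF of `exists_rec`.  Put `c l e = cB B l e`, `G n = (Wn B I n).card`, `U n = (I n).card` and
`N n k r` = the maximum of `(SP B I n p s t).card` over all `p` of length `k` and `s, t` in `{1, -1}` with
`rel p s t = r`, where `rel p s t = decide (s ≠ t * sn (par p))` (a `Finset.sup` over `aw k ×ˢ {1,-1} ×ˢ {1,-1}` filtered; all sets are finite).
Every `u ∈ Wn n` is in `I n` or `u = b ++ u'` with `b ∈ B l`, `1 ≤ l ≤ n`, `u' ∈ Wn (n - l)` (cases on `Wrd`; `l ≥ 1` as `B 0 = ∅`).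

`r4`: count.
`r1`: let `p`, `s`, `t` attain the maximum, `k = p.length`, `1 ≤ k ≤ n`.  For `b ∈ B l` let `T b` be the set of the sums
`addL (sg s (b ++ u')) (sg t (p ++ v))`, `u' ∈ Wn (n - l)`, `v ∈ Wn (n - k)`.
* `l < k`: with `p = p1 ++ p2`, `p1.length = l`: by `addL_sg_split` `T b` is the set of `(fixed list) ++ addL (sg (s * sn (par b)) u') (sg (t * sn (par p1)) (p2 ++ v))`,
  so `card (T b) ≤ card (SP (n - l) p2 (s * sn (par b)) (t * sn (par p1)))`, and `rel` of the new data is `xor r (par b)`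
  (`sn (par p1) * sn (par p2) = sn (par p)`).
* `l ≥ k`: with `b = b1 ++ b2`, `b1.length = k`: the sums are `(fixed list) ++ addL (sg (s * sn (par b1)) (b2 ++ u')) (sg (t * sn (par p)) v)`, and
  by `addL_comm` `card (T b) ≤ card (SP (n - k) b2 (t * sn (par p)) (s * sn (par b1)))`; the new `rel` is
  `decide (t * sn (par p) ≠ s * sn (par b1) * sn (par b2)) = xor r (par b)`.
In both cases the new length of the known beginning is `ds l k` and the new total length `n - min l k`.
`SP n p s t` is the union of the `T b` and of the sums with `u ∈ I n` (at most `U n * G (n - k)`).  Group the blocks by length and parity.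
`r2`: the same for `p = []`, `s ≠ t`: the sums with first block `b` of `u` are `addL (sg s (b ++ u')) (sg t v)`, a set of cardinality at most
`card (SP n b t s)` (`addL_comm`), and `rel b t s = decide (t ≠ s * sn (par b)) = xor true (par b)`.
`r3`: `p = []`, `s = t`.  For `b ∈ B l`, `b' ∈ B l'` (`l, l' ≤ n`) let `S b b'` be the set of the sums `addL (sg s (b ++ u')) (sg s (b' ++ v'))`, `u' ∈ Wn (n - l)`,
`v' ∈ Wn (n - l')`; `S b b' = S b' b` (`addL_comm`).  The sums with `u ∈ I n` or `v ∈ I n` are at most `U n * G n` many (again `addL_comm`: the two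
sets are the same).  `sym_union` bounds twice the cardinality of the union of the `S b b'`.  `card (S b b) ≤ card (SP (n - l) [] s' s')` with `s' = s * sn (par b)`.
`S b b'` is one of the sets of `r1` for the known beginning `b` (signs exchanged): `card (S b b') ≤ N (n - min l' l) (ds l' l) (xor (par b) (par b'))` by the two cases
of `r1` (make this a separate lemma: for `p` of length `k ≥ 1`, block `b'`: `card (T b') ≤ N (n - min l' k) (ds l' k) (xor (rel p s t) (par b'))`), `rel b s s = par b`.
-/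

namespace Pool.Agent.Lib.GJ

section PairA

variable (B I : ℕ → Finset (List Bool))

/-- whether the signs at the next free places are opposite -/
def relS (p : List Bool) (s t : ℤ) : Bool := decide (s ≠ t * sn (par p))

/-- the data for a known beginning of length `k` -/
def ixS (k : ℕ) (r : Bool) : Finset (List Bool × ℤ × ℤ) :=
  (aw k ×ˢ (({1, -1} : Finset ℤ) ×ˢ ({1, -1} : Finset ℤ))).filter
    (fun q => relS q.1 q.2.1 q.2.2 = r)

theorem mem_ixS {k : ℕ} {r : Bool} {q : List Bool × ℤ × ℤ} :
    q ∈ ixS k r ↔ (q.1.length = k ∧ (q.2.1 = 1 ∨ q.2.1 = -1) ∧ (q.2.2 = 1 ∨ q.2.2 = -1)) ∧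
      relS q.1 q.2.1 q.2.2 = r := by
  unfold ixS
  rw [Finset.mem_filter, Finset.mem_product, Finset.mem_product, mem_aw]
  simp only [Finset.mem_insert, Finset.mem_singleton]

/-- the maximal number of sums for a known beginning of length `k` -/
noncomputable def nnS (n k : ℕ) (r : Bool) : ℕ :=
  (ixS k r).sup (fun q => (SP B I n q.1 q.2.1 q.2.2).card)

theorem le_nnS (n : ℕ) (p : List Bool) {s t : ℤ} (hs : s = 1 ∨ s = -1) (ht : t = 1 ∨ t = -1) :
    (SP B I n p s t).card ≤ nnS B I n p.length (relS p s t) := by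
  have hmem : (p, s, t) ∈ ixS p.length (relS p s t) := mem_ixS.2 ⟨⟨rfl, hs, ht⟩, rfl⟩
  unfold nnS
  generalize ixS p.length (relS p s t) = Z at hmem
  have h := Finset.le_sup (f := fun q : List Bool × ℤ × ℤ => (SP B I n q.1 q.2.1 q.2.2).card) hmem
  exact h

theorem nnS_le {n k : ℕ} {r : Bool} {M : ℕ}
    (h : ∀ p s t, p.length = k → (s = 1 ∨ s = -1) → (t = 1 ∨ t = -1) → relS p s t = r →
      (SP B I n p s t).card ≤ M) : nnS B I n k r ≤ M := by
  unfold nnS
  refine Finset.sup_le ?_
  rintro ⟨p, s, t⟩ hq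
  obtain ⟨⟨h1, h2, h3⟩, h4⟩ := mem_ixS.1 hq
  exact h p s t h1 h2 h3 h4

theorem relS_mul {s t : ℤ} (hs : s = 1 ∨ s = -1) (ht : t = 1 ∨ t = -1) (a b : Bool) :
    decide (s * sn b ≠ t * sn a) = xor (decide (s ≠ t * sn a)) b := by
  rcases hs with rfl | rfl <;> rcases ht with rfl | rfl <;> cases a <;> cases b <;> decide

theorem relS_mul' {s t : ℤ} (hs : s = 1 ∨ s = -1) (ht : t = 1 ∨ t = -1) (a b : Bool) :
    decide (t * sn a ≠ s * sn b) = xor (decide (s ≠ t * sn a)) b := by
  rcases hs with rfl | rfl <;> rcases ht with rfl | rfl <;> cases a <;> cases b <;> decide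

theorem pm_mul {s : ℤ} (hs : s = 1 ∨ s = -1) (a : Bool) : s * sn a = 1 ∨ s * sn a = -1 := by
  rcases hs with rfl | rfl <;> cases a <;> decide

theorem mem_WnA {n : ℕ} {u : List Bool} : u ∈ Wn B I n ↔ u.length = n ∧ Wrd B I u := by
  classical
  simp only [Wn, Finset.mem_filter, mem_aw]

/-- a word is unfinished or starts with a block -/
theorem Wn_cases (hB0 : B 0 = ∅) {n : ℕ} {u : List Bool} (hu : u ∈ Wn B I n) :
    u ∈ I n ∨ ∃ l ∈ Finset.Icc 1 n, ∃ b ∈ B l, ∃ u' ∈ Wn B I (n - l), b.length = l ∧ u = b ++ u' := by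
  obtain ⟨hl, hw⟩ := (mem_WnA B I).1 hu
  cases hw with
  | fin h => left; rwa [hl] at h
  | @app b u' hb hw' =>
    right
    have hne : 1 ≤ b.length := by
      rcases Nat.eq_zero_or_pos b.length with h0 | h0
      · rw [h0, hB0] at hb
        simp at hb
      · exact h0
    have hlen : b.length + u'.length = n := by rw [← hl, List.length_append]
    refine ⟨b.length, Finset.mem_Icc.2 ⟨hne, by omega⟩, b, hb, u', ?_, rfl, rfl⟩
    exact (mem_WnA B I).2 ⟨by omega, hw'⟩

theorem sum_par (l : ℕ) (f : Bool → ℕ) :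
    ∑ b ∈ B l, f (par b) = ∑ e : Bool, cB B l e * f e := by
  rw [← Finset.sum_fiberwise (B l) par (fun b => f (par b))]
  refine Finset.sum_congr rfl fun e _ => ?_
  unfold cB
  rw [← smul_eq_mul, ← Finset.sum_const]
  refine Finset.sum_congr rfl fun b hb => ?_
  rw [(Finset.mem_filter.1 hb).2]

/-- the sums with first block `b` -/
noncomputable def TB (n : ℕ) (b p : List Bool) (s t : ℤ) : Finset (List ℤ) :=
  (Wn B I (n - b.length) ×ˢ Wn B I (n - p.length)).image
    (fun q => addL (sg s (b ++ q.1)) (sg t (p ++ q.2)))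

theorem TB_comm (n : ℕ) (b p : List Bool) (s t : ℤ) : TB B I n b p s t = TB B I n p b t s := by
  ext z
  unfold TB
  simp only [Finset.mem_image, Finset.mem_product, Prod.exists]
  constructor
  · rintro ⟨x, y, ⟨hx, hy⟩, rfl⟩
    exact ⟨y, x, ⟨hy, hx⟩, addL_comm _ _⟩
  · rintro ⟨x, y, ⟨hx, hy⟩, rfl⟩
    exact ⟨y, x, ⟨hy, hx⟩, addL_comm _ _⟩

/-- the block is shorter than the known beginning -/
theorem TB_lt {n : ℕ} {b p : List Bool} {s t : ℤ} (hs : s = 1 ∨ s = -1) (ht : t = 1 ∨ t = -1)
    (hlt : b.length ≤ p.length) :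
    (TB B I n b p s t).card ≤
      nnS B I (n - b.length) (p.length - b.length) (xor (relS p s t) (par b)) := by
  set l := b.length with hl
  set p1 := p.take l with hp1
  set p2 := p.drop l with hp2
  have hp : p = p1 ++ p2 := (List.take_append_drop l p).symm
  have hlen1 : p1.length = l := by rw [hp1, List.length_take]; omega
  have hlen2 : p2.length = p.length - l := by rw [hp2, List.length_drop]
  have hsub : TB B I n b p s t ⊆
      (SP B I (n - l) p2 (s * sn (par b)) (t * sn (par p1))).image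
        (fun z => addL (sg s b) (sg t p1) ++ z) := by
    intro z hz
    unfold TB at hz
    obtain ⟨⟨x, y⟩, hxy, rfl⟩ := Finset.mem_image.1 hz
    obtain ⟨hx, hy⟩ := Finset.mem_product.1 hxy
    refine Finset.mem_image.2 ⟨addL (sg (s * sn (par b)) x) (sg (t * sn (par p1)) (p2 ++ y)), ?_, ?_⟩
    · unfold SP
      refine Finset.mem_image.2 ⟨(x, y), Finset.mem_product.2 ⟨hx, ?_⟩, rfl⟩
      have : n - l - p2.length = n - p.length := by rw [hlen2]; omega
      rw [this]
      exact hy
    · show addL (sg s b) (sg t p1) ++ addL (sg (s * sn (par b)) x) (sg (t * sn (par p1)) (p2 ++ y)) =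
        addL (sg s (b ++ x)) (sg t (p ++ y))
      rw [← addL_sg_split (by rw [hlen1]), ← List.append_assoc, ← hp]
  refine (Finset.card_le_card hsub).trans (Finset.card_image_le.trans ?_)
  refine (le_nnS B I (n - l) p2 (pm_mul hs _) (pm_mul ht _)).trans (le_of_eq ?_)
  have hr : relS p2 (s * sn (par b)) (t * sn (par p1)) = xor (relS p s t) (par b) := by
    unfold relS
    have h3 : t * sn (par p1) * sn (par p2) = t * sn (par p) := by
      rw [mul_assoc, ← sn_xor, ← par_append, ← hp]
    rw [h3]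
    exact relS_mul hs ht _ _
  rw [hr, hlen2]

theorem relS_comm {b p : List Bool} {s t : ℤ} (hs : s = 1 ∨ s = -1) (ht : t = 1 ∨ t = -1) :
    xor (relS b t s) (par p) = xor (relS p s t) (par b) := by
  unfold relS
  rcases hs with rfl | rfl <;> rcases ht with rfl | rfl <;> cases par b <;> cases par p <;> decide

/-- the bound for the sums with first block `b` -/
theorem TB_le {n : ℕ} {b p : List Bool} {s t : ℤ} (hs : s = 1 ∨ s = -1) (ht : t = 1 ∨ t = -1) :
    (TB B I n b p s t).card ≤
      nnS B I (n - min b.length p.length) (ds b.length p.length) (xor (relS p s t) (par b)) := by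
  rcases le_total b.length p.length with h | h
  · have h1 := TB_lt B I (n := n) hs ht h
    rw [min_eq_left h]
    have : ds b.length p.length = p.length - b.length := by unfold ds; omega
    rw [this]
    exact h1
  · have h1 := TB_lt B I (n := n) (b := p) (p := b) ht hs h
    rw [← TB_comm] at h1
    rw [min_eq_right h]
    have : ds b.length p.length = b.length - p.length := by unfold ds; omega
    rw [this, ← relS_comm hs ht]
    exact h1

theorem SP_sub (hB0 : B 0 = ∅) (n : ℕ) (p : List Bool) (s t : ℤ) :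
    SP B I n p s t ⊆ ((Finset.Icc 1 n).biUnion fun l => (B l).biUnion fun b => TB B I n b p s t) ∪
      (I n ×ˢ Wn B I (n - p.length)).image (fun q => addL (sg s q.1) (sg t (p ++ q.2))) := by
  intro z hz
  unfold SP at hz
  obtain ⟨⟨x, y⟩, hxy, rfl⟩ := Finset.mem_image.1 hz
  obtain ⟨hx, hy⟩ := Finset.mem_product.1 hxy
  rcases Wn_cases B I hB0 hx with h | ⟨l, hl, b, hb, u', hu', hbl, hxe⟩
  · exact Finset.mem_union_right _ (Finset.mem_image.2 ⟨(x, y), Finset.mem_product.2 ⟨h, hy⟩, rfl⟩)
  · refine Finset.mem_union_left _ (Finset.mem_biUnion.2 ⟨l, hl, Finset.mem_biUnion.2 ⟨b, hb, ?_⟩⟩)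
    unfold TB
    refine Finset.mem_image.2 ⟨(u', y), Finset.mem_product.2 ⟨?_, hy⟩, ?_⟩
    · rw [hbl]; exact hu'
    · have hxe' : x = b ++ u' := hxe
      show addL (sg s (b ++ u')) (sg t (p ++ y)) = addL (sg s x) (sg t (p ++ y))
      rw [hxe']

/-- the general recurrence -/
theorem rec_gen (hB0 : B 0 = ∅) (hB : ∀ l, ∀ b ∈ B l, b.length = l) (n k : ℕ) (r : Bool) :
    nnS B I n k r ≤
      (∑ l ∈ Finset.Icc 1 n, ∑ e : Bool, cB B l e * nnS B I (n - min l k) (ds l k) (xor r e)) +
        (I n).card * (Wn B I (n - k)).card := by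
  refine nnS_le B I ?_
  intro p s t hp hs ht hr
  refine (Finset.card_le_card (SP_sub B I hB0 n p s t)).trans ((Finset.card_union_le _ _).trans ?_)
  refine Nat.add_le_add ?_ ?_
  · refine Finset.card_biUnion_le.trans (Finset.sum_le_sum fun l _ => ?_)
    rw [← sum_par B l (fun e => nnS B I (n - min l k) (ds l k) (xor r e))]
    refine Finset.card_biUnion_le.trans (Finset.sum_le_sum fun b hb => ?_)
    have h1 := TB_le B I (n := n) (b := b) (p := p) hs ht
    rw [hB l b hb, hp, hr] at h1
    exact h1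
  · refine Finset.card_image_le.trans ?_
    rw [Finset.card_product, hp]

theorem rec_r4 (hB0 : B 0 = ∅) (n : ℕ) :
    (Wn B I n).card ≤
      (∑ l ∈ Finset.Icc 1 n, ∑ e : Bool, cB B l e * (Wn B I (n - l)).card) + (I n).card := by
  have hsub : Wn B I n ⊆ ((Finset.Icc 1 n).biUnion fun l => (B l).biUnion fun b =>
      (Wn B I (n - l)).image (fun u => b ++ u)) ∪ I n := by
    intro x hx
    rcases Wn_cases B I hB0 hx with h | ⟨l, hl, b, hb, u', hu', hbl, hxe⟩
    · exact Finset.mem_union_right _ h
    · exact Finset.mem_union_left _ (Finset.mem_biUnion.2 ⟨l, hl, Finset.mem_biUnion.2 ⟨b, hb,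
        Finset.mem_image.2 ⟨u', hu', hxe.symm⟩⟩⟩)
  refine (Finset.card_le_card hsub).trans ((Finset.card_union_le _ _).trans ?_)
  refine Nat.add_le_add_right ?_ _
  refine Finset.card_biUnion_le.trans (Finset.sum_le_sum fun l _ => ?_)
  rw [← sum_par B l (fun _ => (Wn B I (n - l)).card)]
  exact Finset.card_biUnion_le.trans (Finset.sum_le_sum fun b _ => Finset.card_image_le)

/-- equal signs and no known beginning -/
theorem rec_r3 (hB0 : B 0 = ∅) (hB : ∀ l, ∀ b ∈ B l, b.length = l) (n : ℕ) :
    2 * nnS B I n 0 false ≤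
      (∑ l ∈ Finset.Icc 1 n, ∑ e : Bool, cB B l e *
        (∑ l' ∈ Finset.Icc 1 n, ∑ e' : Bool,
          cB B l' e' * nnS B I (n - min l' l) (ds l' l) (xor e e'))) +
      (∑ l ∈ Finset.Icc 1 n, ∑ e : Bool, cB B l e * nnS B I (n - l) 0 false) +
      2 * ((I n).card * (Wn B I n).card) := by
  classical
  have key : ∀ s : ℤ, (s = 1 ∨ s = -1) → 2 * (SP B I n [] s s).card ≤
      (∑ l ∈ Finset.Icc 1 n, ∑ e : Bool, cB B l e *
        (∑ l' ∈ Finset.Icc 1 n, ∑ e' : Bool,
          cB B l' e' * nnS B I (n - min l' l) (ds l' l) (xor e e'))) +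
      (∑ l ∈ Finset.Icc 1 n, ∑ e : Bool, cB B l e * nnS B I (n - l) 0 false) +
      2 * ((I n).card * (Wn B I n).card) := by
    intro s hs
    set Bs : Finset (Σ _ : ℕ, List Bool) := (Finset.Icc 1 n).sigma (fun l => B l) with hBs
    set S : (Σ _ : ℕ, List Bool) → (Σ _ : ℕ, List Bool) → Finset (List ℤ) :=
      fun x y => TB B I n x.2 y.2 s s with hS
    have hsym : ∀ x y, S x y = S y x := fun x y => TB_comm B I n x.2 y.2 s s
    set X : Finset (List ℤ) := (I n ×ˢ Wn B I n).image (fun q => addL (sg s q.1) (sg s q.2)) with hX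
    have hsub : SP B I n [] s s ⊆ (Bs.biUnion fun x => Bs.biUnion (S x)) ∪ X := by
      intro z hz
      unfold SP at hz
      obtain ⟨⟨x, y⟩, hxy, rfl⟩ := Finset.mem_image.1 hz
      obtain ⟨hx, hy⟩ := Finset.mem_product.1 hxy
      have hy' : y ∈ Wn B I n := by simpa using hy
      have hx' : x ∈ Wn B I n := hx
      show addL (sg s x) (sg s ([] ++ y)) ∈ _
      rw [List.nil_append]
      rcases Wn_cases B I hB0 hx' with h | ⟨l, hl, b, hb, u', hu', hbl, hxe⟩
      · exact Finset.mem_union_right _ (Finset.mem_image.2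
          ⟨(x, y), Finset.mem_product.2 ⟨h, hy'⟩, rfl⟩)
      · rcases Wn_cases B I hB0 hy' with h | ⟨l', hl', b', hb', v', hv', hbl', hye⟩
        · exact Finset.mem_union_right _ (Finset.mem_image.2
            ⟨(y, x), Finset.mem_product.2 ⟨h, hx'⟩, addL_comm _ _⟩)
        · refine Finset.mem_union_left _ (Finset.mem_biUnion.2 ⟨⟨l, b⟩,
            Finset.mem_sigma.2 ⟨hl, hb⟩, Finset.mem_biUnion.2 ⟨⟨l', b'⟩,
            Finset.mem_sigma.2 ⟨hl', hb'⟩, ?_⟩⟩)
          show addL (sg s x) (sg s y) ∈ TB B I n b b' s s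
          unfold TB
          refine Finset.mem_image.2 ⟨(u', v'), Finset.mem_product.2 ⟨?_, ?_⟩, ?_⟩
          · rw [hbl]; exact hu'
          · rw [hbl']; exact hv'
          · show addL (sg s (b ++ u')) (sg s (b' ++ v')) = addL (sg s x) (sg s y)
            rw [hxe, hye]
    have hcard : (SP B I n [] s s).card ≤
        (Bs.biUnion fun x => Bs.biUnion (S x)).card + X.card :=
      (Finset.card_le_card hsub).trans (Finset.card_union_le _ _)
    have hXc : X.card ≤ (I n).card * (Wn B I n).card := by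
      refine Finset.card_image_le.trans ?_
      rw [Finset.card_product]
    have hsu := sym_union Bs S hsym
    have h1 : (∑ x ∈ Bs, ∑ y ∈ Bs, (S x y).card) ≤
        ∑ l ∈ Finset.Icc 1 n, ∑ e : Bool, cB B l e *
        (∑ l' ∈ Finset.Icc 1 n, ∑ e' : Bool,
          cB B l' e' * nnS B I (n - min l' l) (ds l' l) (xor e e')) := by
      rw [hBs, Finset.sum_sigma]
      refine Finset.sum_le_sum fun l _ => ?_
      rw [← sum_par B l (fun e => ∑ l' ∈ Finset.Icc 1 n, ∑ e' : Bool,
          cB B l' e' * nnS B I (n - min l' l) (ds l' l) (xor e e'))]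
      refine Finset.sum_le_sum fun b hb => ?_
      rw [Finset.sum_sigma]
      refine Finset.sum_le_sum fun l' _ => ?_
      rw [← sum_par B l' (fun e' => nnS B I (n - min l' l) (ds l' l) (xor (par b) e'))]
      refine Finset.sum_le_sum fun b' hb' => ?_
      show (TB B I n b b' s s).card ≤ _
      rw [TB_comm]
      have h2 := TB_le B I (n := n) (b := b') (p := b) hs hs
      rw [hB l b hb, hB l' b' hb'] at h2
      have h3 : relS b s s = par b := by
        unfold relS
        rcases hs with rfl | rfl <;> cases par b <;> decide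
      rw [h3] at h2
      exact h2
    have h2 : (∑ x ∈ Bs, (S x x).card) ≤
        ∑ l ∈ Finset.Icc 1 n, ∑ e : Bool, cB B l e * nnS B I (n - l) 0 false := by
      rw [hBs, Finset.sum_sigma]
      refine Finset.sum_le_sum fun l _ => ?_
      rw [← sum_par B l (fun _ => nnS B I (n - l) 0 false)]
      refine Finset.sum_le_sum fun b hb => ?_
      show (TB B I n b b s s).card ≤ _
      have h3 := TB_lt B I (n := n) (b := b) (p := b) hs hs le_rfl
      have h4 : xor (relS b s s) (par b) = false := by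
        unfold relS
        rcases hs with rfl | rfl <;> cases par b <;> decide
      rw [h4, Nat.sub_self, hB l b hb] at h3
      exact h3
    omega
  have hle : nnS B I n 0 false ≤ ((
      (∑ l ∈ Finset.Icc 1 n, ∑ e : Bool, cB B l e *
        (∑ l' ∈ Finset.Icc 1 n, ∑ e' : Bool,
          cB B l' e' * nnS B I (n - min l' l) (ds l' l) (xor e e'))) +
      (∑ l ∈ Finset.Icc 1 n, ∑ e : Bool, cB B l e * nnS B I (n - l) 0 false) +
      2 * ((I n).card * (Wn B I n).card)) / 2) := by
    refine nnS_le B I ?_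
    intro p s t hp hs ht hr
    have hp' : p = [] := List.length_eq_zero_iff.1 hp
    subst hp'
    have hst : s = t := by
      unfold relS at hr
      have : ¬ (s ≠ t * sn (par [])) := of_decide_eq_false hr
      rw [not_not] at this
      simpa [par, sn] using this
    subst hst
    have := key s hs
    omega
  omega

end PairA

/-- there are numbers `N` that bound the sums and satisfy the recurrences -/
theorem exists_rec (B I : ℕ → Finset (List Bool)) (hB0 : B 0 = ∅)
    (hB : ∀ l, ∀ b ∈ B l, b.length = l) (hI : ∀ l, ∀ b ∈ I l, b.length = l) :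
    ∃ N : ℕ → ℕ → Bool → ℝ,
      Rec (fun l e => (cB B l e : ℝ)) N (fun n => ((Wn B I n).card : ℝ)) (fun n => ((I n).card : ℝ)) ∧
      ∀ n p s t, p.length ≤ n → (s = 1 ∨ s = -1) → (t = 1 ∨ t = -1) →
        ((SP B I n p s t).card : ℝ) ≤ N n p.length (decide (s ≠ t * sn (par p))) := by
  refine ⟨fun n k r => (nnS B I n k r : ℝ), ?_, ?_⟩
  · refine ⟨fun _ _ _ => Nat.cast_nonneg _, fun _ => Nat.cast_nonneg _, fun _ => Nat.cast_nonneg _,
      fun _ _ => Nat.cast_nonneg _, ?_, ?_, ?_, ?_⟩
    · intro n k r _ _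
      have h := rec_gen B I hB0 hB n k r
      exact_mod_cast h
    · intro n
      have h := rec_gen B I hB0 hB n 0 true
      have h2 : ∀ l : ℕ, ds l 0 = l := fun l => by unfold ds; omega
      simp only [Nat.min_zero, Nat.sub_zero, h2] at h
      exact_mod_cast h
    · intro n
      have h := rec_r3 B I hB0 hB n
      exact_mod_cast h
    · intro n
      have h := rec_r4 B I hB0 n
      exact_mod_cast h
  · intro n p s t _ hs ht
    have h := le_nnS B I n p hs ht
    unfold relS at h
    show ((SP B I n p s t).card : ℝ) ≤ (nnS B I n p.length (decide (s ≠ t * sn (par p))) : ℝ)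
    exact Nat.cast_le.2 h

end Pool.Agent.Lib.GJ
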