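import Pool.Agent.Lib.GJ.Defs

/-!
# GJ.PairD: definitions for the counting of sums of two words of a renewal language
-/

namespace Pool.Agent.Lib.GJ

/-- the words that consist of blocks of `B` followed by an unfinished word of `I` -/
inductive Wrd (B I : ℕ → Finset (List Bool)) : List Bool → Prop
  | fin {u : List Bool} : u ∈ I u.length → Wrd B I u
  | app {b u : List Bool} : b ∈ B b.length → Wrd B I u → Wrd B I (b ++ u)

open Classical in
/-- the words of length `n` -/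
noncomputable def Wn (B I : ℕ → Finset (List Bool)) (n : ℕ) : Finset (List Bool) :=
  (aw n).filter (Wrd B I)

/-- sums of a word and of a word with known beginning `p`, with first signs `s` and `t` -/
noncomputable def SP (B I : ℕ → Finset (List Bool)) (n : ℕ) (p : List Bool) (s t : ℤ) :
    Finset (List ℤ) :=
  (Wn B I n ×ˢ Wn B I (n - p.length)).image (fun q => addL (sg s q.1) (sg t (p ++ q.2)))

/-- the number of blocks of length `l` and parity `e` -/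
def cB (B : ℕ → Finset (List Bool)) (l : ℕ) (e : Bool) : ℕ :=
  ((B l).filter (fun b => par b = e)).card

/-- the distance of two naturals -/
def ds (a b : ℕ) : ℕ := (a - b) + (b - a)

/-- the recurrences for the numbers `N n k r` of sums (`k`: length of the known beginning, `r`: whether the
signs of the two words at their next free places are opposite), `G n` of words and `U n` of unfinished words -/
structure Rec (c : ℕ → Bool → ℝ) (N : ℕ → ℕ → Bool → ℝ) (G U : ℕ → ℝ) : Prop where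
  nnN : ∀ n k r, 0 ≤ N n k r
  nnG : ∀ n, 0 ≤ G n
  nnU : ∀ n, 0 ≤ U n
  nnc : ∀ l e, 0 ≤ c l e
  r1 : ∀ n k r, 1 ≤ k → k ≤ n → N n k r ≤
    (∑ l ∈ Finset.Icc 1 n, ∑ e : Bool, c l e * N (n - min l k) (ds l k) (xor r e)) + U n * G (n - k)
  r2 : ∀ n, N n 0 true ≤ (∑ l ∈ Finset.Icc 1 n, ∑ e : Bool, c l e * N n l (xor true e)) + U n * G n
  r3 : ∀ n, 2 * N n 0 false ≤
    (∑ l ∈ Finset.Icc 1 n, ∑ e : Bool, c l e *
      (∑ l' ∈ Finset.Icc 1 n, ∑ e' : Bool, c l' e' * N (n - min l' l) (ds l' l) (xor e e'))) +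
    (∑ l ∈ Finset.Icc 1 n, ∑ e : Bool, c l e * N (n - l) 0 false) + 2 * (U n * G n)
  r4 : ∀ n, G n ≤ (∑ l ∈ Finset.Icc 1 n, ∑ e : Bool, c l e * G (n - l)) + U n

/-- `w ^ (-min l k) * X (|k - l|)` -/
noncomputable def ff (w : ℝ) (X : ℕ → Bool → ℝ) (k l : ℕ) (r : Bool) : ℝ :=
  w⁻¹ ^ (min l k) * X (ds l k) r

/-- the numerical hypotheses -/
structure NumHyp (c : ℕ → Bool → ℝ) (L1 : ℕ) (w θ η ε τ : ℝ) (X : ℕ → Bool → ℝ) (M : ℕ → ℝ)
    (CJ CX δ : ℝ) : Prop where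
  e0 : 0 < ε
  e1 : ε < 1
  w1 : 1 < w
  h0 : 0 < η
  ht : η ≤ θ
  t1 : θ < 1
  wh : 1 ≤ w * θ * η
  d0 : 0 < δ
  xl : ∀ k r, δ * θ ^ k ≤ X k r
  xu : ∀ k r, X k r ≤ CX * θ ^ k
  xj : ∀ k r, L1 < k → X k r ≤ CJ * θ ^ k
  m0 : ∀ k, 0 ≤ M k
  hM : ∀ k l r, 1 ≤ k → L1 < l → ff w X k l r ≤ M k * θ ^ l
  h1 : ∀ k r, 1 ≤ k →
    (∑ l ∈ Finset.Icc 1 L1, ∑ e : Bool, c l e * ff w X k l (xor r e)) + τ * M k ≤ (1 - ε) * X k r
  h2 : (∑ l ∈ Finset.Icc 1 L1, ∑ e : Bool, c l e * X l (xor true e)) + τ * CJ ≤ (1 - ε) * X 0 true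
  h3 : ((∑ l ∈ Finset.Icc 1 L1, ∑ e : Bool, c l e * X l e) + τ * CJ +
    ((∑ l ∈ Finset.Icc 1 L1, ∑ e : Bool, c l e * w⁻¹ ^ l) + τ) * X 0 false) / 2 ≤
      (1 - ε) * X 0 false
  h4 : (∑ l ∈ Finset.Icc 1 L1, ∑ e : Bool, c l e * η ^ l) + τ ≤ 1 - ε

end Pool.Agent.Lib.GJ
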