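import Pool.Agent.Lib.GJ.PairD

/-!
# Module PairU: list lemmas for the sums of two words, and the symmetric union bound

All statements are easy inductions.  `sym_union`: induction on `s` (`Finset.induction_on`): with a new element `a` the union is contained in
the old union, the `S a b` (`b ∈ s`) and `S a a` (use `hs`).
-/

namespace Pool.Agent.Lib.GJ

theorem sg_length (s : ℤ) (u : List Bool) : (sg s u).length = u.length := by
  induction u generalizing s with
  | nil => rfl
  | cons b t ih => cases b <;> simp [sg, ih]

theorem sg_append (s : ℤ) (u v : List Bool) : sg s (u ++ v) = sg s u ++ sg (s * sn (par u)) v := by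
  induction u generalizing s with
  | nil => simp [sg, par, sn]
  | cons b t ih =>
    cases b
    · simp [sg, par, ih]
    · rcases h : par t <;> simp [sg, par, ih, sn, h]

theorem par_append (u v : List Bool) : par (u ++ v) = xor (par u) (par v) := by
  induction u with
  | nil => simp [par]
  | cons b t ih => simp [par, ih]

theorem sn_xor (a b : Bool) : sn (xor a b) = sn a * sn b := by
  cases a <;> cases b <;> simp [sn]

theorem addL_comm (a b : List ℤ) : addL a b = addL b a := by
  unfold addL
  exact List.zipWith_comm_of_comm (fun x y => add_comm x y)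

theorem addL_append {a b c d : List ℤ} (h : a.length = b.length) :
    addL (a ++ c) (b ++ d) = addL a b ++ addL c d := by
  unfold addL
  exact List.zipWith_append h

theorem addL_length (a b : List ℤ) : (addL a b).length = min a.length b.length := by
  simp [addL]

/-- cutting a sum of two words after `m` places -/
theorem addL_sg_split {s t : ℤ} {a a' b b' : List Bool} (h : a.length = b.length) :
    addL (sg s (a ++ a')) (sg t (b ++ b')) =
      addL (sg s a) (sg t b) ++ addL (sg (s * sn (par a)) a') (sg (t * sn (par b)) b') := by
  rw [sg_append, sg_append]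
  exact addL_append (by rw [sg_length, sg_length, h])

theorem sym_union {ι α : Type*} [DecidableEq ι] [DecidableEq α] (s : Finset ι)
    (S : ι → ι → Finset α) (hs : ∀ a b, S a b = S b a) :
    2 * (s.biUnion fun a => s.biUnion (S a)).card ≤
      (∑ a ∈ s, ∑ b ∈ s, (S a b).card) + ∑ a ∈ s, (S a a).card := by
  induction s using Finset.induction_on with
  | empty => simp
  | insert a s ha ih =>
    have hsub : ((insert a s).biUnion fun x => (insert a s).biUnion (S x)) ⊆
        (s.biUnion fun x => s.biUnion (S x)) ∪ (s.biUnion (S a) ∪ S a a) := by
      intro z hz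
      simp only [Finset.mem_biUnion, Finset.mem_insert] at hz
      obtain ⟨x, hx, y, hy, hz⟩ := hz
      simp only [Finset.mem_union, Finset.mem_biUnion]
      rcases hx with rfl | hx
      · rcases hy with rfl | hy
        · exact Or.inr (Or.inr hz)
        · exact Or.inr (Or.inl ⟨y, hy, hz⟩)
      · rcases hy with rfl | hy
        · exact Or.inr (Or.inl ⟨x, hx, by rw [hs]; exact hz⟩)
        · exact Or.inl ⟨x, hx, y, hy, hz⟩
    have h1 : ((insert a s).biUnion fun x => (insert a s).biUnion (S x)).card ≤
        (s.biUnion fun x => s.biUnion (S x)).card + ((∑ b ∈ s, (S a b).card) + (S a a).card) := by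
      refine (Finset.card_le_card hsub).trans ((Finset.card_union_le _ _).trans ?_)
      refine Nat.add_le_add_left ((Finset.card_union_le _ _).trans ?_) _
      exact Nat.add_le_add_right Finset.card_biUnion_le _
    have h2 : (∑ x ∈ insert a s, ∑ y ∈ insert a s, (S x y).card) =
        (S a a).card + (∑ b ∈ s, (S a b).card) +
          ((∑ b ∈ s, (S a b).card) + ∑ x ∈ s, ∑ y ∈ s, (S x y).card) := by
      rw [Finset.sum_insert ha, Finset.sum_insert ha]
      congr 1
      rw [← Finset.sum_add_distrib]
      refine Finset.sum_congr rfl fun x _ => ?_
      rw [Finset.sum_insert ha, hs x a]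
    have h3 : (∑ x ∈ insert a s, (S x x).card) = (S a a).card + ∑ x ∈ s, (S x x).card :=
      Finset.sum_insert ha
    rw [h2, h3]
    omega

end Pool.Agent.Lib.GJ
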