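import Pool.Agent.Lib.GJ.Run
import Pool.Agent.Lib.GJ.PairD

/-!
# Module Parse: the words of a legal sequence are made of blocks

PROOF.  `mem_Wn`: strong induction on `n`.  Base `a = q - 1`, `m = true`, `n0 = a + 4 = q + 3`, `lo = q + 1`.  If there is a cut `q'` with `q + 1 ≤ q'`, `q' + 3 ≤ q + 3 + n`, take the first one (well-founded on integers
bounded below: `Int.exists_least_of_bdd` or induction); `wd x (q + 4) n = wd x (q + 4) (q' - q) ++ wd x (q' + 4) (n - (q' - q))`, the first is in `Bl K (q' - q)` by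
`closed_sound`, the second in the language by induction (`Cut.nc`; `x q'`, `x (q' + 2)` are true).  Otherwise `run_sound` gives `Il`.
`mem_FW`: let `u = wd x p n`.  If there is no digit among the `n` positions then `u` is a word of zeros.  Otherwise let `a` be the first digit, `u = 0 ^ i ++ ...`, `i = a - p`.  If `a` is the last position then
`u = 0 ^ i 1`.  Otherwise `u = 0 ^ i 1 0 ++ wd x (a + 2) (n - i - 2)`; base `a`, `m = false`, `n0 = a + 1`, `lo = a + 1`.  If there is a cut `q'` with `a + 1 ≤ q'`, `q' + 3 ≤ p + n - 1`, take the first; the head is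
`0 ^ i 1 0 ++ wd x (a + 2) (q' + 2 - a)` and the rest `wd x (q' + 4) _` is in the language by `mem_Wn`.  Otherwise `run_sound` gives `Jl`.
-/

namespace Pool.Agent.Lib.GJ

open Classical in
/-- the heads of length `n` -/
noncomputable def Hl (K n : ℕ) : Finset (List Bool) :=
  (aw n).filter (fun u => ∃ i w, u = List.replicate i false ++ ([true, false] ++ w) ∧
    closed K SU w = true)

open Classical in
/-- the unfinished heads of length `n` -/
noncomputable def Jl (K n : ℕ) : Finset (List Bool) :=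
  (aw n).filter (fun u => u = List.replicate n false ∨ (∃ i, u = List.replicate i false ++ [true]) ∨
    ∃ i w, u = List.replicate i false ++ ([true, false] ++ w) ∧ (run K SU w).isSome = true)

namespace ParseAux

theorem wd_succ (x : ℤ → Bool) (a : ℤ) (n : ℕ) : wd x a (n + 1) = x a :: wd x (a + 1) n := by
  have h := wd_add x a 1 n
  rw [Nat.add_comm 1 n] at h
  rw [h]
  simp [wd]

theorem wd_false {x : ℤ → Bool} {a : ℤ} {n : ℕ} (h : ∀ i : ℕ, i < n → x (a + i) = false) :
    wd x a n = List.replicate n false := by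
  rw [List.eq_replicate_iff]
  refine ⟨wd_length x a n, ?_⟩
  intro b hb
  unfold wd at hb
  obtain ⟨i, hi, rfl⟩ := List.mem_map.1 hb
  exact h i (List.mem_range.1 hi)

/-- the first cut -/
theorem first_cut {K : ℕ} {x : ℤ → Bool} {a l u : ℤ}
    (h : ∃ q, l ≤ q ∧ q + 3 ≤ u ∧ Cut K x a q) :
    ∃ q, l ≤ q ∧ q + 3 ≤ u ∧ Cut K x a q ∧ ∀ q', l ≤ q' → q' < q → ¬ Cut K x a q' := by
  obtain ⟨q, hq, hmin⟩ := Int.exists_least_of_bdd
    (P := fun q => l ≤ q ∧ q + 3 ≤ u ∧ Cut K x a q) ⟨l, fun z hz => hz.1⟩ h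
  refine ⟨q, hq.1, hq.2.1, hq.2.2, ?_⟩
  intro q' h1 h2 h3
  have := hmin q' ⟨h1, by linarith [hq.2.1], h3⟩
  omega

theorem mem_Wn_iff {B I : ℕ → Finset (List Bool)} {n : ℕ} {u : List Bool} :
    u ∈ Wn B I n ↔ u.length = n ∧ Wrd B I u := by
  classical
  unfold Wn
  rw [Finset.mem_filter, mem_aw]

end ParseAux

open ParseAux

theorem mem_Wn {K : ℕ} {x : ℤ → Bool} (hK : 6 ≤ K) (hx : Leg K x) (n : ℕ) (q : ℤ)
    (h0 : x q = true) (h2 : x (q + 2) = true) (hN : NC K x (q - 1)) :
    wd x (q + 4) n ∈ Wn (Bl K) (Il K) n := by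
  induction n using Nat.strong_induction_on generalizing q with
  | _ n ih =>
    have hI : Inv K x (q - 1) true (q - 1 + 4) S0 := by
      refine inv_S0 hK hx ?_ ?_
      · rw [← h0]; congr 1; ring
      · rw [← h2]; congr 1; ring
    have hlo : lo (q - 1) true = q + 1 := by unfold lo; simp; ring
    rw [mem_Wn_iff]
    refine ⟨wd_length _ _ _, ?_⟩
    by_cases hc : ∃ q', q + 1 ≤ q' ∧ q' + 3 ≤ q + 3 + n ∧ Cut K x (q - 1) q'
    · obtain ⟨q', h3, h4, h5, h6⟩ := first_cut hc
      have h7 := closed_sound hK hx (fun _ => hN) hI (by rw [hlo]; exact h3) (by omega) h5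
        (by rw [hlo]; exact h6)
      obtain ⟨l, hl⟩ : ∃ l : ℕ, (l : ℤ) = q' - q := ⟨(q' - q).toNat, by omega⟩
      have e1 : (q' + 3 - (q - 1 + 4)).toNat = l := by omega
      have e2 : q - 1 + 4 + 1 = q + 4 := by ring
      rw [e1, e2] at h7
      obtain ⟨r, hr⟩ : ∃ r : ℕ, n = l + r := ⟨n - l, by omega⟩
      have h8 := ih r (by omega) q' h5.2.1 h5.2.2.1 (Cut.nc (by omega) hx h5)
      rw [mem_Wn_iff] at h8
      rw [hr, wd_add, show q + 4 + (l : ℤ) = q' + 4 by omega]
      refine Wrd.app ?_ h8.2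
      rw [wd_length]
      unfold Bl
      rw [Finset.mem_filter, mem_aw]
      exact ⟨wd_length _ _ _, h7⟩
    · obtain ⟨st', h3, -⟩ := run_sound hK hx (fun _ => hN) hI n (by
        rw [hlo]
        intro q' h4 h5 h6
        exact hc ⟨q', h4, by linarith, h6⟩)
      rw [show q - 1 + 4 + 1 = q + 4 by ring] at h3
      refine Wrd.fin ?_
      rw [wd_length]
      unfold Il
      rw [Finset.mem_filter, mem_aw]
      exact ⟨wd_length _ _ _, by rw [h3]; rfl⟩

/-- words of legal sequences: a head and a word of the language, or an unfinished head -/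
theorem mem_heads {K : ℕ} {x : ℤ → Bool} (hK : 6 ≤ K) (hx : Leg K x) (p : ℤ) (n : ℕ) :
    wd x p n ∈ Jl K n ∨ ∃ m, m ≤ n ∧ ∃ u ∈ Hl K m, ∃ v ∈ Wn (Bl K) (Il K) (n - m),
      wd x p n = u ++ v := by
  classical
  by_cases hd : ∃ i : ℕ, i < n ∧ x (p + i) = true
  · obtain ⟨i, ⟨hi, hxi⟩, hmin⟩ : ∃ i : ℕ, (i < n ∧ x (p + i) = true) ∧
        ∀ j < i, ¬ (j < n ∧ x (p + j) = true) :=
      ⟨Nat.find hd, Nat.find_spec hd, fun j hj => Nat.find_min hd hj⟩
    have hz : wd x p i = List.replicate i false := by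
      refine wd_false fun j hj => ?_
      have := hmin j hj
      by_contra h
      exact this ⟨by omega, by simpa using h⟩
    obtain ⟨r, hr⟩ : ∃ r : ℕ, n = i + r := ⟨n - i, by omega⟩
    have hw : wd x p n = List.replicate i false ++ wd x (p + i) r := by
      rw [hr, wd_add, hz]
    obtain ⟨r1, rfl⟩ : ∃ r1 : ℕ, r = r1 + 1 := ⟨r - 1, by omega⟩
    rw [wd_succ, hxi] at hw
    by_cases hr1 : r1 = 0
    · left
      subst hr1
      unfold Jl
      rw [Finset.mem_filter, mem_aw]
      refine ⟨wd_length _ _ _, Or.inr (Or.inl ⟨i, ?_⟩)⟩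
      rw [hw]
      simp [wd]
    · obtain ⟨t, rfl⟩ : ∃ t : ℕ, r1 = t + 1 := ⟨r1 - 1, by omega⟩
      have hx1 : x (p + i + 1) = false := by
        by_contra h
        exact hx.1 (p + i) ⟨hxi, by simpa using h⟩
      rw [wd_succ, hx1, show p + (i : ℤ) + 1 + 1 = p + i + 2 by ring] at hw
      have hw' : wd x p n = List.replicate i false ++ ([true, false] ++ wd x (p + i + 2) t) := by
        rw [hw]; rfl
      have hI : Inv K x (p + i) false (p + i + 1) SU := inv_SU hK hx hxi
      have hlo : lo (p + i) false = p + i + 1 := by unfold lo; simp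
      by_cases hc : ∃ q', p + i + 1 ≤ q' ∧ q' + 3 ≤ p + i + 1 + t ∧ Cut K x (p + i) q'
      · right
        obtain ⟨q', h3, h4, h5, h6⟩ := first_cut hc
        have h7 := closed_sound hK hx (m := false) (by simp) hI (by rw [hlo]; exact h3) (by omega)
          h5 (by rw [hlo]; exact h6)
        obtain ⟨l, hl⟩ : ∃ l : ℕ, (l : ℤ) = q' + 2 - (p + i) :=
          ⟨(q' + 2 - (p + i)).toNat, by omega⟩
        have e1 : (q' + 3 - (p + i + 1)).toNat = l := by omega
        rw [e1, show p + (i : ℤ) + 1 + 1 = p + i + 2 by ring] at h7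
        obtain ⟨s, hs⟩ : ∃ s : ℕ, t = l + s := ⟨t - l, by omega⟩
        have h8 := mem_Wn hK hx s q' h5.2.1 h5.2.2.1 (Cut.nc (by omega) hx h5)
        refine ⟨i + 2 + l, by omega, List.replicate i false ++
          ([true, false] ++ wd x (p + i + 2) l), ?_, wd x (q' + 4) s, ?_, ?_⟩
        · unfold Hl
          rw [Finset.mem_filter, mem_aw]
          refine ⟨?_, i, _, rfl, h7⟩
          simp only [List.length_append, List.length_replicate, wd_length, List.length_cons,
            List.length_nil]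
          omega
        · rw [show n - (i + 2 + l) = s by omega]
          exact h8
        · rw [hw', hs, wd_add, show p + (i : ℤ) + 2 + l = q' + 4 by omega]
          simp only [List.append_assoc]
      · left
        obtain ⟨st', h3, -⟩ := run_sound hK hx (m := false) (by simp) hI t (by
          rw [hlo]
          intro q' h4 h5 h6
          exact hc ⟨q', h4, by linarith, h6⟩)
        rw [show p + (i : ℤ) + 1 + 1 = p + i + 2 by ring] at h3
        unfold Jl
        rw [Finset.mem_filter, mem_aw]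
        refine ⟨wd_length _ _ _, Or.inr (Or.inr ⟨i, _, hw', by rw [h3]; rfl⟩)⟩
  · left
    unfold Jl
    rw [Finset.mem_filter, mem_aw]
    refine ⟨wd_length _ _ _, Or.inl (wd_false fun i hi => ?_)⟩
    by_contra h
    exact hd ⟨i, hi, by simpa using h⟩

end Pool.Agent.Lib.GJ
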