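import Pool.Agent.Lib.GJ.Auto

/-!
# Module Rad: radii and cuts

PROOFS.  `K` satisfies `Rz K x a d K` (as `3 ≤ K`), so the set in `rad` is nonempty and `rad ≤ K`; `Nat.sInf_mem`, `Nat.sInf_le`.
`Cut.nc`: let `d` be a digit, `q - 1 + 2 ≤ d`.  `d ≠ q + 1` (no adjacent digits, `x q = true`), so `d ≥ q + 2` and `q - 1 ≤ d - r`, `r = rad K x a d`.
For `k < r` (`1 ≤ k`) `Rz K x a d k` is false, so the last two alternatives fail, and `d - k > d - r ≥ q - 1`, so `Rz K x (q-1) d k` is false.  `Rz K x a d r` holds, not by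
`d - r < a` (as `d - r ≥ q - 1 ≥ a`), so `Rz K x (q-1) d r` holds.  Hence `rad K x (q-1) d = r`.
-/

namespace Pool.Agent.Lib.GJ

/-- the comparison of the two sides of the digit `d` is finished at radius `k`, where positions before the base
`a` are not used -/
def Rz (K : ℕ) (x : ℤ → Bool) (a d : ℤ) (k : ℕ) : Prop :=
  d - k < a ∨ (k = 2 ∧ x (d - 2) = x (d + 2)) ∨ (3 ≤ k ∧ (x (d - k) ≠ x (d + k) ∨ k = K))

/-- the radius of the digit `d` -/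
noncomputable def rad (K : ℕ) (x : ℤ → Bool) (a d : ℤ) : ℕ := sInf {k : ℕ | 1 ≤ k ∧ Rz K x a d k}

/-- no comparison crosses the base -/
def NC (K : ℕ) (x : ℤ → Bool) (a : ℤ) : Prop :=
  ∀ d, a + 2 ≤ d → x d = true → a ≤ d - (rad K x a d : ℤ)

/-- `q` is a cut -/
def Cut (K : ℕ) (x : ℤ → Bool) (a q : ℤ) : Prop :=
  a + 1 ≤ q ∧ x q = true ∧ x (q + 2) = true ∧
  (∀ d, a ≤ d → d ≤ q → x d = true → d + (rad K x a d : ℤ) ≤ q + 3) ∧
  ∀ d, q + 2 ≤ d → x d = true → q - 1 ≤ d - (rad K x a d : ℤ)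

theorem RadAux.mem {K : ℕ} (hK : 3 ≤ K) (x : ℤ → Bool) (a d : ℤ) :
    rad K x a d ∈ {k : ℕ | 1 ≤ k ∧ Rz K x a d k} := by
  unfold rad
  apply Nat.sInf_mem
  exact ⟨K, by omega, Or.inr (Or.inr ⟨hK, Or.inr rfl⟩)⟩

theorem rad_pos {K : ℕ} (hK : 3 ≤ K) (x : ℤ → Bool) (a d : ℤ) : 1 ≤ rad K x a d :=
  (RadAux.mem hK x a d).1

theorem rad_le {K : ℕ} (hK : 3 ≤ K) (x : ℤ → Bool) (a d : ℤ) : rad K x a d ≤ K := by
  unfold rad
  exact Nat.sInf_le ⟨by omega, Or.inr (Or.inr ⟨hK, Or.inr rfl⟩)⟩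

theorem rad_spec {K : ℕ} (hK : 3 ≤ K) (x : ℤ → Bool) (a d : ℤ) : Rz K x a d (rad K x a d) :=
  (RadAux.mem hK x a d).2

theorem not_Rz {K : ℕ} {x : ℤ → Bool} {a d : ℤ} {k : ℕ} (h1 : 1 ≤ k) (h : k < rad K x a d) :
    ¬ Rz K x a d k := by
  intro hr
  have := Nat.notMem_of_lt_sInf (s := {k : ℕ | 1 ≤ k ∧ Rz K x a d k}) h
  exact this ⟨h1, hr⟩

theorem rad_eq {K : ℕ} {x : ℤ → Bool} {a d : ℤ} {k : ℕ} (h1 : 1 ≤ k) (h : Rz K x a d k)
    (h2 : ∀ i, 1 ≤ i → i < k → ¬ Rz K x a d i) : rad K x a d = k := by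
  have hm : k ∈ {k : ℕ | 1 ≤ k ∧ Rz K x a d k} := ⟨h1, h⟩
  have hle : rad K x a d ≤ k := Nat.sInf_le hm
  have hmem : rad K x a d ∈ {k : ℕ | 1 ≤ k ∧ Rz K x a d k} := Nat.sInf_mem ⟨k, hm⟩
  by_contra hne
  exact h2 _ hmem.1 (lt_of_le_of_ne hle hne) hmem.2

theorem Cut.nc {K : ℕ} (hK : 3 ≤ K) {x : ℤ → Bool} (hx : Leg K x) {a q : ℤ} (h : Cut K x a q) :
    NC K x (q - 1) := by
  obtain ⟨hq1, hq2, _, _, hq5⟩ := h
  intro d hd hxd
  have hne : d ≠ q + 1 := by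
    intro he
    subst he
    exact hx.1 q ⟨hq2, hxd⟩
  have hd2 : q + 2 ≤ d := by omega
  have h5 := hq5 d hd2 hxd
  have hr : rad K x (q - 1) d = rad K x a d := by
    apply rad_eq (rad_pos hK x a d)
    · rcases rad_spec hK x a d with h1 | h1 | h1
      · exact absurd h1 (by omega)
      · exact Or.inr (Or.inl h1)
      · exact Or.inr (Or.inr h1)
    · intro i hi1 hi2 hri
      apply not_Rz hi1 hi2
      rcases hri with h1 | h1 | h1
      · exfalso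
        have : (i : ℤ) < (rad K x a d : ℤ) := by exact_mod_cast hi2
        omega
      · exact Or.inr (Or.inl h1)
      · exact Or.inr (Or.inr h1)
  rw [hr]
  exact h5

end Pool.Agent.Lib.GJ
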