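import Pool.Agent.Lib.GJ.Defs

/-!
# Module Res: the comparison of the two sides of a digit as a function of lists

PROOFS: inductions on lists.  `go_mono`: `go f L R = true → go f (L ++ A) (R ++ B) = true` (all `f`), induction on `L`, cases on `R`.
`go_symm`: `go f L R = go (!f) R L`: equal heads: `xor (!f) l = !(xor f r)`; different heads `l ≠ r`: `(l == f) = (r == !f)`.
`res_symm`: if exactly one of `l`, `r` is true then `l = !r`, and `go r L R = go (!r) R L = go l R L`.
`AllOK.append`: a splitting `l ++ m = l1 ++ true :: l2` has the digit in `l` or in `m` (`List.append_eq_append_iff`).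
`AllOK.mono`: `res_mono` with `l1.reverse ++ (A ++ A') = (l1.reverse ++ A) ++ A'`.  `AllOK.reverse`: `l.reverse = l1 ++ true :: l2` iff
`l = l2.reverse ++ true :: l1.reverse`; `res_symm`.
-/

namespace Pool.Agent.Lib.GJ

/-- comparison of the two sides from distance 3 on; `f` is the side on which the next difference has to be -/
def go : Bool → List Bool → List Bool → Bool
  | f, l :: L, r :: R => if l = r then go (xor f r) L R else (l == f)
  | _, [], _ => false
  | _, _ :: _, [] => false

/-- the two sides of a digit (nearest bits first) decide the comparison, in the allowed way -/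
def res : List Bool → List Bool → Bool
  | false :: l :: L, false :: r :: R =>
    if l && r then true else if l || r then go r L R else false
  | _, _ => false

/-- all digits of `l` are decided, with the left context `A` (nearest bits first) and the right context `B` -/
def AllOK (A l B : List Bool) : Prop :=
  ∀ l1 l2, l = l1 ++ true :: l2 → res (l1.reverse ++ A) (l2 ++ B) = true

private theorem go_mono (A B : List Bool) : ∀ (L R : List Bool) (f : Bool),
    go f L R = true → go f (L ++ A) (R ++ B) = true
  | [], R, f, h => by simp [go] at h
  | l :: L, [], f, h => by simp [go] at h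
  | l :: L, r :: R, f, h => by
    simp only [List.cons_append, go] at h ⊢
    by_cases hlr : l = r
    · rw [if_pos hlr] at h ⊢
      exact go_mono A B L R _ h
    · rw [if_neg hlr] at h ⊢
      exact h

private theorem go_symm : ∀ (L R : List Bool) (f : Bool), go f L R = go (!f) R L
  | [], [], f => by simp [go]
  | [], r :: R, f => by simp [go]
  | l :: L, [], f => by simp [go]
  | l :: L, r :: R, f => by
    by_cases hlr : l = r
    · subst hlr
      simp only [go, if_true]
      rw [go_symm L R]
      congr 1
      cases f <;> cases l <;> rfl
    · have hrl : ¬ r = l := fun h => hlr h.symm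
      simp only [go, if_neg hlr, if_neg hrl]
      cases f <;> cases l <;> cases r <;> simp_all

theorem res_mono {L R : List Bool} (A B : List Bool) (h : res L R = true) :
    res (L ++ A) (R ++ B) = true := by
  match L, R, h with
  | false :: l :: L, false :: r :: R, h =>
    simp only [List.cons_append, res] at h ⊢
    by_cases h1 : (l && r) = true
    · rw [if_pos h1]
    · rw [if_neg h1] at h ⊢
      by_cases h2 : (l || r) = true
      · rw [if_pos h2] at h ⊢
        exact go_mono A B L R r h
      · rw [if_neg h2] at h
        exact absurd h (by simp)

theorem res_symm (L R : List Bool) : res L R = res R L := by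
  match L, R with
  | [], [] => rfl
  | [], [r] => cases r <;> rfl
  | [], r :: r' :: R => cases r <;> rfl
  | [l], [] => cases l <;> rfl
  | [l], [r] => cases l <;> cases r <;> rfl
  | [l], r :: r' :: R => cases l <;> cases r <;> rfl
  | l :: l' :: L, [] => cases l <;> rfl
  | l :: l' :: L, [r] => cases l <;> cases r <;> rfl
  | true :: l' :: L, true :: r' :: R => rfl
  | true :: l' :: L, false :: r' :: R => rfl
  | false :: l' :: L, true :: r' :: R => rfl
  | false :: l' :: L, false :: r' :: R =>
    cases l' <;> cases r'
    · simp [res]
    · have := go_symm L R true
      simpa [res] using this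
    · have := go_symm L R false
      simpa [res] using this
    · simp [res]

theorem AllOK.nil (A B : List Bool) : AllOK A [] B := by
  intro l1 l2 h
  have := congrArg List.length h
  simp at this

theorem AllOK.append {A l m B : List Bool} :
    AllOK A (l ++ m) B ↔ AllOK A l (m ++ B) ∧ AllOK (l.reverse ++ A) m B := by
  constructor
  · intro h
    constructor
    · intro l1 l2 hl
      have := h l1 (l2 ++ m) (by rw [hl]; simp)
      simpa using this
    · intro l1 l2 hm
      have := h (l ++ l1) l2 (by rw [hm]; simp)
      simpa using this
  · rintro ⟨h1, h2⟩ l1 l2 hlm
    rcases List.append_eq_append_iff.1 hlm with ⟨as, has, hm⟩ | ⟨bs, hl, hbs⟩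
    · have := h2 as l2 hm
      rw [has]
      simpa using this
    · cases bs with
      | nil =>
        simp only [List.append_nil] at hl
        simp only [List.nil_append] at hbs
        have := h2 [] l2 (by rw [← hbs]; rfl)
        rw [hl] at this
        simpa using this
      | cons b bs =>
        simp only [List.cons_append, List.cons.injEq] at hbs
        obtain ⟨hb, hbs⟩ := hbs
        subst hb
        have := h1 l1 bs hl
        rw [hbs]
        simpa using this

theorem AllOK.mono {A l B : List Bool} (A' B' : List Bool) (h : AllOK A l B) :
    AllOK (A ++ A') l (B ++ B') := by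
  intro l1 l2 hl
  have := res_mono A' B' (h l1 l2 hl)
  simpa using this

theorem AllOK.reverse {A l B : List Bool} (h : AllOK A l B) : AllOK B l.reverse A := by
  intro l1 l2 hl
  have h' : l = l2.reverse ++ true :: l1.reverse := by
    have := congrArg List.reverse hl
    simpa using this
  have := h _ _ h'
  rw [res_symm]
  simpa using this

end Pool.Agent.Lib.GJ
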