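import Pool.Agent.Lib.GJ.Res
import Pool.Agent.Lib.GJ.Cmp

/-!
# Module ResC: decided comparisons give the strict inequality

PROOF.  `L = false :: l :: L'`, `R = false :: r :: R'`, so `bL 1 = bR 1 = false`, `bL 2 = l`, `bR 2 = r`.  If both are true: `cmp_both`.  If exactly one is true then `go r L' R' = true`: induction on the lists gives
`k ≥ 3`, `k ≤ L.length`, `k ≤ R.length`, with `bL i = bR i` for `3 ≤ i < k`, `bL k ≠ bR k` and `bL k = fl bR (k - 1)` (the running flag of `go` before the comparison at distance `k` is `fl bR (k - 1)`, see the
definition of `fl`).  Then `cmp` (right to left); `hsum` for `j = k` because one of the two bits is true.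
-/

namespace Pool.Agent.Lib.GJ

namespace ResCAux

theorem go_spec (bL bR : ℕ → Bool) : ∀ (L R : List Bool) (m : ℕ),
    (∀ i (hi : i < L.length), bL (i + m + 3) = L[i]) →
    (∀ i (hi : i < R.length), bR (i + m + 3) = R[i]) →
    go (fl bR (m + 2)) L R = true →
    ∃ k, m + 3 ≤ k ∧ k < m + 3 + L.length ∧ k < m + 3 + R.length ∧
      (∀ i, m + 3 ≤ i → i < k → bL i = bR i) ∧ bL k ≠ bR k ∧ bL k = fl bR (k - 1) := by
  intro L
  induction L with
  | nil =>
      intro R m _ _ hg
      simp [go] at hg
  | cons l L ih =>
      intro R m hL hR hg
      cases R with
      | nil => simp [go] at hg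
      | cons r R =>
          have h0L : bL (m + 3) = l := by
            have := hL 0 (by simp)
            simpa using this
          have h0R : bR (m + 3) = r := by
            have := hR 0 (by simp)
            simpa using this
          rw [go] at hg
          by_cases hlr : l = r
          · rw [if_pos hlr] at hg
            have hf : xor (fl bR (m + 2)) r = fl bR (m + 1 + 2) := by
              rw [← h0R]
              rfl
            rw [hf] at hg
            obtain ⟨k, k1, k2, k3, k4, k5, k6⟩ := ih R (m + 1)
              (fun i hi => by
                have := hL (i + 1) (by simpa using hi)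
                rw [show i + 1 + m + 3 = i + (m + 1) + 3 by ring] at this
                simpa using this)
              (fun i hi => by
                have := hR (i + 1) (by simpa using hi)
                rw [show i + 1 + m + 3 = i + (m + 1) + 3 by ring] at this
                simpa using this) hg
            refine ⟨k, by omega, by simp only [List.length_cons]; omega,
              by simp only [List.length_cons]; omega, ?_, k5, k6⟩
            intro i h1 h2
            rcases Nat.lt_or_ge (m + 3) i with h | h
            · exact k4 i (by omega) h2
            · obtain rfl : i = m + 3 := by omega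
              rw [h0L, h0R, hlr]
          · rw [if_neg hlr] at hg
            refine ⟨m + 3, le_rfl, by simp, by simp, fun i h1 h2 => by omega, ?_, ?_⟩
            · rw [h0L, h0R]; exact hlr
            · rw [h0L, show m + 3 - 1 = m + 2 by omega]
              exact eq_of_beq hg

end ResCAux

theorem res_cmp {hR hL : ℕ → ℝ} {bR bL : ℕ → Bool} {L R : List Bool} (h : res L R = true)
    (hbL : ∀ i (hi : i < L.length), bL (i + 1) = L[i])
    (hbR : ∀ i (hi : i < R.length), bR (i + 1) = R[i])
    (rR : ∀ j < R.length, hR j = be⁻¹ * (if bR (j + 1) then 1 - hR (j + 1) else hR (j + 1)))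
    (rL : ∀ j < L.length, hL j = be⁻¹ * (if bL (j + 1) then 1 - hL (j + 1) else hL (j + 1)))
    (hsum : ∀ j, 2 ≤ j → j ≤ L.length → j ≤ R.length → (bR j = true ∨ bL j = true) →
      hR j + hL j < 1) : be⁻¹ ^ 2 < hR 0 + hL 0 := by
  match L, R, h with
  | false :: l :: L', false :: r :: R', h =>
    have h1L : bL 1 = false := by
      have := hbL 0 (by simp)
      simpa using this
    have h1R : bR 1 = false := by
      have := hbR 0 (by simp)
      simpa using this
    have h2L : bL 2 = l := by
      have := hbL 1 (by simp)
      simpa using this
    have h2R : bR 2 = r := by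
      have := hbR 1 (by simp)
      simpa using this
    simp only [List.length_cons] at rR rL hsum
    rw [res] at h
    by_cases hb : (l && r) = true
    · rw [Bool.and_eq_true] at hb
      obtain ⟨hl, hr⟩ := hb
      exact cmp_both (fun j hj => rR j (by omega)) (fun j hj => rL j (by omega)) h1R h1L
        (h2R.trans hr) (h2L.trans hl)
        (hsum 2 le_rfl (by omega) (by omega) (Or.inl (h2R.trans hr)))
    · rw [if_neg hb] at h
      by_cases hc : (l || r) = true
      · rw [if_pos hc] at h
        have hf : fl bR (0 + 2) = r := by
          rw [← h2R]
          rfl
        rw [← hf] at h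
        obtain ⟨k, k1, k2, k3, k4, k5, k6⟩ := ResCAux.go_spec bL bR L' R' 0
          (fun i hi => by
            have := hbL (i + 2) (by simpa using hi)
            simpa using this)
          (fun i hi => by
            have := hbR (i + 2) (by simpa using hi)
            simpa using this) h
        have hne2 : bR 2 ≠ bL 2 := by
          rw [h2L, h2R]
          revert hb hc
          cases l <;> cases r <;> simp
        refine (cmp (k := k) (by omega) (fun j hj => rR j (by omega))
          (fun j hj => rL j (by omega)) h1R h1L hne2 (fun i h3 hik => (k4 i (by omega) hik).symm)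
          k5.symm (hsum k (by omega) (by omega) (by omega) ?_)).2 k6
        revert k5
        cases bL k <;> cases bR k <;> simp
      · rw [if_neg hc] at h
        exact absurd h (by decide)

end Pool.Agent.Lib.GJ
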