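import Pool.Agent.Lib.GJ.InvK

/-!
# Module Run: the automaton on a legal sequence

PROOF.
`inv_S0`: `S0 = ⟨10, 5, true, [(1, false)], []⟩`, time `a + 4`: the bits of `10` are `0, 1, 0, 1, 0` and `x` is `false, true, false, true, false` at `a + 4, a + 3, a + 2, a + 1, a` (no adjacent digits).
`Pd` for `(1, false)`: digit `a + 3`; `¬ Rz .. 1` as `a + 2 ≥ a`.  `Cp`: `a + 2 ≤ a + 4 - e` gives `e ≤ 2`; `e = 0`, `e = 2` are no digits.
`inv_SU`: `SU = ⟨2, 2, false, [], []⟩`, time `a + 1`, bits `x (a + 1) = false`, `x a = true`; `Cp` is empty.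
`run_sound`: induction on `j` with `step_sound`, `wd x p (j + 1) = wd x p j ++ [x (p + j)]` and `run K st (u ++ v) = (run K st u).bind (fun s => run K s v)`.
`closed_sound`: let `q` be the first cut (`lo ≤ q`), `j = q + 2 - n0` (a natural number, `n0 ≤ q + 2`); `run_sound` for `j` (no cut `q'` with `q' + 3 ≤ q + 2`), then `step_close` at `n = q + 2`;
`closed K st (u ++ [b])` is the flag of the step after `run K st u`.
-/

namespace Pool.Agent.Lib.GJ

namespace RunAux

theorem run_append (K : ℕ) (u v : List Bool) :
    ∀ st : St, run K st (u ++ v) = (run K st u).bind (fun s => run K s v) := by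
  induction u with
  | nil => intro st; rfl
  | cons b w ih =>
    intro st
    show (match step K st b with
      | none => none
      | some q => run K q.1 (w ++ v)) = _
    rw [show run K st (b :: w) = (match step K st b with
      | none => none
      | some q => run K q.1 w) from rfl]
    cases step K st b with
    | none => rfl
    | some q => exact ih q.1

theorem closed_append (K : ℕ) (b : Bool) (u : List Bool) :
    ∀ st s : St, run K st u = some s → closed K st (u ++ [b]) =
      (match step K s b with
      | none => false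
      | some q => q.2) := by
  induction u with
  | nil =>
    intro st s h
    have : st = s := by simpa [run] using h
    subst this
    show (match step K st b with
      | none => false
      | some q => if ([] : List Bool).isEmpty then q.2 else closed K q.1 []) = _
    cases step K st b with
    | none => rfl
    | some q => rfl
  | cons c w ih =>
    intro st s h
    rw [show run K st (c :: w) = (match step K st c with
      | none => none
      | some q => run K q.1 w) from rfl] at h
    show (match step K st c with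
      | none => false
      | some q => if (w ++ [b]).isEmpty then q.2 else closed K q.1 (w ++ [b])) = _
    cases hs : step K st c with
    | none => rw [hs] at h; exact absurd h (by simp)
    | some q =>
      rw [hs] at h
      have he : (w ++ [b]).isEmpty = false := by cases w <;> rfl
      simp only [he]
      exact ih q.1 s h

end RunAux

open RunAux

theorem inv_S0 {K : ℕ} {x : ℤ → Bool} {a : ℤ} (hK : 6 ≤ K) (hx : Leg K x)
    (h1 : x (a + 1) = true) (h3 : x (a + 3) = true) : Inv K x a true (a + 4) S0 := by
  have f0 : x a = false := by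
    by_contra h
    have h' : x a = true := by simpa using h
    exact hx.1 a ⟨h', h1⟩
  have f2 : x (a + 2) = false := by
    by_contra h
    have h' : x (a + 2) = true := by simpa using h
    exact hx.1 (a + 1) ⟨h1, by rw [show a + 1 + 1 = a + 2 by ring]; exact h'⟩
  have f4 : x (a + 4) = false := by
    by_contra h
    have h' : x (a + 4) = true := by simpa using h
    exact hx.1 (a + 3) ⟨h3, by rw [show a + 3 + 1 = a + 4 by ring]; exact h'⟩
  refine ⟨by simp, ?_, ?_, ?_, ?_, ?_, ?_⟩
  · intro i hi
    have hi' : i < 5 := hi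
    interval_cases i
    · rw [show a + 4 - ((0 : ℕ) : ℤ) = a + 4 by push_cast; ring, f4]; rfl
    · rw [show a + 4 - ((1 : ℕ) : ℤ) = a + 3 by push_cast; ring, h3]; rfl
    · rw [show a + 4 - ((2 : ℕ) : ℤ) = a + 2 by push_cast; ring, f2]; rfl
    · rw [show a + 4 - ((3 : ℕ) : ℤ) = a + 1 by push_cast; ring, h1]; rfl
    · rw [show a + 4 - ((4 : ℕ) : ℤ) = a by push_cast; ring, f0]; rfl
  · show ((5 : ℕ) : ℤ) ≤ a + 4 - a + 1
    push_cast
    linarith
  · left
    refine ⟨?_, rfl⟩
    show ((5 : ℕ) : ℤ) = a + 4 - a + 1
    push_cast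
    ring
  · intro p hp
    have hp' : p = (1, false) := by simpa [S0] using hp
    subst hp'
    refine ⟨?_, ?_, ?_, ?_⟩
    · show a + 2 ≤ a + 4 - ((1 : ℕ) : ℤ)
      push_cast
      linarith
    · show x (a + 4 - ((1 : ℕ) : ℤ)) = true
      rw [show a + 4 - ((1 : ℕ) : ℤ) = a + 3 by push_cast; ring]
      exact h3
    · intro k hk1 hk2
      have hk : k = 1 := le_antisymm hk2 hk1
      subst hk
      rintro (h | ⟨h, -⟩ | ⟨h, -⟩)
      · have h' : a + 4 - ((1 : ℕ) : ℤ) - ((1 : ℕ) : ℤ) < a := h
        push_cast at h'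
        linarith
      · exact absurd h (by norm_num)
      · exact absurd h (by norm_num)
    · intro h
      exact absurd h (by norm_num)
  · intro e _ he hxe _
    have he' : e ≤ 2 := by omega
    interval_cases e
    · rw [show a + 4 - ((0 : ℕ) : ℤ) = a + 4 by push_cast; ring, f4] at hxe
      exact absurd hxe (by simp)
    · exact ⟨false, by simp [S0]⟩
    · rw [show a + 4 - ((2 : ℕ) : ℤ) = a + 2 by push_cast; ring, f2] at hxe
      exact absurd hxe (by simp)
  · intro c hc
    exact absurd hc (by simp [S0])

theorem inv_SU {K : ℕ} {x : ℤ → Bool} {a : ℤ} (hK : 6 ≤ K) (hx : Leg K x) (h0 : x a = true) :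
    Inv K x a false (a + 1) SU := by
  have f1 : x (a + 1) = false := by
    by_contra h
    have h' : x (a + 1) = true := by simpa using h
    exact hx.1 a ⟨h0, h'⟩
  refine ⟨by simp, ?_, ?_, ?_, ?_, ?_, ?_⟩
  · intro i hi
    have hi' : i < 2 := hi
    interval_cases i
    · rw [show a + 1 - ((0 : ℕ) : ℤ) = a + 1 by push_cast; ring, f1]; rfl
    · rw [show a + 1 - ((1 : ℕ) : ℤ) = a by push_cast; ring, h0]; rfl
  · show ((2 : ℕ) : ℤ) ≤ a + 1 - a + 1
    push_cast
    linarith
  · left
    refine ⟨?_, rfl⟩
    show ((2 : ℕ) : ℤ) = a + 1 - a + 1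
    push_cast
    ring
  · intro p hp
    exact absurd hp (by simp [SU])
  · intro e _ he _ _
    exfalso
    omega
  · intro c hc
    exact absurd hc (by simp [SU])

theorem run_sound {K : ℕ} {x : ℤ → Bool} {a n0 : ℤ} {m : Bool} {st : St} (hK : 6 ≤ K)
    (hx : Leg K x) (hm : m = true → NC K x a) (hI : Inv K x a m n0 st) (j : ℕ)
    (hn : ∀ q, lo a m ≤ q → q + 3 ≤ n0 + j → ¬ Cut K x a q) :
    ∃ st', run K st (wd x (n0 + 1) j) = some st' ∧ Inv K x a m (n0 + j) st' := by
  induction j with
  | zero =>
    refine ⟨st, rfl, ?_⟩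
    rw [Nat.cast_zero, add_zero]
    exact hI
  | succ j ih =>
    obtain ⟨st1, h1, h2⟩ := ih (fun q hq hq2 => hn q hq (by push_cast; linarith))
    rcases step_sound hK hx hm h2 with ⟨q, q1, q2, q3⟩ | ⟨st2, cl, s1, s2⟩
    · exact absurd q3 (hn q q1 (by push_cast; linarith))
    · refine ⟨st2, ?_, ?_⟩
      · rw [wd_add, run_append, h1]
        show run K st1 (wd x (n0 + 1 + j) 1) = some st2
        have e : wd x (n0 + 1 + j) 1 = [x (n0 + j + 1)] := by
          unfold wd
          simp only [List.range_one, List.map_cons, List.map_nil, Nat.cast_zero, add_zero]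
          congr 2
          ring
        rw [e]
        show (match step K st1 (x (n0 + j + 1)) with
          | none => none
          | some q => run K q.1 []) = some st2
        rw [s1]
        rfl
      · have e : n0 + ((j + 1 : ℕ) : ℤ) = n0 + j + 1 := by push_cast; ring
        rw [e]
        exact s2

theorem closed_sound {K : ℕ} {x : ℤ → Bool} {a n0 q : ℤ} {m : Bool} {st : St} (hK : 6 ≤ K)
    (hx : Leg K x) (hm : m = true → NC K x a) (hI : Inv K x a m n0 st) (hq : lo a m ≤ q)
    (hn0 : n0 ≤ q + 2) (hc : Cut K x a q) (hf : ∀ q', lo a m ≤ q' → q' < q → ¬ Cut K x a q') :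
    closed K st (wd x (n0 + 1) (q + 3 - n0).toNat) = true := by
  obtain ⟨j, hj⟩ : ∃ j : ℕ, (j : ℤ) = q + 2 - n0 := ⟨(q + 2 - n0).toNat, by omega⟩
  have hj' : (q + 3 - n0).toNat = j + 1 := by omega
  obtain ⟨st1, h1, h2⟩ := run_sound hK hx hm hI j (fun q' h1 h2 => hf q' h1 (by omega))
  have e2 : n0 + (j : ℤ) = q + 2 := by omega
  rw [e2] at h2
  obtain ⟨st2, h3⟩ := step_close hK hx hm h2 (by rw [show q + 2 - 2 = q by ring]; exact hq)
    (by rw [show q + 2 - 2 = q by ring]; exact hc)
    (fun q' h4 h5 => hf q' h4 (by omega))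
  have e : wd x (n0 + 1) (q + 3 - n0).toNat = wd x (n0 + 1) j ++ [x (q + 2 + 1)] := by
    rw [hj', wd_add]
    congr 1
    unfold wd
    simp only [List.range_one, List.map_cons, List.map_nil, Nat.cast_zero, add_zero]
    congr 2
    omega
  rw [e, closed_append K _ _ st st1 h1, h3]

end Pool.Agent.Lib.GJ
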