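import Pool.Agent.Lib.GJ.Defs

/-!
# Module SeqX: the concatenation of runs

PROOFS.  `prel Wd (i + 1) = prel Wd i ++ intl (Wd i)`.  All `intl (Wd i)` are nonempty (`Wd i ≠ []`), so `i ≤ (prel Wd i).length` and `n < (prel Wd (n + 1)).length`; for `m ≤ m'` `prel Wd m` is an initial part of
`prel Wd m'`, so `X n = (prel Wd m).getD n false` for every `m` with `n < (prel Wd m).length`.  `intl l` has length `2 * l.length - 1`, entry `2 j` is `l.getD j false`, entry `2 j + 1` is `false`.
`exists_run`: `pos i` is strictly increasing with `pos 0 = 0`: find `i` with `pos i ≤ n < pos (i + 1)`; the local index is even or odd.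
-/

namespace Pool.Agent.Lib.GJ

/-- put `false` between consecutive entries -/
def intl : List Bool → List Bool
  | [] => []
  | [b] => [b]
  | b :: c :: t => b :: false :: intl (c :: t)

/-- the first `i` runs -/
def prel (Wd : ℕ → List Bool) (i : ℕ) : List Bool :=
  ((List.range i).map (fun j => intl (Wd j))).flatten

/-- the beginning of run `i` -/
def pos (Wd : ℕ → List Bool) (i : ℕ) : ℕ := (prel Wd i).length

/-- the sequence -/
def Xs (Wd : ℕ → List Bool) (n : ℕ) : Bool := (prel Wd (n + 1)).getD n false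

theorem pos_zero (Wd : ℕ → List Bool) : pos Wd 0 = 0 := by
  simp [pos, prel]

theorem intl_length : ∀ l : List Bool, l ≠ [] → (intl l).length + 1 = 2 * l.length
  | [], h => absurd rfl h
  | [b], _ => by simp [intl]
  | b :: c :: t, _ => by
      have ih := intl_length (c :: t) (by simp)
      simp only [intl, List.length_cons] at ih ⊢
      omega

theorem intl_even : ∀ (l : List Bool) (j : ℕ), (intl l).getD (2 * j) false = l.getD j false
  | [], j => by simp [intl]
  | [b], 0 => by simp [intl]
  | [b], j + 1 => by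
      have h : 2 * (j + 1) = (2 * j + 1) + 1 := by ring
      simp [intl, h]
  | b :: c :: t, 0 => by simp [intl]
  | b :: c :: t, j + 1 => by
      have ih := intl_even (c :: t) j
      have h : 2 * (j + 1) = (2 * j) + 1 + 1 := by ring
      rw [h]
      simp only [intl, List.getD_cons_succ]
      exact ih

theorem intl_odd : ∀ (l : List Bool) (j : ℕ), (intl l).getD (2 * j + 1) false = false
  | [], j => by simp [intl]
  | [b], j => by simp [intl]
  | b :: c :: t, 0 => by simp [intl]
  | b :: c :: t, j + 1 => by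
      have ih := intl_odd (c :: t) j
      have h : 2 * (j + 1) + 1 = (2 * j + 1) + 1 + 1 := by ring
      rw [h]
      simp only [intl, List.getD_cons_succ]
      exact ih

theorem prel_succ (Wd : ℕ → List Bool) (i : ℕ) : prel Wd (i + 1) = prel Wd i ++ intl (Wd i) := by
  simp [prel, List.range_succ]

theorem pos_succ {Wd : ℕ → List Bool} (hne : ∀ i, Wd i ≠ []) (i : ℕ) :
    pos Wd (i + 1) + 1 = pos Wd i + 2 * (Wd i).length := by
  have h := intl_length (Wd i) (hne i)
  unfold pos
  rw [prel_succ, List.length_append]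
  omega

theorem pos_strictMono {Wd : ℕ → List Bool} (hne : ∀ i, Wd i ≠ []) : StrictMono (pos Wd) := by
  apply strictMono_nat_of_lt_succ
  intro i
  have h := pos_succ hne i
  have h2 : 0 < (Wd i).length := List.length_pos_of_ne_nil (hne i)
  omega

theorem prel_prefix (Wd : ℕ → List Bool) (m k : ℕ) : ∃ t, prel Wd (m + k) = prel Wd m ++ t := by
  induction k with
  | zero => exact ⟨[], by simp⟩
  | succ k ih =>
    obtain ⟨t, ht⟩ := ih
    refine ⟨t ++ intl (Wd (m + k)), ?_⟩
    rw [← Nat.add_assoc, prel_succ, ht, List.append_assoc]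

theorem prel_getD (Wd : ℕ → List Bool) {m m' n : ℕ} (hm : m ≤ m') (hn : n < (prel Wd m).length) :
    (prel Wd m').getD n false = (prel Wd m).getD n false := by
  obtain ⟨k, rfl⟩ := Nat.exists_eq_add_of_le hm
  obtain ⟨t, ht⟩ := prel_prefix Wd m k
  rw [ht, List.getD_append _ _ _ _ hn]

theorem Xs_eq {Wd : ℕ → List Bool} (hne : ∀ i, Wd i ≠ []) {m n : ℕ} (hn : n < (prel Wd m).length) :
    Xs Wd n = (prel Wd m).getD n false := by
  have hlt : n < (prel Wd (n + 1)).length := by
    have h := (pos_strictMono hne).le_apply (x := n + 1)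
    unfold pos at h
    omega
  unfold Xs
  rcases le_total m (n + 1) with h | h
  · exact prel_getD Wd h hn
  · exact (prel_getD Wd h hlt).symm

theorem Xs_at {Wd : ℕ → List Bool} (hne : ∀ i, Wd i ≠ []) (i k : ℕ) (hk : k + 1 < 2 * (Wd i).length) :
    Xs Wd (pos Wd i + k) = (intl (Wd i)).getD k false := by
  have h := intl_length (Wd i) (hne i)
  have hlen : pos Wd i + k < (prel Wd (i + 1)).length := by
    rw [prel_succ, List.length_append]
    unfold pos
    omega
  rw [Xs_eq hne hlen, prel_succ, List.getD_append_right _ _ _ _ (by unfold pos; omega)]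
  congr 1
  unfold pos
  omega

theorem Xs_even {Wd : ℕ → List Bool} (hne : ∀ i, Wd i ≠ []) (i j : ℕ) (hj : j < (Wd i).length) :
    Xs Wd (pos Wd i + 2 * j) = (Wd i).getD j false := by
  rw [Xs_at hne i (2 * j) (by omega), intl_even]

theorem Xs_odd {Wd : ℕ → List Bool} (hne : ∀ i, Wd i ≠ []) (i j : ℕ)
    (hj : j + 1 < (Wd i).length) : Xs Wd (pos Wd i + 2 * j + 1) = false := by
  rw [Nat.add_assoc, Xs_at hne i (2 * j + 1) (by omega), intl_odd]

theorem exists_run {Wd : ℕ → List Bool} (hne : ∀ i, Wd i ≠ []) (n : ℕ) :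
    ∃ i j, j < (Wd i).length ∧ (n = pos Wd i + 2 * j ∨ (n = pos Wd i + 2 * j + 1 ∧ j + 1 < (Wd i).length)) := by
  have hex : ∃ i, n < pos Wd (i + 1) := ⟨n, by
    have h := (pos_strictMono hne).le_apply (x := n + 1)
    omega⟩
  classical
  obtain ⟨i, hi, hmin⟩ : ∃ i, n < pos Wd (i + 1) ∧ ∀ k, k < i → ¬ n < pos Wd (k + 1) :=
    ⟨Nat.find hex, Nat.find_spec hex, fun k hk => Nat.find_min hex hk⟩
  have hle : pos Wd i ≤ n := by
    rcases i with _ | i
    · rw [pos_zero]; exact Nat.zero_le _
    · exact not_lt.mp (hmin i (Nat.lt_succ_self i))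
  have hs := pos_succ hne i
  obtain ⟨k, hk⟩ := Nat.exists_eq_add_of_le hle
  rcases Nat.even_or_odd' k with ⟨j, hj | hj⟩
  · exact ⟨i, j, by omega, Or.inl (by omega)⟩
  · exact ⟨i, j, by omega, Or.inr ⟨by omega, by omega⟩⟩

end Pool.Agent.Lib.GJ
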