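import Pool.Agent.Lib.GJ.TL
import Pool.Agent.Lib.GJ.SeqX
import Pool.Agent.Lib.GJ.Chn

/-!
# Module SegA: first facts about the sequence of runs

Here `Wd i = runw n (u i) (v i)`, `h = n + 3`, `D = 2 h + 1`, `c = |Wd i| - 1 - h` is the index of the last digit of the run (`c1`), then `h` zeros.

PROOFS.  `gap4`: inside a run digits have class distance at least two (`runw_nadj`), so distance at least four; the last digit of run `i` has distance `D = 2 h + 1 ≥ 7` from the first digit of run `i + 1`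
(`pos_succ`; `runw_ok`: `Wd i` ends with `1 0 ^ h`), and the first digit is followed by `0`.
`lam_first` (`i ≥ 1`): `lam` at the beginning of run `i + 1`: the last digit before it is `c1` of run `i` at distance `D`, `lam X (pos (i+1)) = ps ^ D (1 - lam X c1)`, `ps ^ D = - ph⁻¹ ^ D` (`D` odd).
`lam_even`: positions `m = pos i + 2 j`, `1 ≤ j < |Wd i|`: `lam X m = be⁻¹ * (if X (m - 2) then 1 - lam X (m - 2) else lam X (m - 2))` (two steps of the recursion; the odd position between is no digit; `ps ^ 2 = be⁻¹`).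
-/

namespace Pool.Agent.Lib.GJ

/-- the data of the construction -/
structure Rn (n : ℕ) (u v : ℕ → List Bool) (Wd : ℕ → List Bool) : Prop where
  hu : ∀ i, Cat (u i)
  hv : ∀ i, Cat (v i)
  hW : ∀ i, Wd i = runw n (u i) (v i)

theorem Rn.ne {n : ℕ} {u v : ℕ → List Bool} {Wd : ℕ → List Bool} (h : Rn n u v Wd) (i : ℕ) :
    Wd i ≠ [] := by
  rw [h.hW i]
  unfold runw
  exact List.cons_ne_nil _ _

namespace SegAAux

/-- the shape of a run -/
theorem shape {n : ℕ} {u v : ℕ → List Bool} {Wd : ℕ → List Bool} (h : Rn n u v Wd) (i : ℕ) :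
    n + 7 ≤ (Wd i).length ∧ (Wd i).getD ((Wd i).length - (n + 4)) false = true ∧
      (∀ k, (Wd i).length - (n + 4) < k → (Wd i).getD k false = false) ∧
      ∀ k, (Wd i).getD k false = true → (Wd i).getD (k + 1) false = false := by
  obtain ⟨mid, hmid, -⟩ := runw_ok n (h.hu i) (h.hv i)
  have hadj := runw_nadj n (h.hu i) (h.hv i)
  rw [← h.hW i] at hmid hadj
  have hlen : (Wd i).length = mid.length + n + 7 := by
    rw [hmid]; simp; omega
  have hc : (Wd i).length - (n + 4) = 3 + mid.length := by omega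
  refine ⟨by omega, ?_, ?_, ?_⟩
  · rw [hc, hmid, List.getD_append_right _ _ _ _ (by simp),
      List.getD_append_right _ _ _ _ (by simp)]
    simp
  · intro k hk
    rw [hc] at hk
    obtain ⟨t, rfl⟩ : ∃ t, k = 3 + mid.length + 1 + t := ⟨k - (3 + mid.length + 1), by omega⟩
    rw [hmid, List.getD_append_right _ _ _ _ (by simp; omega),
      List.getD_append_right _ _ _ _ (by simp; omega)]
    have : 3 + mid.length + 1 + t - [true, false, true].length - mid.length = t + 1 := by
      simp; omega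
    rw [this, List.getD_cons_succ]
    rcases Nat.lt_or_ge t (n + 3) with ht | ht
    · rw [List.getD_eq_getElem _ _ (by simpa using ht)]
      simp
    · rw [List.getD_eq_default _ _ (by simpa using ht)]
  · intro k hk
    by_contra hk'
    have hk2 : (Wd i).getD (k + 1) false = true := by simpa using hk'
    have hlt : k + 1 < (Wd i).length := by
      by_contra hge
      rw [List.getD_eq_default _ _ (by omega)] at hk2
      exact absurd hk2 (by simp)
    rw [List.getD_eq_getElem _ _ hlt] at hk2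
    rw [List.getD_eq_getElem _ _ (by omega)] at hk
    refine hadj ((Wd i).take k) ((Wd i).drop (k + 2)) ?_
    conv_lhs => rw [← List.take_append_drop k (Wd i), List.drop_eq_getElem_cons (by omega), hk,
      List.drop_eq_getElem_cons hlt, hk2]

theorem ps_sq_eq : ps * ps = be⁻¹ := by
  rw [be_inv, ps_eq]
  nlinarith [ph_sq]

theorem phi_sq_eq : ph⁻¹ * ph⁻¹ = be⁻¹ := by
  rw [be_inv, ph_inv']
  nlinarith [ph_sq]

theorem lam_chain {X : ℕ → Bool} (d r : ℕ) (hd : X d = true)
    (h0 : ∀ s, 1 ≤ s → s < r + 1 → X (d + s) = false) :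
    lam X (d + (r + 1)) = ps ^ (r + 1) * (1 - lam X d) := by
  induction r with
  | zero =>
    show lam X (d + 1) = _
    rw [lam, hd, if_pos rfl]
    ring
  | succ r ih =>
    have e := ih (fun s hs hs' => h0 s hs (by omega))
    have hx : X (d + (r + 1)) = false := h0 (r + 1) (by omega) (by omega)
    show lam X (d + (r + 1) + 1) = _
    rw [lam, hx, if_neg (by simp), e]
    ring

end SegAAux

open SegAAux

theorem Rn.gap4 {n : ℕ} {u v : ℕ → List Bool} {Wd : ℕ → List Bool} (h : Rn n u v Wd) :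
    Gap4 (Xs Wd) := by
  intro m hm
  obtain ⟨i, j, hj, hij | ⟨hij, hj'⟩⟩ := exists_run h.ne m
  · obtain ⟨s1, s2, s3, s4⟩ := shape h i
    have hmj : (Wd i).getD j false = true := by
      rw [← Xs_even h.ne i j hj, ← hij]; exact hm
    have hjc : j ≤ (Wd i).length - (n + 4) := by
      by_contra hc
      rw [s3 j (by omega)] at hmj
      exact absurd hmj (by simp)
    have hj3 : j + 3 < (Wd i).length := by omega
    refine ⟨?_, ?_, ?_⟩
    · rw [hij]
      exact Xs_odd h.ne i j (by omega)
    · rw [hij, show pos Wd i + 2 * j + 2 = pos Wd i + 2 * (j + 1) by ring,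
        Xs_even h.ne i (j + 1) (by omega)]
      exact s4 j hmj
    · rw [hij, show pos Wd i + 2 * j + 3 = pos Wd i + 2 * (j + 1) + 1 by ring]
      exact Xs_odd h.ne i (j + 1) (by omega)
  · exfalso
    have := Xs_odd h.ne i j hj'
    rw [← hij, hm] at this
    exact absurd this (by simp)

/-- the left value at the beginning of a run -/
theorem Rn.lam_first {n : ℕ} {u v : ℕ → List Bool} {Wd : ℕ → List Bool} (h : Rn n u v Wd) (i : ℕ) :
    lam (Xs Wd) (pos Wd (i + 1)) =
      - ph⁻¹ ^ (2 * n + 7) * (1 - lam (Xs Wd) (pos Wd i + 2 * ((Wd i).length - (n + 4)))) := by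
  obtain ⟨s1, s2, s3, s4⟩ := shape h i
  have hp := pos_succ h.ne i
  have hpos : pos Wd (i + 1) = pos Wd i + 2 * ((Wd i).length - (n + 4)) + (2 * n + 6 + 1) := by
    omega
  rw [hpos, lam_chain (pos Wd i + 2 * ((Wd i).length - (n + 4))) (2 * n + 6)]
  · have : ps = - ph⁻¹ := by rw [ph_inv]; ring
    rw [this, Odd.neg_pow ⟨n + 3, by ring⟩]
  · rw [Xs_even h.ne i _ (by omega)]
    exact s2
  · intro s hs hs'
    rcases Nat.even_or_odd' s with ⟨t, ht | ht⟩
    · rw [ht, show pos Wd i + 2 * ((Wd i).length - (n + 4)) + 2 * t =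
        pos Wd i + 2 * ((Wd i).length - (n + 4) + t) by ring, Xs_even h.ne i _ (by omega)]
      exact s3 _ (by omega)
    · rw [ht, show pos Wd i + 2 * ((Wd i).length - (n + 4)) + (2 * t + 1) =
        pos Wd i + 2 * ((Wd i).length - (n + 4) + t) + 1 by ring]
      exact Xs_odd h.ne i _ (by omega)

theorem Rn.lam_even {n : ℕ} {u v : ℕ → List Bool} {Wd : ℕ → List Bool} (h : Rn n u v Wd) (i j : ℕ)
    (hj : j + 1 < (Wd i).length) : lam (Xs Wd) (pos Wd i + 2 * (j + 1)) =
      be⁻¹ * (if Xs Wd (pos Wd i + 2 * j) then 1 - lam (Xs Wd) (pos Wd i + 2 * j)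
        else lam (Xs Wd) (pos Wd i + 2 * j)) := by
  have h1 := Xs_odd h.ne i j hj
  rw [show pos Wd i + 2 * (j + 1) = pos Wd i + 2 * j + 1 + 1 by ring, lam, h1, if_neg (by simp),
    lam, ← ps_sq_eq]
  ring

theorem Rn.tau_even {n : ℕ} {u v : ℕ → List Bool} {Wd : ℕ → List Bool} (h : Rn n u v Wd) (i j : ℕ)
    (hj : j + 1 < (Wd i).length) : tau (Xs Wd) (pos Wd i + 2 * j) =
      be⁻¹ * (if Xs Wd (pos Wd i + 2 * (j + 1)) then 1 - tau (Xs Wd) (pos Wd i + 2 * (j + 1))
        else tau (Xs Wd) (pos Wd i + 2 * (j + 1))) := by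
  have h1 := Xs_odd h.ne i j hj
  rw [tau_rec, h1, if_neg (by simp), tau_rec,
    show pos Wd i + 2 * j + 1 + 1 = pos Wd i + 2 * (j + 1) by ring, ← phi_sq_eq]
  ring

end Pool.Agent.Lib.GJ
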