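import Pool.Agent.Lib.GJ.TL

/-!
# Module TLb: bounds of the right side value

PROOF.  (a) `|tau X n| ≤ B` for some `B` (`ph⁻¹ / (1 - ph⁻¹)`).  (b) `0 ≤ tau ≤ ph⁻¹` always and `tau ≤ ph⁻¹ ^ 4 (1)` at digits: let `n` be arbitrary.  If there is no digit after `n` then `tau X n = ph⁻¹ ^ k tau X (n + k) → 0`.  Otherwise let
`d = n + j`, `j ≥ 1`, be the next digit, `tau X n = ph⁻¹ ^ j (1 - tau X d)`.  With `S = sup` of `|tau|` over the digits (finite): for a digit `n`, `j ≥ 4`, `|tau X n| ≤ ph⁻¹ ^ 4 (1 + S)`, so `S ≤ ph⁻¹ ^ 4 (1 + S)`, `S < 1`; hence `1 - tau X d > 0` and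
`tau X n > 0`; so for digits `0 ≤ tau ≤ ph⁻¹ ^ 4`, and for all `n`: `0 ≤ tau X n ≤ ph⁻¹ ^ j`.  (Without a supremum: prove by induction on `m` that `tau X n ≥ - ph⁻¹ ^ m B` and so on.)
-/

namespace Pool.Agent.Lib.GJ

namespace TLbAux

theorem tau_abs (X : ℕ → Bool) (n : ℕ) : |tau X n| ≤ 2 := by
  unfold tau
  set y : ℕ → Bool := fun k => X (n + 1 + k) with hy
  have hg : Summable (fun k : ℕ => ph⁻¹ ^ k * ph⁻¹) :=
    (summable_geometric_of_lt_one TLAux.phi_nn TLAux.phi_lt).mul_right _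
  have hb : ∀ k : ℕ, ‖ph⁻¹ ^ (k + 1) * sq y k‖ ≤ ph⁻¹ ^ k * ph⁻¹ := by
    intro k
    rw [Real.norm_eq_abs, abs_mul, abs_of_nonneg (pow_nonneg TLAux.phi_nn _), pow_succ]
    have hp : 0 ≤ ph⁻¹ ^ k * ph⁻¹ := mul_nonneg (pow_nonneg TLAux.phi_nn _) TLAux.phi_nn
    have := mul_le_mul_of_nonneg_left (TLAux.abs_sq_le y k) hp
    linarith
  have h1 : ‖tv y‖ ≤ ∑' k : ℕ, ph⁻¹ ^ k * ph⁻¹ := tsum_of_norm_bounded hg.hasSum hb
  rw [tsum_mul_right, tsum_geometric_of_lt_one TLAux.phi_nn TLAux.phi_lt,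
    Real.norm_eq_abs] at h1
  refine h1.trans ?_
  have h2 : (0 : ℝ) < 1 - ph⁻¹ := by linarith [TLAux.phi_lt]
  rw [inv_mul_le_iff₀ h2, ph_inv']
  linarith [ph_ub]

theorem step_false {X : ℕ → Bool} {n : ℕ} (h : X (n + 1) = false) :
    tau X n = ph⁻¹ * tau X (n + 1) := by
  rw [tau_rec, h]; simp

theorem step_true {X : ℕ → Bool} {n : ℕ} (h : X (n + 1) = true) :
    tau X n = ph⁻¹ * (1 - tau X (n + 1)) := by
  rw [tau_rec, h]; simp

theorem shift {X : ℕ → Bool} : ∀ (j n : ℕ), (∀ i, 1 ≤ i → i ≤ j → X (n + i) = false) →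
    tau X n = ph⁻¹ ^ j * tau X (n + j)
  | 0, n, _ => by simp
  | j + 1, n, h => by
    have h1 := shift j n (fun i hi hij => h i hi (by omega))
    have h2 : X (n + j + 1) = false := h (j + 1) (by omega) le_rfl
    rw [h1, step_false h2, pow_succ, mul_assoc]
    rfl

theorem lower {X : ℕ → Bool} (h : Gap4 X) (m : ℕ) : ∀ n : ℕ, -(2 * ph⁻¹ ^ m) ≤ tau X n := by
  induction m with
  | zero =>
    intro n
    have := (abs_le.1 (tau_abs X n)).1
    simpa using this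
  | succ m ih =>
    intro n
    have hr := TLAux.phi_nn
    cases hX : X (n + 1) with
    | false =>
      rw [step_false hX, pow_succ]
      have := mul_le_mul_of_nonneg_left (ih (n + 1)) hr
      linarith
    | true =>
      rw [step_true hX]
      obtain ⟨h1, h2, h3⟩ := h _ hX
      have hs : tau X (n + 1) = ph⁻¹ ^ 3 * tau X (n + 1 + 3) := by
        refine shift 3 (n + 1) ?_
        intro i hi hi3
        interval_cases i
        · exact h1
        · exact h2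
        · exact h3
      have hb := (abs_le.1 (tau_abs X (n + 1 + 3))).2
      have h3' : ph⁻¹ ^ 3 ≤ 1 / 2 := by
        rw [ph_inv']
        have hl := ph_lb
        have hu := ph_ub
        have h4 : ph - 1 ≤ 0.619 := by linarith
        have h5 : 0 ≤ ph - 1 := by linarith
        calc (ph - 1) ^ 3 ≤ (0.619 : ℝ) ^ 3 := pow_le_pow_left₀ h5 h4 3
          _ ≤ 1 / 2 := by norm_num
      have h30 : 0 ≤ ph⁻¹ ^ 3 := pow_nonneg hr _
      have h6 : ph⁻¹ ^ 3 * tau X (n + 1 + 3) ≤ ph⁻¹ ^ 3 * 2 :=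
        mul_le_mul_of_nonneg_left hb h30
      have h7 : 0 ≤ 1 - tau X (n + 1) := by rw [hs]; linarith
      have h8 : 0 ≤ ph⁻¹ * (1 - tau X (n + 1)) := mul_nonneg hr h7
      have h9 : 0 ≤ ph⁻¹ ^ (m + 1) := pow_nonneg hr _
      linarith

end TLbAux

theorem tau_nonneg {X : ℕ → Bool} (h : Gap4 X) (n : ℕ) : 0 ≤ tau X n := by
  by_contra hc
  push Not at hc
  obtain ⟨m, hm⟩ := exists_pow_lt_of_lt_one (show (0 : ℝ) < -tau X n / 2 by linarith)
    TLAux.phi_lt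
  have := TLbAux.lower h m n
  linarith

namespace TLbAux

theorem upper {X : ℕ → Bool} (h : Gap4 X) (m : ℕ) : ∀ n : ℕ,
    tau X n ≤ ph⁻¹ + 2 * ph⁻¹ ^ m := by
  induction m with
  | zero =>
    intro n
    have := (abs_le.1 (tau_abs X n)).2
    have hr := TLAux.phi_nn
    rw [pow_zero]
    linarith
  | succ m ih =>
    intro n
    have hr := TLAux.phi_nn
    have h9 : 0 ≤ ph⁻¹ ^ (m + 1) := pow_nonneg hr _
    cases hX : X (n + 1) with
    | false =>
      rw [step_false hX]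
      have h1 := mul_le_mul_of_nonneg_left (ih (n + 1)) hr
      have h2 : ph⁻¹ * ph⁻¹ ≤ ph⁻¹ * 1 := mul_le_mul_of_nonneg_left TLAux.phi_lt.le hr
      rw [pow_succ] at h9 ⊢
      nlinarith
    | true =>
      rw [step_true hX]
      have h1 := tau_nonneg h (n + 1)
      have h2 : ph⁻¹ * (1 - tau X (n + 1)) ≤ ph⁻¹ * 1 :=
        mul_le_mul_of_nonneg_left (by linarith) hr
      linarith

theorem tau_le_r {X : ℕ → Bool} (h : Gap4 X) (n : ℕ) : tau X n ≤ ph⁻¹ := by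
  by_contra hc
  push Not at hc
  obtain ⟨m, hm⟩ := exists_pow_lt_of_lt_one (show (0 : ℝ) < (tau X n - ph⁻¹) / 2 by linarith)
    TLAux.phi_lt
  have := TLbAux.upper h m n
  linarith

end TLbAux

theorem tau_le {X : ℕ → Bool} (h : Gap4 X) (n j : ℕ) (hj : ∀ i, 1 ≤ i → i < j → X (n + i) = false) :
    tau X n ≤ ph⁻¹ ^ j := by
  have hr := TLAux.phi_nn
  rcases Nat.eq_zero_or_pos j with rfl | hpos
  · rw [pow_zero]
    exact (TLbAux.tau_le_r h n).trans TLAux.phi_lt.le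
  · obtain ⟨k, rfl⟩ : ∃ k, j = k + 1 := ⟨j - 1, by omega⟩
    rw [TLbAux.shift k n (fun i hi hik => hj i hi (by omega)), pow_succ]
    exact mul_le_mul_of_nonneg_left (TLbAux.tau_le_r h _) (pow_nonneg hr _)

end Pool.Agent.Lib.GJ
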