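import Pool.Agent.Lib.GJ.SegA
import Pool.Agent.Lib.GJ.TLb

/-!
# Module SegB: bounds of the left side value

Here `Wd i = runw n (u i) (v i)`, `h = n + 3`, `D = 2 h + 1`, `c = |Wd i| - 1 - h` is the index of the last digit of the run (`c1`).
PROOF.  `lam_bounds`: by induction on the position, at the positions `pos i + 2 j`: `- ph⁻¹ ^ D ≤ lam X (pos i) ≤ 0`, `0 ≤ lam X m ≤ be⁻¹ (1 + ph⁻¹ ^ D)` for `j ≥ 1`, and `≤ be⁻¹ ^ 2 (1 + ph⁻¹ ^ D)` if `m` is a digit (the two positions before, `m - 2`, is no digit, so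
`lam X m = be⁻¹ lam X (m - 2)`); for a digit `m = c1` of run `i`: `0 ≤ lam < 1`, so `lam X (pos (i + 1)) = - ph⁻¹ ^ D (1 - lam) ∈ [- ph⁻¹ ^ D, 0]`.
(`be⁻¹ < 0.382`, `ph⁻¹ ^ 7 < 0.035`.)
-/

namespace Pool.Agent.Lib.GJ

namespace SegBAux

theorem bei_ub : be⁻¹ < 0.382 := by
  rw [be_inv]
  linarith [ph_lb]

theorem bei_lb : 0.38 < be⁻¹ := by
  rw [be_inv]
  linarith [ph_ub]

theorem eps_nn (m : ℕ) : 0 ≤ ph⁻¹ ^ m := pow_nonneg TLAux.phi_nn _

theorem eps_le (m : ℕ) : ph⁻¹ ^ m ≤ 1 := pow_le_one₀ TLAux.phi_nn TLAux.phi_lt.le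

theorem runw_len (n : ℕ) (u v : List Bool) : n + 5 ≤ (runw n u v).length := by
  unfold runw zsec
  simp only [List.length_cons, List.length_append, List.length_reverse, List.length_replicate,
    List.length_nil]
  omega

theorem x_first {n : ℕ} {u v : ℕ → List Bool} {Wd : ℕ → List Bool} (h : Rn n u v Wd) (i : ℕ) :
    Xs Wd (pos Wd i) = true := by
  have hl : 0 < (Wd i).length := List.length_pos_iff.2 (h.ne i)
  have := Xs_even (fun i => h.ne i) i 0 hl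
  have e00 : pos Wd i + 2 * 0 = pos Wd i := by ring
  rw [e00] at this
  rw [this, h.hW i]
  rfl

theorem mid {n : ℕ} {u v : ℕ → List Bool} {Wd : ℕ → List Bool} (h : Rn n u v Wd) (i : ℕ)
    (hp : - ph⁻¹ ^ (2 * n + 7) ≤ lam (Xs Wd) (pos Wd i) ∧ lam (Xs Wd) (pos Wd i) ≤ 0) :
    ∀ j : ℕ, j + 1 < (Wd i).length → 0 ≤ lam (Xs Wd) (pos Wd i + 2 * (j + 1)) ∧
      lam (Xs Wd) (pos Wd i + 2 * (j + 1)) ≤ be⁻¹ * (1 + ph⁻¹ ^ (2 * n + 7)) ∧
      (Xs Wd (pos Wd i + 2 * (j + 1)) = true →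
        lam (Xs Wd) (pos Wd i + 2 * (j + 1)) ≤ be⁻¹ ^ 2 * (1 + ph⁻¹ ^ (2 * n + 7))) := by
  have e0 := eps_nn (2 * n + 7)
  have e1 := eps_le (2 * n + 7)
  have b0 := bei_lb
  have b1 := bei_ub
  have hb : 0 < be⁻¹ := by linarith
  have hg := h.gap4
  intro j
  induction j with
  | zero =>
      intro hj
      have hx := x_first h i
      have hl := h.lam_even i 0 hj
      have e00 : pos Wd i + 2 * 0 = pos Wd i := by ring
      rw [e00, hx, if_pos rfl] at hl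
      obtain ⟨p1, p2⟩ := hp
      rw [hl]
      refine ⟨mul_nonneg hb.le (by linarith), mul_le_mul_of_nonneg_left (by linarith) hb.le, ?_⟩
      intro hc
      have := (hg _ hx).2.1
      have e01 : pos Wd i + 2 * (0 + 1) = pos Wd i + 2 := by ring
      rw [e01, this] at hc
      exact absurd hc (by decide)
  | succ j ih =>
      intro hj
      obtain ⟨i1, i2, i3⟩ := ih (by omega)
      have hl := h.lam_even i (j + 1) hj
      rw [hl]
      have hbb : be⁻¹ ^ 2 ≤ be⁻¹ := by nlinarith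
      by_cases hx : Xs Wd (pos Wd i + 2 * (j + 1)) = true
      · rw [if_pos hx]
        have i4 := i3 hx
        have i5 : be⁻¹ ^ 2 * (1 + ph⁻¹ ^ (2 * n + 7)) ≤ 1 := by nlinarith
        refine ⟨mul_nonneg hb.le (by linarith), mul_le_mul_of_nonneg_left (by linarith) hb.le, ?_⟩
        intro hc
        have := (hg _ hx).2.1
        have e : pos Wd i + 2 * (j + 1 + 1) = pos Wd i + 2 * (j + 1) + 2 := by ring
        rw [e, this] at hc
        exact absurd hc (by decide)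
      · rw [if_neg hx]
        have i6 : be⁻¹ * lam (Xs Wd) (pos Wd i + 2 * (j + 1)) ≤
            be⁻¹ ^ 2 * (1 + ph⁻¹ ^ (2 * n + 7)) := by
          rw [pow_two, mul_assoc]
          exact mul_le_mul_of_nonneg_left i2 hb.le
        refine ⟨mul_nonneg hb.le i1, ?_, fun _ => i6⟩
        refine i6.trans (mul_le_mul_of_nonneg_right hbb (by linarith))

theorem main {n : ℕ} {u v : ℕ → List Bool} {Wd : ℕ → List Bool} (h : Rn n u v Wd) (i : ℕ) :
    - ph⁻¹ ^ (2 * n + 7) ≤ lam (Xs Wd) (pos Wd i) ∧ lam (Xs Wd) (pos Wd i) ≤ 0 := by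
  have e0 := eps_nn (2 * n + 7)
  have e1 := eps_le (2 * n + 7)
  have b0 := bei_lb
  have b1 := bei_ub
  induction i with
  | zero =>
      rw [pos_zero]
      show - ph⁻¹ ^ (2 * n + 7) ≤ 0 ∧ (0 : ℝ) ≤ 0
      exact ⟨by linarith, le_rfl⟩
  | succ i ih =>
      have hlen : n + 5 ≤ (Wd i).length := by
        rw [h.hW i]; exact runw_len n _ _
      have hm := mid h i ih ((Wd i).length - (n + 4) - 1) (by omega)
      have e : (Wd i).length - (n + 4) - 1 + 1 = (Wd i).length - (n + 4) := by omega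
      rw [e] at hm
      obtain ⟨m1, m2, -⟩ := hm
      rw [h.lam_first i]
      have m3 : be⁻¹ * (1 + ph⁻¹ ^ (2 * n + 7)) ≤ 1 := by nlinarith
      constructor
      · nlinarith
      · nlinarith

end SegBAux

theorem Rn.lam_pos {n : ℕ} {u v : ℕ → List Bool} {Wd : ℕ → List Bool} (h : Rn n u v Wd) (i : ℕ) :
    - ph⁻¹ ^ (2 * n + 7) ≤ lam (Xs Wd) (pos Wd i) ∧ lam (Xs Wd) (pos Wd i) ≤ 0 := by
  exact SegBAux.main h i

theorem Rn.lam_mid {n : ℕ} {u v : ℕ → List Bool} {Wd : ℕ → List Bool} (h : Rn n u v Wd) (i j : ℕ)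
    (h1 : 1 ≤ j) (hj : j < (Wd i).length) : 0 ≤ lam (Xs Wd) (pos Wd i + 2 * j) ∧
      lam (Xs Wd) (pos Wd i + 2 * j) ≤ be⁻¹ * (1 + ph⁻¹ ^ (2 * n + 7)) ∧
      (Xs Wd (pos Wd i + 2 * j) = true →
        lam (Xs Wd) (pos Wd i + 2 * j) ≤ be⁻¹ ^ 2 * (1 + ph⁻¹ ^ (2 * n + 7))) := by
  obtain ⟨k, rfl⟩ : ∃ k, j = k + 1 := ⟨j - 1, by omega⟩
  exact SegBAux.mid h i (SegBAux.main h i) k hj

end Pool.Agent.Lib.GJ
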