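import Pool.Agent.Lib.GJ.SegB
import Pool.Agent.Lib.GJ.ResC

/-!
# Module SegV: the values at the digits inside the runs

`T1 = 1 - be⁻¹ ^ 2`, `h = n + 3`, `D = 2 h + 1 = 2 n + 7`; `X = Xs Wd`; note `ph⁻¹ + ph⁻¹ ^ 3 = T1` (as `ph⁻¹ ^ 3 + ph⁻¹ ^ 4 = ph⁻¹ ^ 2`, `be⁻¹ = ph⁻¹ ^ 2`).

PROOF of `value_digit` (digit `m = pos i + 2 j`, `j ≥ 1`), `0 ≤ tau X m ≤ be⁻¹ ^ 2`, `0 ≤ lam X m < 0.16` (module SegA, `tau_le`), so `Vv X m = 1 - tau - lam > 0` and it is enough that `be⁻¹ ^ 2 ≤ tau + lam`.  Write `runw n (u i) (v i) = [1, 0, 1] ++ mid ++ 1 0 ^ h`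
(`runw_ok`).
* `j = 2`: `lam X m = be⁻¹ ^ 2 (1 - lam X (pos i)) ≥ be⁻¹ ^ 2`, `tau ≥ 0`.
* `m` the last digit (index `|Wd| - 1 - h`): `tau X m = ph⁻¹ ^ D (1 - tau X (pos (i + 1))) ≥ ph⁻¹ ^ D (1 - be⁻¹ ^ 2)`; the digit before it is at class distance `2` (`mid` ends with `0 ^ (h - 1) 1 0`), so `lam X m = be⁻¹ ^ 2 (1 - lam X (m - 4))`, and
`0 ≤ lam X (m - 4) ≤ be⁻¹ ^ h` (the `h - 1` class positions before `m - 4` are no digits).  `tau + lam - be⁻¹ ^ 2 ≥ ph⁻¹ ^ (2 h + 1) (1 - be⁻¹ ^ 2) - be⁻¹ ^ (2 + h) = be⁻¹ ^ h (ph⁻¹ (1 - be⁻¹ ^ 2) - be⁻¹ ^ 2) > 0`.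
* `m` a digit of `mid`: `AllOK` gives `res` for the two sides within the run; `res_cmp` with `hR k = tau X (m + 2 k)`, `hL k = lam X (m - 2 k)`, bits `X (m ± 2 k)`; the recursions are `Rn.tau_even`, `Rn.lam_even`; `hsum`: if `X (m + 2 k)` then
`tau ≤ be⁻¹ ^ 2 < 0.146`, `lam < 0.4`; if `X (m - 2 k)` then `lam < 0.16` and `tau ≤ ph⁻¹ < 0.619`.
-/

namespace Pool.Agent.Lib.GJ

namespace SegVAux

theorem be_sq : be⁻¹ = ph⁻¹ ^ 2 := by rw [be, inv_pow]

theorem p_lb : (0.618 : ℝ) < ph⁻¹ := by rw [ph_inv']; linarith [ph_lb]

theorem p_ub : ph⁻¹ < (0.61804 : ℝ) := by rw [ph_inv']; linarith [ph_ub]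

theorem b_ub : be⁻¹ < (0.382 : ℝ) := by rw [be_inv]; linarith [ph_lb]

theorem b_lb : (0.3819 : ℝ) < be⁻¹ := by rw [be_inv]; linarith [ph_ub]

theorem b2_ub : be⁻¹ ^ 2 < (0.146 : ℝ) := by
  have h1 := b_ub
  have h2 := b_lb
  nlinarith

theorem p4 : ph⁻¹ ^ 4 = be⁻¹ ^ 2 := by rw [be_sq]; ring

theorem pD_nonneg (n : ℕ) : 0 < ph⁻¹ ^ (2 * n + 7) := by
  have := p_lb
  exact pow_pos (by linarith) _

theorem pD_le (n : ℕ) : ph⁻¹ ^ (2 * n + 7) < 0.035 := by
  have a := p_lb
  have b := p_ub
  have h1 : ph⁻¹ ^ (2 * n + 7) ≤ ph⁻¹ ^ 7 :=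
    pow_le_pow_of_le_one (by linarith) (by linarith) (by omega)
  have h2 : ph⁻¹ ^ 7 ≤ (0.61804 : ℝ) ^ 7 := pow_le_pow_left₀ (by linarith) b.le 7
  have h3 : (0.61804 : ℝ) ^ 7 < 0.035 := by norm_num
  linarith

theorem tau_chain {X : ℕ → Bool} (m k : ℕ) (h0 : ∀ i, 1 ≤ i → i < k + 1 → X (m + i) = false)
    (h1 : X (m + (k + 1)) = true) :
    tau X m = ph⁻¹ ^ (k + 1) * (1 - tau X (m + (k + 1))) := by
  induction k generalizing m with
  | zero =>
    rw [tau_rec, if_pos h1]
    ring
  | succ k ih =>
    have e := ih (m + 1) (fun i hi hk => by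
        have := h0 (i + 1) (by omega) (by omega)
        rwa [show m + 1 + i = m + (i + 1) by omega])
      (by rwa [show m + 1 + (k + 1) = m + (k + 1 + 1) by omega])
    have h01 : X (m + 1) = false := h0 1 (by omega) (by omega)
    rw [tau_rec, h01, if_neg (by simp), e, show m + 1 + (k + 1) = m + (k + 1 + 1) by omega]
    ring

theorem lam_chain {n : ℕ} {u v : ℕ → List Bool} {Wd : ℕ → List Bool} (h : Rn n u v Wd)
    (i j r : ℕ) (hj : j + r < (Wd i).length)
    (h0 : ∀ s, s < r → Xs Wd (pos Wd i + 2 * (j + s)) = false) :
    lam (Xs Wd) (pos Wd i + 2 * (j + r)) = be⁻¹ ^ r * lam (Xs Wd) (pos Wd i + 2 * j) := by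
  induction r with
  | zero => simp
  | succ r ih =>
    have e := ih (by omega) (fun s hs => h0 s (by omega))
    have h1 := h.lam_even i (j + r) (by omega)
    rw [show j + (r + 1) = j + r + 1 by omega, h1, h0 r (by omega), if_neg (by simp), e]
    ring

end SegVAux

open SegVAux

theorem Rn.value_digit {n : ℕ} {u v : ℕ → List Bool} {Wd : ℕ → List Bool} (h : Rn n u v Wd)
    (i j : ℕ) (h1 : 1 ≤ j) (hj : j < (Wd i).length) (hX : Xs Wd (pos Wd i + 2 * j) = true) :
    0 ≤ Vv (Xs Wd) (pos Wd i + 2 * j) ∧ Vv (Xs Wd) (pos Wd i + 2 * j) ≤ 1 - be⁻¹ ^ 2 := by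
  have hg := h.gap4
  have hD := pD_le n
  have hD0 := pD_nonneg n
  have hb1 := b_ub
  have hb2 := b_lb
  have hb3 := b2_ub
  have hp1 := p_lb
  have hp2 := p_ub
  have hbpos : 0 < be⁻¹ := by linarith
  -- bounds of tau
  have htau0 : ∀ m, 0 ≤ tau (Xs Wd) m := tau_nonneg hg
  have htau1 : ∀ m, tau (Xs Wd) m ≤ ph⁻¹ := fun m => by
    have := tau_le hg m 1 (fun i hi hi' => by omega)
    simpa using this
  have htau4 : ∀ m, Xs Wd m = true → tau (Xs Wd) m ≤ be⁻¹ ^ 2 := fun m hm => by
    rw [← p4]
    refine tau_le hg m 4 (fun i hi hi' => ?_)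
    obtain ⟨a, b, c⟩ := hg m hm
    interval_cases i
    · exact a
    · exact b
    · exact c
  -- bounds of lam
  have hlam_le : ∀ k, k < (Wd i).length → lam (Xs Wd) (pos Wd i + 2 * k) ≤ 0.4 := fun k hk => by
    rcases Nat.eq_zero_or_pos k with rfl | hk0
    · have := (h.lam_pos i).2
      simp only [Nat.mul_zero, Nat.add_zero]
      linarith
    · have := (h.lam_mid i k hk0 hk).2.1
      nlinarith
  have hlam_le' : ∀ k, k < (Wd i).length → Xs Wd (pos Wd i + 2 * k) = true →
      lam (Xs Wd) (pos Wd i + 2 * k) ≤ 0.16 := fun k hk hk' => by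
    rcases Nat.eq_zero_or_pos k with rfl | hk0
    · have := (h.lam_pos i).2
      simp only [Nat.mul_zero, Nat.add_zero]
      linarith
    · have := (h.lam_mid i k hk0 hk).2.2 hk'
      nlinarith
  have key : be⁻¹ ^ 2 ≤ tau (Xs Wd) (pos Wd i + 2 * j) + lam (Xs Wd) (pos Wd i + 2 * j) := by
    obtain ⟨mid, hmid, hok, -, c', hc'⟩ := runw_ok n (h.hu i) (h.hv i)
    rw [← h.hW i] at hmid
    have hlen : (Wd i).length = mid.length + n + 7 := by
      rw [hmid]; simp; omega
    have hml : n + 4 ≤ mid.length := by
      have := congrArg List.length hc'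
      simp at this
      omega
    have hXe : ∀ k, k < (Wd i).length → Xs Wd (pos Wd i + 2 * k) = (Wd i).getD k false :=
      fun k hk => Xs_even h.ne i k hk
    have hX0 : Xs Wd (pos Wd i) = true := by
      have := hXe 0 (by omega)
      rw [hmid] at this
      simpa using this
    have hXp : ∀ i', Xs Wd (pos Wd i') = true := fun i' => by
      obtain ⟨mid', hmid', -⟩ := runw_ok n (h.hu i') (h.hv i')
      rw [← h.hW i'] at hmid'
      have := Xs_even h.ne i' 0 (by rw [hmid']; simp)
      rw [hmid'] at this
      simpa using this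
    have hX1 : Xs Wd (pos Wd i + 2 * 1) = false := by
      have := hXe 1 (by omega)
      rw [hmid] at this
      simpa using this
    have hXm : ∀ k, k < mid.length → Xs Wd (pos Wd i + 2 * (3 + k)) = mid.getD k false :=
      fun k hk => by
        rw [hXe _ (by omega), hmid, List.getD_append_right _ _ _ _ (by simp),
          List.getD_append _ _ _ _ (by simp; omega)]
        simp
    have hXl : Xs Wd (pos Wd i + 2 * (3 + mid.length)) = true := by
      rw [hXe _ (by omega), hmid, List.getD_append_right _ _ _ _ (by simp),
          List.getD_append_right _ _ _ _ (by simp)]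
      simp
    have hXz : ∀ k, k < n + 3 → Xs Wd (pos Wd i + 2 * (3 + mid.length + 1 + k)) = false :=
      fun k hk => by
        rw [hXe _ (by omega), hmid, List.getD_append_right _ _ _ _ (by simp; omega),
          List.getD_append_right _ _ _ _ (by simp; omega)]
        have : 3 + mid.length + 1 + k - [true, false, true].length - mid.length = k + 1 := by
          simp; omega
        rw [this]
        simp [List.getD_eq_getElem?_getD, hk]
    have hXj := hX
    rcases Nat.lt_or_ge j 3 with hj3 | hj3
    · -- j = 1, 2
      have hj2 : j = 2 := by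
        rcases Nat.lt_or_ge j 2 with h' | h'
        · have : j = 1 := by omega
          subst this
          rw [hX1] at hX
          exact absurd hX (by simp)
        · omega
      subst hj2
      have e1 := h.lam_even i 1 (by omega)
      have e0 := h.lam_even i 0 (by omega)
      rw [hX1, if_neg (by simp)] at e1
      simp only [Nat.mul_zero, Nat.add_zero, hX0, if_true, Nat.zero_add] at e0
      have e2 : lam (Xs Wd) (pos Wd i + 2 * 2) = be⁻¹ * (be⁻¹ * (1 - lam (Xs Wd) (pos Wd i))) := by
        rw [← e0]; exact e1
      have e3 := (h.lam_pos i).2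
      have e4 := htau0 (pos Wd i + 2 * 2)
      rw [e2]
      have : 0 ≤ be⁻¹ * (be⁻¹ * (0 - lam (Xs Wd) (pos Wd i))) := by
        apply mul_nonneg hbpos.le
        apply mul_nonneg hbpos.le
        linarith
      nlinarith
    · obtain ⟨k, rfl⟩ := Nat.exists_eq_add_of_le hj3
      rcases Nat.lt_or_ge k mid.length with hk | hk
      · -- a digit of mid
        have hmk : mid.getD k false = true := by rw [← hXm k hk]; exact hX
        have hmk' : mid[k] = true := by
          rwa [List.getD_eq_getElem _ _ hk] at hmk
        have hsplit : mid = mid.take k ++ true :: mid.drop (k + 1) := by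
          conv_lhs => rw [← List.take_append_drop k mid, List.drop_eq_getElem_cons hk, hmk']
        have hres := hok _ _ hsplit
        set L : List Bool := (mid.take k).reverse ++ [true, false, true] with hL
        set R : List Bool := mid.drop (k + 1) ++ true :: List.replicate (n + 3) false with hR
        have hLl : L.length = k + 3 := by
          rw [hL]; simp; omega
        have hRl : R.length = mid.length - (k + 1) + (n + 4) := by
          rw [hR]; simp
        have hcmp := res_cmp (hR := fun t => tau (Xs Wd) (pos Wd i + 2 * (3 + k + t)))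
          (hL := fun t => lam (Xs Wd) (pos Wd i + 2 * (3 + k - t)))
          (bR := fun t => Xs Wd (pos Wd i + 2 * (3 + k + t)))
          (bL := fun t => Xs Wd (pos Wd i + 2 * (3 + k - t))) (L := L) (R := R) hres
          ?_ ?_ ?_ ?_ ?_
        · simpa using hcmp.le
        · intro t ht
          show Xs Wd (pos Wd i + 2 * (3 + k - (t + 1))) = L[t]
          rw [hXe _ (by omega), hmid]
          have e : [true, false, true] ++ (mid ++ true :: List.replicate (n + 3) false) =
              L.reverse ++ (true :: R) := by
            rw [hL, hR]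
            conv_lhs => rw [hsplit]
            simp
          rw [e, List.getD_append _ _ _ _ (by rw [List.length_reverse]; omega),
            List.getD_eq_getElem _ _ (by rw [List.length_reverse]; omega), List.getElem_reverse]
          congr 1
          omega
        · intro t ht
          show Xs Wd (pos Wd i + 2 * (3 + k + (t + 1))) = R[t]
          rw [hXe _ (by omega), hmid]
          have e : [true, false, true] ++ (mid ++ true :: List.replicate (n + 3) false) =
              (L.reverse ++ [true]) ++ R := by
            rw [hL, hR]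
            conv_lhs => rw [hsplit]
            simp
          rw [e, List.getD_append_right _ _ _ _ (by simp; omega),
            List.getD_eq_getElem _ _ (by simp; omega)]
          congr 1
          simp
          omega
        · intro t ht
          have := h.tau_even i (3 + k + t) (by omega)
          exact this
        · intro t ht
          have := h.lam_even i (3 + k - (t + 1)) (by omega)
          rw [show 3 + k - (t + 1) + 1 = 3 + k - t by omega] at this
          exact this
        · intro t ht2 htL htR hor
          show tau (Xs Wd) (pos Wd i + 2 * (3 + k + t)) + lam (Xs Wd) (pos Wd i + 2 * (3 + k - t)) < 1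
          rcases hor with hor | hor
          · have a := htau4 _ hor
            have b := hlam_le (3 + k - t) (by omega)
            linarith
          · have a := htau1 (pos Wd i + 2 * (3 + k + t))
            have b := hlam_le' (3 + k - t) (by omega) hor
            linarith
      · -- the last digit
        have hkm : k = mid.length := by
          by_contra hne
          obtain ⟨s, rfl⟩ : ∃ s, k = mid.length + 1 + s := ⟨k - mid.length - 1, by omega⟩
          have := hXz s (by omega)
          rw [show 3 + mid.length + 1 + s = 3 + (mid.length + 1 + s) by omega, hX] at this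
          exact absurd this (by simp)
        subst hkm
        -- tau
        have hps := pos_succ h.ne i
        have et : tau (Xs Wd) (pos Wd i + 2 * (3 + mid.length)) =
            ph⁻¹ ^ (2 * n + 6 + 1) * (1 - tau (Xs Wd) (pos Wd (i + 1))) := by
          have := tau_chain (X := Xs Wd) (pos Wd i + 2 * (3 + mid.length)) (2 * n + 6) ?_ ?_
          · rw [this, show pos Wd i + 2 * (3 + mid.length) + (2 * n + 6 + 1) = pos Wd (i + 1) by omega]
          · intro s hs1 hs2
            rcases Nat.even_or_odd s with ⟨r, hr⟩ | ⟨r, hr⟩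
            · have := hXz (r - 1) (by omega)
              rwa [show pos Wd i + 2 * (3 + mid.length + 1 + (r - 1)) =
                pos Wd i + 2 * (3 + mid.length) + s by omega] at this
            · have := Xs_odd h.ne i (3 + mid.length + r) (by omega)
              rwa [show pos Wd i + 2 * (3 + mid.length + r) + 1 =
                pos Wd i + 2 * (3 + mid.length) + s by omega] at this
          · rw [show pos Wd i + 2 * (3 + mid.length) + (2 * n + 6 + 1) = pos Wd (i + 1) by omega]
            exact hXp (i + 1)
        have ht4 := htau4 _ (hXp (i + 1))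
        -- lam
        have hmid_end : ∀ s, s < n + 4 → mid.getD (mid.length - 1 - s) false =
            (if s = 1 then true else false) := by
          intro s hs
          have hcl : c'.length + (n + 4) = mid.length := by
            have := congrArg List.length hc'
            simp at this
            omega
          conv_lhs => rw [hc']
          have hidx : (c' ++ (List.replicate (n + 2) false ++ [true, false])).length - 1 - s =
              c'.length + (n + 3 - s) := by
            simp; omega
          rw [hidx, List.getD_append_right _ _ _ _ (by omega)]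
          have : c'.length + (n + 3 - s) - c'.length = n + 3 - s := by omega
          rw [this]
          rcases Nat.lt_or_ge s 2 with h' | h'
          · rw [List.getD_append_right _ _ _ _ (by simp; omega)]
            interval_cases s
            · simp
            · simp
          · rw [List.getD_append _ _ _ _ (by simp; omega), if_neg (by omega)]
            simp only [List.getD_eq_getElem?_getD, List.getElem?_replicate]
            rw [if_pos (by omega)]
            rfl
        have l1 := h.lam_even i (3 + mid.length - 1) (by omega)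
        rw [show 3 + mid.length - 1 + 1 = 3 + mid.length by omega] at l1
        have x1 : Xs Wd (pos Wd i + 2 * (3 + mid.length - 1)) = false := by
          have := hXm (mid.length - 1) (by omega)
          rw [show 3 + (mid.length - 1) = 3 + mid.length - 1 by omega] at this
          rw [this]
          have := hmid_end 0 (by omega)
          simpa using this
        rw [x1, if_neg (by simp)] at l1
        have l2 := h.lam_even i (3 + mid.length - 2) (by omega)
        rw [show 3 + mid.length - 2 + 1 = 3 + mid.length - 1 by omega] at l2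
        have x2 : Xs Wd (pos Wd i + 2 * (3 + mid.length - 2)) = true := by
          have := hXm (mid.length - 2) (by omega)
          rw [show 3 + (mid.length - 2) = 3 + mid.length - 2 by omega] at this
          rw [this]
          have := hmid_end 1 (by omega)
          rw [show mid.length - 1 - 1 = mid.length - 2 by omega] at this
          simpa using this
        rw [x2, if_pos rfl] at l2
        have l3 := lam_chain h i (3 + mid.length - 2 - (n + 2)) (n + 2) (by omega) (fun s hs => by
          have := hXm (mid.length - 2 - (n + 2) + s) (by omega)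
          rw [show 3 + (mid.length - 2 - (n + 2) + s) = 3 + mid.length - 2 - (n + 2) + s by omega] at this
          rw [this]
          have := hmid_end (n + 3 - s) (by omega)
          rw [show mid.length - 1 - (n + 3 - s) = mid.length - 2 - (n + 2) + s by omega,
            if_neg (by omega)] at this
          exact this)
        rw [show 3 + mid.length - 2 - (n + 2) + (n + 2) = 3 + mid.length - 2 by omega] at l3
        obtain ⟨m0, m1, -⟩ := h.lam_mid i (3 + mid.length - 2 - (n + 2)) (by omega) (by omega)
        set z := lam (Xs Wd) (pos Wd i + 2 * (3 + mid.length - 2 - (n + 2))) with hz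
        set w := tau (Xs Wd) (pos Wd (i + 1)) with hw
        rw [et, l1, l2, l3]
        have hpw : ph⁻¹ ^ (2 * n + 6 + 1) = be⁻¹ ^ (n + 2) * (be⁻¹ * ph⁻¹) := by
          rw [be_sq]; ring
        rw [hpw]
        have hq : 0 < be⁻¹ ^ (n + 2) := pow_pos hbpos _
        have h5 : be⁻¹ ^ 2 * z ≤ be⁻¹ * (ph⁻¹ * (1 - w)) := by
          have h6 : be⁻¹ * z ≤ ph⁻¹ * (1 - w) := by nlinarith
          nlinarith
        have h7 : 0 ≤ be⁻¹ ^ (n + 2) * (be⁻¹ * (ph⁻¹ * (1 - w)) - be⁻¹ ^ 2 * z) :=
          mul_nonneg hq.le (by linarith)
        nlinarith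
  have hlj := hlam_le' j hj hX
  have htj := htau4 _ hX
  unfold Vv
  rw [if_pos hX]
  constructor
  · linarith
  · linarith

end Pool.Agent.Lib.GJ
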