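import Pool.Agent.Lib.GJ.SegB

/-!
# Module SegW: the values at the other positions

`T1 = 1 - be⁻¹ ^ 2`, `h = n + 3`, `D = 2 h + 1 = 2 n + 7`; `X = Xs Wd`; note `ph⁻¹ + ph⁻¹ ^ 3 = T1` (as `ph⁻¹ ^ 3 + ph⁻¹ ^ 4 = ph⁻¹ ^ 2`, `be⁻¹ = ph⁻¹ ^ 2`).
PROOF of `value_other`: `m` no digit.  Let `d` be the last digit before `m` (it exists: `X 0 = true`), `r = m - d ≥ 1`, and `p ≥ 1` with no digit among `m + 1, ..., m + p - 1` and `r + p ≥ 4` (if there is a next digit `m + p`, its distance from `d` is at least `4` by `Gap4`; otherwise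
any `p`).  `Vv = tau X m - lam X m`, `0 ≤ tau X m ≤ ph⁻¹ ^ p`, `lam X m = ps ^ r (1 - lam X d)`, `|lam X m| ≤ ph⁻¹ ^ r (1 + ph⁻¹ ^ D)` (`lam X d ≥ - ph⁻¹ ^ D` by module SegA: every digit is at a position `pos i + 2 j`; and `lam X d ≤ 1`).
So `|Vv| ≤ ph⁻¹ ^ p + ph⁻¹ ^ r + ph⁻¹ ^ (D + r) ≤ ph⁻¹ + ph⁻¹ ^ 3 + ph⁻¹ ^ (D + 1)`: the maximum of `ph⁻¹ ^ p + ph⁻¹ ^ r` under `p, r ≥ 1`, `p + r ≥ 4` is at `(1, 3)` (case distinction `r = 1`, `r = 2`, `r ≥ 3`).
`value_first`: `0 ≤ tau X (pos i) ≤ 1`, and `Rn.lam_pos` (`ph⁻¹ ^ 7 < 0.035`).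
-/

namespace Pool.Agent.Lib.GJ

namespace SegWAux

theorem be_sq : be⁻¹ = ph⁻¹ ^ 2 := by rw [be, inv_pow]

theorem p_lb : (0.618 : ℝ) < ph⁻¹ := by rw [ph_inv']; linarith [ph_lb]

theorem p_ub : ph⁻¹ < (0.61804 : ℝ) := by rw [ph_inv']; linarith [ph_ub]

theorem pD_nonneg (n : ℕ) : 0 < ph⁻¹ ^ (2 * n + 7) := by
  have := p_lb
  exact pow_pos (by linarith) _

theorem pD_le (n : ℕ) : ph⁻¹ ^ (2 * n + 7) < 0.035 := by
  have a := p_lb
  have b := p_ub
  have h1 : ph⁻¹ ^ (2 * n + 7) ≤ ph⁻¹ ^ 7 :=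
    pow_le_pow_of_le_one (by linarith) (by linarith) (by omega)
  have h2 : ph⁻¹ ^ 7 ≤ (0.61804 : ℝ) ^ 7 := pow_le_pow_left₀ (by linarith) b.le 7
  have h3 : (0.61804 : ℝ) ^ 7 < 0.035 := by norm_num
  linarith

theorem T1_eq : 1 - be⁻¹ ^ 2 = ph⁻¹ + ph⁻¹ ^ 3 := by
  rw [be_sq]
  have h : ph⁻¹ ^ 2 = 1 - ph⁻¹ := by
    rw [ph_inv']
    nlinarith [ph_sq]
  have h3 : ph⁻¹ ^ 3 = ph⁻¹ * (1 - ph⁻¹) := by rw [← h]; ring
  have h4 : (ph⁻¹ ^ 2) ^ 2 = (1 - ph⁻¹) ^ 2 := by rw [h]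
  rw [h4, h3]
  nlinarith

theorem lam_abs {X : ℕ → Bool} (d r : ℕ) (hd : X d = true)
    (h0 : ∀ s, 1 ≤ s → s < r + 1 → X (d + s) = false) :
    |lam X (d + (r + 1))| = ph⁻¹ ^ (r + 1) * |1 - lam X d| := by
  have hps : |ps| = ph⁻¹ := by
    rw [ph_inv, abs_of_nonpos]
    have := p_lb
    rw [ph_inv] at this
    linarith
  induction r with
  | zero =>
    show |lam X (d + 1)| = _
    rw [lam, hd, if_pos rfl, abs_mul, hps]
    ring
  | succ r ih =>
    have e := ih (fun s hs hs' => h0 s hs (by omega))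
    have hx : X (d + (r + 1)) = false := h0 (r + 1) (by omega) (by omega)
    show |lam X (d + (r + 1) + 1)| = _
    rw [lam, hx, if_neg (by simp), abs_mul, hps, e]
    ring

theorem last_digit {X : ℕ → Bool} (h0 : X 0 = true) (m : ℕ) :
    ∃ d, d ≤ m ∧ X d = true ∧ ∀ s, d < s → s ≤ m → X s = false := by
  induction m with
  | zero => exact ⟨0, le_rfl, h0, fun s hs hs' => by omega⟩
  | succ m ih =>
    by_cases hx : X (m + 1) = true
    · exact ⟨m + 1, le_rfl, hx, fun s hs hs' => by omega⟩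
    · obtain ⟨d, h1, h2, h3⟩ := ih
      refine ⟨d, by omega, h2, fun s hs hs' => ?_⟩
      rcases Nat.lt_or_ge s (m + 1) with h | h
      · exact h3 s hs (by omega)
      · have : s = m + 1 := by omega
        subst this
        simpa using hx

end SegWAux

open SegWAux

theorem Rn.value_other {n : ℕ} {u v : ℕ → List Bool} {Wd : ℕ → List Bool} (h : Rn n u v Wd)
    (m : ℕ) (hX : Xs Wd m = false) :
    |Vv (Xs Wd) m| ≤ 1 - be⁻¹ ^ 2 + ph⁻¹ ^ (2 * n + 8) := by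
  have hg := h.gap4
  have hD := pD_le n
  have hD0 := pD_nonneg n
  have hp1 := p_lb
  have hp2 := p_ub
  have hp0 : 0 < ph⁻¹ := by linarith
  have hX0 : Xs Wd 0 = true := by
    obtain ⟨mid, hmid, -⟩ := runw_ok n (h.hu 0) (h.hv 0)
    rw [← h.hW 0] at hmid
    have := Xs_even h.ne 0 0 (by rw [hmid]; simp)
    rw [hmid, pos_zero] at this
    simpa using this
  obtain ⟨d, hdm, hXd, hno⟩ := last_digit hX0 m
  have hdne : d ≠ m := by
    rintro rfl
    rw [hX] at hXd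
    exact absurd hXd (by simp)
  obtain ⟨r, hr⟩ : ∃ r, m = d + (r + 1) := ⟨m - d - 1, by omega⟩
  have hlam := lam_abs (X := Xs Wd) d r hXd (fun s hs hs' => hno (d + s) (by omega) (by omega))
  -- bound of lam at the digit d
  have hlamd : |1 - lam (Xs Wd) d| ≤ 1 + ph⁻¹ ^ (2 * n + 7) := by
    obtain ⟨i, j, hj, hij | ⟨hij, hj'⟩⟩ := exists_run h.ne d
    · rcases Nat.eq_zero_or_pos j with rfl | hj0
      · have e := h.lam_pos i
        simp only [Nat.mul_zero, Nat.add_zero] at hij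
        rw [hij, abs_le]
        constructor <;> linarith [e.1, e.2]
      · have e := h.lam_mid i j hj0 hj
        have hb : be⁻¹ < 0.382 := by rw [be_inv]; linarith [ph_lb]
        have hb0 : 0 < be⁻¹ := by rw [be_inv]; linarith [ph_ub]
        rw [hij, abs_le]
        constructor
        · nlinarith [e.2.1]
        · linarith [e.1]
    · exfalso
      have := Xs_odd h.ne i j hj'
      rw [← hij, hXd] at this
      exact absurd this (by simp)
  have hq : ph⁻¹ ^ (2 * n + 8) = ph⁻¹ * ph⁻¹ ^ (2 * n + 7) := by ring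
  have hT := T1_eq
  obtain ⟨g1, g2, g3⟩ := hg d hXd
  have htau0 := tau_nonneg hg m
  have hVv : |Vv (Xs Wd) m| ≤ tau (Xs Wd) m + |lam (Xs Wd) m| := by
    unfold Vv
    rw [hX, if_neg (by simp)]
    refine (abs_sub _ _).trans ?_
    rw [abs_of_nonneg htau0]
  rw [← hr] at hlam
  have hpr : 0 < ph⁻¹ ^ (r + 1) := pow_pos hp0 _
  have hlam' : |lam (Xs Wd) m| ≤ ph⁻¹ ^ (r + 1) * (1 + ph⁻¹ ^ (2 * n + 7)) := by
    rw [hlam]
    exact mul_le_mul_of_nonneg_left hlamd hpr.le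
  have hp2' : ph⁻¹ ^ 2 = 1 - ph⁻¹ := by
    rw [ph_inv']
    nlinarith [ph_sq]
  have hp3' : ph⁻¹ ^ 3 = ph⁻¹ * (1 - ph⁻¹) := by rw [← hp2']; ring
  rcases Nat.lt_or_ge r 1 with hr0 | hr1
  · -- r + 1 = 1, p = 3
    have hr0' : r = 0 := by omega
    subst hr0'
    have ht := tau_le hg m 3 (fun i hi hi' => by
      interval_cases i
      · rw [hr]; exact g2
      · rw [hr]; exact g3)
    simp only [zero_add, pow_one] at hlam'
    rw [hT, hq]
    nlinarith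
  · rcases Nat.lt_or_ge r 2 with hr2 | hr2
    · have hr1' : r = 1 := by omega
      subst hr1'
      have ht := tau_le hg m 2 (fun i hi hi' => by
        interval_cases i
        rw [hr]; exact g3)
      have e : (1 : ℕ) + 1 = 2 := rfl
      rw [e] at hlam'
      rw [hp2'] at ht hlam'
      rw [hT, hq, hp3']
      nlinarith
    · have ht := tau_le hg m 1 (fun i hi hi' => by omega)
      have hpw : ph⁻¹ ^ (r + 1) ≤ ph⁻¹ ^ 3 :=
        pow_le_pow_of_le_one hp0.le (by linarith) (by omega)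
      rw [pow_one] at ht
      have h1 : ph⁻¹ ^ (r + 1) * (1 + ph⁻¹ ^ (2 * n + 7)) ≤
          ph⁻¹ ^ 3 * (1 + ph⁻¹ ^ (2 * n + 7)) :=
        mul_le_mul_of_nonneg_right hpw (by linarith)
      have h2 : ph⁻¹ ^ 3 * ph⁻¹ ^ (2 * n + 7) ≤ ph⁻¹ * ph⁻¹ ^ (2 * n + 7) := by
        refine mul_le_mul_of_nonneg_right ?_ hD0.le
        rw [hp3']
        nlinarith
      rw [hT, hq]
      nlinarith

/-- the value at the first digit of a run -/
theorem Rn.value_first {n : ℕ} {u v : ℕ → List Bool} {Wd : ℕ → List Bool} (h : Rn n u v Wd)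
    (i : ℕ) : Vv (Xs Wd) (pos Wd i) = 1 - tau (Xs Wd) (pos Wd i) - lam (Xs Wd) (pos Wd i) ∧
      |Vv (Xs Wd) (pos Wd i)| ≤ 11 / 10 := by
  have hXp : Xs Wd (pos Wd i) = true := by
    obtain ⟨mid', hmid', -⟩ := runw_ok n (h.hu i) (h.hv i)
    rw [← h.hW i] at hmid'
    have := Xs_even h.ne i 0 (by rw [hmid']; simp)
    rw [hmid'] at this
    simpa using this
  have e : Vv (Xs Wd) (pos Wd i) = 1 - tau (Xs Wd) (pos Wd i) - lam (Xs Wd) (pos Wd i) := by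
    unfold Vv
    rw [hXp, if_pos rfl]
  refine ⟨e, ?_⟩
  have h1 := tau_nonneg h.gap4 (pos Wd i)
  have h2 := tau_le h.gap4 (pos Wd i) 1 (fun i hi hi' => by omega)
  rw [pow_one] at h2
  have h3 := h.lam_pos i
  have h4 := pD_le n
  have h5 := p_ub
  rw [e, abs_le]
  constructor <;> linarith [h3.1, h3.2]

end Pool.Agent.Lib.GJ
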