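import Pool.Agent.Lib.GJ.Defs

/-!
# GJ.SepD: the separation automaton (definitions)

States of the automaton: `34` states, `99` is the dead state.  A node describes the comparison of two pairs `(F, P)`, `(F', P')` of sequences
(`F` with weight `1`, `P` with weight `ph⁻¹`, read alternately): `D = x + y * ph` is the scaled difference that has been accumulated (to be compensated by the rest), the pairs
`(state, sign)` of the four sequences, and `par` tells which kind is read next (`false`: `F`).
-/

namespace Pool.Agent.Lib.GJ

/-- the transitions -/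
def dtab : List (ℕ × ℕ) :=
  [(1, 99), (99, 2), (3, 99), (4, 5), (6, 0), (7, 99), (8, 9), (10, 11), (99, 12), (13, 99),
    (99, 0), (14, 99), (15, 99), (99, 16), (17, 5), (99, 18), (19, 99), (20, 0), (21, 99),
    (22, 23), (99, 9), (24, 99), (25, 0), (26, 99), (27, 0), (28, 9), (99, 29), (30, 9), (99, 12),
    (31, 99), (99, 12), (32, 23), (33, 0), (99, 9)]

/-- lower and upper bounds of the values from a state, times `10 ^ 6` -/
def dlo : List ℤ :=
  [328873, 861034, 18182, 47634, 124739, 124739, 326605, 326605, 855096, 333313, 855096, 47634,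
    363333, 872657, 124739, 951252, 18182, 326605, 18182, 47634, 855096, 47634, 124739, 333313,
    124739, 326605, 872657, 326605, 855096, 47634, 855096, 124739, 326605, 855096]

def dhi : List ℤ :=
  [379331, 993068, 363784, 952366, 874394, 375034, 872698, 981818, 861232, 379331, 874394, 363784,
    379331, 993068, 952366, 993068, 333354, 874394, 127590, 872698, 872698, 334002, 874394, 375034,
    874394, 872698, 981818, 872698, 861232, 333354, 861232, 872698, 874394, 872698]

/-- the next state -/
def dst (q : ℕ) (b : Bool) : ℕ := if b then (dtab.getD q (99, 99)).2 else (dtab.getD q (99, 99)).1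

/-- the state after the first `n` bits -/
def drun (q : ℕ) (y : ℕ → Bool) : ℕ → ℕ
  | 0 => q
  | n + 1 => dst (drun q y n) (y n)

/-- the sequence is accepted from the state `q` -/
def Acc (q : ℕ) (y : ℕ → Bool) : Prop := ∀ n, drun q y n < 34

/-- bounds of the signed values (`s = true`: negative sign) -/
def rlo (q : ℕ) (s : Bool) : ℤ := if s then - dhi.getD q 0 else dlo.getD q 0

def rhi (q : ℕ) (s : Bool) : ℤ := if s then - dlo.getD q 0 else dhi.getD q 0

/-- nodes -/
structure Nod where
  x : ℤ
  y : ℤ
  f : ℕ × Bool
  f' : ℕ × Bool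
  p : ℕ × Bool
  p' : ℕ × Bool
  par : Bool

/-- upper bound of `ph⁻¹ * z * 10 ^ 6` -/
def muU (z : ℤ) : ℤ := if 0 ≤ z then 618034 * z else 618033 * z

def muL (z : ℤ) : ℤ := if 0 ≤ z then 618033 * z else 618034 * z

/-- the difference can not be compensated, with a margin of `0.01` (all numbers times `10 ^ 12`) -/
def killed (t : Nod) : Bool :=
  let a := rhi t.f.1 t.f.2 - rlo t.f'.1 t.f'.2
  let b := rlo t.f.1 t.f.2 - rhi t.f'.1 t.f'.2
  let c := rhi t.p.1 t.p.2 - rlo t.p'.1 t.p'.2
  let d := rlo t.p.1 t.p.2 - rhi t.p'.1 t.p'.2
  let H := if t.par then muU a + 1000000 * c else 1000000 * a + muU c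
  let Lo := if t.par then muL b + 1000000 * d else 1000000 * b + muL d
  let Dl := 1000000000000 * t.x + 1000000 * (if 0 ≤ t.y then 1618033 * t.y else 1618034 * t.y)
  let Du := 1000000000000 * t.x + 1000000 * (if 0 ≤ t.y then 1618034 * t.y else 1618033 * t.y)
  decide (H + 10000000000 ≤ Dl) || decide (Du ≤ Lo - 10000000000)

/-- the value of a bit with sign -/
def bv (s b : Bool) : ℤ := if b then (if s then -1 else 1) else 0

/-- the node after reading the bits `b`, `b'` of the active pair -/
def nxt (t : Nod) (b b' : Bool) : Nod :=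
  if t.par then
    let dl := bv t.p.2 b - bv t.p'.2 b'
    ⟨t.y, t.x - dl + t.y, t.f, t.f', (dst t.p.1 b, xor t.p.2 b), (dst t.p'.1 b', xor t.p'.2 b'), false⟩
  else
    let dl := bv t.f.2 b - bv t.f'.2 b'
    ⟨t.y, t.x - dl + t.y, (dst t.f.1 b, xor t.f.2 b), (dst t.f'.1 b', xor t.f'.2 b'), t.p, t.p', true⟩

/-- one of the states is dead -/
def dead (t : Nod) : Bool :=
  decide (34 ≤ t.f.1) || decide (34 ≤ t.f'.1) || decide (34 ≤ t.p.1) || decide (34 ≤ t.p'.1)

/-- all continuations are killed within `n` steps -/
def skN : ℕ → Nod → Bool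
  | 0, t => dead t || killed t
  | n + 1, t => dead t || killed t || (skN n (nxt t true true) && skN n (nxt t true false) &&
      skN n (nxt t false true) && skN n (nxt t false false))

/-- the test of all nodes directly after a first difference: states `f`, `p`, sign `s` of the passive pair -/
def sk0 (f p : ℕ) (s par : Bool) : Bool :=
  skN 5 (nxt ⟨0, 0, (f, false), (f, false), (p, s), (p, s), par⟩ true false) &&
  skN 5 (nxt ⟨0, 0, (f, false), (f, false), (p, s), (p, s), par⟩ false true)

/-- the test for one state `f` -/
def skf (f : ℕ) : Bool :=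
  (List.range 34).all (fun p => sk0 f p false false && sk0 f p true false &&
    sk0 f p false true && sk0 f p true true)

end Pool.Agent.Lib.GJ
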