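import Pool.Agent.Lib.GJ.SepD

/-!
# GJ.SepK: kernel computation for the separation
-/

set_option maxRecDepth 100000

namespace Pool.Agent.Lib.GJ

theorem skf_all : (List.range 34).all skf = true := by
  rw [List.all_eq_true]
  intro q hq
  rw [List.mem_range] at hq
  interval_cases q
  all_goals decide +kernel

/-- the inequalities for the bounds of the values, with `be⁻¹` between `0.381966` and `0.381967` -/
def skB (q : ℕ) : Bool :=
  decide (0 ≤ dlo.getD q 0) && decide (0 ≤ dhi.getD q 0) &&
  (decide (34 ≤ dst q false) || (decide (1000000 * dlo.getD q 0 ≤ 381966 * dlo.getD (dst q false) 0) &&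
    decide (381967 * dhi.getD (dst q false) 0 ≤ 1000000 * dhi.getD q 0))) &&
  (decide (34 ≤ dst q true) || (decide (1000000 * dlo.getD q 0 ≤
      1000000000000 - 381967 * dhi.getD (dst q true) 0) &&
    decide (1000000000000 - 381966 * dlo.getD (dst q true) 0 ≤ 1000000 * dhi.getD q 0)))

theorem skB_all : (List.range 34).all skB = true := by decide +kernel

end Pool.Agent.Lib.GJ
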