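import Pool.Agent.Lib.GJ.Orb

/-!
# Module Side: digits and side values of an orbit

Here `2 - ph = ph⁻¹ ^ 2 = 0.381966…`.

PROOF of `exists_sys`.  Let `s n` be the integer with `(s n : ℝ) = E n + E (n+1) - E (n+2)` and
`R n = E (n+2) - ps * E (n+1)`, `L n = - ps * E (n+1) - E n`.
* `|s n| ≤ 3 v < 3 (2 - ph) < 1.15`, so `s n ∈ {0, 1, -1}`.
* `R n = ph⁻¹ (s (n+1) + R (n+1))` and `L n = ps (s (n-1) + L (n-1))`: use `ph⁻¹ = - ps`, `ph * ps = -1`, `ph + ps = 1`
  (`R`: the right side is `-ps (E (n+1) + (1 - ps) E (n+2)) = -ps E (n+1) - ps ph E (n+2)`; `L`: it is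
  `ps ((1 - ps) E n - E (n+1)) = ps ph E n - ps E (n+1)`).
* `s n + R n + L n = (1 - 2 ps) E (n+1) = √5 E (n+1)`.
* bounded: `|R n|, |L n| ≤ 2 v` (`|ps| < 1`).
* gaps: let `s n = 1` (the case `-1` by symmetry: `-E` is an orbit as well; or do both by hand).  Put `a = E n`, `b = E (n+1)`,
  `c = E (n+2) = a + b - 1`.  Then `a + b = 1 + c ≥ 1 - v`, so `a, b ≥ 1 - 2 v > 0.236`.
  `s (n+1) = b + c - E (n+3)`, `b + c = a + 2 b - 1 ≤ 3 v - 1 < 0.146` and `b + c ≥ b - v ≥ 1 - 3 v > -0.146`: hence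
  `|s (n+1)| < 1`, `s (n+1) = 0`, `E (n+3) = b + c`.
  `s (n+2) = c + E (n+3) - E (n+4) = b + 2 c - E (n+4)`: if it is `-1` then `b + 2 c = E (n+4) - 1 ≤ v - 1` and `c ≥ -v` give
  `b ≤ 3 v - 1 < 0.146`, a contradiction; if it is `1` then `b + 2 c ≥ 1 - v > 0.6`, but `b + c < 0.146`, `c ≤ 2 v - 1 < 0`.
  So `s (n+2) = 0`, `E (n+4) = b + 2 c`.
  `s (n+3) = E (n+3) + E (n+4) - E (n+5)`: if it is `1` then as before `E (n+3) ≥ 1 - 2 v > 0.236`, but `E (n+3) = b + c < 0.146`;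
  if it is `-1` then `E (n+3) ≤ -(1 - 2 v) < -0.236`, but `b + c > -0.146`.  So `s (n+3) = 0`.
  All of this is `linarith`/`nlinarith` from `v < 2 - ph < 0.38197`; an integer `z` with `|(z : ℝ)| < 1` is `0`.
-/

namespace Pool.Agent.Lib.GJ

/-- digits `s` with side values `R` (future) and `L` (past), all values at most `T` -/
structure Sys (T : ℝ) (s : ℤ → ℤ) (R L : ℤ → ℝ) : Prop where
  dig : ∀ n, s n = 0 ∨ s n = 1 ∨ s n = -1
  right : ∀ n, R n = ph⁻¹ * (s (n + 1) + R (n + 1))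
  left : ∀ n, L n = ps * (s (n - 1) + L (n - 1))
  bdd : ∃ B : ℝ, ∀ n, |R n| ≤ B ∧ |L n| ≤ B
  le : ∀ n, |s n + R n + L n| ≤ T
  gap : ∀ n, s n ≠ 0 → s (n + 1) = 0 ∧ s (n + 2) = 0 ∧ s (n + 3) = 0

namespace SideAux

private theorem int_small {z : ℤ} (h : |(z : ℝ)| < 2) : z = 0 ∨ z = 1 ∨ z = -1 := by
  rw [abs_lt] at h
  have h1 : (-2 : ℤ) < z := by exact_mod_cast h.1
  have h2 : z < 2 := by exact_mod_cast h.2
  omega

/-- the gaps after a digit `1` -/
private theorem gap_one {v : ℝ} (hv : v < 0.4) (e : ℕ → ℝ) (he : ∀ i, |e i| ≤ v) (s : ℕ → ℤ)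
    (hs : ∀ i, (s i : ℝ) = e i + e (i + 1) - e (i + 2)) (hd : ∀ i, s i = 0 ∨ s i = 1 ∨ s i = -1)
    (h0 : s 0 = 1) : s 1 = 0 ∧ s 2 = 0 ∧ s 3 = 0 := by
  have e0 := abs_le.1 (he 0)
  have e1 := abs_le.1 (he 1)
  have e2 := abs_le.1 (he 2)
  have e3 := abs_le.1 (he 3)
  have e4 := abs_le.1 (he 4)
  have e5 := abs_le.1 (he 5)
  have s0 := hs 0
  have s1 := hs 1
  have s2 := hs 2
  have s3 := hs 3
  simp only [Nat.reduceAdd, zero_add] at s0 s1 s2 s3
  rw [h0] at s0
  push_cast at s0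
  have h1 : s 1 = 0 := by
    rcases hd 1 with h | h | h
    · exact h
    · exfalso
      rw [h] at s1
      push_cast at s1
      linarith [e0.1, e0.2, e1.1, e1.2, e2.1, e2.2, e3.1, e3.2]
    · exfalso
      rw [h] at s1
      push_cast at s1
      linarith [e0.1, e0.2, e1.1, e1.2, e2.1, e2.2, e3.1, e3.2]
  rw [h1] at s1
  push_cast at s1
  have h2 : s 2 = 0 := by
    rcases hd 2 with h | h | h
    · exact h
    · exfalso
      rw [h] at s2
      push_cast at s2
      linarith [e0.1, e0.2, e1.1, e1.2, e2.1, e2.2, e3.1, e3.2, e4.1, e4.2]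
    · exfalso
      rw [h] at s2
      push_cast at s2
      linarith [e0.1, e0.2, e1.1, e1.2, e2.1, e2.2, e3.1, e3.2, e4.1, e4.2]
  rw [h2] at s2
  push_cast at s2
  have h3 : s 3 = 0 := by
    rcases hd 3 with h | h | h
    · exact h
    · exfalso
      rw [h] at s3
      push_cast at s3
      linarith [e0.1, e0.2, e1.1, e1.2, e2.1, e2.2, e3.1, e3.2, e4.1, e4.2, e5.1, e5.2]
    · exfalso
      rw [h] at s3
      push_cast at s3
      linarith [e0.1, e0.2, e1.1, e1.2, e2.1, e2.2, e3.1, e3.2, e4.1, e4.2, e5.1, e5.2]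
  exact ⟨h1, h2, h3⟩

end SideAux

theorem exists_sys {v : ℝ} {E : ℤ → ℝ} (h : Orb v E) (hv : v < 2 - ph) :
    ∃ s R L, Sys (Real.sqrt 5 * v) s R L ∧ Real.sqrt 5 * v = |s (-1) + R (-1) + L (-1)| := by
  obtain ⟨hE0, hE, hz⟩ := h
  have hv' : v < 0.4 := by have := ph_lb; linarith
  have hv0 : 0 ≤ v := by rw [← hE0]; exact abs_nonneg _
  have h5 : (0 : ℝ) ≤ Real.sqrt 5 := Real.sqrt_nonneg 5
  choose z hz using hz
  set s : ℤ → ℤ := fun n => -z n with hsdef
  have hs : ∀ n, (s n : ℝ) = E n + E (n + 1) - E (n + 2) := by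
    intro n
    have := hz n
    simp only [hsdef]
    push_cast
    linarith
  have hps : ps = 1 - ph := ps_eq
  have hps1 : |ps| ≤ 1 := by
    rw [hps, abs_le]
    constructor <;> linarith [ph_lb, ph_ub]
  have hdig : ∀ n, s n = 0 ∨ s n = 1 ∨ s n = -1 := by
    intro n
    apply SideAux.int_small
    rw [hs n, abs_lt]
    have h1 := abs_le.1 (hE n)
    have h2 := abs_le.1 (hE (n + 1))
    have h3 := abs_le.1 (hE (n + 2))
    constructor <;> linarith [h1.1, h1.2, h2.1, h2.2, h3.1, h3.2]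
  have hsum : ∀ n, (s n : ℝ) + (E (n + 2) - ps * E (n + 1)) + (-ps * E (n + 1) - E n) =
      Real.sqrt 5 * E (n + 1) := by
    intro n
    have h1 := ph_sub_ps
    rw [hs n, ← h1]
    have : ph = 1 - ps := by linarith
    rw [this]
    ring
  refine ⟨s, fun n => E (n + 2) - ps * E (n + 1), fun n => -ps * E (n + 1) - E n,
    ⟨hdig, ?_, ?_, ⟨2 * v, ?_⟩, ?_, ?_⟩, ?_⟩
  · intro n
    have e1 : n + 1 + 1 = n + 2 := by ring
    have e2 : n + 1 + 2 = n + 3 := by ring
    have h1 := hs (n + 1)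
    simp only [e1, e2] at h1 ⊢
    rw [h1, ph_inv]
    have h2 := ph_mul_ps
    have h3 : ps ^ 2 = ps + 1 := ps_sq
    linear_combination (-(E (n + 2))) * h3
  · intro n
    have e1 : n - 1 + 1 = n := by ring
    have e2 : n - 1 + 2 = n + 1 := by ring
    have h1 := hs (n - 1)
    simp only [e1, e2] at h1 ⊢
    rw [h1]
    have h3 : ps ^ 2 = ps + 1 := ps_sq
    linear_combination (E n) * h3
  · intro n
    have h1 : |ps * E (n + 1)| ≤ v := by
      rw [abs_mul]
      calc |ps| * |E (n + 1)| ≤ 1 * v := mul_le_mul hps1 (hE _) (abs_nonneg _) zero_le_one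
        _ = v := one_mul v
    have h1' := abs_le.1 h1
    have h2 := abs_le.1 (hE (n + 2))
    have h3 := abs_le.1 (hE n)
    refine ⟨abs_le.2 ⟨?_, ?_⟩, abs_le.2 ⟨?_, ?_⟩⟩ <;>
      linarith [h1'.1, h1'.2, h2.1, h2.2, h3.1, h3.2]
  · intro n
    rw [hsum n, abs_mul, abs_of_nonneg h5]
    exact mul_le_mul_of_nonneg_left (hE _) h5
  · intro n hn
    rcases hdig n with h0 | h0 | h0
    · exact absurd h0 hn
    · have key := SideAux.gap_one hv' (fun i : ℕ => E (n + i)) (fun i => hE _)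
        (fun i : ℕ => s (n + i))
        (fun i => by
          have h1 := hs (n + i)
          have e1 : n + (((i + 1 : ℕ)) : ℤ) = n + i + 1 := by push_cast; ring
          have e2 : n + (((i + 2 : ℕ)) : ℤ) = n + i + 2 := by push_cast; ring
          rw [e1, e2]
          exact h1)
        (fun i => hdig _) (by simpa using h0)
      simpa using key
    · have key := SideAux.gap_one hv' (fun i : ℕ => -E (n + i))
        (fun i => by rw [abs_neg]; exact hE _)
        (fun i : ℕ => -s (n + i))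
        (fun i => by
          have h1 := hs (n + i)
          have e1 : n + (((i + 1 : ℕ)) : ℤ) = n + i + 1 := by push_cast; ring
          have e2 : n + (((i + 2 : ℕ)) : ℤ) = n + i + 2 := by push_cast; ring
          simp only [e1, e2]
          push_cast
          rw [h1]
          ring)
        (fun i => by rcases hdig (n + i) with h | h | h <;> simp [h])
        (by simp [h0])
      simpa using key
  · have := hsum (-1)
    simp only
    rw [this]
    norm_num
    rw [hE0, abs_of_nonneg h5]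

end Pool.Agent.Lib.GJ
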