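import Pool.Agent.Lib.GJ.TL

/-!
# Module SpecS: sequences of digits give elements of the spectrum

PROOF.  Put `s k = sq X k ∈ {0, 1, -1}` (real) and `ξ = (∑' k, s k * ph⁻¹ ^ (k + 1)) / √5` (that is `tv X / √5`).  With `R n = ∑' j, s (n + 1 + j) ph⁻¹ ^ (j + 1)` and
`L n = ∑ j < n, s j ps ^ (n - j)` one has
`ξ * ph ^ (n + 1) = ∑_{k ≤ n} s k (ph ^ (n - k) - ps ^ (n - k)) / √5 + (s n + L n + R n) / √5`, and `(ph ^ m - ps ^ m) / √5` is an integer (Fibonacci: `Real.coe_fib_eq` / induction with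
`ph ^ 2 = ph + 1`, `ps ^ 2 = ps + 1`).  So `ξ ph ^ (n+1) = integer + (s n + L n + R n) / √5`.
(A proof by induction on `n` may be simpler: `a n = ξ ph ^ (n+1) - (s n + L n + R n) / √5`; `R n = ph⁻¹ (s (n+1) + R (n+1))`, so `R (n+1) = ph R n - s (n+1)`, `L (n+1) = ps (s n + L n)`; then
`s (n+1) + L (n+1) + R (n+1) = ph R n + ps (s n + L n)`, and `ph * (s n + L n + R n) - that = (ph - ps) (s n + L n) = √5 (s n + L n)`; so `a (n+1) = ph a n + (s n + L n)`; with `ps` conjugate `b n` similarly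
one gets integers.  Choose what is easiest.)
Signs: let `ε n = (-1) ^ (number of digits below n)`.  `s n = ε n` if `X n`.  `R n = ε (n+1) * tau X n`, and `L n = - ε n * lam X n` (induction: if `X n`: `ε (n+1) = - ε n`,
`L (n+1) = ps (ε n - ε n lam) = - ε (n+1) ps (1 - lam)`; if not `X n`: `ε (n+1) = ε n`).
So `s n + R n + L n = ε n (1 - tau - lam)` at digits, `ε n (tau - lam)` otherwise: the absolute value is `|Vv X n|`.
`|Vv X n| / √5 ≤ 1.1 / √5 < 1/2`, hence `nid (ξ ph ^ (n+1)) = |Vv X n| / √5` (`round` of integer plus a number of absolute value `< 1/2`).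
The limsup does not change under the shift `n + 1` (`Filter.limsup_nat_add`) and `limsup (u / √5) = (limsup u) / √5` (monotone continuous map, or work with `nid` directly and prove the equality for
`limsup (fun n => |Vv X n| / √5)`; the statement is given in this form).
-/

open Filter

namespace Pool.Agent.Lib.GJ

namespace SpecSAux

/-- the sign at `n` -/
def ep (X : ℕ → Bool) : ℕ → ℤ
  | 0 => 1
  | n + 1 => if X n then -ep X n else ep X n

/-- the signed digit at `n` -/
def sd (X : ℕ → Bool) (n : ℕ) : ℤ := if X n then ep X n else 0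

/-- the integer part -/
def ip (X : ℕ → Bool) : ℕ → ℤ
  | 0 => 0
  | 1 => sd X 0
  | n + 2 => ip X (n + 1) + ip X n + sd X (n + 1)

/-- the digit at `n` and the left side value, with signs -/
noncomputable def cc (X : ℕ → Bool) (n : ℕ) : ℝ := (sd X n : ℝ) - (ep X n : ℝ) * lam X n

theorem ep_abs (X : ℕ → Bool) (n : ℕ) : |(ep X n : ℝ)| = 1 := by
  induction n with
  | zero => simp [ep]
  | succ n ih =>
    rw [ep]
    split_ifs
    · rw [Int.cast_neg, abs_neg, ih]
    · exact ih

theorem W_eq (X : ℕ → Bool) (n : ℕ) :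
    (ep X n : ℝ) * Vv X n = cc X n + (ep X (n + 1) : ℝ) * tau X n := by
  unfold cc sd Vv
  rw [ep]
  by_cases h : X n = true
  · simp only [h, if_true]
    push_cast
    ring
  · simp only [h, if_false, Bool.false_eq_true]
    push_cast
    ring

theorem cc_succ (X : ℕ → Bool) (n : ℕ) :
    cc X (n + 1) = (sd X (n + 1) : ℝ) + ps * cc X n := by
  unfold cc
  rw [lam]
  by_cases h : X n = true
  · have h1 : ep X (n + 1) = -ep X n := by rw [ep]; simp [h]
    have h2 : sd X n = ep X n := by unfold sd; simp [h]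
    rw [h1, h2]
    simp only [h, if_true]
    push_cast
    ring
  · have h1 : ep X (n + 1) = ep X n := by rw [ep]; simp [h]
    have h2 : sd X n = 0 := by unfold sd; simp [h]
    rw [h1, h2]
    simp only [h, if_false, Bool.false_eq_true]
    push_cast
    ring

theorem R_succ (X : ℕ → Bool) (n : ℕ) :
    (ep X (n + 2) : ℝ) * tau X (n + 1) =
      ph * ((ep X (n + 1) : ℝ) * tau X n) - (sd X (n + 1) : ℝ) := by
  rw [tau_rec X n]
  have hp : ph * ph⁻¹ = 1 := mul_inv_cancel₀ (ne_of_gt ph_pos)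
  by_cases h : X (n + 1) = true
  · have h1 : ep X (n + 2) = -ep X (n + 1) := by rw [ep]; simp [h]
    have h2 : sd X (n + 1) = ep X (n + 1) := by unfold sd; simp [h]
    rw [h1, h2]
    simp only [h, if_true]
    push_cast
    linear_combination (-(ep X (n + 1) : ℝ) * (1 - tau X (n + 1))) * hp
  · have h1 : ep X (n + 2) = ep X (n + 1) := by rw [ep]; simp [h]
    have h2 : sd X (n + 1) = 0 := by unfold sd; simp [h]
    rw [h1, h2]
    simp only [h, if_false, Bool.false_eq_true]
    push_cast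
    linear_combination (-(ep X (n + 1) : ℝ) * tau X (n + 1)) * hp

theorem W_succ (X : ℕ → Bool) (n : ℕ) :
    ph * ((ep X n : ℝ) * Vv X n) = (ep X (n + 1) : ℝ) * Vv X (n + 1) + Real.sqrt 5 * cc X n := by
  rw [W_eq, W_eq X (n + 1), cc_succ, R_succ, ← ph_sub_ps]
  ring

theorem main (X : ℕ → Bool) (n : ℕ) :
    (ph⁻¹ * (((ep X 0 : ℝ) * Vv X 0) / Real.sqrt 5)) * ph ^ (n + 1) =
      (ip X n : ℝ) + ((ep X n : ℝ) * Vv X n) / Real.sqrt 5 ∧
    cc X n = (ip X (n + 1) : ℝ) - ph * (ip X n : ℝ) := by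
  have hp : ph⁻¹ * ph = 1 := inv_mul_cancel₀ (ne_of_gt ph_pos)
  have h5 : Real.sqrt 5 ≠ 0 := by have := sqrt5_lb; intro h; linarith
  induction n with
  | zero =>
    constructor
    · rw [ip, zero_add, pow_one]
      push_cast
      linear_combination (((ep X 0 : ℝ) * Vv X 0) / Real.sqrt 5) * hp
    · simp [ip, cc, lam]
  | succ n ih =>
    obtain ⟨ih1, ih2⟩ := ih
    constructor
    · rw [pow_succ, ← mul_assoc, ih1]
      have h1 := W_succ X n
      have h2 : ph * (((ep X n : ℝ) * Vv X n) / Real.sqrt 5) =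
          ((ep X (n + 1) : ℝ) * Vv X (n + 1)) / Real.sqrt 5 + cc X n := by
        field_simp
        linarith
      linear_combination h2 + ih2
    · rw [cc_succ, ih2, ip]
      push_cast
      have h1 := ph_mul_ps
      have h2 := ps_eq
      linear_combination (-(ip X n : ℝ)) * h1 + (ip X (n + 1) : ℝ) * h2

end SpecSAux

open SpecSAux

theorem spec_of_seq (X : ℕ → Bool) (hV : ∀ n, |Vv X n| ≤ 11 / 10) :
    limsup (fun n => |Vv X n| / Real.sqrt 5) atTop ∈ Spec ph := by
  refine ⟨ph⁻¹ * (((ep X 0 : ℝ) * Vv X 0) / Real.sqrt 5), ?_⟩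
  rw [← limsup_nat_add (fun n : ℕ => nid
    (ph⁻¹ * (((ep X 0 : ℝ) * Vv X 0) / Real.sqrt 5) * ph ^ n)) 1]
  congr 1
  funext n
  rw [(main X n).1]
  have h5 : (0 : ℝ) < Real.sqrt 5 := by have := sqrt5_lb; linarith
  have habs : |((ep X n : ℝ) * Vv X n) / Real.sqrt 5| = |Vv X n| / Real.sqrt 5 := by
    rw [abs_div, abs_mul, ep_abs, one_mul, abs_of_pos h5]
  have hlt : |((ep X n : ℝ) * Vv X n) / Real.sqrt 5| < 1 / 2 := by
    rw [habs, div_lt_iff₀ h5]
    have := hV n
    have := sqrt5_lb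
    linarith
  have hr : round (((ep X n : ℝ) * Vv X n) / Real.sqrt 5) = 0 := by
    rw [round_eq_zero_iff]
    rw [abs_lt] at hlt
    exact ⟨by linarith [hlt.1], hlt.2⟩
  unfold nid
  rw [round_intCast_add, hr, add_zero, add_sub_cancel_left, habs]

end Pool.Agent.Lib.GJ
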