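import Pool.Agent.Lib.GJ.Side

/-!
# Module Str: one parity class, alternating signs

Write `q = be⁻¹ ^ 2 = ph⁻¹ ^ 4 = (2 - ph) ^ 2 ∈ (0.1458, 0.1459)`; the hypothesis is `T < 1 - q`.
A digit is an `n` with `s n ≠ 0`; `r n = s n * R n`, `l n = s n * L n`.

PROOF.  (a) `|R n| ≤ q / (1 - q) < 0.171` for every digit: let `ρ` be the supremum of `|R n|` over the digits (finite by `bdd`).
By `gap` and `right`, `R n = ph⁻¹ ^ 4 (s (n+4) + R (n+4))`.  Let `m > n` be the next digit; `m = n + g`, `g ≥ 4`, then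
`R n = ph⁻¹ ^ g (s m + R m)`, `|R n| ≤ q (1 + ρ)`.  If there is no next digit then `R n = ph⁻¹ ^ k R (n + k) → 0` (bounded), `R n = 0`.
So `ρ ≤ q (1 + ρ)`.  The same for `L` (`|ps| = ph⁻¹`).  (Instead of the supremum: prove `|R n| ≤ q (1 + B)` from `≤ B` and iterate,
or use `⨆`.)
(b) `r n ≤ 0` and `l n ≤ 0` for every digit `n`.  Suppose `r n > 0`.  `|s n + R n + L n| = |1 + r n + l n| ≤ T < 1 - q` gives
`l n < - q - r n < -q`.  So there is a previous digit `m = n - g`, `g ≥ 4`, `L n = ps ^ g (s m + L m)`, `|L n| ≤ ph⁻¹ ^ g * 1.171`;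
`ph⁻¹ ^ 5 * 1.171 < 0.106 < q`, so `g = 4`, `L n = q (s m + L m)`, and `s m = - s n` (otherwise `l n ≥ q (1 - 0.171) > 0`), so
`l n = - q (1 + l m)` and `l n < - q` gives `l m > 0`.  At `m`: `R m = q (s n + R n)`, `r m = - q (1 + r n)`, and
`1 + r m + l m ≤ T < 1 - q` gives `l m < q r n`.  At `n`: `1 + r n + l n < 1 - q` gives `r n < q l m`.  Together
`l m < q ^ 2 l m`, a contradiction with `l m > 0`.  The case `l n > 0` is the mirror image (next digit `m = n + 4`,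
`r n = - q (1 + r m)`, `r m > 0`, `l m = - q (1 + l n)`).
(c) Consecutive digits `n < m = n + g` (no digit between them): `r n = s n s m ph⁻¹ ^ g (1 + r m) ≤ 0` and `1 + r m > 0`, so
`s n s m = -1`; `l m = s m s n ps ^ g (1 + l n) ≤ 0`, `1 + l n > 0`, so `ps ^ g > 0`, `g` is even (`ps < 0`).
(d) Hence all digits have the same parity: induction on the distance of two digits (take the next digit).
(e) bounds: `|R n| = ph⁻¹ ^ g (1 + r m) ≤ q` for a digit `n` by (b), (c) (or `R n = 0`).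
-/

namespace Pool.Agent.Lib.GJ

/-- the structure of the digits below the threshold -/
structure Str (s : ℤ → ℤ) (R L : ℤ → ℝ) (c : ℤ) : Prop where
  cls : ∀ n, s n ≠ 0 → ∃ j : ℤ, n = c + 2 * j
  alt : ∀ m n, m < n → s m ≠ 0 → s n ≠ 0 → (∀ i, m < i → i < n → s i = 0) → s n = - s m
  negR : ∀ n, s n ≠ 0 → s n * R n ≤ 0
  negL : ∀ n, s n ≠ 0 → s n * L n ≤ 0
  bR : ∀ n, s n ≠ 0 → |R n| ≤ be⁻¹ ^ 2
  bL : ∀ n, s n ≠ 0 → |L n| ≤ be⁻¹ ^ 2

namespace StrAux

open Filter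

theorem w_eq : ph⁻¹ = ph - 1 := ph_inv'

theorem w_pos : 0 < ph⁻¹ := inv_pos.2 ph_pos

theorem w_lt : ph⁻¹ < 0.618034 := by rw [w_eq]; linarith [ph_ub]

theorem w_sq : ph⁻¹ ^ 2 = be⁻¹ := by rw [w_eq, be_inv]; nlinarith [ph_sq]

theorem w4 : ph⁻¹ ^ 4 = be⁻¹ ^ 2 := by rw [← w_sq]; ring

theorem q_lb : (0.1458 : ℝ) < be⁻¹ ^ 2 := by
  rw [be_inv]; nlinarith [ph_ub, ph_lb]

theorem q_ub : be⁻¹ ^ 2 < (0.1459 : ℝ) := by
  rw [be_inv]; nlinarith [ph_ub, ph_lb]

theorem abs_ps : |ps| = ph⁻¹ := by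
  rw [ph_inv, abs_of_neg]
  rw [ps_eq]; linarith [ph_lb]

/-- a one-sided system -/
structure One (β : ℝ) (s : ℤ → ℤ) (X : ℤ → ℝ) : Prop where
  dig : ∀ n, s n = 0 ∨ s n = 1 ∨ s n = -1
  rcr : ∀ n, X n = β * (s (n + 1) + X (n + 1))
  bdd : ∃ B : ℝ, ∀ n, |X n| ≤ B
  gap : ∀ n, s n ≠ 0 → s (n + 1) = 0 ∧ s (n + 2) = 0 ∧ s (n + 3) = 0
  hβ : |β| = ph⁻¹

theorem One.iter {β : ℝ} {s : ℤ → ℤ} {X : ℤ → ℝ} (h : One β s X) (n : ℤ) (k : ℕ)
    (h0 : ∀ i : ℕ, 1 ≤ i → i ≤ k → s (n + i) = 0) : X n = β ^ k * X (n + k) := by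
  induction k with
  | zero => simp
  | succ k ih =>
    rw [ih (fun i h1 h2 => h0 i h1 (by omega)), h.rcr (n + k)]
    have := h0 (k + 1) (by omega) le_rfl
    have e : n + (k : ℤ) + 1 = n + ((k + 1 : ℕ) : ℤ) := by push_cast; ring
    rw [e, this, pow_succ]
    push_cast
    ring

theorem One.iter1 {β : ℝ} {s : ℤ → ℤ} {X : ℤ → ℝ} (h : One β s X) (n : ℤ) (g : ℕ) (hg : 1 ≤ g)
    (h0 : ∀ i : ℕ, 1 ≤ i → i < g → s (n + i) = 0) :
    X n = β ^ g * (s (n + g) + X (n + g)) := by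
  obtain ⟨k, rfl⟩ : ∃ k, g = k + 1 := ⟨g - 1, by omega⟩
  rw [h.iter n k (fun i h1 h2 => h0 i h1 (by omega)), h.rcr (n + k)]
  have e : n + (k : ℤ) + 1 = n + ((k + 1 : ℕ) : ℤ) := by push_cast; ring
  rw [e, pow_succ]
  ring

theorem One.next {β : ℝ} {s : ℤ → ℤ} {X : ℤ → ℝ} (h : One β s X) (n : ℤ) (hn : s n ≠ 0) :
    (X n = 0 ∧ ∀ k : ℕ, 1 ≤ k → s (n + k) = 0) ∨
    ∃ g : ℕ, 4 ≤ g ∧ s (n + g) ≠ 0 ∧ (∀ i : ℕ, 1 ≤ i → i < g → s (n + i) = 0) ∧
      X n = β ^ g * (s (n + g) + X (n + g)) := by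
  classical
  by_cases hex : ∃ k : ℕ, 1 ≤ k ∧ s (n + k) ≠ 0
  · right
    set g := Nat.find hex with hg
    have h1 := Nat.find_spec hex
    rw [← hg] at h1
    have h2 : ∀ i : ℕ, 1 ≤ i → i < g → s (n + i) = 0 := by
      intro i hi1 hi2
      have := Nat.find_min hex hi2
      push Not at this
      exact this hi1
    refine ⟨g, ?_, h1.2, h2, h.iter1 n g h1.1 h2⟩
    by_contra hlt
    obtain ⟨g1, g2, g3⟩ := h.gap n hn
    have : g = 1 ∨ g = 2 ∨ g = 3 := by omega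
    rcases this with e | e | e <;> rw [e] at h1
    · exact h1.2 (by simpa using g1)
    · exact h1.2 (by simpa using g2)
    · exact h1.2 (by simpa using g3)
  · left
    push Not at hex
    refine ⟨?_, hex⟩
    obtain ⟨B, hB⟩ := h.bdd
    have hle : ∀ k : ℕ, |X n| ≤ ph⁻¹ ^ k * B := by
      intro k
      rw [h.iter n k (fun i h1 _ => hex i h1), abs_mul, abs_pow, h.hβ]
      exact mul_le_mul_of_nonneg_left (hB _) (pow_nonneg w_pos.le _)
    have hlim : Tendsto (fun k : ℕ => ph⁻¹ ^ k * B) atTop (nhds (0 * B)) :=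
      (tendsto_pow_atTop_nhds_zero_of_lt_one w_pos.le (by linarith [w_lt])).mul_const B
    rw [zero_mul] at hlim
    have := ge_of_tendsto' hlim hle
    exact abs_eq_zero.1 (le_antisymm this (abs_nonneg _))

theorem pow_le {g : ℕ} (hg : 4 ≤ g) : ph⁻¹ ^ g ≤ be⁻¹ ^ 2 := by
  rw [← w4]
  exact pow_le_pow_of_le_one w_pos.le (by linarith [w_lt]) hg

theorem abs_dig {z : ℤ} (hz : z = 0 ∨ z = 1 ∨ z = -1) : |(z : ℝ)| ≤ 1 := by
  rcases hz with rfl | rfl | rfl <;> norm_num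

theorem One.bound {β : ℝ} {s : ℤ → ℤ} {X : ℤ → ℝ} (h : One β s X) (n : ℤ) (hn : s n ≠ 0) :
    |X n| ≤ 0.171 := by
  obtain ⟨B, hB⟩ := h.bdd
  have hB0 : 0 ≤ B := (abs_nonneg _).trans (hB n)
  have hq0 : (0 : ℝ) < be⁻¹ ^ 2 := by linarith [q_lb]
  have claim : ∀ j : ℕ, ∀ n, s n ≠ 0 → |X n| ≤ 0.171 + (be⁻¹ ^ 2) ^ j * B := by
    intro j
    induction j with
    | zero => intro n _; rw [pow_zero, one_mul]; linarith [hB n]
    | succ j ih =>
      intro n hn
      rcases h.next n hn with ⟨h0, -⟩ | ⟨g, hg, hsg, -, e⟩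
      · rw [h0, abs_zero]; positivity
      · rw [e, abs_mul, abs_pow, h.hβ]
        have h1 : |(s (n + g) : ℝ) + X (n + g)| ≤ 1 + (0.171 + (be⁻¹ ^ 2) ^ j * B) :=
          (abs_add_le _ _).trans (add_le_add (abs_dig (h.dig _)) (ih _ hsg))
        have h2 : ph⁻¹ ^ g * |(s (n + g) : ℝ) + X (n + g)| ≤
            be⁻¹ ^ 2 * (1 + (0.171 + (be⁻¹ ^ 2) ^ j * B)) :=
          mul_le_mul (pow_le hg) h1 (abs_nonneg _) hq0.le
        have h3 : be⁻¹ ^ 2 * (1 + (0.171 + (be⁻¹ ^ 2) ^ j * B)) =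
            be⁻¹ ^ 2 * 1.171 + (be⁻¹ ^ 2) ^ (j + 1) * B := by ring
        have := q_ub
        nlinarith
  have hlim : Tendsto (fun j : ℕ => 0.171 + (be⁻¹ ^ 2) ^ j * B) atTop (nhds (0.171 + 0 * B)) :=
    ((tendsto_pow_atTop_nhds_zero_of_lt_one hq0.le (by linarith [q_ub])).mul_const B).const_add _
  rw [zero_mul, add_zero] at hlim
  exact ge_of_tendsto' hlim (fun j => claim j n hn)

section

variable {T : ℝ} {s : ℤ → ℤ} {R L : ℤ → ℝ}

theorem oneR (h : Sys T s R L) : One ph⁻¹ s R :=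
  ⟨h.dig, h.right, by obtain ⟨B, hB⟩ := h.bdd; exact ⟨B, fun n => (hB n).1⟩, h.gap,
    abs_of_pos w_pos⟩

theorem gapL (h : Sys T s R L) (n : ℤ) (hn : s n ≠ 0) :
    s (n - 1) = 0 ∧ s (n - 2) = 0 ∧ s (n - 3) = 0 := by
  refine ⟨?_, ?_, ?_⟩
  · by_contra h1
    apply hn
    have := (h.gap _ h1).1
    rwa [sub_add_cancel] at this
  · by_contra h1
    apply hn
    have := (h.gap _ h1).2.1
    rwa [sub_add_cancel] at this
  · by_contra h1
    apply hn
    have := (h.gap _ h1).2.2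
    rwa [sub_add_cancel] at this

theorem oneL (h : Sys T s R L) : One ps (fun n => s (-n)) (fun n => L (-n)) := by
  refine ⟨fun n => h.dig _, ?_, ?_, ?_, abs_ps⟩
  · intro n
    have := h.left (-n)
    have e : -n - 1 = -(n + 1) := by ring
    rw [e] at this
    exact this
  · obtain ⟨B, hB⟩ := h.bdd; exact ⟨B, fun n => (hB _).2⟩
  · intro n hn
    have e1 : -(n + 1) = -n - 1 := by ring
    have e2 : -(n + 2) = -n - 2 := by ring
    have e3 : -(n + 3) = -n - 3 := by ring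
    simp only [e1, e2, e3]
    exact gapL h (-n) hn

/-- the previous digit -/
theorem prev (h : Sys T s R L) (n : ℤ) (hn : s n ≠ 0) :
    (L n = 0 ∧ ∀ k : ℕ, 1 ≤ k → s (n - k) = 0) ∨
    ∃ g : ℕ, 4 ≤ g ∧ s (n - g) ≠ 0 ∧ (∀ i : ℕ, 1 ≤ i → i < g → s (n - i) = 0) ∧
      L n = ps ^ g * (s (n - g) + L (n - g)) := by
  have hn' : s (-(-n)) ≠ 0 := by rwa [neg_neg]
  have e : ∀ k : ℤ, -(-n + k) = n - k := fun k => by ring
  have := (oneL h).next (-n) hn'
  simp only [e, neg_neg] at this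
  exact this

theorem boundL (h : Sys T s R L) (n : ℤ) (hn : s n ≠ 0) : |L n| ≤ 0.171 := by
  have hn' : s (-(-n)) ≠ 0 := by rwa [neg_neg]
  have := (oneL h).bound (-n) hn'
  simpa only [neg_neg] using this

theorem dig_sq {z : ℤ} (hz : z = 0 ∨ z = 1 ∨ z = -1) (h0 : z ≠ 0) : (z : ℝ) * z = 1 := by
  rcases hz with rfl | rfl | rfl
  · exact absurd rfl h0
  · norm_num
  · norm_num

theorem dig_mul {z y : ℤ} (hz : z = 0 ∨ z = 1 ∨ z = -1) (h0 : z ≠ 0)
    (hy : y = 0 ∨ y = 1 ∨ y = -1) (h1 : y ≠ 0) : y = z ∨ y = -z := by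
  omega

/-- the main inequality at a digit -/
theorem main_ineq (h : Sys T s R L) (hT : T < 1 - be⁻¹ ^ 2) (n : ℤ) (hn : s n ≠ 0) :
    s n * R n + s n * L n < - be⁻¹ ^ 2 := by
  have h1 := h.le n
  have h2 := dig_sq (h.dig n) hn
  have h3 : (s n : ℝ) * (s n + R n + L n) ≤ |(s n : ℝ) + R n + L n| := by
    calc (s n : ℝ) * (s n + R n + L n) ≤ |(s n : ℝ) * (s n + R n + L n)| := le_abs_self _
      _ = |(s n : ℝ)| * |(s n : ℝ) + R n + L n| := abs_mul _ _
      _ ≤ 1 * |(s n : ℝ) + R n + L n| :=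
        mul_le_mul_of_nonneg_right (abs_dig (h.dig n)) (abs_nonneg _)
      _ = _ := one_mul _
  nlinarith

theorem abs_sX {z : ℤ} (hz : z = 0 ∨ z = 1 ∨ z = -1) {x : ℝ} (hx : |x| ≤ 0.171) :
    -0.171 ≤ (z : ℝ) * x ∧ (z : ℝ) * x ≤ 0.171 := by
  rw [abs_le] at hx
  rcases hz with rfl | rfl | rfl
  · norm_num
  · norm_num at hx ⊢; exact hx
  · norm_num at hx ⊢
    constructor <;> linarith [hx.1, hx.2]

/-- if a side value has absolute value `> q` then the neighbour has distance 4 and the other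
sign -/
theorem big {β : ℝ} {X : ℤ → ℝ} (hβ : |β| = ph⁻¹) (n m : ℤ) (g : ℕ)
    (hg : 4 ≤ g) (hdn : s n = 0 ∨ s n = 1 ∨ s n = -1) (hn : s n ≠ 0)
    (hdm : s m = 0 ∨ s m = 1 ∨ s m = -1) (hm : s m ≠ 0) (hXm : |X m| ≤ 0.171)
    (e : X n = β ^ g * (s m + X m)) (hX : s n * X n < - be⁻¹ ^ 2) :
    g = 4 ∧ s m = - s n ∧ s n * X n = - be⁻¹ ^ 2 * (1 + s m * X m) := by
  have hq1 := q_lb
  have hq2 := q_ub
  have habs : |(s m : ℝ) + X m| ≤ 1.171 := by
    calc |(s m : ℝ) + X m| ≤ |(s m : ℝ)| + |X m| := abs_add_le _ _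
      _ ≤ 1 + 0.171 := add_le_add (abs_dig hdm) hXm
      _ = 1.171 := by norm_num
  have h4 : g = 4 := by
    by_contra hne
    have h5 : 5 ≤ g := by omega
    have hpow : ph⁻¹ ^ g ≤ 0.0902 := by
      calc ph⁻¹ ^ g ≤ ph⁻¹ ^ 5 := pow_le_pow_of_le_one w_pos.le (by linarith [w_lt]) h5
        _ = ph⁻¹ * be⁻¹ ^ 2 := by rw [← w4]; ring
        _ ≤ 0.618034 * 0.1459 := mul_le_mul w_lt.le hq2.le (by linarith) (by norm_num)
        _ ≤ 0.0902 := by norm_num
    have h1 : |X n| ≤ 0.0902 * 1.171 := by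
      rw [e, abs_mul, abs_pow, hβ]
      exact mul_le_mul hpow habs (abs_nonneg _) (by norm_num)
    have h2 : |(s n : ℝ) * X n| ≤ 0.0902 * 1.171 := by
      rw [abs_mul]
      calc |(s n : ℝ)| * |X n| ≤ 1 * |X n| :=
            mul_le_mul_of_nonneg_right (abs_dig hdn) (abs_nonneg _)
        _ ≤ _ := by rw [one_mul]; exact h1
    have := (abs_le.1 h2).1
    norm_num at this
    linarith
  have hβ4 : β ^ 4 = be⁻¹ ^ 2 := by
    rw [← w4, ← hβ]
    have : |β| ^ 4 = (|β| ^ 2) ^ 2 := by ring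
    rw [this, sq_abs]
    ring
  rw [h4, hβ4] at e
  have hsm := abs_sX hdm hXm
  have hs := dig_sq hdn hn
  have hs' := dig_sq hdm hm
  have hsign : s m = - s n := by
    rcases dig_mul hdn hn hdm hm with h1 | h1
    · exfalso
      have h1' : (s m : ℝ) = s n := by rw [h1]
      have : (s n : ℝ) * X n = be⁻¹ ^ 2 * (1 + s m * X m) := by
        rw [e, h1']
        linear_combination (be⁻¹ ^ 2) * hs
      nlinarith
    · exact h1
  refine ⟨h4, hsign, ?_⟩
  have h1' : (s m : ℝ) = - s n := by rw [hsign]; push_cast; ring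
  rw [e, h1']
  linear_combination (-be⁻¹ ^ 2) * hs

theorem negR (h : Sys T s R L) (hT : T < 1 - be⁻¹ ^ 2) (n : ℤ) (hn : s n ≠ 0) :
    s n * R n ≤ 0 := by
  by_contra hpos
  push Not at hpos
  have hq1 := q_lb
  have hq2 := q_ub
  have h1 := main_ineq h hT n hn
  have h2 : s n * L n < - be⁻¹ ^ 2 := by linarith
  rcases prev h n hn with ⟨h0, -⟩ | ⟨g, hg, hm, hbet, e⟩
  · rw [h0, mul_zero] at h2
    linarith
  · obtain ⟨h4, hsign, hl⟩ := big (s := s) abs_ps n (n - g) g hg (h.dig n) hn (h.dig _) hm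
      (boundL h _ hm) e h2
    subst h4
    set m : ℤ := n - (4 : ℕ) with hmdef
    have hlm : 0 < s m * L m := by nlinarith
    have hRm : R m = ph⁻¹ ^ 4 * (s n + R n) := by
      have := (oneR h).iter1 m 4 (by norm_num) ?_
      · have e' : m + (4 : ℕ) = n := by rw [hmdef]; ring
        rwa [e'] at this
      · intro i hi1 hi2
        have := hbet (4 - i) (by omega) (by omega)
        have e' : n - ((4 - i : ℕ) : ℤ) = m + i := by rw [hmdef]; omega
        rwa [e'] at this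
    have hrm : s m * R m = - be⁻¹ ^ 2 * (1 + s n * R n) := by
      have hs := dig_sq (h.dig n) hn
      have h1' : (s m : ℝ) = - s n := by rw [hsign]; push_cast; ring
      rw [hRm, h1', w4]
      linear_combination (-be⁻¹ ^ 2) * hs
    have h3 := main_ineq h hT m hm
    nlinarith

theorem negL (h : Sys T s R L) (hT : T < 1 - be⁻¹ ^ 2) (n : ℤ) (hn : s n ≠ 0) :
    s n * L n ≤ 0 := by
  by_contra hpos
  push Not at hpos
  have hq1 := q_lb
  have hq2 := q_ub
  have h1 := main_ineq h hT n hn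
  have h2 : s n * R n < - be⁻¹ ^ 2 := by linarith
  rcases (oneR h).next n hn with ⟨h0, -⟩ | ⟨g, hg, hm, hbet, e⟩
  · rw [h0, mul_zero] at h2
    linarith
  · obtain ⟨h4, hsign, hr⟩ := big (s := s) (oneR h).hβ n (n + g) g hg (h.dig n) hn (h.dig _) hm
      ((oneR h).bound _ hm) e h2
    subst h4
    set m : ℤ := n + (4 : ℕ) with hmdef
    have hrm : 0 < s m * R m := by nlinarith
    have hLm : L m = ps ^ 4 * (s n + L n) := by
      have := (oneL h).iter1 (-m) 4 (by norm_num) ?_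
      · have e' : -(-m + ((4 : ℕ) : ℤ)) = n := by rw [hmdef]; ring
        simp only [e', neg_neg] at this
        exact this
      · intro i hi1 hi2
        have := hbet (4 - i) (by omega) (by omega)
        have e' : n + ((4 - i : ℕ) : ℤ) = -(-m + i) := by rw [hmdef]; omega
        rwa [e'] at this
    have hps4 : ps ^ 4 = be⁻¹ ^ 2 := by
      rw [← w4, ph_inv]; ring
    have hlm : s m * L m = - be⁻¹ ^ 2 * (1 + s n * L n) := by
      have hs := dig_sq (h.dig n) hn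
      have h1' : (s m : ℝ) = - s n := by rw [hsign]; push_cast; ring
      rw [hLm, h1', hps4]
      linear_combination (-be⁻¹ ^ 2) * hs
    have h3 := main_ineq h hT m hm
    nlinarith

/-- consecutive digits -/
theorem consec (h : Sys T s R L) (hT : T < 1 - be⁻¹ ^ 2) (n : ℤ) (hn : s n ≠ 0) (g : ℕ)
    (hg : 1 ≤ g) (hm : s (n + g) ≠ 0) (hbet : ∀ i : ℕ, 1 ≤ i → i < g → s (n + i) = 0) :
    s (n + g) = - s n ∧ Even g := by
  set m : ℤ := n + g with hmdef
  have eR : R n = ph⁻¹ ^ g * (s m + R m) := (oneR h).iter1 n g hg hbet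
  have eL : L m = ps ^ g * (s n + L n) := by
    have := (oneL h).iter1 (-m) g hg ?_
    · have e' : -(-m + (g : ℤ)) = n := by rw [hmdef]; ring
      simp only [e', neg_neg] at this
      exact this
    · intro i hi1 hi2
      have := hbet (g - i) (by omega) (by omega)
      have e' : n + ((g - i : ℕ) : ℤ) = -(-m + i) := by rw [hmdef]; omega
      rwa [e'] at this
  have r1 := negR h hT n hn
  have l1 := negL h hT m hm
  have bR := abs_sX (h.dig m) ((oneR h).bound m hm)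
  have bL := abs_sX (h.dig n) (boundL h n hn)
  have hsn := dig_sq (h.dig n) hn
  have hsm := dig_sq (h.dig m) hm
  have hwg : 0 < ph⁻¹ ^ g := pow_pos w_pos g
  have hsign : s m = - s n := by
    rcases dig_mul (h.dig n) hn (h.dig m) hm with h1 | h1
    · exfalso
      have h1' : (s m : ℝ) = s n := by rw [h1]
      have : (s n : ℝ) * R n = ph⁻¹ ^ g * (1 + s m * R m) := by
        rw [eR, h1']
        linear_combination (ph⁻¹ ^ g) * hsn
      have : 0 < (s n : ℝ) * R n := by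
        rw [this]
        exact mul_pos hwg (by linarith)
      linarith
    · exact h1
  refine ⟨hsign, ?_⟩
  by_contra hodd
  rw [Nat.not_even_iff_odd] at hodd
  have hneg : ps ^ g < 0 := hodd.pow_neg (by rw [ps_eq]; linarith [ph_lb])
  have h1' : (s m : ℝ) = - s n := by rw [hsign]; push_cast; ring
  have : (s m : ℝ) * L m = - ps ^ g * (1 + s n * L n) := by
    rw [eL, h1']
    linear_combination (-ps ^ g) * hsn
  have : 0 < (s m : ℝ) * L m := by
    rw [this]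
    exact mul_pos (by linarith) (by linarith)
  linarith

theorem parity (h : Sys T s R L) (hT : T < 1 - be⁻¹ ^ 2) (k : ℕ) :
    ∀ n : ℤ, s n ≠ 0 → s (n + k) ≠ 0 → Even k := by
  induction k using Nat.strong_induction_on with
  | _ k ih =>
    intro n hn hk
    rcases Nat.eq_zero_or_pos k with rfl | hk0
    · exact Even.zero
    rcases (oneR h).next n hn with ⟨-, h0⟩ | ⟨g, hg, hm, hbet, -⟩
    · exact absurd (h0 k hk0) hk
    · have hgk : g ≤ k := by
        by_contra hlt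
        exact hk (hbet k hk0 (by omega))
      have hge := (consec h hT n hn g (by omega) hm hbet).2
      have hk' : s (n + g + ((k - g : ℕ) : ℤ)) ≠ 0 := by
        have e : n + g + ((k - g : ℕ) : ℤ) = n + k := by omega
        rwa [e]
      have h2 := ih (k - g) (by omega) (n + g) hm hk'
      have : k = g + (k - g) := by omega
      rw [this]
      exact hge.add h2

end

end StrAux

open StrAux in
theorem Sys.str {T : ℝ} {s : ℤ → ℤ} {R L : ℤ → ℝ} (h : Sys T s R L) (hT : T < 1 - be⁻¹ ^ 2) :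
    ∃ c : ℤ, (c = 0 ∨ c = 1) ∧ Str s R L c := by
  have hpar : ∀ m n : ℤ, s m ≠ 0 → s n ≠ 0 → m ≤ n → ∃ j : ℤ, n = m + 2 * j := by
    intro m n hm hn hmn
    have e : m + ((n - m).toNat : ℤ) = n := by omega
    obtain ⟨j, hj⟩ := parity h hT (n - m).toNat m hm (by rwa [e])
    exact ⟨j, by omega⟩
  obtain ⟨c, hc, hcls⟩ : ∃ c : ℤ, (c = 0 ∨ c = 1) ∧ ∀ n, s n ≠ 0 → ∃ j : ℤ, n = c + 2 * j := by
    by_cases hex : ∃ n₀, s n₀ ≠ 0
    · obtain ⟨n₀, hn₀⟩ := hex
      refine ⟨n₀ % 2, by omega, ?_⟩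
      intro n hn
      rcases le_total n n₀ with h1 | h1
      · obtain ⟨j, hj⟩ := hpar n n₀ hn hn₀ h1
        exact ⟨(n - n₀ % 2) / 2, by omega⟩
      · obtain ⟨j, hj⟩ := hpar n₀ n hn₀ hn h1
        exact ⟨(n - n₀ % 2) / 2, by omega⟩
    · push Not at hex
      exact ⟨0, Or.inl rfl, fun n hn => absurd (hex n) hn⟩
  refine ⟨c, hc, hcls, ?_, negR h hT, negL h hT, ?_, ?_⟩
  · intro m n hmn hm hn hbet
    have e : m + ((n - m).toNat : ℤ) = n := by omega
    have := (consec h hT m hm (n - m).toNat (by omega) (by rwa [e]) (by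
      intro i hi1 hi2
      exact hbet _ (by omega) (by omega))).1
    rwa [e] at this
  · intro n hn
    rcases (oneR h).next n hn with ⟨h0, -⟩ | ⟨g, hg, hm, hbet, e⟩
    · rw [h0, abs_zero]
      linarith [q_lb]
    · have h1 : |(s (n + g) : ℝ) + R (n + g)| ≤ 1 := by
        have hs := dig_sq (h.dig _) hm
        have h2 := negR h hT _ hm
        have h3 := abs_sX (h.dig (n + g)) ((oneR h).bound _ hm)
        have e1 : (s (n + g) : ℝ) + R (n + g) =
            s (n + g) * (1 + s (n + g) * R (n + g)) := by linear_combination (-R (n + g)) * hs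
        rw [e1, abs_mul]
        calc |(s (n + g) : ℝ)| * |1 + (s (n + g) : ℝ) * R (n + g)| ≤ 1 * 1 :=
              mul_le_mul (abs_dig (h.dig _)) (abs_le.2 ⟨by linarith, by linarith⟩)
                (abs_nonneg _) zero_le_one
          _ = 1 := one_mul 1
      rw [e, abs_mul, abs_pow, (oneR h).hβ]
      calc ph⁻¹ ^ g * |(s (n + g) : ℝ) + R (n + g)| ≤ be⁻¹ ^ 2 * 1 :=
            mul_le_mul (pow_le hg) h1 (abs_nonneg _) (by linarith [q_lb])
        _ = _ := mul_one _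
  · intro n hn
    rcases prev h n hn with ⟨h0, -⟩ | ⟨g, hg, hm, hbet, e⟩
    · rw [h0, abs_zero]
      linarith [q_lb]
    · have h1 : |(s (n - g) : ℝ) + L (n - g)| ≤ 1 := by
        have hs := dig_sq (h.dig _) hm
        have h2 := negL h hT _ hm
        have h3 := abs_sX (h.dig (n - g)) (boundL h _ hm)
        have e1 : (s (n - g) : ℝ) + L (n - g) =
            s (n - g) * (1 + s (n - g) * L (n - g)) := by linear_combination (-L (n - g)) * hs
        rw [e1, abs_mul]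
        calc |(s (n - g) : ℝ)| * |1 + (s (n - g) : ℝ) * L (n - g)| ≤ 1 * 1 :=
              mul_le_mul (abs_dig (h.dig _)) (abs_le.2 ⟨by linarith, by linarith⟩)
                (abs_nonneg _) zero_le_one
          _ = 1 := one_mul 1
      rw [e, abs_mul, abs_pow, abs_ps]
      calc ph⁻¹ ^ g * |(s (n - g) : ℝ) + L (n - g)| ≤ be⁻¹ ^ 2 * 1 :=
            mul_le_mul (pow_le hg) h1 (abs_nonneg _) (by linarith [q_lb])
        _ = _ := mul_one _

end Pool.Agent.Lib.GJ
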