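import Pool.Agent.Lib.GJ.LegX
import Pool.Agent.Lib.GJ.LegS

/-!
# Module Vals: the values below the threshold are given by sums of two signed legal words

PROOF of `approx`.  Take `x s R L` from `exists_cl`.
(a) For every `p`, every `σ` in `{1, -1}` with `R p = σ * |R p|` and every `n`:
`|R p - be⁻¹ * ev (sg σ (wd x (p + 1) n))| ≤ be⁻¹ * be⁻¹ ^ n`.  Induction on `n` (for all `p`, `σ`); `n = 0` is `bR`.  Step: `wd x (p+1) (n+1) =
x (p+1) :: wd x (p+2) n`.  If `x (p+1)` is false then `s (p+1) = 0`, `R p = be⁻¹ R (p+1)`, so `σ` is a sign of `R (p+1)` and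
`ev (0 :: l) = be⁻¹ ev l`.  If `x (p+1)` is true then `s (p+1) R (p+1) ≤ 0`, `|R (p+1)| ≤ be⁻¹ < 1`, so `s (p+1) + R (p+1)` has the sign of
`s (p+1)` and is not `0`; hence `s (p+1) = σ`, `R (p+1) = -σ |R (p+1)|`, and the induction hypothesis with `-σ` applies.
(b) The same for `L` and the words `x (p-1), x (p-2), ...`; that is `wd (fun j => x (p - j)) 1 n`.
(c) First case of `exists_cl`: `c0 = s 0`, `c1 = be⁻¹`, the sequences `x` and `fun j => x (-j)`.
(d) Second case: `s 0 + R 0 = be * R (-1)` and `s (-1) + L (-1) = be * L 0` (`rR`, `rL`); so with (a) for `p = -1` and (b) for `p = 0` the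
value is within `2 * ph⁻¹ * be⁻¹ ^ n` of `ph⁻¹ * (ev (sg σ (wd x 0 n)) - ev (sg σ' ...))`; the minus sign is absorbed: `sg (-σ') w` is the
negative of `sg σ' w`.  The sequences are `fun j => x (j - 1)` (so that `wd _ 1 n` starts at `x 0`) and `fun j => x (-j)`.
`ev (addL a b) = ev a + ev b` for lists of equal length.  Legality of shifted and reversed sequences: module LegS.
-/

namespace Pool.Agent.Lib.GJ

/-- the value of a list of digits -/
noncomputable def ev : List ℤ → ℝ
  | [] => 0
  | (z :: l) => z + be⁻¹ * ev l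

namespace ValsAux

theorem sg_length (s : ℤ) (w : List Bool) : (sg s w).length = w.length := by
  induction w generalizing s with
  | nil => rfl
  | cons b t ih =>
    cases b
    · simp only [sg, Bool.false_eq_true, if_false, List.length_cons, ih]
    · simp only [sg, if_true, List.length_cons, ih]

theorem ev_sg_neg (s : ℤ) (w : List Bool) : ev (sg (-s) w) = - ev (sg s w) := by
  induction w generalizing s with
  | nil => simp [sg, ev]
  | cons b t ih =>
    cases b
    · simp only [sg, Bool.false_eq_true, if_false, ev, ih]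
      push_cast
      ring
    · simp only [sg, if_true, ev, ih]
      push_cast
      ring

theorem ev_addL : ∀ (a b : List ℤ), a.length = b.length → ev (addL a b) = ev a + ev b
  | [], [], _ => by simp [addL, ev]
  | [], (_ :: _), h => by simp at h
  | (_ :: _), [], h => by simp at h
  | (x :: a), (y :: b), h => by
    have h' : a.length = b.length := by simpa using h
    have ih := ev_addL a b h'
    have e : addL (x :: a) (y :: b) = (x + y) :: addL a b := rfl
    rw [e]
    simp only [ev]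
    rw [ih]
    push_cast
    ring

theorem wd_succ (x : ℤ → Bool) (a : ℤ) (n : ℕ) : wd x a (n + 1) = x a :: wd x (a + 1) n := by
  have h := wd_add x a 1 n
  rw [Nat.add_comm 1 n] at h
  rw [h]
  simp [wd]

theorem bi_pos : (0 : ℝ) < be⁻¹ := inv_pos.2 be_pos

theorem bi_lt : be⁻¹ < (1 : ℝ) := by
  rw [be_inv]
  linarith [ph_lb]

theorem right {x : ℤ → Bool} {s : ℤ → ℤ} {R : ℤ → ℝ}
    (bit : ∀ j, x j = true ↔ s j ≠ 0)
    (dig : ∀ j, s j = 0 ∨ s j = 1 ∨ s j = -1)
    (rR : ∀ j, R j = be⁻¹ * (s (j + 1) + R (j + 1)))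
    (nR : ∀ j, s j ≠ 0 → s j * R j ≤ 0)
    (bR : ∀ j, |R j| ≤ be⁻¹) (n : ℕ) : ∀ (p : ℤ) (σ : ℤ), (σ = 1 ∨ σ = -1) →
      R p = σ * |R p| →
      |R p - be⁻¹ * ev (sg σ (wd x (p + 1) n))| ≤ be⁻¹ * be⁻¹ ^ n := by
  have hb := bi_pos
  have hb1 := bi_lt
  induction n with
  | zero =>
    intro p σ _ _
    simp only [wd, List.range_zero, List.map_nil, sg, ev, mul_zero, sub_zero, pow_zero, mul_one]
    exact bR p
  | succ n ih =>
    intro p σ hσ hp
    rw [wd_succ]
    have hr := rR p
    cases hx : x (p + 1) with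
    | false =>
      have hs : s (p + 1) = 0 := by
        by_contra h0
        have := (bit (p + 1)).2 h0
        rw [hx] at this
        exact Bool.false_ne_true this
      rw [hs] at hr
      simp only [Int.cast_zero, zero_add] at hr
      have hp1 : R (p + 1) = σ * |R (p + 1)| := by
        rw [hr, abs_mul, abs_of_pos hb] at hp
        have h2 : be⁻¹ * R (p + 1) = be⁻¹ * (σ * |R (p + 1)|) := by
          rw [hp]
          ring
        exact mul_left_cancel₀ hb.ne' h2
      have h3 := ih (p + 1) σ hσ hp1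
      simp only [sg, Bool.false_eq_true, if_false, ev]
      have h4 : R p - be⁻¹ * (((0 : ℤ) : ℝ) + be⁻¹ * ev (sg σ (wd x (p + 1 + 1) n))) =
          be⁻¹ * (R (p + 1) - be⁻¹ * ev (sg σ (wd x (p + 1 + 1) n))) := by
        rw [hr]
        push_cast
        ring
      rw [h4, abs_mul, abs_of_pos hb, pow_succ']
      exact mul_le_mul_of_nonneg_left h3 hb.le
    | true =>
      have hs : s (p + 1) ≠ 0 := (bit (p + 1)).1 hx
      have h1 := nR (p + 1) hs
      have h2 := abs_le.1 (bR (p + 1))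
      have hsig : s (p + 1) = σ := by
        rcases dig (p + 1) with h0 | h0 | h0
        · exact absurd h0 hs
        · rcases hσ with h5 | h5
          · rw [h0, h5]
          · exfalso
            rw [h0] at hr
            rw [h5] at hp
            push_cast at hr hp
            have h6 : 0 < R p := by
              rw [hr]
              apply mul_pos hb
              linarith [h2.1]
            have h7 := abs_nonneg (R p)
            linarith
        · rcases hσ with h5 | h5
          · exfalso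
            rw [h0] at hr
            rw [h5] at hp
            push_cast at hr hp
            have h6 : R p < 0 := by
              rw [hr]
              apply mul_neg_of_pos_of_neg hb
              linarith [h2.2]
            have h7 := abs_nonneg (R p)
            linarith
          · rw [h0, h5]
      rw [hsig] at hr h1
      have hn : (-σ = 1 ∨ -σ = -1) := by
        rcases hσ with h5 | h5
        · right; rw [h5]
        · left; rw [h5]; rfl
      have hp1 : R (p + 1) = ((-σ : ℤ) : ℝ) * |R (p + 1)| := by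
        rcases hσ with h5 | h5
        · rw [h5] at h1 ⊢
          push_cast at h1 ⊢
          rw [abs_of_nonpos (by linarith)]
          ring
        · rw [h5] at h1 ⊢
          push_cast at h1 ⊢
          rw [abs_of_nonneg (by linarith)]
          ring
      have h3 := ih (p + 1) (-σ) hn hp1
      simp only [sg, if_true, ev]
      have h4 : R p - be⁻¹ * ((σ : ℝ) + be⁻¹ * ev (sg (-σ) (wd x (p + 1 + 1) n))) =
          be⁻¹ * (R (p + 1) - be⁻¹ * ev (sg (-σ) (wd x (p + 1 + 1) n))) := by
        rw [hr]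
        ring
      rw [h4, abs_mul, abs_of_pos hb, pow_succ']
      exact mul_le_mul_of_nonneg_left h3 hb.le

theorem exists_sign (r : ℝ) : ∃ σ : ℤ, (σ = 1 ∨ σ = -1) ∧ r = σ * |r| := by
  rcases le_total 0 r with h | h
  · refine ⟨1, Or.inl rfl, ?_⟩
    rw [abs_of_nonneg h]
    push_cast
    ring
  · refine ⟨-1, Or.inr rfl, ?_⟩
    rw [abs_of_nonpos h]
    push_cast
    ring

end ValsAux

open ValsAux in
theorem approx {v : ℝ} (hv : v ∈ Spec ph) (hv2 : v < 2 - ph) :
    ∃ x x' : ℤ → Bool, (∀ K, Leg K x) ∧ (∀ K, Leg K x') ∧ ∃ s1 s2 : ℤ, (s1 = 1 ∨ s1 = -1) ∧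
      (s2 = 1 ∨ s2 = -1) ∧ ∃ c0 c1 : ℝ, ((c0 = 0 ∧ c1 = be⁻¹) ∨ (c0 = 1 ∧ c1 = be⁻¹) ∨
        (c0 = -1 ∧ c1 = be⁻¹) ∨ (c0 = 0 ∧ c1 = ph⁻¹)) ∧
      ∀ n, |Real.sqrt 5 * v - abs (c0 + c1 * ev (addL (sg s1 (wd x 1 n)) (sg s2 (wd x' 1 n))))|
        ≤ 2 * be⁻¹ ^ n := by
  obtain ⟨x, s, R, L, hC, hval⟩ := exists_cl hv hv2
  have hb := bi_pos
  have hb1 := bi_lt
  have hright := right hC.bit hC.dig hC.rR hC.nR hC.bR
  have hleft := right (x := fun j => x (-j)) (s := fun j => s (-j)) (R := fun j => L (-j))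
    (fun j => hC.bit (-j)) (fun j => hC.dig (-j))
    (fun j => by
      have h := hC.rL (-j)
      have e : -j - 1 = -(j + 1) := by ring
      rw [e] at h
      exact h)
    (fun j => hC.nL (-j)) (fun j => hC.bL (-j))
  obtain ⟨σ', hσ', hL0⟩ := exists_sign (L 0)
  have hl : ∀ n, |L 0 - be⁻¹ * ev (sg σ' (wd (fun j => x (-j)) 1 n))| ≤ be⁻¹ * be⁻¹ ^ n := by
    intro n
    have h := hleft n 0 σ' hσ' (by simpa using hL0)
    simpa using h
  rcases hval with hval | hval
  · obtain ⟨σ, hσ, hR0⟩ := exists_sign (R 0)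
    have hr : ∀ n, |R 0 - be⁻¹ * ev (sg σ (wd x 1 n))| ≤ be⁻¹ * be⁻¹ ^ n := by
      intro n
      have h := hright n 0 σ hσ hR0
      simpa using h
    refine ⟨x, fun j => x (-j), hC.leg, fun K => (hC.leg K).rev, σ, σ', hσ, hσ', (s 0 : ℝ), be⁻¹,
      ?_, ?_⟩
    · rcases hC.dig 0 with h | h | h
      · left; exact ⟨by rw [h]; push_cast; ring, rfl⟩
      · right; left; exact ⟨by rw [h]; push_cast; ring, rfl⟩
      · right; right; left; exact ⟨by rw [h]; push_cast; ring, rfl⟩
    · intro n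
      rw [hval, ev_addL _ _ (by rw [sg_length, sg_length, wd_length, wd_length])]
      refine (abs_abs_sub_abs_le _ _).trans ?_
      have e : (s 0 : ℝ) + R 0 + L 0 - (s 0 + be⁻¹ * (ev (sg σ (wd x 1 n)) +
          ev (sg σ' (wd (fun j => x (-j)) 1 n)))) =
          (R 0 - be⁻¹ * ev (sg σ (wd x 1 n))) +
          (L 0 - be⁻¹ * ev (sg σ' (wd (fun j => x (-j)) 1 n))) := by ring
      rw [e]
      refine (abs_add_le _ _).trans ?_
      have h1 := hr n
      have h2 := hl n
      have h3 : be⁻¹ * be⁻¹ ^ n ≤ 1 * be⁻¹ ^ n :=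
        mul_le_mul_of_nonneg_right hb1.le (pow_nonneg hb.le n)
      linarith
  · obtain ⟨σ, hσ, hR0⟩ := exists_sign (R (-1))
    have hr : ∀ n, |R (-1) - be⁻¹ * ev (sg σ (wd (fun j => x (-1 + j)) 1 n))| ≤
        be⁻¹ * be⁻¹ ^ n := by
      intro n
      have h := hright n (-1) σ hσ hR0
      have e : wd x (-1 + 1) n = wd (fun j => x (-1 + j)) 1 n := by
        unfold wd
        refine List.map_congr_left fun i _ => ?_
        simp only
        congr 1
        ring
      rw [e] at h
      exact h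
    have hn : (-σ' = 1 ∨ -σ' = -1) := by
      rcases hσ' with h5 | h5
      · right; rw [h5]
      · left; rw [h5]; rfl
    refine ⟨fun j => x (-1 + j), fun j => x (-j), fun K => (hC.leg K).shift (-1),
      fun K => (hC.leg K).rev, σ, -σ', hσ, hn, 0, ph⁻¹,
      Or.inr (Or.inr (Or.inr ⟨rfl, rfl⟩)), ?_⟩
    intro n
    have hbe := be_pos
    have e1 : (s 0 : ℝ) + R 0 = be * R (-1) := by
      have h := hC.rR (-1)
      rw [show (-1 : ℤ) + 1 = 0 by norm_num] at h
      rw [h]
      field_simp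
    have e2 : (s (-1) : ℝ) + L (-1) = be * L 0 := by
      have h := hC.rL 0
      rw [show (0 : ℤ) - 1 = -1 by norm_num] at h
      rw [h]
      field_simp
    rw [hval, e1, e2, ev_addL _ _ (by rw [sg_length, sg_length, wd_length, wd_length]), ev_sg_neg]
    refine (abs_abs_sub_abs_le _ _).trans ?_
    have hbb : be * be⁻¹ = 1 := mul_inv_cancel₀ hbe.ne'
    have e : ph⁻¹ * (be * R (-1) - be * L 0) - (0 + ph⁻¹ * (ev (sg σ (wd (fun j => x (-1 + j)) 1 n)) +
        -ev (sg σ' (wd (fun j => x (-j)) 1 n)))) =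
        ph⁻¹ * (be * (R (-1) - be⁻¹ * ev (sg σ (wd (fun j => x (-1 + j)) 1 n))) -
        be * (L 0 - be⁻¹ * ev (sg σ' (wd (fun j => x (-j)) 1 n)))) := by
      linear_combination (ph⁻¹ * ev (sg σ (wd (fun j => x (-1 + j)) 1 n)) -
        ph⁻¹ * ev (sg σ' (wd (fun j => x (-j)) 1 n))) * hbb
    rw [e, abs_mul]
    have hph : |ph⁻¹| ≤ 1 := by
      rw [abs_of_pos (inv_pos.2 ph_pos), ph_inv']
      linarith [ph_ub]
    have h1 : |be * (R (-1) - be⁻¹ * ev (sg σ (wd (fun j => x (-1 + j)) 1 n)))| ≤ be⁻¹ ^ n := by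
      rw [abs_mul, abs_of_pos hbe]
      have := mul_le_mul_of_nonneg_left (hr n) hbe.le
      rwa [← mul_assoc, hbb, one_mul] at this
    have h2 : |be * (L 0 - be⁻¹ * ev (sg σ' (wd (fun j => x (-j)) 1 n)))| ≤ be⁻¹ ^ n := by
      rw [abs_mul, abs_of_pos hbe]
      have := mul_le_mul_of_nonneg_left (hl n) hbe.le
      rwa [← mul_assoc, hbb, one_mul] at this
    have h3 : |be * (R (-1) - be⁻¹ * ev (sg σ (wd (fun j => x (-1 + j)) 1 n))) -
        be * (L 0 - be⁻¹ * ev (sg σ' (wd (fun j => x (-j)) 1 n)))| ≤ 2 * be⁻¹ ^ n := by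
      refine (abs_sub _ _).trans ?_
      linarith
    calc _ ≤ 1 * (2 * be⁻¹ ^ n) := mul_le_mul hph h3 (abs_nonneg _) zero_le_one
      _ = 2 * be⁻¹ ^ n := one_mul _

end Pool.Agent.Lib.GJ
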