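import Pool.Agent.Lib.GJ.VstA
import Pool.Agent.Lib.GJ.SegV
import Pool.Agent.Lib.GJ.SegW
import Pool.Agent.Lib.GJ.SpecS

/-!
# Module Vst: the limit values are in the spectrum

PROOF of `vst_mem`.  `u i = (g 0 ++ ... ++ g i)`, `v i` the same for `g'` (`Cat.append`), initial parts of `icat N g`, `icat N g'`, of length `N (i + 1)`; `Wd i = runw n (u i) (v i)`.  The values `|Vv X m|`, `m` not a beginning of a run, are at most
`T1 + ph⁻¹ ^ (2 n + 8)` (`exists_run`, `value_digit`, `value_other`), `T1 = 1 - be⁻¹ ^ 2`; at the beginnings they converge to `Vst` (`value_first`), and `Vst ≥ T1 + ph⁻¹ ^ (2 n + 7) (1 - be⁻¹ ^ 2) > T1 + ph⁻¹ ^ (2 n + 8)`: `tb (yin) = be⁻¹ ^ 2 (1 - tb (rest)) ≤ be⁻¹ ^ 2`, as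
`tb rest ≥ 0`, and `ph * tb (zin) = ph⁻¹ ^ (2n+7) (1 - tb rest')`, `tb rest' ≤ be⁻¹ ^ 2`; these bounds for `tb` hold because `rest`, `rest'` have no adjacent digits (`nadj_tb` : then `0 ≤ tb y ≤ be⁻¹`; no adjacent digits: from `runw_nadj` for all `i`), or because they are limits of `tau`, `lam`.
So the limsup of `|Vv X m|` is `Vst`, `spec_of_seq` gives `Vst / √5 ∈ Spec ph`.  Upper bound: `tb rest ≤ be⁻¹ ^ (n + 3)` (`rest = chn n ..` starts with `n + 2` zeros), `tb rest' ≥ 0`.
-/

open Filter Topology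

namespace Pool.Agent.Lib.GJ

/-- concatenation of words of length `N` -/
def icat (N : ℕ) (g : ℕ → List Bool) (k : ℕ) : Bool := (g (k / N)).getD (k % N) false

namespace VstAux

/-- the first `m` words -/
def conc (g : ℕ → List Bool) (m : ℕ) : List Bool := ((List.range m).map g).flatten

theorem conc_succ (g : ℕ → List Bool) (m : ℕ) : conc g (m + 1) = conc g m ++ g m := by
  unfold conc
  rw [List.range_succ, List.map_append, List.flatten_append]
  simp

theorem conc_cat {g : ℕ → List Bool} (hg : ∀ i, Cat (g i)) (m : ℕ) : Cat (conc g m) := by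
  induction m with
  | zero => exact ⟨[], by simp, by simp [conc]⟩
  | succ m ih =>
    rw [conc_succ]
    exact ih.append (hg m)

theorem conc_length {N : ℕ} {g : ℕ → List Bool} (hg : ∀ i, (g i).length = N) (m : ℕ) :
    (conc g m).length = N * m := by
  induction m with
  | zero => simp [conc]
  | succ m ih => rw [conc_succ, List.length_append, ih, hg m]; ring

theorem conc_getD {N : ℕ} (hN : 1 ≤ N) {g : ℕ → List Bool} (hg : ∀ i, (g i).length = N) (m k : ℕ)
    (hk : k < N * m) : (conc g m).getD k false = icat N g k := by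
  induction m with
  | zero => omega
  | succ m ih =>
    rw [conc_succ]
    rcases Nat.lt_or_ge k (N * m) with h | h
    · rw [List.getD_append _ _ _ _ (by rw [conc_length hg]; exact h)]
      exact ih h
    · obtain ⟨r, rfl⟩ := Nat.exists_eq_add_of_le h
      have hr : r < N := by
        have : N * (m + 1) = N * m + N := by ring
        omega
      rw [List.getD_append_right _ _ _ _ (by rw [conc_length hg]; omega), conc_length hg]
      unfold icat
      have h1 : (N * m + r) / N = m := by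
        rw [Nat.mul_add_div (by omega), Nat.div_eq_of_lt hr, Nat.add_zero]
      have h2 : (N * m + r) % N = r := by
        rw [Nat.mul_add_mod, Nat.mod_eq_of_lt hr]
      rw [h1, h2]
      congr 1
      omega

theorem be_sq : be⁻¹ = ph⁻¹ ^ 2 := by rw [be, inv_pow]

theorem p_lb : (0.618 : ℝ) < ph⁻¹ := by rw [ph_inv']; linarith [ph_lb]

theorem p_ub : ph⁻¹ < (0.61804 : ℝ) := by rw [ph_inv']; linarith [ph_ub]

theorem b_ub : be⁻¹ < (0.382 : ℝ) := by rw [be_inv]; linarith [ph_lb]

theorem b_lb : (0.3819 : ℝ) < be⁻¹ := by rw [be_inv]; linarith [ph_ub]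

theorem b2_ub : be⁻¹ ^ 2 < (0.146 : ℝ) := by
  have h1 := b_ub
  have h2 := b_lb
  nlinarith

theorem pD_nonneg (n : ℕ) : 0 < ph⁻¹ ^ (2 * n + 7) := by
  have := p_lb
  exact pow_pos (by linarith) _

theorem pD_le (n : ℕ) : ph⁻¹ ^ (2 * n + 7) < 0.035 := by
  have a := p_lb
  have b := p_ub
  have h1 : ph⁻¹ ^ (2 * n + 7) ≤ ph⁻¹ ^ 7 :=
    pow_le_pow_of_le_one (by linarith) (by linarith) (by omega)
  have h2 : ph⁻¹ ^ 7 ≤ (0.61804 : ℝ) ^ 7 := pow_le_pow_left₀ (by linarith) b.le 7
  have h3 : (0.61804 : ℝ) ^ 7 < 0.035 := by norm_num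
  linarith

/-- the structure of a run -/
theorem run_facts {n : ℕ} {u v : ℕ → List Bool} {Wd : ℕ → List Bool} (h : Rn n u v Wd) (i : ℕ) :
    n + 7 ≤ (Wd i).length ∧ Xs Wd (pos Wd i) = true ∧ Xs Wd (pos Wd i + 2 * 1) = false ∧
      Xs Wd (pos Wd i + 2 * 2) = true ∧
      (∀ t, t < n + 2 → Xs Wd (pos Wd i + 2 * (3 + t)) = false) ∧
      Xs Wd (pos Wd i + 2 * ((Wd i).length - (n + 4))) = true := by
  obtain ⟨mid, hmid, -, ⟨c, hc⟩, -⟩ := runw_ok n (h.hu i) (h.hv i)
  rw [← h.hW i] at hmid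
  have hlen : (Wd i).length = mid.length + n + 7 := by
    rw [hmid]; simp; omega
  have hml : n + 2 ≤ mid.length := by
    have := congrArg List.length hc
    simp at this
    omega
  have hXe : ∀ k, k < (Wd i).length → Xs Wd (pos Wd i + 2 * k) = (Wd i).getD k false :=
    fun k hk => Xs_even h.ne i k hk
  refine ⟨by omega, ?_, ?_, ?_, ?_, ?_⟩
  · have := hXe 0 (by omega)
    rw [hmid] at this
    simpa using this
  · have := hXe 1 (by omega)
    rw [hmid] at this
    simpa using this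
  · have := hXe 2 (by omega)
    rw [hmid] at this
    simpa using this
  · intro t ht
    rw [hXe _ (by omega), hmid, List.getD_append_right _ _ _ _ (by simp),
      List.getD_append _ _ _ _ (by simp; omega)]
    have : 3 + t - [true, false, true].length = t := by simp
    rw [this, hc, List.getD_append _ _ _ _ (by simpa using ht),
      List.getD_eq_getElem _ _ (by simpa using ht)]
    simp
  · have hk : (Wd i).length - (n + 4) = 3 + mid.length := by omega
    rw [hk, hXe _ (by omega), hmid, List.getD_append_right _ _ _ _ (by simp),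
      List.getD_append_right _ _ _ _ (by simp)]
    simp

theorem first_bounds {n : ℕ} {u v : ℕ → List Bool} {Wd : ℕ → List Bool} (h : Rn n u v Wd) (i : ℕ) :
    1 - be⁻¹ ^ 2 + ph⁻¹ ^ (2 * n + 8) ≤ Vv (Xs Wd) (pos Wd (i + 1)) ∧
      Vv (Xs Wd) (pos Wd (i + 1)) ≤ 1 - be⁻¹ ^ 2 + be⁻¹ ^ (n + 5) + ph⁻¹ ^ (2 * n + 7) := by
  have hg := h.gap4
  have hD := pD_le n
  have hD0 := pD_nonneg n
  have hb3 := b2_ub
  have hb1 := b_ub
  have hb2 := b_lb
  have hp1 := p_lb
  have hp2 := p_ub
  have hb0 : 0 < be⁻¹ := by linarith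
  have hb20 : 0 < be⁻¹ ^ 2 := by positivity
  obtain ⟨f1, f2, f3, f4, f5, f6⟩ := run_facts h (i + 1)
  obtain ⟨e1, e2, e3, e4, e5, e6⟩ := run_facts h i
  have hv := (h.value_first (i + 1)).1
  have htau4 : tau (Xs Wd) (pos Wd (i + 1)) ≤ be⁻¹ ^ 2 := by
    have : be⁻¹ ^ 2 = ph⁻¹ ^ 4 := by rw [be_sq]; ring
    rw [this]
    refine tau_le hg _ 4 (fun s hs hs' => ?_)
    obtain ⟨a, b, c⟩ := hg _ f2
    interval_cases s
    · exact a
    · exact b
    · exact c
  have hlam := h.lam_first i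
  have hlp := h.lam_pos (i + 1)
  have hmid := h.lam_mid i ((Wd i).length - (n + 4)) (by omega) (by omega)
  have hmid3 := hmid.2.2 e6
  have htau : be⁻¹ ^ 2 - be⁻¹ ^ (n + 5) ≤ tau (Xs Wd) (pos Wd (i + 1)) := by
    have t1 := h.tau_even (i + 1) 0 (by omega)
    have t2 := h.tau_even (i + 1) 1 (by omega)
    rw [show (0 : ℕ) + 1 = 1 from rfl, f3, if_neg (by simp), Nat.mul_zero, Nat.add_zero] at t1
    rw [show (1 : ℕ) + 1 = 2 from rfl, f4, if_pos rfl] at t2
    have t3 : tau (Xs Wd) (pos Wd (i + 1) + 2 * 2) ≤ ph⁻¹ ^ (2 * (n + 3)) := by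
      refine tau_le hg _ _ (fun s hs hs' => ?_)
      rcases Nat.even_or_odd' s with ⟨t, ht | ht⟩
      · obtain ⟨t', rfl⟩ : ∃ t', t = t' + 1 := ⟨t - 1, by omega⟩
        rw [ht, show pos Wd (i + 1) + 2 * 2 + 2 * (t' + 1) = pos Wd (i + 1) + 2 * (3 + t') by ring]
        exact f5 t' (by omega)
      · rw [ht, show pos Wd (i + 1) + 2 * 2 + (2 * t + 1) = pos Wd (i + 1) + 2 * (2 + t) + 1 by ring]
        exact Xs_odd h.ne (i + 1) (2 + t) (by omega)
    have t4 : ph⁻¹ ^ (2 * (n + 3)) = be⁻¹ ^ (n + 3) := by rw [be_sq, pow_mul]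
    rw [t4] at t3
    have t5 : be⁻¹ ^ (n + 5) = be⁻¹ ^ 2 * be⁻¹ ^ (n + 3) := by ring
    rw [t1, t2, t5]
    have := mul_le_mul_of_nonneg_left t3 hb20.le
    nlinarith
  constructor
  · rw [hv, hlam]
    have : ph⁻¹ ^ (2 * n + 8) = ph⁻¹ * ph⁻¹ ^ (2 * n + 7) := by ring
    rw [this]
    have hs : be⁻¹ ^ 2 * (1 + ph⁻¹ ^ (2 * n + 7)) ≤ 0.146 * (1 + 0.035) :=
      mul_le_mul hb3.le (by linarith) (by linarith) (by norm_num)
    have hl : lam (Xs Wd) (pos Wd i + 2 * ((Wd i).length - (n + 4))) ≤ 0.16 := by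
      refine hmid3.trans (hs.trans ?_)
      norm_num
    have hm := mul_nonneg hD0.le (show 0 ≤ 1 -
      lam (Xs Wd) (pos Wd i + 2 * ((Wd i).length - (n + 4))) - ph⁻¹ by linarith)
    linarith
  · rw [hv]
    linarith [hlp.1]

end VstAux

open VstAux

theorem vst_mem {n N : ℕ} (hN : 1 ≤ N) {g g' : ℕ → List Bool}
    (hg : ∀ i, Cat (g i) ∧ (g i).length = N) (hg' : ∀ i, Cat (g' i) ∧ (g' i).length = N) :
    Vst n (icat N g) (icat N g') / Real.sqrt 5 ∈ Spec ph ∧ 0 ≤ Vst n (icat N g) (icat N g') ∧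
      Vst n (icat N g) (icat N g') ≤ 1 - be⁻¹ ^ 2 + be⁻¹ ^ (n + 5) + ph⁻¹ ^ (2 * n + 7) := by
  set u : ℕ → List Bool := fun i => conc g (i + 1) with hu
  set v : ℕ → List Bool := fun i => conc g' (i + 1) with hv
  set Wd : ℕ → List Bool := fun i => runw n (u i) (v i) with hW
  have h : Rn n u v Wd :=
    ⟨fun i => conc_cat (fun i => (hg i).1) _, fun i => conc_cat (fun i => (hg' i).1) _,
      fun i => rfl⟩
  have hle : ∀ i, i ≤ N * (i + 1) := fun i => by nlinarith
  have hten : Tendsto (fun i => Vv (Xs Wd) (pos Wd i)) atTop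
      (𝓝 (Vst n (icat N g) (icat N g'))) := by
    refine tendsto_first h (fun i k hk => ?_) (fun i k hk => ?_) (fun i => ?_) (fun i => ?_)
    · have hl := conc_length (fun i => (hg i).2) (i + 1)
      exact conc_getD hN (fun i => (hg i).2) (i + 1) k (by rw [← hl]; exact hk)
    · have hl := conc_length (fun i => (hg' i).2) (i + 1)
      exact conc_getD hN (fun i => (hg' i).2) (i + 1) k (by rw [← hl]; exact hk)
    · show i ≤ (conc g (i + 1)).length
      rw [conc_length (fun i => (hg i).2)]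
      exact hle i
    · show i ≤ (conc g' (i + 1)).length
      rw [conc_length (fun i => (hg' i).2)]
      exact hle i
  set V := Vst n (icat N g) (icat N g') with hV
  have hten' : Tendsto (fun i => Vv (Xs Wd) (pos Wd (i + 1))) atTop (𝓝 V) :=
    (tendsto_add_atTop_iff_nat 1).2 hten
  have hlow : 1 - be⁻¹ ^ 2 + ph⁻¹ ^ (2 * n + 8) ≤ V :=
    ge_of_tendsto hten' (Eventually.of_forall fun i => (first_bounds h i).1)
  have hup : V ≤ 1 - be⁻¹ ^ 2 + be⁻¹ ^ (n + 5) + ph⁻¹ ^ (2 * n + 7) :=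
    le_of_tendsto hten' (Eventually.of_forall fun i => (first_bounds h i).2)
  have hD := pD_le n
  have hD0 := pD_nonneg n
  have hb3 := b2_ub
  have hp1 := p_lb
  have hp2 := p_ub
  have hb20 : 0 < be⁻¹ ^ 2 := by
    have := b_lb
    exact pow_pos (by linarith) 2
  have hD8 : ph⁻¹ ^ (2 * n + 8) = ph⁻¹ * ph⁻¹ ^ (2 * n + 7) := by ring
  have hD8' : 0 ≤ ph⁻¹ ^ (2 * n + 8) := by
    rw [hD8]
    exact mul_nonneg (by linarith) hD0.le
  have hD8'' : ph⁻¹ ^ (2 * n + 8) ≤ 0.035 := by
    rw [hD8]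
    nlinarith
  have hV0 : 0 ≤ V := by linarith
  -- the values away from the beginnings of runs
  have hoff : ∀ m, (∀ i, m ≠ pos Wd i) → |Vv (Xs Wd) m| ≤ V := by
    intro m hm
    refine le_trans ?_ hlow
    by_cases hx : Xs Wd m = true
    · obtain ⟨i, j, hj, hij | ⟨hij, hj'⟩⟩ := exists_run h.ne m
      · rcases Nat.eq_zero_or_pos j with rfl | hj0
        · exact absurd (by simpa using hij) (hm i)
        · rw [hij] at hx ⊢
          have := h.value_digit i j hj0 hj hx
          rw [abs_of_nonneg this.1]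
          linarith [this.2]
      · exfalso
        have := Xs_odd h.ne i j hj'
        rw [← hij, hx] at this
        exact absurd this (by simp)
    · exact h.value_other m (by simpa using hx)
  have hall : ∀ m, |Vv (Xs Wd) m| ≤ 11 / 10 := by
    intro m
    by_cases hm : ∃ i, m = pos Wd i
    · obtain ⟨i, rfl⟩ := hm
      exact (h.value_first i).2
    · push Not at hm
      by_cases hx : Xs Wd m = true
      · obtain ⟨i, j, hj, hij | ⟨hij, hj'⟩⟩ := exists_run h.ne m
        · rcases Nat.eq_zero_or_pos j with rfl | hj0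
          · exact absurd (by simpa using hij) (hm i)
          · rw [hij] at hx ⊢
            have := h.value_digit i j hj0 hj hx
            rw [abs_of_nonneg this.1]
            linarith [this.2]
        · exfalso
          have := Xs_odd h.ne i j hj'
          rw [← hij, hx] at this
          exact absurd this (by simp)
      · have := h.value_other m (by simpa using hx)
        linarith
  have hs5 : 0 < Real.sqrt 5 := Real.sqrt_pos.2 (by norm_num)
  have hspec := spec_of_seq (Xs Wd) hall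
  have hmono := pos_strictMono h.ne
  have hposT : Tendsto (pos Wd) atTop atTop := hmono.tendsto_atTop
  have hlim : limsup (fun m => |Vv (Xs Wd) m| / Real.sqrt 5) atTop = V / Real.sqrt 5 := by
    have hbdd : IsBoundedUnder (· ≤ ·) atTop (fun m => |Vv (Xs Wd) m| / Real.sqrt 5) :=
      ⟨(11 / 10) / Real.sqrt 5, eventually_map.2 (Eventually.of_forall fun m =>
        div_le_div_of_nonneg_right (hall m) hs5.le)⟩
    have hcob : IsCoboundedUnder (· ≤ ·) atTop (fun m => |Vv (Xs Wd) m| / Real.sqrt 5) := by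
      refine IsBoundedUnder.isCoboundedUnder_le ⟨0, eventually_map.2 (Eventually.of_forall fun m =>
        ?_)⟩
      exact div_nonneg (abs_nonneg _) hs5.le
    have habs : Tendsto (fun i => |Vv (Xs Wd) (pos Wd i)|) atTop (𝓝 V) := by
      have := hten.abs
      rwa [abs_of_nonneg hV0] at this
    apply le_antisymm
    · refine le_of_forall_pos_le_add fun ε hε => ?_
      refine limsup_le_of_le hcob ?_
      have h1 : ∀ᶠ i in atTop, |Vv (Xs Wd) (pos Wd i)| < V + ε * Real.sqrt 5 :=
        habs.eventually_lt_const (by nlinarith [mul_pos hε hs5])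
      obtain ⟨i0, hi0⟩ := eventually_atTop.1 h1
      refine eventually_atTop.2 ⟨pos Wd i0, fun m hm => ?_⟩
      rw [div_le_iff₀ hs5, add_mul, div_mul_cancel₀ _ hs5.ne']
      by_cases hp : ∃ i, m = pos Wd i
      · obtain ⟨i, rfl⟩ := hp
        exact (hi0 i (hmono.le_iff_le.1 hm)).le
      · push Not at hp
        have := hoff m hp
        linarith [mul_pos hε hs5]
    · refine le_of_forall_pos_le_add fun ε hε => ?_
      have h1 : ∀ᶠ i in atTop, V - ε * Real.sqrt 5 < |Vv (Xs Wd) (pos Wd i)| :=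
        habs.eventually_const_lt (by nlinarith [mul_pos hε hs5])
      have h2 : ∃ᶠ m in atTop, V / Real.sqrt 5 - ε ≤ |Vv (Xs Wd) m| / Real.sqrt 5 := by
        refine hposT.frequently (Eventually.frequently ?_)
        filter_upwards [h1] with i hi
        rw [le_div_iff₀ hs5, sub_mul, div_mul_cancel₀ _ hs5.ne']
        exact hi.le
      have := le_limsup_of_frequently_le h2 hbdd
      linarith
  rw [hlim] at hspec
  exact ⟨hspec, hV0, hup⟩

end Pool.Agent.Lib.GJ
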