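import Pool.Agent.Lib.GJ.SegB

/-!
# Module VstA: the limit values of the special places

`yin n uu`, `zin n vv` are the infinite right and left sides of a special digit.
PROOF of `tendsto_first`.  (a) If `y k = X (p + 2 (k + 1))` for `k < M`, `p + 2 j = pos i + 2 j'`... : iterate `Rn.tau_even` and `tb_rec` `M` times: for `p = pos i` and `y = yin n uu`, `M = (2 + |chn n| + 2 ((n+3)/2) + |u i|)` (the first `M` entries after the first digit of `Wd i` are those of
`yin n uu`), `|tau X (pos i) - tb (yin n uu)| ≤ 2 be⁻¹ ^ M` because both sides change in the same way and the absolute values are at most `1`.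
(b) Similarly for `lam X (pos (i + 1))`: by `Rn.lam_first` it is `- ph⁻¹ ^ (2 n + 7) (1 - lam X c1)`; `zin n vv = 0 ^ (n+3) 1 (rest)`, `tb (zin n vv) = be⁻¹ ^ (n + 4) (1 - tb rest)`, `ph * be⁻¹ ^ (n+4) = ph⁻¹ ^ (2 n + 7)`; and
`|lam X c1 - tb rest| ≤ 2 be⁻¹ ^ M'` by iterating `Rn.lam_even` (the digits of `Wd i` read backwards from `c1` are those of `rest`), `M' = 2 + |chn n| + |v i|`.
So `Vv X (pos (i+1)) = 1 - tau - lam → 1 - tb (yin n uu) + ph * tb (zin n vv)`, as the lengths of `u i`, `v i` tend to infinity.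
-/

open Filter Topology

namespace Pool.Agent.Lib.GJ

/-- a list followed by a sequence -/
def app (l : List Bool) (y : ℕ → Bool) (k : ℕ) : Bool :=
  if k < l.length then l.getD k false else y (k - l.length)

def yin (n : ℕ) (uu : ℕ → Bool) : ℕ → Bool :=
  app ([false, true] ++ (chn n ++ ten ((n + 3) / 2))) uu

def zin (n : ℕ) (vv : ℕ → Bool) : ℕ → Bool :=
  app (List.replicate (n + 3) false ++ ([true, false, true] ++ chn n)) vv

/-- the value of a special place with content `uu` on the right and `vv` on the left -/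
noncomputable def Vst (n : ℕ) (uu vv : ℕ → Bool) : ℝ := 1 - tb (yin n uu) + ph * tb (zin n vv)

namespace VstAAux

theorem iter (M : ℕ) : ∀ (f : ℕ → ℝ) (y : ℕ → Bool),
    (∀ j < M, f j = be⁻¹ * (if y j then 1 - f (j + 1) else f (j + 1))) → |f M| ≤ 1 →
    |f 0 - tb y| ≤ 2 * be⁻¹ ^ M := by
  induction M with
  | zero =>
      intro f y _ h1
      have h2 := tb_bound y
      rw [pow_zero]
      calc |f 0 - tb y| ≤ |f 0| + |tb y| := abs_sub _ _
        _ ≤ 2 * 1 := by linarith
  | succ M ih =>
      intro f y hf h1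
      have h2 := ih (fun j => f (j + 1)) (fun j => y (j + 1)) (fun j hj => hf (j + 1) (by omega)) h1
      have e := hf 0 (by omega)
      have b0 : 0 ≤ be⁻¹ := TLAux.bei_nn
      rw [tb_rec y, e, ← mul_sub, abs_mul, abs_of_nonneg b0, pow_succ]
      have h3 : |(if y 0 then 1 - f (0 + 1) else f (0 + 1)) -
          (if y 0 then 1 - tb (fun i => y (i + 1)) else tb (fun i => y (i + 1)))| =
          |f (0 + 1) - tb (fun i => y (i + 1))| := by
        split_ifs
        · rw [abs_sub_comm]
          congr 1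
          ring
        · rfl
      rw [h3]
      have h4 := mul_le_mul_of_nonneg_left h2 b0
      calc be⁻¹ * |f (0 + 1) - tb (fun i => y (i + 1))| ≤ be⁻¹ * (2 * be⁻¹ ^ M) := h4
        _ = 2 * (be⁻¹ ^ M * be⁻¹) := by ring

theorem app_getD (A w t : List Bool) (y : ℕ → Bool)
    (hw : ∀ k, k < w.length → w.getD k false = y k) (k : ℕ) (hk : k < A.length + w.length) :
    (A ++ (w ++ t)).getD k false = app A y k := by
  unfold app
  split_ifs with h
  · rw [List.getD_append _ _ _ _ h]
  · rw [List.getD_append_right _ _ _ _ (by omega), List.getD_append _ _ _ _ (by omega)]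
    exact hw _ (by omega)

theorem tb_zeros (m : ℕ) : ∀ y : ℕ → Bool, (∀ k < m, y k = false) → y m = true →
    tb y = be⁻¹ ^ (m + 1) * (1 - tb (fun j => y (m + 1 + j))) := by
  induction m with
  | zero =>
      intro y _ h1
      rw [tb_rec y, if_pos h1]
      have : (fun i => y (i + 1)) = (fun j => y (0 + 1 + j)) := by
        funext i
        congr 1
        ring
      rw [this]
      ring
  | succ m ih =>
      intro y h0 h1
      rw [tb_rec y, h0 0 (by omega), if_neg (by simp),
        ih (fun i => y (i + 1)) (fun k hk => h0 (k + 1) (by omega)) h1]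
      have : (fun j => y (m + 1 + j + 1)) = (fun j => y (m + 1 + 1 + j)) := by
        funext i
        congr 1
        ring
      rw [this]
      ring


theorem wd_y {n : ℕ} {u v : ℕ → List Bool} {Wd : ℕ → List Bool} (h : Rn n u v Wd)
    {uu : ℕ → Bool} (hu : ∀ i k, k < (u i).length → (u i).getD k false = uu k)
    (i k : ℕ) (hk : k < (u i).length) :
    (Wd i).getD (k + 1) false = yin n uu k := by
  rw [h.hW i]
  unfold runw ysec yin
  rw [List.getD_cons_succ]
  have e : [false, true] ++ (chn n ++ (ten ((n + 3) / 2) ++ (u i ++ [true, false]))) ++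
      (zsec n (v i)).reverse = ([false, true] ++ (chn n ++ ten ((n + 3) / 2))) ++
        (u i ++ ([true, false] ++ (zsec n (v i)).reverse)) := by
    simp [List.append_assoc]
  rw [e]
  exact app_getD _ _ _ _ (hu i) k (by omega)

theorem wd_z {n : ℕ} {u v : ℕ → List Bool} {Wd : ℕ → List Bool} (h : Rn n u v Wd)
    {vv : ℕ → Bool} (hv : ∀ i k, k < (v i).length → (v i).getD k false = vv k)
    (i k : ℕ) (hk : k ≤ (v i).length) :
    k + n + 4 < (Wd i).length ∧
    (Wd i).getD ((Wd i).length - (n + 4) - k) false = zin n vv (n + 3 + k) := by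
  have hz : zsec n (v i) = (List.replicate (n + 3) false ++ ([true, false, true] ++ chn n)) ++
      (v i ++ [true, false]) := by
    unfold zsec
    simp [List.append_assoc]
  have hl : (zsec n (v i)).length = n + 6 + (chn n).length + (v i).length + 2 := by
    rw [hz]
    simp
    omega
  have hL : (Wd i).length = 1 + (ysec n (u i)).length + (zsec n (v i)).length := by
    rw [h.hW i]
    unfold runw
    simp
    omega
  refine ⟨by omega, ?_⟩
  obtain ⟨m, hm⟩ : ∃ m, (Wd i).length - (n + 4) - k = m + 1 := ⟨(Wd i).length - (n + 4) - k - 1, by omega⟩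
  rw [hm, h.hW i]
  unfold runw
  rw [List.getD_cons_succ, List.getD_append_right _ _ _ _ (by omega), List.getD_reverse _ (by omega)]
  have e : (zsec n (v i)).length - 1 - (m - (ysec n (u i)).length) = n + 3 + k := by omega
  rw [e, hz]
  unfold zin
  refine app_getD _ _ _ _ (hv i) _ ?_
  simp
  omega

end VstAAux

open VstAAux SegAAux

theorem tendsto_first {n : ℕ} {u v : ℕ → List Bool} {Wd : ℕ → List Bool} (h : Rn n u v Wd)
    {uu vv : ℕ → Bool} (hu : ∀ i k, k < (u i).length → (u i).getD k false = uu k)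
    (hv : ∀ i k, k < (v i).length → (v i).getD k false = vv k)
    (lu : ∀ i, i ≤ (u i).length) (lv : ∀ i, i ≤ (v i).length) :
    Tendsto (fun i => Vv (Xs Wd) (pos Wd i)) atTop (𝓝 (Vst n uu vv)) := by
  have b0 : 0 ≤ be⁻¹ := TLAux.bei_nn
  have b1 : be⁻¹ < 1 := TLAux.bei_lt
  have p0 := TLAux.phi_nn
  have p1 := TLAux.phi_lt
  have hT : ∀ i, |tau (Xs Wd) (pos Wd i) - tb (yin n uu)| ≤ 2 * be⁻¹ ^ i := by
    intro i
    have hlen : (u i).length + 2 < (Wd i).length := by
      rw [h.hW i]
      unfold runw ysec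
      simp
      omega
    have := iter i (fun j => tau (Xs Wd) (pos Wd i + 2 * j)) (yin n uu) ?_ ?_
    · simpa using this
    · intro j hj
      have hlu := lu i
      show tau (Xs Wd) (pos Wd i + 2 * j) = _
      rw [h.tau_even i j (by omega), Xs_even h.ne i (j + 1) (by omega),
        wd_y h hu i j (by omega)]
    · have t0 := tau_nonneg h.gap4 (pos Wd i + 2 * i)
      have t1 := tau_le h.gap4 (pos Wd i + 2 * i) 0 (fun k hk hk' => by omega)
      rw [pow_zero] at t1
      rw [abs_of_nonneg t0]
      exact t1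
  have hS : ∀ i, |lam (Xs Wd) (pos Wd i + 2 * ((Wd i).length - (n + 4))) -
      tb (fun j => zin n vv (n + 4 + j))| ≤ 2 * be⁻¹ ^ i := by
    intro i
    have := iter i (fun j => lam (Xs Wd) (pos Wd i + 2 * ((Wd i).length - (n + 4) - j)))
      (fun j => zin n vv (n + 4 + j)) ?_ ?_
    · simpa using this
    · intro j hj
      have hlv := lv i
      obtain ⟨w1, w2⟩ := wd_z h hv i (j + 1) (by omega)
      show lam (Xs Wd) (pos Wd i + 2 * ((Wd i).length - (n + 4) - j)) = _
      have e : (Wd i).length - (n + 4) - j = (Wd i).length - (n + 4) - (j + 1) + 1 := by omega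
      rw [e, h.lam_even i _ (by omega), Xs_even h.ne i _ (by omega), w2]
      have e2 : n + 3 + (j + 1) = n + 4 + j := by ring
      rw [e2]
    · have e0 := SegBAux.eps_nn (2 * n + 7)
      have e1 := SegBAux.eps_le (2 * n + 7)
      have c1 := SegBAux.bei_ub
      obtain ⟨w1, w2⟩ := wd_z h hv i i (lv i)
      rcases Nat.eq_zero_or_pos ((Wd i).length - (n + 4) - i) with hz | hz
      · omega
      · obtain ⟨m1, m2, -⟩ := h.lam_mid i _ hz (by omega)
        rw [abs_of_nonneg m1]
        nlinarith
  have hV : ∀ i, |Vv (Xs Wd) (pos Wd (i + 1)) - Vst n uu vv| ≤ 4 * be⁻¹ ^ i := by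
    intro i
    have hx := SegBAux.x_first h (i + 1)
    have hz : tb (zin n vv) = be⁻¹ ^ (n + 4) * (1 - tb (fun j => zin n vv (n + 4 + j))) := by
      refine tb_zeros (n + 3) (zin n vv) ?_ ?_
      · intro k hk
        unfold zin app
        rw [if_pos (by simp; omega), List.getD_append _ _ _ _ (by simpa using hk),
          List.getD_eq_getElem _ _ (by simpa using hk)]
        simp
      · unfold zin app
        rw [if_pos (by simp), List.getD_append_right _ _ _ _ (by simp)]
        simp
    have hp : ph * be⁻¹ ^ (n + 4) = ph⁻¹ ^ (2 * n + 7) := by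
      have hph : ph ≠ 0 := ph_pos.ne'
      have : be⁻¹ ^ (n + 4) = ph⁻¹ ^ (2 * n + 7) * ph⁻¹ := by
        rw [← phi_sq_eq, ← pow_two, ← pow_mul, ← pow_succ]
        congr 1
      rw [this]
      field_simp
    have e1 : Vv (Xs Wd) (pos Wd (i + 1)) - Vst n uu vv =
        - (tau (Xs Wd) (pos Wd (i + 1)) - tb (yin n uu)) - ph⁻¹ ^ (2 * n + 7) *
          (lam (Xs Wd) (pos Wd i + 2 * ((Wd i).length - (n + 4))) -
            tb (fun j => zin n vv (n + 4 + j))) := by
      unfold Vv Vst
      rw [if_pos hx, h.lam_first i, hz, ← mul_assoc, hp]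
      ring
    rw [e1]
    have t1 := hT (i + 1)
    have t2 := hS i
    have q0 := SegBAux.eps_nn (2 * n + 7)
    have q1 := SegBAux.eps_le (2 * n + 7)
    have hpi : 0 ≤ be⁻¹ ^ i := pow_nonneg b0 i
    have hps : be⁻¹ ^ (i + 1) ≤ be⁻¹ ^ i := by
      rw [pow_succ]
      nlinarith
    refine (abs_sub _ _).trans ?_
    rw [abs_neg, abs_mul, abs_of_nonneg q0]
    have t3 : ph⁻¹ ^ (2 * n + 7) * |lam (Xs Wd) (pos Wd i + 2 * ((Wd i).length - (n + 4))) -
            tb (fun j => zin n vv (n + 4 + j))| ≤ 1 * (2 * be⁻¹ ^ i) :=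
      mul_le_mul q1 t2 (abs_nonneg _) zero_le_one
    linarith
  rw [← tendsto_add_atTop_iff_nat 1, tendsto_iff_norm_sub_tendsto_zero]
  have hlim : Tendsto (fun i : ℕ => 4 * be⁻¹ ^ i) atTop (𝓝 0) := by
    have := (tendsto_pow_atTop_nhds_zero_of_lt_one b0 b1).const_mul 4
    simpa using this
  exact squeeze_zero (fun i => norm_nonneg _) (fun i => by rw [Real.norm_eq_abs]; exact hV i) hlim

end Pool.Agent.Lib.GJ
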